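import Pool.Agent.Lib.MP_586990_lc_R.DefNBase

set_option autoImplicit false

/-!
# Digit calculus: addition of numbers
-/

namespace Pool.Agent.Lib.MP_586990_lc.R

namespace AFrame

variable {Ω : Type} {β : Ω → ℕ} {Def : (Ω → (ℕ → ℕ) → Prop) → Prop}

private theorem AddN_step {β t a b c A B C : ℕ} (hβ : 2 ≤ β) (ht : t < β) (ha : a < β)
    (hb : b < β) (hc : c < β) : (∃ y, y < β ∧ (t + a + b = y * β + c ∧ y + A + B = C)) ↔
      t + (a + β * A) + (b + β * B) = c + β * C := by
  constructor
  · rintro ⟨y, _, h1, h2⟩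
    rw [← h2]
    calc t + (a + β * A) + (b + β * B) = t + a + b + (β * A + β * B) := by ring
      _ = y * β + c + (β * A + β * B) := by rw [h1]
      _ = _ := by ring
  · intro h
    have h0 : 0 < β := by omega
    have h1 : (t + a + b) % β = c := by
      have h2 : (t + (a + β * A) + (b + β * B)) % β = (c + β * C) % β := by rw [h]
      have h3 : t + (a + β * A) + (b + β * B) = (t + a + b) + β * (A + B) := by ring
      rw [h3, Nat.add_mul_mod_self_left, Nat.add_mul_mod_self_left, Nat.mod_eq_of_lt hc] at h2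
      exact h2
    have h4 := Nat.div_add_mod (t + a + b) β
    rw [h1] at h4
    refine ⟨(t + a + b) / β, ?_, ?_, ?_⟩
    · rw [Nat.div_lt_iff_lt_mul h0]
      nlinarith
    · rw [mul_comm]
      exact h4.symm
    · apply Nat.eq_of_mul_eq_mul_left h0
      have h5 : β * ((t + a + b) / β + A + B) + c = (β * ((t + a + b) / β) + c) + β * (A + B) := by
        ring
      rw [h4] at h5
      have h6 : t + (a + β * A) + (b + β * B) = (t + a + b) + β * (A + B) := by ring
      omega

/-- addition with a carry -/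
private theorem AddN_carry (F : AFrame β Def) (k : ℕ) : ∀ t a b c : ℕ,
    Def fun ω v => v t + num (β ω) v a k + num (β ω) v b k = num (β ω) v c k := by
  induction k with
  | zero =>
    intro t a b c
    refine F.congr (fun ω v _ => ?_) (F.nat t 0)
    show v t = 0 ↔ v t + 0 + 0 = 0
    rw [add_zero, add_zero]
  | succ k ih =>
    intro t a b c
    refine F.congr (R := fun ω v => ∃ y, y < β ω ∧ (v t + v a + v b = y * β ω + v c ∧
      y + num (β ω) v (a + 1) k + num (β ω) v (b + 1) k = num (β ω) v (c + 1) k))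
      (fun ω v hv => ?_) (F.ex (S := fun ω v y => v t + v a + v b = y * β ω + v c ∧
      y + num (β ω) v (a + 1) k + num (β ω) v (b + 1) k = num (β ω) v (c + 1) k) ?_)
    · exact AddN_step (F.two ω) (hv t) (hv a) (hv b) (hv c)
    · refine F.and (F.add3 (t + 1) (a + 1) (b + 1) 0 (c + 1)) ?_
      simp only [num_shift]
      exact ih 0 (a + 1 + 1) (b + 1 + 1) (c + 1 + 1)

theorem addN (F : AFrame β Def) (e x y z : ℕ) :
    DefN β Def e fun _ w => w x + w y = w z := by
  unfold DefN
  refine F.congr (R := fun ω v => ∃ t, t < β ω ∧ (t = 0 ∧ t + num (β ω) v (x * e) e +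
    num (β ω) v (y * e) e = num (β ω) v (z * e) e)) (fun ω v _ => ?_)
    (F.ex (S := fun ω v t => t = 0 ∧ t + num (β ω) v (x * e) e +
      num (β ω) v (y * e) e = num (β ω) v (z * e) e) ?_)
  · constructor
    · rintro ⟨t, _, rfl, h⟩
      rw [zero_add] at h
      exact h
    · intro h
      refine ⟨0, lt_of_lt_of_le two_pos (F.two ω), rfl, ?_⟩
      rw [zero_add]
      exact h
  · refine F.and (F.nat 0 0) ?_
    simp only [num_shift]
    exact AddN_carry F e 0 (x * e + 1) (y * e + 1) (z * e + 1)

theorem leN (F : AFrame β Def) (e x y : ℕ) : DefN β Def e fun _ w => w x ≤ w y := by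
  refine F.congrN (Q := fun ω w => ∃ u, u < β ω ^ e ∧ w x + u = w y) (fun ω w hw => ?_)
    (F.exN (S := fun _ w u => w x + u = w y) (F.addN e (x + 1) 0 (y + 1)))
  constructor
  · rintro ⟨u, _, h⟩
    omega
  · intro h
    refine ⟨w y - w x, ?_, by omega⟩
    have := hw y
    omega

theorem natN (F : AFrame β Def) (e x k : ℕ) : DefN β Def e fun _ w => w x = k := by
  have h0 : ∀ x : ℕ, DefN β Def e fun _ w => w x = 0 := fun x => by
    refine F.congrN (fun ω w _ => ?_) (F.addN e x x x)
    constructor <;> intro h <;> omega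
  have h1 : ∀ x : ℕ, DefN β Def e fun _ w => w x = 1 := fun x => by
    refine F.congrN (Q := fun ω w => ¬ w x = 0 ∧ ∀ y, y < β ω ^ e → (y = 0 ∨ w x ≤ y))
      (fun ω w hw => ?_) (F.andN (F.notN (h0 x)) (F.allN (S := fun _ w y => y = 0 ∨ w x ≤ y)
        (F.orN (h0 0) (F.leN e (x + 1) 0))))
    have hx := hw x
    constructor
    · rintro ⟨h2, h3⟩
      rcases h3 1 (by omega) with h4 | h4 <;> omega
    · intro h2
      refine ⟨by omega, fun y _ => by omega⟩
  induction k generalizing x with
  | zero => exact h0 x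
  | succ k ih =>
    refine F.congrN (Q := fun ω w => ∃ u, u < β ω ^ e ∧ (u = 1 ∧ ∃ y, y < β ω ^ e ∧
      (y = k ∧ y + u = w x))) (fun ω w hw => ?_)
      (F.exN (S := fun ω w u => u = 1 ∧ ∃ y, y < β ω ^ e ∧ (y = k ∧ y + u = w x))
        (F.andN (h1 0) (F.exN (S := fun ω w y => y = k ∧ y + w 0 = w (x + 1))
          (F.andN (ih 0) (F.addN e 0 1 (x + 1 + 1))))))
    have hx := hw x
    constructor
    · rintro ⟨u, _, rfl, y, _, rfl, h⟩
      exact h.symm
    · intro h
      exact ⟨1, by omega, rfl, k, by omega, rfl, h.symm⟩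

end AFrame

end Pool.Agent.Lib.MP_586990_lc.R
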