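import Pool.Agent.Lib.MP_586990_lc_R.MulN

set_option autoImplicit false

/-!
# Digit calculus: polynomials
-/

namespace Pool.Agent.Lib.MP_586990_lc.R

private theorem PolyN_shift {Ω : Type} {β : Ω → ℕ} {Def : (Ω → (ℕ → ℕ) → Prop) → Prop}
    (F : AFrame β Def) {k : ℕ} {p : MvPolynomial (Fin k) ℕ} {e : ℕ}
    (h : ∀ z : ℕ, DefN β Def e fun _ w => MvPolynomial.eval (fun i : Fin k => w i) p = w z)
    (s y : ℕ) :
    DefN β Def e fun _ w => MvPolynomial.eval (fun i : Fin k => w (i + s)) p = w y := by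
  have h1 := F.subN (fun j => if j < k then j + s else y) (h k)
  have h2 : (fun (_ : Ω) (w : ℕ → ℕ) =>
      MvPolynomial.eval (fun i : Fin k => w (i + s)) p = w y) =
      fun (_ : Ω) (w : ℕ → ℕ) => MvPolynomial.eval
        (fun i : Fin k => w (if (i : ℕ) < k then (i : ℕ) + s else y)) p =
        w (if k < k then k + s else y) := by
    funext _ w
    rw [if_neg (lt_irrefl k)]
    have h3 : (fun i : Fin k => w (if (i : ℕ) < k then (i : ℕ) + s else y)) =
        fun i : Fin k => w (i + s) := by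
      funext i
      rw [if_pos i.2]
    rw [h3]
  rw [h2]
  exact h1

/-- The graph of a polynomial. -/
theorem Frame.polyN {Ω : Type} {β : Ω → ℕ} {Def : (Ω → (ℕ → ℕ) → Prop) → Prop}
    (F : Frame β Def) {k : ℕ} (p : MvPolynomial (Fin k) ℕ) (e z : ℕ) :
    DefN β Def e fun _ w => MvPolynomial.eval (fun i : Fin k => w i) p = w z := by
  have A := F.toAFrame
  induction p using MvPolynomial.induction_on generalizing z with
  | C a =>
    refine A.congrN (fun ω w _ => ?_) (A.natN e z a)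
    rw [MvPolynomial.eval_C]
    exact eq_comm
  | add p q hp hq =>
    refine A.congrN (Q := fun ω w => ∃ y₁, y₁ < β ω ^ e ∧ ∃ y₂, y₂ < β ω ^ e ∧
      (MvPolynomial.eval (fun i : Fin k => w i) p = y₁ ∧
      (MvPolynomial.eval (fun i : Fin k => w i) q = y₂ ∧ y₁ + y₂ = w z))) (fun ω w hw => ?_) ?_
    · rw [map_add]
      constructor
      · rintro ⟨y₁, -, y₂, -, h1, h2, h3⟩
        rw [h1, h2, h3]
      · intro h
        have hz := hw z
        exact ⟨_, by omega, _, by omega, rfl, rfl, h⟩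
    · refine A.exN (S := fun ω w y₁ => ∃ y₂, y₂ < β ω ^ e ∧
        (MvPolynomial.eval (fun i : Fin k => w i) p = y₁ ∧
        (MvPolynomial.eval (fun i : Fin k => w i) q = y₂ ∧ y₁ + y₂ = w z))) ?_
      refine A.exN (S := fun ω w y₂ =>
        (MvPolynomial.eval (fun i : Fin k => w (i + 1)) p = w 0 ∧
        (MvPolynomial.eval (fun i : Fin k => w (i + 1)) q = y₂ ∧ w 0 + y₂ = w (z + 1)))) ?_
      exact A.andN (PolyN_shift A hp 2 1) (A.andN (PolyN_shift A hq 2 0) (A.addN e 1 0 (z + 2)))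
  | mul_X p i hp =>
    refine A.congrN (Q := fun ω w => (w i = 0 ∧ w z = 0) ∨ (¬ w i = 0 ∧ ∃ y, y < β ω ^ e ∧
      (MvPolynomial.eval (fun i : Fin k => w i) p = y ∧ y * w i = w z))) (fun ω w hw => ?_) ?_
    · rw [map_mul, MvPolynomial.eval_X]
      constructor
      · rintro (⟨h1, h2⟩ | ⟨-, y, -, h1, h2⟩)
        · rw [h1, h2, mul_zero]
        · rw [h1, h2]
      · intro h
        by_cases hi : w i = 0
        · left
          rw [hi, mul_zero] at h
          exact ⟨hi, h.symm⟩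
        · right
          refine ⟨hi, _, ?_, rfl, h⟩
          refine lt_of_le_of_lt ?_ (hw z)
          rw [← h]
          exact Nat.le_mul_of_pos_right _ (Nat.pos_of_ne_zero hi)
    · refine A.orN (A.andN (A.natN e i 0) (A.natN e z 0)) (A.andN (A.notN (A.natN e i 0)) ?_)
      refine A.exN (S := fun ω w y =>
        (MvPolynomial.eval (fun i : Fin k => w i) p = y ∧ y * w i = w z)) ?_
      exact A.andN (PolyN_shift A hp 1 0) (F.mulN e 0 (i + 1) (z + 1))

/-- A bound for the values of a polynomial. -/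
theorem poly_bound {k : ℕ} (p : MvPolynomial (Fin k) ℕ) (e : ℕ) :
    ∃ e', e ≤ e' ∧ ∀ β : ℕ, 2 ≤ β → ∀ w : Fin k → ℕ, (∀ i, w i < β ^ e) →
      MvPolynomial.eval w p < β ^ e' := by
  induction p using MvPolynomial.induction_on with
  | C a =>
    refine ⟨e + a, Nat.le_add_right _ _, fun β hβ w _ => ?_⟩
    rw [MvPolynomial.eval_C]
    calc a < 2 ^ a := Nat.lt_two_pow_self
      _ ≤ β ^ a := Nat.pow_le_pow_left hβ a
      _ ≤ β ^ (e + a) := Nat.pow_le_pow_right (by omega) (Nat.le_add_left _ _)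
  | add p q hp hq =>
    obtain ⟨e₁, h₁, hp⟩ := hp
    obtain ⟨e₂, h₂, hq⟩ := hq
    refine ⟨e₁ + e₂ + 1, by omega, fun β hβ w hw => ?_⟩
    rw [map_add]
    have h3 := hp β hβ w hw
    have h4 := hq β hβ w hw
    have h5 : β ^ e₁ ≤ β ^ (e₁ + e₂) := Nat.pow_le_pow_right (by omega) (Nat.le_add_right _ _)
    have h6 : β ^ e₂ ≤ β ^ (e₁ + e₂) := Nat.pow_le_pow_right (by omega) (Nat.le_add_left _ _)
    have h7 : β ^ (e₁ + e₂) * 2 ≤ β ^ (e₁ + e₂ + 1) := by
      rw [pow_succ]
      exact Nat.mul_le_mul_left _ hβ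
    omega
  | mul_X p i hp =>
    obtain ⟨e₁, h₁, hp⟩ := hp
    refine ⟨e₁ + e, by omega, fun β hβ w hw => ?_⟩
    rw [map_mul, MvPolynomial.eval_X, pow_add]
    exact Nat.mul_lt_mul'' (hp β hβ w hw) (hw i)

end Pool.Agent.Lib.MP_586990_lc.R
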