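import Pool.Agent.Lib.MP_586990_lc.Defs
import Pool.Agent.Lib.MP_586990_lc_R.PolyN

set_option autoImplicit false

/-!
# Digit calculus: rudimentary relations
-/

namespace Pool.Agent.Lib.MP_586990_lc.R

/-- The graph of a polynomial, variables shifted by `a`. -/
private theorem BdN_poly {Ω : Type} {β : Ω → ℕ} {Def : (Ω → (ℕ → ℕ) → Prop) → Prop}
    (F : Frame β Def) {k : ℕ} (p : MvPolynomial (Fin k) ℕ) (e a z : ℕ) :
    DefN β Def e fun _ w => MvPolynomial.eval (fun i : Fin k => w (i + a)) p = w z := by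
  have h := F.toAFrame.subN (fun i => if i < k then i + a else z) (F.polyN p e k)
  refine F.toAFrame.congrN ?_ h
  intro ω w _
  have h1 : (fun i : Fin k => w (if (i : ℕ) < k then (i : ℕ) + a else z)) =
      fun i : Fin k => w (i + a) := by
    funext i
    rw [if_pos i.2]
  show MvPolynomial.eval (fun i : Fin k => w (if (i : ℕ) < k then (i : ℕ) + a else z)) p =
    w (if k < k then k + a else z) ↔ _
  rw [h1, if_neg (lt_irrefl k)]

/-- The relations defined by bounded formulas are definable. -/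
theorem Frame.bd {Ω : Type} {β : Ω → ℕ} {Def : (Ω → (ℕ → ℕ) → Prop) → Prop}
    (F : Frame β Def) {k : ℕ} {P : Set (Fin k → ℕ)} (h : Bd k P) (e : ℕ) :
    DefN β Def e fun _ w => (fun i : Fin k => w i) ∈ P := by
  have A := F.toAFrame
  induction h generalizing e with
  | le k p q =>
    obtain ⟨e1, he1, hp⟩ := poly_bound p e
    obtain ⟨e2, he2, hq⟩ := poly_bound q e
    have hpos : ∀ ω, 0 < β ω := fun ω => lt_of_lt_of_le (by norm_num) (A.two ω)
    have key : DefN β Def (max e1 e2) fun ω w => ∃ y, y < β ω ^ (max e1 e2) ∧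
        ∃ u, u < β ω ^ (max e1 e2) ∧
          (MvPolynomial.eval (fun i : Fin k => w i) p = y ∧
          (MvPolynomial.eval (fun i : Fin k => w i) q = u ∧ y ≤ u)) := by
      refine A.exN (S := fun ω w y => ∃ u, u < β ω ^ (max e1 e2) ∧
          (MvPolynomial.eval (fun i : Fin k => w i) p = y ∧
          (MvPolynomial.eval (fun i : Fin k => w i) q = u ∧ y ≤ u))) ?_
      refine A.exN (S := fun ω w u =>
          (MvPolynomial.eval (fun i : Fin k => w (i + 1)) p = w 0 ∧
          (MvPolynomial.eval (fun i : Fin k => w (i + 1)) q = u ∧ w 0 ≤ u))) ?_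
      exact A.andN (BdN_poly F p _ 2 1) (A.andN (BdN_poly F q _ 2 0) (A.leN _ 1 0))
    refine A.congrN ?_ (A.restrict (le_trans he1 (le_max_left e1 e2)) key)
    intro ω w hw
    have h1 : MvPolynomial.eval (fun i : Fin k => w i) p < β ω ^ (max e1 e2) :=
      lt_of_lt_of_le (hp (β ω) (A.two ω) _ fun i => hw i)
        (Nat.pow_le_pow_right (hpos ω) (le_max_left _ _))
    have h2 : MvPolynomial.eval (fun i : Fin k => w i) q < β ω ^ (max e1 e2) :=
      lt_of_lt_of_le (hq (β ω) (A.two ω) _ fun i => hw i)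
        (Nat.pow_le_pow_right (hpos ω) (le_max_right _ _))
    constructor
    · rintro ⟨y, _, u, _, rfl, rfl, h⟩
      exact h
    · intro h
      exact ⟨_, h1, _, h2, rfl, rfl, h⟩
  | compl k P _ ih => exact A.notN (ih e)
  | inter k P Q _ _ ih1 ih2 => exact A.andN (ih1 e) (ih2 e)
  | ex k p P _ ih =>
    obtain ⟨e1, he1, hp⟩ := poly_bound p e
    have key : DefN β Def e1 fun ω w => ∃ y, y < β ω ^ e1 ∧
        ((∃ u, u < β ω ^ e1 ∧ (MvPolynomial.eval (fun i : Fin k => w i) p = u ∧ y ≤ u)) ∧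
          (Fin.cons y (fun i : Fin k => w i) : Fin (k + 1) → ℕ) ∈ P) := by
      refine A.exN (S := fun ω w y =>
        ((∃ u, u < β ω ^ e1 ∧ (MvPolynomial.eval (fun i : Fin k => w i) p = u ∧ y ≤ u)) ∧
          (Fin.cons y (fun i : Fin k => w i) : Fin (k + 1) → ℕ) ∈ P)) ?_
      refine A.andN ?_ ?_
      · refine A.exN (S := fun ω w u =>
          (MvPolynomial.eval (fun i : Fin k => w (i + 1)) p = u ∧ w 0 ≤ u)) ?_
        exact A.andN (BdN_poly F p _ 2 0) (A.leN _ 1 0)
      · have h1 := ih e1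
        have h2 : (fun (_ : Ω) (w : ℕ → ℕ) => (fun i : Fin (k + 1) => w i) ∈ P) =
            fun (_ : Ω) (w : ℕ → ℕ) =>
              (Fin.cons (w 0) (fun i : Fin k => w (i + 1)) : Fin (k + 1) → ℕ) ∈ P := by
          funext ω w
          congr 1
          funext i
          refine Fin.cases ?_ (fun j => ?_) i
          · rfl
          · rfl
        rw [h2] at h1
        exact h1
    refine A.congrN ?_ (A.restrict he1 key)
    intro ω w hw
    have h1 : MvPolynomial.eval (fun i : Fin k => w i) p < β ω ^ e1 :=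
      hp (β ω) (A.two ω) _ fun i => hw i
    constructor
    · rintro ⟨y, _, ⟨u, _, rfl, h⟩, hP⟩
      exact ⟨y, h, hP⟩
    · rintro ⟨y, h, hP⟩
      exact ⟨y, lt_of_le_of_lt h h1, ⟨_, h1, rfl, h⟩, hP⟩

end Pool.Agent.Lib.MP_586990_lc.R
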