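import Pool.Agent.Lib.MP_586990_lc_R.CntBase

set_option autoImplicit false

/-!
# The number of lower sets
-/

namespace Pool.Agent.Lib.MP_586990_lc.R

/-- the codes of the lower sets -/
private abbrev cntCode (ω : Wd) : Type :=
  {p : Finset ℕ × Finset ℕ // p ∈ basePairs ω.s ω.t} ⊕
    (Σ j : {j : ℕ // j ∈ ω.J}, {B : Finset ℕ // B ∈ (Finset.range (j : ℕ)).powerset})

/-- the membership in the lower set of a code -/
private def cntMem (ω : Wd) : cntCode ω → PT ω → Prop
  | Sum.inl p, Sum.inl r => (r : ℕ) ∈ p.1.1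
  | Sum.inl p, Sum.inr (Sum.inl k) => (k : ℕ) ∈ p.1.2
  | Sum.inl _, Sum.inr (Sum.inr _) => False
  | Sum.inr _, Sum.inl _ => True
  | Sum.inr c, Sum.inr (Sum.inl k) => (c.1 : ℕ) ≤ k ∨ (k : ℕ) ∈ c.2.1
  | Sum.inr c, Sum.inr (Sum.inr j) => (c.1 : ℕ) ≤ j

private theorem cnt_base {s t : ℕ} {p : Finset ℕ × Finset ℕ} : p ∈ basePairs s t ↔
    p.1 ⊆ Finset.range (2 * s) ∧ p.2 ⊆ Finset.range (s * s + t) ∧
      ∀ k ∈ p.2, ∀ r, r < 2 * s → r ∈ p.1 ∨ Miss s r k := by
  classical
  unfold basePairs
  rw [Finset.mem_filter, Finset.mem_product, Finset.mem_powerset, Finset.mem_powerset, and_assoc]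

private theorem cntMem_lower {ω : Wd} (c : cntCode ω) {x y : PT ω} (h : y ≤ x)
    (hx : cntMem ω c x) : cntMem ω c y := by
  rcases h with rfl | h
  · exact hx
  · rcases c with p | c
    · rcases x with r | k | i <;> rcases y with r' | k' | i'
      · exact h.elim
      · exact h.elim
      · exact h.elim
      · have h1 := (cnt_base.1 p.2).2.2 k hx r' r'.2
        exact h1.resolve_right h
      · exact h.elim
      · exact h.elim
      · exact hx.elim
      · exact hx.elim
      · exact hx.elim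
    · rcases x with r | k | i <;> rcases y with r' | k' | i'
      · exact h.elim
      · exact h.elim
      · exact h.elim
      · exact trivial
      · exact h.elim
      · exact h.elim
      · exact trivial
      · have h1 : (i : ℕ) ≤ k' := h
        have h2 : (c.1 : ℕ) ≤ i := hx
        exact Or.inl (h2.trans h1)
      · have h1 : (i : ℕ) < i' := h
        have h2 : (c.1 : ℕ) ≤ i := hx
        exact h2.trans h1.le

/-- the lower set of a code -/
private def cntSet (ω : Wd) (c : cntCode ω) : LowerSet (PT ω) :=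
  ⟨{x | cntMem ω c x}, fun _ _ h hx => cntMem_lower c h hx⟩

private theorem mem_cntSet {ω : Wd} {c : cntCode ω} {x : PT ω} :
    x ∈ cntSet ω c ↔ cntMem ω c x := Iff.rfl

private theorem cntSet_inj (ω : Wd) : Function.Injective (cntSet ω) := by
  intro c c' h
  have hm : ∀ x, cntMem ω c x ↔ cntMem ω c' x := by
    intro x
    rw [← mem_cntSet, ← mem_cntSet, h]
  rcases c with p | c <;> rcases c' with p' | c'
  · congr 1
    have h1 := cnt_base.1 p.2
    have h2 := cnt_base.1 p'.2
    refine Subtype.ext (Prod.ext ?_ ?_)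
    · ext r
      constructor
      · intro hr
        exact (hm (Sum.inl ⟨r, Finset.mem_range.1 (h1.1 hr)⟩)).1 hr
      · intro hr
        exact (hm (Sum.inl ⟨r, Finset.mem_range.1 (h2.1 hr)⟩)).2 hr
    · ext r
      constructor
      · intro hr
        exact (hm (Sum.inr (Sum.inl ⟨r, Finset.mem_range.1 (h1.2.1 hr)⟩))).1 hr
      · intro hr
        exact (hm (Sum.inr (Sum.inl ⟨r, Finset.mem_range.1 (h2.2.1 hr)⟩))).2 hr
  · exact ((hm (Sum.inr (Sum.inr c'.1))).2 (le_refl (c'.1 : ℕ))).elim
  · exact ((hm (Sum.inr (Sum.inr c.1))).1 (le_refl (c.1 : ℕ))).elim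
  · obtain ⟨j, B, hB⟩ := c
    obtain ⟨j', B', hB'⟩ := c'
    have h1 : (j' : ℕ) ≤ j := (hm (Sum.inr (Sum.inr j))).1 (le_refl (j : ℕ))
    have h2 : (j : ℕ) ≤ j' := (hm (Sum.inr (Sum.inr j'))).2 (le_refl (j' : ℕ))
    have h3 : j = j' := Subtype.ext (le_antisymm h2 h1)
    subst h3
    have h4 : B = B' := by
      rw [Finset.mem_powerset] at hB hB'
      have hjN := ω.hJ j j.2
      ext k
      constructor
      · intro hk
        have hkj := Finset.mem_range.1 (hB hk)
        have h5 : cntMem ω (Sum.inr ⟨j, B, Finset.mem_powerset.2 hB⟩)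
            (Sum.inr (Sum.inl ⟨k, by omega⟩)) := Or.inr hk
        rcases (hm _).1 h5 with h6 | h6
        · have h7 : (j : ℕ) ≤ k := h6
          omega
        · exact h6
      · intro hk
        have hkj := Finset.mem_range.1 (hB' hk)
        have h5 : cntMem ω (Sum.inr ⟨j, B', Finset.mem_powerset.2 hB'⟩)
            (Sum.inr (Sum.inl ⟨k, by omega⟩)) := Or.inr hk
        rcases (hm _).2 h5 with h6 | h6
        · have h7 : (j : ℕ) ≤ k := h6
          omega
        · exact h6
    subst h4
    rfl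

private theorem cntSet_surj (ω : Wd) : Function.Surjective (cntSet ω) := by
  classical
  intro I
  have hlow : ∀ {x y : PT ω}, ptLt ω y x → x ∈ I → y ∈ I := fun h hx => I.lower (Or.inr h) hx
  by_cases hup : ∃ j : {j : ℕ // j ∈ ω.J}, (Sum.inr (Sum.inr j) : PT ω) ∈ I
  · obtain ⟨j₀, hj₀⟩ := hup
    set J' : Finset ℕ := ω.J.filter fun j => ∃ h : j ∈ ω.J, (Sum.inr (Sum.inr ⟨j, h⟩) : PT ω) ∈ I
      with hJ'
    have hne : J'.Nonempty := ⟨j₀, Finset.mem_filter.2 ⟨j₀.2, j₀.2, hj₀⟩⟩
    obtain ⟨hj1, hj2, hjI⟩ := Finset.mem_filter.1 (Finset.min'_mem J' hne)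
    have hmin := Finset.min'_le J'
    set j : ℕ := J'.min' hne with hj
    have hjN := ω.hJ j hj1
    set B : Finset ℕ := (Finset.range j).filter fun k => ∃ h : k < ω.s * ω.s + ω.t,
      (Sum.inr (Sum.inl ⟨k, h⟩) : PT ω) ∈ I with hB
    refine ⟨Sum.inr ⟨⟨j, hj1⟩, B, Finset.mem_powerset.2 (Finset.filter_subset _ _)⟩, ?_⟩
    refine LowerSet.ext (Set.ext fun x => ?_)
    rcases x with r | k | i
    · constructor
      · intro _
        exact hlow (x := Sum.inr (Sum.inr ⟨j, hj1⟩)) trivial hjI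
      · intro _
        exact trivial
    · constructor
      · rintro (h | h)
        · exact hlow (x := Sum.inr (Sum.inr ⟨j, hj1⟩)) h hjI
        · obtain ⟨_, h2, h3⟩ := Finset.mem_filter.1 h
          exact h3
      · intro h
        rcases le_or_gt j k with h1 | h1
        · exact Or.inl h1
        · exact Or.inr (Finset.mem_filter.2 ⟨Finset.mem_range.2 h1, k.2, h⟩)
    · constructor
      · intro h
        have h1 : j ≤ i := h
        rcases h1.eq_or_lt with h2 | h2
        · have h3 : i = ⟨j, hj1⟩ := Subtype.ext h2.symm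
          rw [h3]
          exact hjI
        · exact hlow (x := Sum.inr (Sum.inr ⟨j, hj1⟩)) h2 hjI
      · intro h
        exact hmin (i : ℕ) (Finset.mem_filter.2 ⟨i.2, i.2, h⟩)
  · push Not at hup
    set A : Finset ℕ := (Finset.range (2 * ω.s)).filter fun r => ∃ h : r < 2 * ω.s,
      (Sum.inl ⟨r, h⟩ : PT ω) ∈ I with hA
    set B : Finset ℕ := (Finset.range (ω.s * ω.s + ω.t)).filter fun k =>
      ∃ h : k < ω.s * ω.s + ω.t, (Sum.inr (Sum.inl ⟨k, h⟩) : PT ω) ∈ I with hB
    have hAB : (A, B) ∈ basePairs ω.s ω.t := by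
      rw [cnt_base]
      refine ⟨Finset.filter_subset _ _, Finset.filter_subset _ _, fun k hk r hr => ?_⟩
      obtain ⟨_, h2, h3⟩ := Finset.mem_filter.1 hk
      by_cases hM : Miss ω.s r k
      · exact Or.inr hM
      · left
        refine Finset.mem_filter.2 ⟨Finset.mem_range.2 hr, hr, ?_⟩
        exact hlow (x := Sum.inr (Sum.inl ⟨k, h2⟩)) hM h3
    refine ⟨Sum.inl ⟨(A, B), hAB⟩, ?_⟩
    refine LowerSet.ext (Set.ext fun x => ?_)
    rcases x with r | k | i
    · constructor
      · intro h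
        have h0 : (r : ℕ) ∈ A := h
        obtain ⟨_, h2, h3⟩ := Finset.mem_filter.1 h0
        exact h3
      · intro h
        have h0 : (r : ℕ) ∈ A := Finset.mem_filter.2 ⟨Finset.mem_range.2 r.2, r.2, h⟩
        exact h0
    · constructor
      · intro h
        have h0 : (k : ℕ) ∈ B := h
        obtain ⟨_, h2, h3⟩ := Finset.mem_filter.1 h0
        exact h3
      · intro h
        have h0 : (k : ℕ) ∈ B := Finset.mem_filter.2 ⟨Finset.mem_range.2 k.2, k.2, h⟩
        exact h0
    · constructor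
      · intro h
        exact h.elim
      · intro h
        exact absurd h (hup i)

theorem card_lowerSet (ω : Wd) : Nat.card (LowerSet (PT ω)) = size ω.s ω.t ω.J := by
  classical
  rw [← Nat.card_eq_of_bijective (cntSet ω) ⟨cntSet_inj ω, cntSet_surj ω⟩]
  have hs := ω.hs
  rw [Nat.card_sum, Nat.card_sigma, Nat.card_eq_fintype_card, Fintype.card_coe,
    card_basePairs (by omega) ω.ht]
  unfold size
  congr 1
  have h1 : ∀ j : {j : ℕ // j ∈ ω.J},
      Nat.card {B : Finset ℕ // B ∈ (Finset.range (j : ℕ)).powerset} = 2 ^ (j : ℕ) := by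
    intro j
    rw [Nat.card_eq_fintype_card, Fintype.card_coe, Finset.card_powerset, Finset.card_range]
  rw [Finset.sum_congr rfl fun j _ => h1 j]
  exact Finset.sum_coe_sort ω.J (fun j => 2 ^ j)

end Pool.Agent.Lib.MP_586990_lc.R
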