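import Pool.Agent.Lib.MP_586990_lc_R.LatDef

set_option autoImplicit false

/-!
# The number of lower sets without upper elements
-/

namespace Pool.Agent.Lib.MP_586990_lc.R

open Classical in
/-- The pairs of sets of lower elements and units which are lower sets. -/
noncomputable def basePairs (s t : ℕ) : Finset (Finset ℕ × Finset ℕ) :=
  ((Finset.range (2 * s)).powerset ×ˢ (Finset.range (s * s + t)).powerset).filter fun p =>
    ∀ k ∈ p.2, ∀ r, r < 2 * s → r ∈ p.1 ∨ Miss s r k

open Classical in
/-- the units which miss all elements of `C` -/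
private noncomputable def CntBase_U (s t : ℕ) (C : Finset ℕ) : Finset ℕ :=
  (Finset.range (s * s + t)).filter fun k => ∀ r ∈ C, Miss s r k

private theorem CntBase_mem {s t k : ℕ} {C : Finset ℕ} : k ∈ CntBase_U s t C ↔
    k < s * s + t ∧ ∀ r ∈ C, Miss s r k := by
  classical
  unfold CntBase_U
  rw [Finset.mem_filter, Finset.mem_range]

private theorem CntBase_sum (s t : ℕ) : (basePairs s t).card =
    ∑ C ∈ (Finset.range (2 * s)).powerset, 2 ^ (CntBase_U s t C).card := by
  classical
  have h1 : (basePairs s t).card = ∑ A ∈ (Finset.range (2 * s)).powerset,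
      ((Finset.range (s * s + t)).powerset.filter fun B =>
        ∀ k ∈ B, ∀ r, r < 2 * s → r ∈ A ∨ Miss s r k).card := by
    unfold basePairs
    rw [Finset.card_filter, Finset.sum_product]
    refine Finset.sum_congr rfl fun A _ => ?_
    rw [Finset.card_filter]
  rw [h1]
  have h2 : ∀ A ∈ (Finset.range (2 * s)).powerset,
      ((Finset.range (s * s + t)).powerset.filter fun B =>
        ∀ k ∈ B, ∀ r, r < 2 * s → r ∈ A ∨ Miss s r k).card =
      2 ^ (CntBase_U s t (Finset.range (2 * s) \ A)).card := by
    intro A _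
    rw [← Finset.card_powerset]
    congr 1
    ext B
    rw [Finset.mem_filter, Finset.mem_powerset, Finset.mem_powerset]
    constructor
    · rintro ⟨h3, h4⟩ k hk
      rw [CntBase_mem]
      refine ⟨Finset.mem_range.1 (h3 hk), fun r hr => ?_⟩
      rw [Finset.mem_sdiff, Finset.mem_range] at hr
      exact (h4 k hk r hr.1).resolve_left hr.2
    · intro h3
      refine ⟨fun k hk => Finset.mem_range.2 (CntBase_mem.1 (h3 hk)).1, fun k hk r hr => ?_⟩
      by_cases h4 : r ∈ A
      · exact Or.inl h4
      · exact Or.inr ((CntBase_mem.1 (h3 hk)).2 r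
          (Finset.mem_sdiff.2 ⟨Finset.mem_range.2 hr, h4⟩))
  rw [Finset.sum_congr rfl h2]
  refine Finset.sum_nbij' (fun A => Finset.range (2 * s) \ A)
    (fun A => Finset.range (2 * s) \ A) ?_ ?_ ?_ ?_ ?_
  · intro A _
    exact Finset.mem_powerset.2 Finset.sdiff_subset
  · intro A _
    exact Finset.mem_powerset.2 Finset.sdiff_subset
  · intro A hA
    exact Finset.sdiff_sdiff_eq_self (Finset.mem_powerset.1 hA)
  · intro A hA
    exact Finset.sdiff_sdiff_eq_self (Finset.mem_powerset.1 hA)
  · intro A _
    rfl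

private theorem CntBase_row {s a k : ℕ} (ha : a < s) :
    Miss s a k ↔ (k < s * s ∧ a = k / s) ∨ k = s * s + (s + a) := by
  unfold Miss
  constructor
  · rintro (⟨h1, h2 | h2⟩ | ⟨h1, h2, h3⟩ | ⟨h1, h2⟩)
    · exact Or.inl ⟨h1, h2⟩
    · omega
    · omega
    · exact Or.inr (by omega)
  · rintro (⟨h1, h2⟩ | h1)
    · exact Or.inl ⟨h1, Or.inl h2⟩
    · exact Or.inr (Or.inr ⟨by omega, by omega⟩)

private theorem CntBase_col {s t b k : ℕ} (ht : t ≤ 2 * s) (hb : b < s)
    (hk : k < s * s + t) :
    Miss s (s + b) k ↔ (k < s * s ∧ b = k % s) ∨ k = s * s + b := by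
  unfold Miss
  constructor
  · rintro (⟨h1, h2 | h2⟩ | ⟨h1, h2, h3⟩ | ⟨h1, h2⟩)
    · have h3 : k / s < s := Nat.div_lt_of_lt_mul h1
      omega
    · exact Or.inl ⟨h1, by omega⟩
    · exact Or.inr (by omega)
    · omega
  · rintro (⟨h1, h2⟩ | h1)
    · exact Or.inl ⟨h1, Or.inr (by omega)⟩
    · exact Or.inr (Or.inl ⟨by omega, by omega, by omega⟩)

private theorem CntBase_lt {s a b : ℕ} (ha : a < s) (hb : b < s) : a * s + b < s * s := by
  have h1 : (a + 1) * s ≤ s * s := Nat.mul_le_mul_right s ha
  have h2 : (a + 1) * s = a * s + s := by ring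
  omega

private theorem CntBase_div {s a b : ℕ} (hb : b < s) : (a * s + b) / s = a := by
  rw [add_comm, Nat.add_mul_div_right _ _ (by omega), Nat.div_eq_of_lt hb, zero_add]

private theorem CntBase_mod {s a b : ℕ} (hb : b < s) : (a * s + b) % s = b := by
  rw [add_comm, Nat.add_mul_mod_self_right, Nat.mod_eq_of_lt hb]

private theorem CntBase_cell {s k : ℕ} : k / s * s + k % s = k := by
  rw [mul_comm]
  exact Nat.div_add_mod k s

private theorem CntBase_card_row {s t a : ℕ} (ha : a < s) :
    (CntBase_U s t {a}).card = s + if s + a < t then 1 else 0 := by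
  classical
  have hU : CntBase_U s t {a} = (Finset.range s).image (fun b => a * s + b) ∪
      (if s + a < t then {s * s + (s + a)} else ∅) := by
    ext k
    rw [CntBase_mem, Finset.mem_union, Finset.mem_image]
    constructor
    · rintro ⟨h1, h2⟩
      rcases (CntBase_row ha).1 (h2 a (Finset.mem_singleton_self a)) with ⟨h3, h4⟩ | h3
      · left
        refine ⟨k % s, Finset.mem_range.2 (Nat.mod_lt k (by omega)), ?_⟩
        rw [h4]
        exact CntBase_cell
      · right
        rw [if_pos (by omega)]
        exact Finset.mem_singleton.2 h3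
    · rintro (⟨b, hb, rfl⟩ | h)
      · have hb' := Finset.mem_range.1 hb
        have h1 := CntBase_lt ha hb'
        refine ⟨by omega, fun r hr => ?_⟩
        rw [Finset.mem_singleton.1 hr]
        exact (CntBase_row ha).2 (Or.inl ⟨h1, (CntBase_div hb').symm⟩)
      · split_ifs at h with h1
        · have h2 := Finset.mem_singleton.1 h
          refine ⟨by omega, fun r hr => ?_⟩
          rw [Finset.mem_singleton.1 hr]
          exact (CntBase_row ha).2 (Or.inr h2)
        · exact absurd h (Finset.notMem_empty k)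
  have hd : Disjoint ((Finset.range s).image (fun b => a * s + b))
      (if s + a < t then {s * s + (s + a)} else ∅ : Finset ℕ) := by
    rw [Finset.disjoint_left]
    intro k hk hk'
    obtain ⟨b, hb, rfl⟩ := Finset.mem_image.1 hk
    have h1 := CntBase_lt ha (Finset.mem_range.1 hb)
    split_ifs at hk' with h2
    · have := Finset.mem_singleton.1 hk'
      omega
    · exact absurd hk' (Finset.notMem_empty _)
  rw [hU, Finset.card_union_of_disjoint hd, Finset.card_image_of_injective _
    (fun x y h => by simpa using h), Finset.card_range]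
  split_ifs <;> simp

private theorem CntBase_card_col {s t b : ℕ} (ht : t ≤ 2 * s) (hb : b < s) :
    (CntBase_U s t {s + b}).card = s + if b < t then 1 else 0 := by
  classical
  have hU : CntBase_U s t {s + b} = (Finset.range s).image (fun a => a * s + b) ∪
      (if b < t then {s * s + b} else ∅) := by
    ext k
    rw [CntBase_mem, Finset.mem_union, Finset.mem_image]
    constructor
    · rintro ⟨h1, h2⟩
      rcases (CntBase_col ht hb h1).1 (h2 _ (Finset.mem_singleton_self _)) with ⟨h3, h4⟩ | h3
      · left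
        refine ⟨k / s, Finset.mem_range.2 (Nat.div_lt_of_lt_mul h3), ?_⟩
        rw [h4]
        exact CntBase_cell
      · right
        rw [if_pos (by omega)]
        exact Finset.mem_singleton.2 h3
    · rintro (⟨a, ha, rfl⟩ | h)
      · have ha' := Finset.mem_range.1 ha
        have h1 := CntBase_lt ha' hb
        have h2 : a * s + b < s * s + t := by omega
        refine ⟨h2, fun r hr => ?_⟩
        rw [Finset.mem_singleton.1 hr]
        exact (CntBase_col ht hb h2).2 (Or.inl ⟨h1, (CntBase_mod hb).symm⟩)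
      · split_ifs at h with h1
        · have h2 := Finset.mem_singleton.1 h
          have h3 : k < s * s + t := by omega
          refine ⟨h3, fun r hr => ?_⟩
          rw [Finset.mem_singleton.1 hr]
          exact (CntBase_col ht hb h3).2 (Or.inr h2)
        · exact absurd h (Finset.notMem_empty k)
  have hd : Disjoint ((Finset.range s).image (fun a => a * s + b))
      (if b < t then {s * s + b} else ∅ : Finset ℕ) := by
    rw [Finset.disjoint_left]
    intro k hk hk'
    obtain ⟨a, ha, rfl⟩ := Finset.mem_image.1 hk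
    have h1 := CntBase_lt (Finset.mem_range.1 ha) hb
    split_ifs at hk' with h2
    · have := Finset.mem_singleton.1 hk'
      omega
    · exact absurd hk' (Finset.notMem_empty _)
  have hs : 0 < s := by omega
  rw [hU, Finset.card_union_of_disjoint hd, Finset.card_image_of_injective _
    (fun x y h => by
      have h1 : x * s + b = y * s + b := h
      exact Nat.eq_of_mul_eq_mul_right hs (by omega)), Finset.card_range]
  split_ifs <;> simp

private theorem CntBase_card_two {s t a b : ℕ} (ht : t ≤ 2 * s) (ha : a < s) (hb : b < s) :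
    (CntBase_U s t {a, s + b}).card = 1 := by
  classical
  have hU : CntBase_U s t {a, s + b} = {a * s + b} := by
    ext k
    rw [CntBase_mem, Finset.mem_singleton]
    constructor
    · rintro ⟨h1, h2⟩
      have h3 := (CntBase_row ha).1 (h2 a (by simp))
      have h4 := (CntBase_col ht hb h1).1 (h2 (s + b) (by simp))
      rcases h3 with ⟨h3, h5⟩ | h3
      · rcases h4 with ⟨h4, h6⟩ | h4
        · rw [h5, h6]
          exact CntBase_cell.symm
        · omega
      · rcases h4 with ⟨h4, h6⟩ | h4
        · omega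
        · omega
    · rintro rfl
      have h1 := CntBase_lt ha hb
      have h2 : a * s + b < s * s + t := by omega
      refine ⟨h2, fun r hr => ?_⟩
      rw [Finset.mem_insert, Finset.mem_singleton] at hr
      rcases hr with rfl | rfl
      · exact (CntBase_row ha).2 (Or.inl ⟨h1, (CntBase_div hb).symm⟩)
      · exact (CntBase_col ht hb h2).2 (Or.inl ⟨h1, (CntBase_mod hb).symm⟩)
  rw [hU, Finset.card_singleton]

/-- the sets of lower elements which are missed by some unit -/
private theorem CntBase_T {s t k : ℕ} {C : Finset ℕ} (hs : 0 < s) (hk : k ∈ CntBase_U s t C) :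
    C = ∅ ∨ (∃ r, C = {r}) ∨ ∃ a b, a < s ∧ b < s ∧ C = {a, s + b} := by
  classical
  obtain ⟨h1, h2⟩ := CntBase_mem.1 hk
  by_cases h0 : C = ∅
  · exact Or.inl h0
  by_cases h3 : ∃ r, C = {r}
  · exact Or.inr (Or.inl h3)
  right; right
  by_cases hk1 : k < s * s
  · have hsub : C ⊆ {k / s, s + k % s} := by
      intro r hr
      rcases h2 r hr with ⟨h4, h5⟩ | ⟨h4, h5⟩ | ⟨h4, h5⟩
      · simpa using h5
      · omega
      · omega
    refine ⟨k / s, k % s, Nat.div_lt_of_lt_mul hk1, Nat.mod_lt k hs, ?_⟩
    refine Finset.eq_of_subset_of_card_le hsub ?_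
    refine (Finset.card_le_two).trans ?_
    by_contra h4
    have h5 : C.card = 0 ∨ C.card = 1 := by omega
    rcases h5 with h5 | h5
    · exact h0 (Finset.card_eq_zero.1 h5)
    · exact h3 (Finset.card_eq_one.1 h5)
  · exfalso
    obtain ⟨r, hr⟩ := Finset.nonempty_iff_ne_empty.2 h0
    refine h3 ⟨r, Finset.eq_singleton_iff_unique_mem.2 ⟨hr, fun x hx => ?_⟩⟩
    have e1 := h2 r hr
    have e2 := h2 x hx
    unfold Miss at e1 e2
    omega

private theorem CntBase_phi {s t : ℕ} (ht : t ≤ 2 * s) :
    (∑ a ∈ Finset.range s, if s + a < t then 1 else 0) +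
      (∑ b ∈ Finset.range s, if b < t then 1 else 0) = t := by
  have h1 : ∑ j ∈ Finset.range (s + s), (if j < t then 1 else 0) = t := by
    rw [← Finset.card_filter]
    have h2 : (Finset.range (s + s)).filter (fun j => j < t) = Finset.range t := by
      ext j
      rw [Finset.mem_filter, Finset.mem_range, Finset.mem_range]
      omega
    rw [h2, Finset.card_range]
  rw [Finset.sum_range_add] at h1
  omega

private theorem CntBase_one {s t : ℕ} (ht : t ≤ 2 * s) :
    ∑ r ∈ Finset.range (2 * s), 2 ^ (CntBase_U s t {r}).card = (2 * s + t) * 2 ^ s := by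
  have h0 : 2 * s = s + s := two_mul s
  rw [h0, Finset.sum_range_add]
  have h1 : ∀ c : Prop, ∀ _ : Decidable c, 2 ^ (s + if c then 1 else 0) =
      2 ^ s + 2 ^ s * (if c then 1 else 0) := by
    intro c _
    split_ifs
    · rw [pow_succ]
      ring
    · simp
  have h2 : ∑ a ∈ Finset.range s, 2 ^ (CntBase_U s t {a}).card =
      ∑ a ∈ Finset.range s, (2 ^ s + 2 ^ s * (if s + a < t then 1 else 0)) := by
    refine Finset.sum_congr rfl fun a ha => ?_
    rw [CntBase_card_row (Finset.mem_range.1 ha), h1]
  have h3 : ∑ b ∈ Finset.range s, 2 ^ (CntBase_U s t {s + b}).card =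
      ∑ b ∈ Finset.range s, (2 ^ s + 2 ^ s * (if b < t then 1 else 0)) := by
    refine Finset.sum_congr rfl fun b hb => ?_
    rw [CntBase_card_col ht (Finset.mem_range.1 hb), h1]
  rw [h2, h3, Finset.sum_add_distrib, Finset.sum_add_distrib, ← Finset.mul_sum,
    ← Finset.mul_sum, Finset.sum_const, Finset.card_range, smul_eq_mul]
  have h4 := CntBase_phi ht
  calc s * 2 ^ s + 2 ^ s * (∑ a ∈ Finset.range s, if s + a < t then 1 else 0) +
        (s * 2 ^ s + 2 ^ s * ∑ b ∈ Finset.range s, if b < t then 1 else 0)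
      = (s + s) * 2 ^ s + 2 ^ s * ((∑ a ∈ Finset.range s, if s + a < t then 1 else 0) +
        (∑ b ∈ Finset.range s, if b < t then 1 else 0)) := by ring
    _ = (s + s + t) * 2 ^ s := by
        rw [h4]
        ring

private theorem CntBase_pair {s a b a' b' : ℕ} (ha : a < s) (ha' : a' < s)
    (h : ({a, s + b} : Finset ℕ) = {a', s + b'}) : a = a' ∧ b = b' := by
  have h1 : a ∈ ({a', s + b'} : Finset ℕ) := by
    rw [← h]
    simp
  have h2 : s + b ∈ ({a', s + b'} : Finset ℕ) := by
    rw [← h]
    simp
  rw [Finset.mem_insert, Finset.mem_singleton] at h1 h2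
  omega

theorem card_basePairs {s t : ℕ} (hs : 0 < s) (ht : t ≤ 2 * s) : (basePairs s t).card =
    2 ^ (2 * s) + 2 ^ (s * s + t) + (2 * s + t) * 2 ^ s + s * s - (2 * s + 1) := by
  classical
  rw [CntBase_sum]
  set g : Finset ℕ → ℕ := fun C => 2 ^ (CntBase_U s t C).card with hg
  set T1 : Finset (Finset ℕ) := (Finset.range (2 * s)).image (fun r => ({r} : Finset ℕ)) with hT1
  set T2 : Finset (Finset ℕ) := (Finset.range s ×ˢ Finset.range s).image
    (fun p => ({p.1, s + p.2} : Finset ℕ)) with hT2
  have m1 : ∀ C, C ∈ T1 ↔ ∃ r, r < 2 * s ∧ C = {r} := by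
    intro C
    rw [hT1, Finset.mem_image]
    constructor
    · rintro ⟨r, hr, rfl⟩
      exact ⟨r, Finset.mem_range.1 hr, rfl⟩
    · rintro ⟨r, hr, rfl⟩
      exact ⟨r, Finset.mem_range.2 hr, rfl⟩
  have m2 : ∀ C, C ∈ T2 ↔ ∃ a b, a < s ∧ b < s ∧ C = {a, s + b} := by
    intro C
    rw [hT2, Finset.mem_image]
    constructor
    · rintro ⟨⟨a, b⟩, hp, rfl⟩
      rw [Finset.mem_product, Finset.mem_range, Finset.mem_range] at hp
      exact ⟨a, b, hp.1, hp.2, rfl⟩
    · rintro ⟨a, b, ha, hb, rfl⟩
      exact ⟨(a, b), Finset.mem_product.2 ⟨Finset.mem_range.2 ha, Finset.mem_range.2 hb⟩, rfl⟩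
  have hd : Disjoint T1 T2 := by
    rw [Finset.disjoint_left]
    intro C h1 h2
    obtain ⟨r, _, rfl⟩ := (m1 C).1 h1
    obtain ⟨a, b, ha, hb, h3⟩ := (m2 _).1 h2
    have h4 : a ∈ ({r} : Finset ℕ) := by
      rw [h3]
      simp
    have h5 : s + b ∈ ({r} : Finset ℕ) := by
      rw [h3]
      simp
    rw [Finset.mem_singleton] at h4 h5
    omega
  have he : (∅ : Finset ℕ) ∉ T1 ∪ T2 := by
    rw [Finset.mem_union, m1, m2]
    rintro (⟨r, _, h⟩ | ⟨a, b, _, _, h⟩)
    · exact (Finset.singleton_ne_empty r) h.symm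
    · exact (Finset.insert_ne_empty a _) h.symm
  have hsub : insert ∅ (T1 ∪ T2) ⊆ (Finset.range (2 * s)).powerset := by
    intro C hC
    rw [Finset.mem_insert, Finset.mem_union, m1, m2] at hC
    rw [Finset.mem_powerset]
    rcases hC with rfl | ⟨r, hr, rfl⟩ | ⟨a, b, ha, hb, rfl⟩
    · exact Finset.empty_subset _
    · exact Finset.singleton_subset_iff.2 (Finset.mem_range.2 hr)
    · intro x hx
      rw [Finset.mem_insert, Finset.mem_singleton] at hx
      rw [Finset.mem_range]
      omega
  have hout : ∀ C ∈ (Finset.range (2 * s)).powerset \ insert ∅ (T1 ∪ T2), g C = 1 := by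
    intro C hC
    rw [Finset.mem_sdiff, Finset.mem_powerset, Finset.mem_insert, Finset.mem_union, m1, m2] at hC
    obtain ⟨hC1, hC2⟩ := hC
    have hU : CntBase_U s t C = ∅ := by
      by_contra hne
      obtain ⟨k, hk⟩ := Finset.nonempty_iff_ne_empty.2 hne
      apply hC2
      rcases CntBase_T hs hk with h | ⟨r, h⟩ | h
      · exact Or.inl h
      · refine Or.inr (Or.inl ⟨r, ?_, h⟩)
        rw [h] at hC1
        exact Finset.mem_range.1 (Finset.singleton_subset_iff.1 hC1)
      · exact Or.inr (Or.inr h)
    rw [hg]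
    beta_reduce
    rw [hU, Finset.card_empty, pow_zero]
  have e1 := Finset.sum_sdiff hsub (f := g)
  have e2 := Finset.card_sdiff_add_card_eq_card hsub
  rw [Finset.sum_congr rfl hout, Finset.sum_const, smul_eq_mul, mul_one,
    Finset.sum_insert he, Finset.sum_union hd] at e1
  rw [Finset.card_insert_of_notMem he, Finset.card_union_of_disjoint hd, Finset.card_powerset,
    Finset.card_range] at e2
  have c1 : T1.card = 2 * s := by
    rw [hT1, Finset.card_image_of_injective _ Finset.singleton_injective, Finset.card_range]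
  have i2 : Set.InjOn (fun p : ℕ × ℕ => ({p.1, s + p.2} : Finset ℕ))
      ((Finset.range s ×ˢ Finset.range s : Finset (ℕ × ℕ)) : Set (ℕ × ℕ)) := by
    rintro ⟨a, b⟩ hp ⟨a', b'⟩ hp' h
    rw [Finset.mem_coe, Finset.mem_product, Finset.mem_range, Finset.mem_range] at hp hp'
    obtain ⟨h1, h2⟩ := CntBase_pair hp.1 hp'.1 h
    exact Prod.ext h1 h2
  have c2 : T2.card = s * s := by
    rw [hT2, Finset.card_image_of_injOn i2, Finset.card_product, Finset.card_range]
  have g0 : g ∅ = 2 ^ (s * s + t) := by
    have hU : CntBase_U s t ∅ = Finset.range (s * s + t) := by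
      ext k
      rw [CntBase_mem, Finset.mem_range]
      simp
    rw [hg]
    beta_reduce
    rw [hU, Finset.card_range]
  have g1 : ∑ C ∈ T1, g C = (2 * s + t) * 2 ^ s := by
    rw [hT1, Finset.sum_image fun x _ y _ h => Finset.singleton_injective h]
    exact CntBase_one ht
  have g2 : ∑ C ∈ T2, g C = s * s * 2 := by
    rw [hT2, Finset.sum_image i2]
    have h1 : ∀ p ∈ Finset.range s ×ˢ Finset.range s,
        g ({p.1, s + p.2} : Finset ℕ) = 2 := by
      intro p hp
      rw [Finset.mem_product, Finset.mem_range, Finset.mem_range] at hp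
      rw [hg]
      beta_reduce
      rw [CntBase_card_two ht hp.1 hp.2, pow_one]
    rw [Finset.sum_congr rfl h1, Finset.sum_const, Finset.card_product, Finset.card_range,
      smul_eq_mul]
  rw [c1, c2] at e2
  rw [g0, g1, g2] at e1
  rw [← e1]
  omega

end Pool.Agent.Lib.MP_586990_lc.R
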