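import Pool.Agent.Lib.MP_586990_lc_R.SeqDef

set_option autoImplicit false

/-!
# Numbers given by sequences of digits
-/

namespace Pool.Agent.Lib.MP_586990_lc.R

private theorem ValLem_succ (B s : ℕ) (z : ℕ → ℕ) :
    val B (s + 1) z = val B s z + z s * B ^ s := by
  unfold val
  rw [Finset.sum_range_succ]

private theorem ValLem_zero (B : ℕ) (z : ℕ → ℕ) : val B 0 z = 0 := by
  unfold val
  rw [Finset.sum_range_zero]

theorem val_lt {B s : ℕ} {z : ℕ → ℕ} (h : ∀ a, z a < B) : val B s z < B ^ s := by
  induction s with
  | zero => rw [ValLem_zero, pow_zero]; exact Nat.one_pos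
  | succ s ih =>
    rw [ValLem_succ, pow_succ]
    have h1 : (z s + 1) * B ^ s ≤ B * B ^ s := Nat.mul_le_mul_right _ (h s)
    calc val B s z + z s * B ^ s < B ^ s + z s * B ^ s := Nat.add_lt_add_right ih _
      _ = (z s + 1) * B ^ s := by ring
      _ ≤ B * B ^ s := h1
      _ = B ^ s * B := by ring

private theorem ValLem_two {P v v' c c' : ℕ} (hv : v < P) (hv' : v' < P)
    (h : v + c * P = v' + c' * P) : v = v' ∧ c = c' := by
  have hP : 0 < P := by omega
  have h1 := congrArg (· / P) h
  simp only [Nat.add_mul_div_right _ _ hP, Nat.div_eq_of_lt hv, Nat.div_eq_of_lt hv',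
    zero_add] at h1
  subst h1
  exact ⟨Nat.add_right_cancel h, rfl⟩

private theorem ValLem_digits {B : ℕ} {z z' : ℕ → ℕ} (h : ∀ a, z a < B) (h' : ∀ a, z' a < B)
    (s : ℕ) (he : val B s z = val B s z') : ∀ a, a < s → z a = z' a := by
  induction s with
  | zero => exact fun a ha => absurd ha (Nat.not_lt_zero a)
  | succ s ih =>
    rw [ValLem_succ, ValLem_succ] at he
    obtain ⟨h1, h2⟩ := ValLem_two (val_lt h) (val_lt h') he
    intro a ha
    rcases Nat.lt_succ_iff_lt_or_eq.1 ha with h3 | h3
    · exact ih h1 a h3
    · rw [h3]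
      exact h2

theorem val_inj {B s : ℕ} {z z' : ℕ → ℕ} (h : IsSeq s B z) (h' : IsSeq s B z')
    (he : val B s z = val B s z') : z = z' := by
  funext a
  rcases Nat.lt_or_ge a s with ha | ha
  · exact ValLem_digits h.1 h'.1 s he a ha
  · rw [h.2 a ha, h'.2 a ha]

theorem exists_val {B s y : ℕ} (hB : 0 < B) (hy : y < B ^ s) :
    ∃ z, IsSeq s B z ∧ val B s z = y := by
  refine ⟨fun a => if a < s then y / B ^ a % B else 0, ⟨fun a => ?_, fun a ha => ?_⟩, ?_⟩
  · by_cases ha : a < s
    · simp only [if_pos ha]
      exact Nat.mod_lt _ hB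
    · simp only [if_neg ha]
      exact hB
  · exact if_neg (Nat.not_lt.2 ha)
  · have key : ∀ t, t ≤ s →
        val B t (fun a => if a < s then y / B ^ a % B else 0) = y % B ^ t := by
      intro t
      induction t with
      | zero =>
        intro _
        rw [ValLem_zero, pow_zero, Nat.mod_one]
      | succ t ih =>
        intro ht
        rw [ValLem_succ, ih (by omega), Nat.mod_pow_succ]
        simp only [if_pos (show t < s by omega)]
        ring
    rw [key s le_rfl, Nat.mod_eq_of_lt hy]

/-- A number with one digit which may be different from zero. -/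
theorem val_single {B s k : ℕ} {z : ℕ → ℕ} (hk : k < s) (h : ∀ a, a ≠ k → z a = 0) :
    val B s z = z k * B ^ k := by
  unfold val
  refine Finset.sum_eq_single k (fun a _ ha => ?_) (fun h1 => ?_)
  · rw [h a ha, zero_mul]
  · exact absurd (Finset.mem_range.2 hk) h1

private def ValLem_u (B : ℕ) (x y : ℕ → ℕ) : ℕ → ℕ
  | 0 => 0
  | a + 1 => (x a + y a + ValLem_u B x y a) / B

private theorem ValLem_u_le {B : ℕ} {x y : ℕ → ℕ} (hx : ∀ a, x a < B) (hy : ∀ a, y a < B)
    (a : ℕ) : ValLem_u B x y a ≤ 1 ∧ ValLem_u B x y a < B := by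
  induction a with
  | zero => exact ⟨Nat.zero_le _, by have := hx 0; show 0 < B; omega⟩
  | succ a ih =>
    have h1 := hx a
    have h2 := hy a
    show (x a + y a + ValLem_u B x y a) / B ≤ 1 ∧ (x a + y a + ValLem_u B x y a) / B < B
    have h3 : (x a + y a + ValLem_u B x y a) / B < 2 := by
      rw [Nat.div_lt_iff_lt_mul (by omega)]
      omega
    refine ⟨by omega, ?_⟩
    rcases Nat.lt_or_ge 1 B with hB | hB
    · omega
    · have h4 : x a + y a + ValLem_u B x y a = 0 := by omega
      rw [h4, Nat.zero_div]
      omega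

/-- School addition. -/
theorem add_chain {B s : ℕ} {x y z : ℕ → ℕ} (hx : ∀ a, x a < B) (hy : ∀ a, y a < B)
    (hz : ∀ a, z a < B) (c : ℕ) : val B s x + val B s y = c * B ^ s + val B s z ↔
      ∃ u : ℕ → ℕ, (∀ a, u a < B) ∧ u 0 = 0 ∧ u s = c ∧
        ∀ a, a < s → x a + y a + u a = z a + B * u (a + 1) := by
  have hB : 0 < B := by have := hx 0; omega
  constructor
  · intro h
    have hw : ∀ a, (x a + y a + ValLem_u B x y a) % B < B := fun a => Nat.mod_lt _ hB
    have hd : ∀ a, x a + y a + ValLem_u B x y a =
        (x a + y a + ValLem_u B x y a) % B + B * ValLem_u B x y (a + 1) := fun a =>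
      (Nat.mod_add_div _ B).symm
    have key : ∀ t, val B t x + val B t y = ValLem_u B x y t * B ^ t +
        val B t (fun a => (x a + y a + ValLem_u B x y a) % B) := by
      intro t
      induction t with
      | zero =>
        rw [ValLem_zero, ValLem_zero, ValLem_zero]
        show 0 + 0 = 0 * B ^ 0 + 0
        ring
      | succ t ih =>
        rw [ValLem_succ, ValLem_succ, ValLem_succ]
        have h1 : (x t + y t + ValLem_u B x y t) * B ^ t =
            ((x t + y t + ValLem_u B x y t) % B + B * ValLem_u B x y (t + 1)) * B ^ t := by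
          rw [← hd t]
        have h2 : val B t x + x t * B ^ t + (val B t y + y t * B ^ t) =
            (val B t x + val B t y) + (x t + y t) * B ^ t := by ring
        rw [h2, ih]
        have h3 : ValLem_u B x y t * B ^ t +
            val B t (fun a => (x a + y a + ValLem_u B x y a) % B) + (x t + y t) * B ^ t =
            val B t (fun a => (x a + y a + ValLem_u B x y a) % B) +
              (x t + y t + ValLem_u B x y t) * B ^ t := by ring
        rw [h3, h1]
        ring
    have h1 : val B s z + c * B ^ s = val B s (fun a => (x a + y a + ValLem_u B x y a) % B) +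
        ValLem_u B x y s * B ^ s := by
      rw [Nat.add_comm, ← h, key s, Nat.add_comm]
    obtain ⟨h2, h3⟩ := ValLem_two (val_lt hz) (val_lt hw) h1
    have h4 := ValLem_digits hz hw s h2
    refine ⟨ValLem_u B x y, fun a => (ValLem_u_le hx hy a).2, rfl, h3.symm, fun a ha => ?_⟩
    rw [h4 a ha]
    exact hd a
  · rintro ⟨u, _, h0, hs, h⟩
    have key : ∀ t, t ≤ s → val B t x + val B t y = u t * B ^ t + val B t z := by
      intro t
      induction t with
      | zero =>
        intro _
        rw [ValLem_zero, ValLem_zero, ValLem_zero, h0]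
        ring
      | succ t ih =>
        intro ht
        rw [ValLem_succ, ValLem_succ, ValLem_succ]
        have h2 : val B t x + x t * B ^ t + (val B t y + y t * B ^ t) =
            (val B t x + val B t y) + (x t + y t) * B ^ t := by ring
        have h3 : u t * B ^ t + val B t z + (x t + y t) * B ^ t =
            val B t z + (x t + y t + u t) * B ^ t := by ring
        rw [h2, ih (by omega), h3, h t (by omega)]
        ring
    rw [key s le_rfl, hs]

end Pool.Agent.Lib.MP_586990_lc.R
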