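import Pool.Agent.Lib.MP_586990_lc_R.RowLem
import Pool.Agent.Lib.MP_586990_lc_R.ValLem

set_option autoImplicit false

/-!
# The number given by a set of pairs
-/

namespace Pool.Agent.Lib.MP_586990_lc.R

private theorem CodeLem_sum (s : ℕ) (f : ℕ → ℕ) (m : ℕ) :
    ∑ j ∈ Finset.range (m * s), f j =
      ∑ a ∈ Finset.range m, ∑ b ∈ Finset.range s, f (a * s + b) := by
  induction m with
  | zero => simp
  | succ m ih => rw [Nat.succ_mul, Finset.sum_range_add, ih, Finset.sum_range_succ]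

open Classical in
theorem val_row (s : ℕ) (V : Set (ℕ × ℕ)) : val (2 ^ s) s (row s V) =
    ∑ j ∈ Finset.range (s * s), if (j / s, j % s) ∈ V then 2 ^ j else 0 := by
  rw [CodeLem_sum]
  unfold val
  refine Finset.sum_congr rfl fun a ha => ?_
  have ha' := Finset.mem_range.1 ha
  unfold row
  rw [Finset.sum_mul]
  refine Finset.sum_congr rfl fun b hb => ?_
  have hb' := Finset.mem_range.1 hb
  have hs : 0 < s := by omega
  have h1 : (a * s + b) / s = a := by
    rw [add_comm, Nat.add_mul_div_right _ _ hs, Nat.div_eq_of_lt hb', zero_add]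
  have h2 : (a * s + b) % s = b := by
    rw [add_comm, Nat.add_mul_mod_self_right, Nat.mod_eq_of_lt hb']
  rw [h1, h2]
  by_cases h3 : (a, b) ∈ V
  · rw [if_pos h3, if_pos ⟨ha', h3⟩, ← pow_mul, ← pow_add]
    congr 1
    rw [mul_comm a s, add_comm]
  · rw [if_neg h3, if_neg (fun h => h3 h.2), zero_mul]

theorem val_row_inj {s : ℕ} {V V' : Set (ℕ × ℕ)} (h : V ⊆ sq s) (h' : V' ⊆ sq s)
    (he : val (2 ^ s) s (row s V) = val (2 ^ s) s (row s V')) : V = V' := by
  have h1 := val_inj (row_isSeq s V) (row_isSeq s V') he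
  ext ⟨a, b⟩
  constructor
  · intro h2
    have h3 := (testBit_row s V a b).2 ⟨(h h2).1, (h h2).2, h2⟩
    rw [h1] at h3
    exact ((testBit_row s V' a b).1 h3).2.2
  · intro h2
    have h3 := (testBit_row s V' a b).2 ⟨(h' h2).1, (h' h2).2, h2⟩
    rw [← h1] at h3
    exact ((testBit_row s V a b).1 h3).2.2

end Pool.Agent.Lib.MP_586990_lc.R
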