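import Pool.Agent.Lib.MP_586990_lc_R.ValLem

set_option autoImplicit false

/-!
# School multiplication
-/

namespace Pool.Agent.Lib.MP_586990_lc.R

theorem conv_lt {B s : ℕ} (hs : s ≤ B) (hB : 0 < B) {x y : ℕ → ℕ} (hx : ∀ a, x a < B)
    (hy : ∀ a, y a < B) (k : ℕ) : conv s x y k < B ^ 3 := by
  obtain ⟨b, rfl⟩ : ∃ b, B = b + 1 := ⟨B - 1, by omega⟩
  have h1 : conv s x y k ≤ (Finset.range s).card • (b * b) := by
    unfold conv
    refine Finset.sum_le_card_nsmul _ _ _ fun a _ => ?_
    split_ifs
    · exact Nat.mul_le_mul (Nat.le_of_lt_succ (hx a)) (Nat.le_of_lt_succ (hy _))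
    · exact Nat.zero_le _
  rw [Finset.card_range, smul_eq_mul] at h1
  have h2 : s * (b * b) ≤ (b + 1) * (b * b) := Nat.mul_le_mul_right _ hs
  have h3 : (b + 1) * (b * b) < (b + 1) ^ 3 := by nlinarith [Nat.zero_le b]
  omega

private theorem ConvLem_row (B s : ℕ) (x y : ℕ → ℕ) (a : ℕ) (ha : a < s) :
    ∑ k ∈ Finset.range (2 * s), (if a ≤ k ∧ k - a < s then x a * y (k - a) else 0) * B ^ k =
      ∑ b ∈ Finset.range s, x a * y b * B ^ (a + b) := by
  have h1 : ∀ k ∈ Finset.range (2 * s),
      (if a ≤ k ∧ k - a < s then x a * y (k - a) else 0) * B ^ k =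
        if k ∈ (Finset.range s).image (fun b => a + b) then x a * y (k - a) * B ^ k else 0 := by
    intro k _
    have h2 : k ∈ (Finset.range s).image (fun b => a + b) ↔ a ≤ k ∧ k - a < s := by
      rw [Finset.mem_image]
      constructor
      · rintro ⟨b, hb, rfl⟩
        rw [Finset.mem_range] at hb
        omega
      · rintro ⟨h3, h4⟩
        exact ⟨k - a, Finset.mem_range.2 h4, by omega⟩
    by_cases h3 : a ≤ k ∧ k - a < s
    · rw [if_pos h3, if_pos (h2.2 h3)]
    · rw [if_neg h3, if_neg (fun h => h3 (h2.1 h)), zero_mul]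
  rw [Finset.sum_congr rfl h1, Finset.sum_ite_mem, Finset.inter_eq_right.2 ?_,
    Finset.sum_image (fun b _ b' _ h => by simpa using h)]
  · refine Finset.sum_congr rfl fun b _ => ?_
    rw [Nat.add_sub_cancel_left]
  · intro k hk
    obtain ⟨b, hb, rfl⟩ := Finset.mem_image.1 hk
    rw [Finset.mem_range] at hb ⊢
    omega

/-- The product of two numbers. -/
theorem val_mul (B s : ℕ) (x y : ℕ → ℕ) : val B s x * val B s y =
    ∑ k ∈ Finset.range (2 * s), conv s x y k * B ^ k := by
  unfold val conv
  have h1 : ∀ k ∈ Finset.range (2 * s),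
      (∑ a ∈ Finset.range s, if a ≤ k ∧ k - a < s then x a * y (k - a) else 0) * B ^ k =
      ∑ a ∈ Finset.range s, (if a ≤ k ∧ k - a < s then x a * y (k - a) else 0) * B ^ k :=
    fun k _ => Finset.sum_mul _ _ _
  rw [Finset.sum_congr rfl h1, Finset.sum_comm, Finset.sum_mul_sum]
  refine Finset.sum_congr rfl fun a ha => ?_
  rw [ConvLem_row B s x y a (Finset.mem_range.1 ha)]
  refine Finset.sum_congr rfl fun b _ => ?_
  rw [pow_add]
  ring

private theorem ConvLem_chain (B : ℕ) (T u d : ℕ → ℕ) (n : ℕ)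
    (h : ∀ k, k < n → T k + u k = d k + B * u (k + 1)) :
    ∑ k ∈ Finset.range n, T k * B ^ k + u 0 = ∑ k ∈ Finset.range n, d k * B ^ k + u n * B ^ n := by
  induction n with
  | zero => simp
  | succ n ih =>
    have h1 := ih fun k hk => h k (by omega)
    have h2 := h n (by omega)
    rw [Finset.sum_range_succ, Finset.sum_range_succ]
    have h3 : T n * B ^ n + u n * B ^ n = d n * B ^ n + u (n + 1) * B ^ (n + 1) := by
      calc T n * B ^ n + u n * B ^ n = (T n + u n) * B ^ n := by ring
        _ = (d n + B * u (n + 1)) * B ^ n := by rw [h2]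
        _ = _ := by ring
    omega

private theorem ConvLem_digits {B : ℕ} {z z' : ℕ → ℕ} (hz : ∀ a, z a < B) (hz' : ∀ a, z' a < B)
    (s : ℕ) (h : val B s z = val B s z') : ∀ a, a < s → z a = z' a := by
  induction s with
  | zero => exact fun a ha => absurd ha (Nat.not_lt_zero a)
  | succ s ih =>
    have h1 : val B s z + z s * B ^ s = val B s z' + z' s * B ^ s := by
      unfold val at h ⊢
      rwa [Finset.sum_range_succ, Finset.sum_range_succ] at h
    have h2 : val B s z < B ^ s := val_lt hz
    have h3 : val B s z' < B ^ s := val_lt hz'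
    have hB : 0 < B ^ s := lt_of_le_of_lt (Nat.zero_le _) h2
    have h4 : z s = z' s := by
      have h5 := congrArg (fun t => t / B ^ s) h1
      simp only [Nat.add_mul_div_right _ _ hB, Nat.div_eq_of_lt h2, Nat.div_eq_of_lt h3] at h5
      omega
    have h6 : val B s z = val B s z' := by
      rw [h4] at h1
      omega
    intro a ha
    rcases Nat.lt_or_ge a s with h7 | h7
    · exact ih h6 a h7
    · have h8 : a = s := by omega
      rw [h8, h4]

/-- the carries -/
private def ConvLem_u (B : ℕ) (T : ℕ → ℕ) : ℕ → ℕ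
  | 0 => 0
  | k + 1 => (T k + ConvLem_u B T k) / B

/-- School multiplication. -/
theorem mul_chain {B s e : ℕ} (hs : s ≤ B) (hB : 2 ≤ B) (he : 3 ≤ e) {x y h l : ℕ → ℕ}
    (hx : ∀ a, x a < B) (hy : ∀ a, y a < B) (hh : ∀ a, h a < B) (hl : ∀ a, l a < B) :
    val B s x * val B s y = val B s h * B ^ s + val B s l ↔
      ∃ c, c < B ^ e ∧
        (∃ u : ℕ → ℕ, (∀ a, u a < B ^ e) ∧ u 0 = 0 ∧ u s = c ∧
          ∀ k, k < s → conv s x y k + u k = l k + B * u (k + 1)) ∧
        ∃ u : ℕ → ℕ, (∀ a, u a < B ^ e) ∧ u 0 = c ∧ u s = 0 ∧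
          ∀ k, k < s → conv s x y (s + k) + u k = h k + B * u (k + 1) := by
  have hsplit : ∀ f : ℕ → ℕ, ∑ k ∈ Finset.range (2 * s), f k * B ^ k =
      ∑ k ∈ Finset.range s, f k * B ^ k + B ^ s * ∑ k ∈ Finset.range s, f (s + k) * B ^ k := by
    intro f
    rw [two_mul, Finset.sum_range_add, Finset.mul_sum]
    congr 1
    refine Finset.sum_congr rfl fun k _ => ?_
    rw [pow_add]
    ring
  have hB0 : 0 < B := by omega
  have hBs : 0 < B ^ s := pow_pos hB0 s
  rw [val_mul]
  constructor
  · intro hN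
    set T := conv s x y with hT
    set u := ConvLem_u B T with hu
    set d : ℕ → ℕ := fun k => (T k + u k) % B with hd
    have hu0 : u 0 = 0 := rfl
    have hus : ∀ k, u (k + 1) = (T k + u k) / B := fun k => rfl
    have hTu : ∀ k, T k + u k = d k + B * u (k + 1) := by
      intro k
      rw [hus]
      exact (Nat.mod_add_div _ _).symm
    have hdB : ∀ k, d k < B := fun k => Nat.mod_lt _ hB0
    have hub : ∀ k, u k < B ^ 3 := by
      intro k
      induction k with
      | zero =>
        rw [hu0]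
        exact pow_pos hB0 3
      | succ k ih =>
        rw [hus]
        have h1 : T k < B ^ 3 := conv_lt hs hB0 hx hy k
        have h2 : T k + u k < B * (2 * B ^ 2) := by
          have : B * (2 * B ^ 2) = 2 * B ^ 3 := by ring
          rw [this]
          omega
        have h3 : (T k + u k) / B < 2 * B ^ 2 := Nat.div_lt_of_lt_mul h2
        have h4 : 2 * B ^ 2 ≤ B ^ 3 := by
          have : B ^ 3 = B * B ^ 2 := by ring
          rw [this]
          exact Nat.mul_le_mul_right _ hB
        omega
    have he3 : B ^ 3 ≤ B ^ e := Nat.pow_le_pow_right hB0 he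
    have hube : ∀ k, u k < B ^ e := fun k => lt_of_lt_of_le (hub k) he3
    have hc := ConvLem_chain B T u d (2 * s) fun k _ => hTu k
    rw [hu0, add_zero] at hc
    have hxs : val B s x < B ^ s := val_lt hx
    have hys : val B s y < B ^ s := val_lt hy
    have hlt : ∑ k ∈ Finset.range (2 * s), T k * B ^ k < B ^ (2 * s) := by
      rw [← val_mul, two_mul, pow_add]
      exact Nat.mul_lt_mul'' hxs hys
    have hu2 : u (2 * s) = 0 := by
      by_contra h0
      have h1 : 1 * B ^ (2 * s) ≤ u (2 * s) * B ^ (2 * s) :=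
        Nat.mul_le_mul_right _ (Nat.one_le_iff_ne_zero.2 h0)
      omega
    rw [hu2, zero_mul, add_zero, hsplit d] at hc
    have hd1 : val B s d < B ^ s := val_lt hdB
    have hd2 : val B s l < B ^ s := val_lt hl
    have hkey : val B s d + B ^ s * val B s (fun k => d (s + k)) =
        val B s l + B ^ s * val B s h := by
      have h1 : val B s d + B ^ s * val B s (fun k => d (s + k)) =
          ∑ k ∈ Finset.range (2 * s), T k * B ^ k := hc.symm
      rw [h1, hN]
      ring
    have hhi : val B s (fun k => d (s + k)) = val B s h := by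
      have h5 := congrArg (fun t => t / B ^ s) hkey
      simp only [Nat.add_mul_div_left _ _ hBs, Nat.div_eq_of_lt hd1, Nat.div_eq_of_lt hd2] at h5
      omega
    have hlo : val B s d = val B s l := by
      rw [hhi] at hkey
      omega
    have hlo' := ConvLem_digits hdB hl s hlo
    have hhi' := ConvLem_digits (fun a => hdB (s + a)) hh s hhi
    refine ⟨u s, hube s, ⟨u, hube, hu0, rfl, fun k hk => ?_⟩,
      ⟨fun k => u (s + k), fun a => hube _, rfl, ?_, fun k hk => ?_⟩⟩
    · rw [hTu k, hlo' k hk]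
    · change u (s + s) = 0
      rw [← two_mul]
      exact hu2
    · change T (s + k) + u (s + k) = h k + B * u (s + k + 1)
      rw [hTu (s + k), ← hhi' k hk]
  · rintro ⟨c, -, ⟨u, -, hu0, hus, hu⟩, v, -, hv0, hvs, hv⟩
    have h1 := ConvLem_chain B (conv s x y) u l s hu
    have h2 := ConvLem_chain B (fun k => conv s x y (s + k)) v h s hv
    rw [hu0, add_zero, hus] at h1
    rw [hv0, hvs, zero_mul, add_zero] at h2
    rw [hsplit, h1]
    have h3 : B ^ s * (∑ k ∈ Finset.range s, conv s x y (s + k) * B ^ k) + B ^ s * c =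
        B ^ s * ∑ k ∈ Finset.range s, h k * B ^ k := by
      rw [← mul_add, h2]
    unfold val
    have h4 : c * B ^ s = B ^ s * c := mul_comm _ _
    have h5 : (∑ a ∈ Finset.range s, h a * B ^ a) * B ^ s =
        B ^ s * ∑ k ∈ Finset.range s, h k * B ^ k := mul_comm _ _
    omega

end Pool.Agent.Lib.MP_586990_lc.R
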