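import Pool.Agent.Lib.MP_586990_lc_R.DigN

set_option autoImplicit false

/-!
# Digit calculus: multiplication of numbers
-/

namespace Pool.Agent.Lib.MP_586990_lc.R

/-- multiplication of a number with `k` digits -/
private theorem MulN_step {Ω : Type} {β : Ω → ℕ} {Def : (Ω → (ℕ → ℕ) → Prop) → Prop}
    (F : Frame β Def) (e k : ℕ) : ∀ x y z : ℕ,
      DefN β Def e fun ω w => w x < β ω ^ k ∧ w x * w y = w z := by
  induction k with
  | zero =>
    intro x y z
    refine F.toAFrame.congrN (Q := fun _ w => w x = 0 ∧ w z = 0) ?_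
      (F.toAFrame.andN (F.toAFrame.natN e x 0) (F.toAFrame.natN e z 0))
    intro ω w _
    rw [pow_zero, Nat.lt_one_iff]
    constructor
    · rintro ⟨h1, h2⟩
      exact ⟨h1, by rw [h1, h2, zero_mul]⟩
    · rintro ⟨h1, h2⟩
      exact ⟨h1, by rw [← h2, h1, zero_mul]⟩
  | succ k ih =>
    intro x y z
    have hF : AFrame β Def := F.toAFrame
    refine hF.congrN (Q := fun ω w =>
      ∃ a, a < β ω ^ e ∧ ∃ b, b < β ω ^ e ∧ ∃ c, c < β ω ^ e ∧ ∃ d, d < β ω ^ e ∧
      ∃ f, f < β ω ^ e ∧ ∃ g, g < β ω ^ e ∧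
        ((a < β ω ^ k ∧ a * w y = b) ∧ (c < β ω ∧ c * w y = d) ∧ f = β ω * b ∧
          g = β ω * a ∧ g + c = w x ∧ f + d = w z)) ?_ ?_
    · intro ω w hw
      have hβ : 0 < β ω := lt_of_lt_of_le Nat.two_pos (hF.two ω)
      constructor
      · rintro ⟨a, _, b, _, c, _, d, _, f, _, g, _, ⟨h1, h2⟩, ⟨h3, h4⟩, h5, h6, h7, h8⟩
        subst h2 h4 h5 h6
        constructor
        · rw [← h7, pow_succ]
          calc β ω * a + c < β ω * a + β ω := by omega
            _ = β ω * (a + 1) := by ring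
            _ ≤ β ω * β ω ^ k := Nat.mul_le_mul_left _ h1
            _ = β ω ^ k * β ω := by ring
        · rw [← h7, ← h8]
          ring
      · rintro ⟨h1, h2⟩
        have e1 : β ω * (w x / β ω) + w x % β ω = w x := Nat.div_add_mod _ _
        have e2 : β ω * (w x / β ω * w y) + w x % β ω * w y = w z := by
          calc β ω * (w x / β ω * w y) + w x % β ω * w y
              = (β ω * (w x / β ω) + w x % β ω) * w y := by ring
            _ = w z := by rw [e1, h2]
        have hx := hw x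
        have hz := hw z
        have h3 : w x / β ω ≤ β ω * (w x / β ω) := Nat.le_mul_of_pos_left _ hβ
        have h4 : w x / β ω * w y ≤ β ω * (w x / β ω * w y) := Nat.le_mul_of_pos_left _ hβ
        refine ⟨w x / β ω, by omega, w x / β ω * w y, by omega, w x % β ω, by omega,
          w x % β ω * w y, by omega, β ω * (w x / β ω * w y), by omega,
          β ω * (w x / β ω), by omega, ⟨?_, rfl⟩, ⟨Nat.mod_lt _ hβ, rfl⟩, rfl, rfl, e1, e2⟩
        rw [Nat.div_lt_iff_lt_mul hβ, ← pow_succ]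
        exact h1
    · apply hF.exN
      apply hF.exN
      apply hF.exN
      apply hF.exN
      apply hF.exN
      apply hF.exN
      exact hF.andN (ih 5 (y + 6) 4) (hF.andN (F.digMulN e 3 (y + 6) 2)
        (hF.andN (hF.shiftN e 4 1) (hF.andN (hF.shiftN e 5 0)
          (hF.andN (hF.addN e 0 3 (x + 6)) (hF.addN e 1 2 (z + 6))))))

theorem Frame.mulN {Ω : Type} {β : Ω → ℕ} {Def : (Ω → (ℕ → ℕ) → Prop) → Prop}
    (F : Frame β Def) (e x y z : ℕ) : DefN β Def e fun _ w => w x * w y = w z :=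
  F.toAFrame.congrN (Q := fun ω w => w x < β ω ^ e ∧ w x * w y = w z)
    (fun _ _ hw => ⟨fun h => h.2, fun h => ⟨hw x, h⟩⟩) (MulN_step F e e x y z)

end Pool.Agent.Lib.MP_586990_lc.R
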