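import Pool.Agent.Lib.MP_586990_lc_R.Idx
import Pool.Agent.Lib.MP_586990_lc_R.MulN
import Pool.Agent.Lib.MP_586990_lc_R.ConvLem

set_option autoImplicit false

/-!
# Sequence calculus: the coefficients of a product
-/

namespace Pool.Agent.Lib.MP_586990_lc.R

variable {Ω : Type} {s B : Ω → ℕ} {D : (Par s B → (ℕ → ℕ) → Prop) → Prop}

theorem SFr.frame (F : SFr s B D) (hmul : HasMul D) : Frame (fun p : Par s B => B p.ω) D :=
  { F.toAFrame with mul := hmul }

/-- a term of the coefficient with the number `k` -/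
private def ConvN_t (s k : ℕ) (x y : ℕ → ℕ) (b : ℕ) : ℕ :=
  if b ≤ k ∧ k - b < s then x b * y (k - b) else 0

private theorem ConvN_step {s k Z X Y b : ℕ} {x y : ℕ → ℕ} (hx : x b < Z)
    (hy : ∀ c, y c < Z) (hxy : ∀ c, x b * y c < Z) :
    (((∃ c, c < s ∧ (b + c = k ∧ ∃ u, u < Z ∧ (u = x b ∧ ∃ u', u' < Z ∧ (u' = y c ∧
      ∃ u'', u'' < Z ∧ (u * u' = u'' ∧ X + u'' = Y))))) ∨
      ((¬ ∃ c, c < s ∧ b + c = k) ∧ X = Y)) ↔ Y = X + ConvN_t s k x y b) := by
  unfold ConvN_t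
  constructor
  · rintro (⟨c, hc, rfl, u, _, rfl, u', _, rfl, u'', _, rfl, rfl⟩ | ⟨h1, rfl⟩)
    · have h2 : b + c - b = c := by omega
      rw [h2, if_pos ⟨by omega, hc⟩]
    · rw [if_neg, Nat.add_zero]
      rintro ⟨h2, h3⟩
      exact h1 ⟨k - b, h3, by omega⟩
  · rintro rfl
    by_cases hc : b ≤ k ∧ k - b < s
    · rw [if_pos hc]
      exact Or.inl ⟨k - b, hc.2, by omega, x b, hx, rfl, y (k - b), hy _, rfl,
        x b * y (k - b), hxy _, rfl, rfl⟩
    · rw [if_neg hc]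
      refine Or.inr ⟨?_, rfl⟩
      rintro ⟨c, h1, h2⟩
      exact hc ⟨by omega, by omega⟩

private theorem ConvN_gen (F : SFr s B D) (hmul : HasMul D) {e : ℕ} (he : 3 ≤ e)
    (K : Par s B → ℕ) (hK : D fun p _ => p.v 1 + p.v 0 = K p.tlI.tlI) (x i j : ℕ) :
    SN D e fun p w => w x = conv (s p.ω) (p.q i) (p.q j) (K p) := by
  have G := F.toAFrame
  have he0 : 0 < e := by omega
  refine G.congrN (Q := fun p w => ∃ z : ℕ → ℕ, (∀ a, z a < B p.ω ^ e) ∧ z 0 = 0 ∧
    z (s p.ω) = w x ∧ ∀ b, b < s p.ω →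
      ((∃ c, c < s p.ω ∧ (b + c = K p ∧ ∃ u, u < B p.ω ^ e ∧ (u = p.q i b ∧
        ∃ u', u' < B p.ω ^ e ∧ (u' = p.q j c ∧
        ∃ u'', u'' < B p.ω ^ e ∧ (u * u' = u'' ∧ z b + u'' = z (b + 1)))))) ∨
      ((¬ ∃ c, c < s p.ω ∧ b + c = K p) ∧ z b = z (b + 1)))) ?_ ?_
  · intro p w _
    have hb := F.base p.ω
    have h3 := F.three p.ω
    have hB : 0 < B p.ω := by omega
    have hBe : B p.ω ^ 3 ≤ B p.ω ^ e := Nat.pow_le_pow_right hB he
    have hB2 : B p.ω * B p.ω ≤ B p.ω ^ 3 := by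
      have h1 : B p.ω ^ 3 = B p.ω * B p.ω * B p.ω := by ring
      rw [h1]
      exact Nat.le_mul_of_pos_right _ hB
    have hB1 : B p.ω ≤ B p.ω * B p.ω := Nat.le_mul_of_pos_right _ hB
    have hq : ∀ i a, p.q i a < B p.ω := fun i a => (p.hq i).1 a
    have hxy : ∀ b c, p.q i b * p.q j c < B p.ω ^ e := by
      intro b c
      have h1 : p.q i b * p.q j c < B p.ω * B p.ω := Nat.mul_lt_mul'' (hq i b) (hq j c)
      omega
    have hstep : ∀ (b X Y : ℕ), _ := fun b X Y =>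
      ConvN_step (s := s p.ω) (k := K p) (Z := B p.ω ^ e) (X := X) (Y := Y) (b := b)
        (x := p.q i) (y := p.q j) (by have := hq i b; omega)
        (fun c => by have := hq j c; omega) (hxy b)
    have hcl := conv_lt (B := B p.ω) (s := s p.ω) (by omega) hB (hq i) (hq j) (K p)
    constructor
    · rintro ⟨z, _, h0, hs, h1⟩
      have h2 : ∀ b, b ≤ s p.ω →
          z b = ∑ b' ∈ Finset.range b, ConvN_t (s p.ω) (K p) (p.q i) (p.q j) b' := by
        intro b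
        induction b with
        | zero =>
          intro _
          rw [h0, Finset.sum_range_zero]
        | succ b ih =>
          intro hb'
          rw [Finset.sum_range_succ, ← ih (by omega)]
          exact (hstep b (z b) (z (b + 1))).1 (h1 b (by omega))
      rw [← hs, h2 _ le_rfl]
      rfl
    · intro hw
      refine ⟨fun b => if b ≤ s p.ω then
        ∑ b' ∈ Finset.range b, ConvN_t (s p.ω) (K p) (p.q i) (p.q j) b' else 0, ?_, ?_, ?_, ?_⟩
      · intro b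
        show (if b ≤ s p.ω then
          ∑ b' ∈ Finset.range b, ConvN_t (s p.ω) (K p) (p.q i) (p.q j) b' else 0) < _
        split_ifs with hbs
        · have h4 : ∑ b' ∈ Finset.range b, ConvN_t (s p.ω) (K p) (p.q i) (p.q j) b' ≤
              ∑ b' ∈ Finset.range (s p.ω), ConvN_t (s p.ω) (K p) (p.q i) (p.q j) b' :=
            Finset.sum_le_sum_of_subset (Finset.range_subset_range.2 hbs)
          have h5 : ∑ b' ∈ Finset.range (s p.ω), ConvN_t (s p.ω) (K p) (p.q i) (p.q j) b' =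
            conv (s p.ω) (p.q i) (p.q j) (K p) := rfl
          rw [h5] at h4
          omega
        · omega
      · show (if 0 ≤ s p.ω then
          ∑ b' ∈ Finset.range 0, ConvN_t (s p.ω) (K p) (p.q i) (p.q j) b' else 0) = 0
        rw [if_pos (Nat.zero_le _), Finset.sum_range_zero]
      · show (if s p.ω ≤ s p.ω then
          ∑ b' ∈ Finset.range (s p.ω), ConvN_t (s p.ω) (K p) (p.q i) (p.q j) b' else 0) = w x
        rw [if_pos le_rfl, hw]
        rfl
      · intro b hbs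
        refine (hstep b _ _).2 ?_
        show (if b + 1 ≤ s p.ω then
          ∑ b' ∈ Finset.range (b + 1), ConvN_t (s p.ω) (K p) (p.q i) (p.q j) b' else 0) =
          (if b ≤ s p.ω then
          ∑ b' ∈ Finset.range b, ConvN_t (s p.ω) (K p) (p.q i) (p.q j) b' else 0) + _
        rw [if_pos (by omega), if_pos (by omega), Finset.sum_range_succ]
  · refine F.iter0 e (R := fun p w b X Y =>
      ((∃ c, c < s p.ω ∧ (b + c = K p ∧ ∃ u, u < B p.ω ^ e ∧ (u = p.q i b ∧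
        ∃ u', u' < B p.ω ^ e ∧ (u' = p.q j c ∧
        ∃ u'', u'' < B p.ω ^ e ∧ (u * u' = u'' ∧ X + u'' = Y))))) ∨
      ((¬ ∃ c, c < s p.ω ∧ b + c = K p) ∧ X = Y))) ?_ x
    refine G.orN ?_ (G.andN (G.notN ?_) (G.eqN 0 1))
    · refine F.exIN (S := fun p w c => (p.v 0 + c = K p.tlI ∧ ∃ u, u < B p.ω ^ e ∧
        (u = p.q i (p.v 0) ∧ ∃ u', u' < B p.ω ^ e ∧ (u' = p.q j c ∧
        ∃ u'', u'' < B p.ω ^ e ∧ (u * u' = u'' ∧ w 0 + u'' = w 1))))) ?_
      refine G.andN hK ?_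
      refine G.exN (S := fun p w u => (u = p.q i (p.v 1) ∧ ∃ u', u' < B p.ω ^ e ∧
        (u' = p.q j (p.v 0) ∧
        ∃ u'', u'' < B p.ω ^ e ∧ (u * u' = u'' ∧ w 0 + u'' = w 1)))) ?_
      refine G.andN (F.seqN he0 0 i 1) ?_
      refine G.exN (S := fun p w u' => (u' = p.q j (p.v 0) ∧
        ∃ u'', u'' < B p.ω ^ e ∧ (w 0 * u' = u'' ∧ w 1 + u'' = w 2))) ?_
      refine G.andN (F.seqN he0 0 j 0) ?_
      refine G.exN (S := fun p w u'' => (w 1 * w 0 = u'' ∧ w 2 + u'' = w 3)) ?_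
      exact G.andN ((F.frame hmul).mulN e 2 1 0) (G.addN e 3 0 4)
    · exact F.exIN (S := fun p _ c => p.v 0 + c = K p.tlI) hK

theorem SFr.convN (F : SFr s B D) (hmul : HasMul D) {e : ℕ} (he : 3 ≤ e) (x i j a : ℕ) :
    SN D e fun p w => w x = conv (s p.ω) (p.q i) (p.q j) (p.v a) :=
  ConvN_gen F hmul he (fun p => p.v a) (F.addI 1 0 (a + 2)) x i j

theorem SFr.convN' (F : SFr s B D) (hmul : HasMul D) {e : ℕ} (he : 3 ≤ e) (x i j a : ℕ) :
    SN D e fun p w => w x = conv (s p.ω) (p.q i) (p.q j) (s p.ω + p.v a) :=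
  ConvN_gen F hmul he (fun p => s p.ω + p.v a) (F.addSI 1 0 (a + 2)) x i j

end Pool.Agent.Lib.MP_586990_lc.R
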