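import Pool.Agent.Lib.MP_586990_lc_R.LatDef

set_option autoImplicit false

/-!
# Every large number is a size
-/

namespace Pool.Agent.Lib.MP_586990_lc.R

/-- the size without upper elements -/
private def Cover_b (s t : ℕ) : ℕ :=
  2 ^ (2 * s) + 2 ^ (s * s + t) + (2 * s + t) * 2 ^ s + s * s - (2 * s + 1)

private theorem Cover_succ (s t : ℕ) (hs : 3 ≤ s) :
    Cover_b s t ≤ Cover_b s (t + 1) ∧ Cover_b s (t + 1) ≤ Cover_b s t + 2 ^ (s * s + t + 1) := by
  have e1 : 2 ^ (s * s + (t + 1)) = 2 * 2 ^ (s * s + t) := by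
    rw [← pow_succ']
    rfl
  have e2 : (2 * s + (t + 1)) * 2 ^ s = (2 * s + t) * 2 ^ s + 2 ^ s := by ring
  have e3 : 2 ^ (s * s + t + 1) = 2 * 2 ^ (s * s + t) := pow_succ' 2 _
  have h1 : 2 ^ s ≤ 2 ^ (s * s + t) := Nat.pow_le_pow_right (by norm_num) (by nlinarith)
  have h2 : 2 * s < 2 ^ (2 * s) := Nat.lt_two_pow_self
  unfold Cover_b
  rw [e1, e2, e3]
  generalize (2 * s + t) * 2 ^ s = a at *
  generalize 2 ^ (s * s + t) = b at *
  generalize s * s = e at *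
  generalize 2 ^ (2 * s) = f at *
  generalize 2 ^ s = d at *
  omega

private theorem Cover_next (s : ℕ) (hs : 3 ≤ s) :
    Cover_b s (2 * s) ≤ Cover_b (s + 1) 0 ∧
      Cover_b (s + 1) 0 ≤ Cover_b s (2 * s) + 2 ^ (s * s + 2 * s + 1) := by
  have e1 : 2 ^ (2 * (s + 1)) = 4 * 2 ^ (2 * s) := by
    rw [Nat.mul_add, Nat.mul_one, pow_add]
    ring
  have e2 : 2 ^ ((s + 1) * (s + 1) + 0) = 2 * 2 ^ (s * s + 2 * s) := by
    rw [← pow_succ']
    congr 1
    ring
  have e3 : (2 * (s + 1) + 0) * 2 ^ (s + 1) = 4 * (s * 2 ^ s) + 4 * 2 ^ s := by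
    rw [pow_succ]
    ring
  have e4 : (s + 1) * (s + 1) = s * s + 2 * s + 1 := by ring
  have e5 : (2 * s + 2 * s) * 2 ^ s = 4 * (s * 2 ^ s) := by ring
  have e6 : 2 ^ (s * s + 2 * s + 1) = 2 * 2 ^ (s * s + 2 * s) := pow_succ' 2 _
  have h1 : 512 * 2 ^ (2 * s) ≤ 2 ^ (s * s + 2 * s) := by
    rw [pow_add]
    refine Nat.mul_le_mul_right _ ?_
    calc 512 = 2 ^ 9 := by norm_num
      _ ≤ 2 ^ (s * s) := Nat.pow_le_pow_right (by norm_num) (by nlinarith)
  have h2 : 2 * s < 2 ^ (2 * s) := Nat.lt_two_pow_self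
  have h3 : 2 ^ s ≤ 2 ^ (2 * s) := Nat.pow_le_pow_right (by norm_num) (by omega)
  unfold Cover_b
  rw [e1, e2, e3, e4, e5, e6]
  generalize 2 ^ (s * s + 2 * s) = b at *
  generalize 2 ^ (2 * s) = f at *
  generalize s * 2 ^ s = a at *
  generalize s * s = e at *
  generalize 2 ^ s = d at *
  omega

private theorem Cover_find (n : ℕ) : ∃ s t, 3 ≤ s ∧ t ≤ 2 * s ∧ Cover_b s t ≤ 626 + n ∧
    626 + n < Cover_b s t + 2 ^ (s * s + t + 1) := by
  induction n with
  | zero => exact ⟨3, 0, le_rfl, by norm_num, by norm_num [Cover_b], by norm_num [Cover_b]⟩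
  | succ n ih =>
    obtain ⟨s, t, hs, ht, h1, h2⟩ := ih
    by_cases h3 : 626 + (n + 1) < Cover_b s t + 2 ^ (s * s + t + 1)
    · exact ⟨s, t, hs, ht, by omega, h3⟩
    · by_cases h4 : t < 2 * s
      · obtain ⟨h5, h6⟩ := Cover_succ s t hs
        refine ⟨s, t + 1, hs, by omega, by omega, ?_⟩
        have h7 : 2 ^ (s * s + (t + 1) + 1) = 2 * 2 ^ (s * s + t + 1) := pow_succ' 2 _
        have h8 : 0 < 2 ^ (s * s + t + 1) := by positivity
        omega
      · have h5 : t = 2 * s := by omega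
        subst h5
        obtain ⟨h5, h6⟩ := Cover_next s hs
        refine ⟨s + 1, 0, by omega, by omega, by omega, ?_⟩
        have h7 : 2 ^ ((s + 1) * (s + 1) + 0 + 1) = 2 * 2 ^ (s * s + 2 * s + 1) := by
          rw [← pow_succ']
          congr 1
          ring
        have h8 : 0 < 2 ^ (s * s + 2 * s + 1) := by positivity
        omega

theorem exists_wd {n : ℕ} (hn : 626 ≤ n) : ∃ ω : Wd, size ω.s ω.t ω.J = n := by
  obtain ⟨s, t, hs, ht, h1, h2⟩ := Cover_find (n - 626)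
  rw [Nat.add_sub_cancel' hn] at h1 h2
  refine ⟨⟨s, t, (n - Cover_b s t).bitIndices.toFinset, hs, ht, ?_⟩, ?_⟩
  · intro j hj
    rw [List.mem_toFinset] at hj
    have h3 := Nat.two_pow_le_of_mem_bitIndices hj
    have h4 : 2 ^ j < 2 ^ (s * s + t + 1) := by omega
    have h5 := (Nat.pow_lt_pow_iff_right (by norm_num : 1 < 2)).1 h4
    omega
  · change Cover_b s t + ∑ j ∈ (n - Cover_b s t).bitIndices.toFinset, 2 ^ j = n
    rw [Finset.sum_toFinset_bitIndices_two_pow]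
    omega

end Pool.Agent.Lib.MP_586990_lc.R
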