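import Pool.Agent.Lib.MP_586990_lc_R.LatRel

set_option autoImplicit false

/-!
# The positions of the rows and columns
-/

namespace Pool.Agent.Lib.MP_586990_lc.R

/-- The position of a cell of the diagonal. -/
private noncomputable def DecA_ps {P : Type} [PartialOrder P] (X : ℕ → LowerSet P) (d : P) : ℕ :=
  Set.ncard {d' | Dg X d' ∧ DLe X d' d ∧ d' ≠ d}

private theorem DecA_lt {P : Type} [PartialOrder P] [Finite P] {X : ℕ → LowerSet P} (V : Val X)
    {d d' : P} (hd : Dg X d) (hd' : Dg X d') (h : DLe X d d') (hne : d ≠ d') :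
    DecA_ps X d < DecA_ps X d' := by
  unfold DecA_ps
  refine Set.ncard_lt_ncard ?_ (Set.toFinite _)
  rw [Set.ssubset_iff_of_subset]
  · refine ⟨d, ⟨hd, h, hne⟩, ?_⟩
    rintro ⟨_, _, h3⟩
    exact h3 rfl
  · rintro x ⟨h1, h2, h3⟩
    refine ⟨h1, V.trn _ _ _ h1 hd hd' h2 h, ?_⟩
    rintro rfl
    exact h3 (V.anti _ _ h1 hd h2 h)

private theorem DecA_refl {P : Type} [PartialOrder P] {X : ℕ → LowerSet P} (V : Val X)
    {d : P} (hd : Dg X d) : DLe X d d := by
  rcases V.tot d d hd hd with h | h <;> exact h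

private theorem DecA_le {P : Type} [PartialOrder P] [Finite P] {X : ℕ → LowerSet P} (V : Val X)
    {d d' : P} (hd : Dg X d) (hd' : Dg X d') : DLe X d d' ↔ DecA_ps X d ≤ DecA_ps X d' := by
  constructor
  · intro h
    by_cases hne : d = d'
    · rw [hne]
    · exact (DecA_lt V hd hd' h hne).le
  · intro h
    by_cases hne : d = d'
    · rw [← hne]
      exact DecA_refl V hd
    · rcases V.tot d d' hd hd' with h1 | h1
      · exact h1
      · exact absurd (DecA_lt V hd' hd h1 (Ne.symm hne)) (by omega)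

private theorem DecA_inj {P : Type} [PartialOrder P] [Finite P] {X : ℕ → LowerSet P} (V : Val X)
    {d d' : P} (hd : Dg X d) (hd' : Dg X d') (h : DecA_ps X d = DecA_ps X d') : d = d' :=
  V.anti _ _ hd hd' ((DecA_le V hd hd').2 h.le) ((DecA_le V hd' hd).2 h.ge)

private theorem DecA_s {P : Type} [PartialOrder P] [Finite P] {X : ℕ → LowerSet P}
    {d : P} (hd : Dg X d) : DecA_ps X d < Set.ncard {d | Dg X d} := by
  unfold DecA_ps
  refine Set.ncard_lt_ncard ?_ (Set.toFinite _)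
  rw [Set.ssubset_iff_of_subset]
  · refine ⟨d, hd, ?_⟩
    rintro ⟨_, _, h3⟩
    exact h3 rfl
  · rintro x ⟨h1, _, _⟩
    exact h1

private theorem DecA_surj {P : Type} [PartialOrder P] [Finite P] {X : ℕ → LowerSet P}
    (V : Val X) {a : ℕ} (ha : a < Set.ncard {d | Dg X d}) : ∃ d, Dg X d ∧ DecA_ps X d = a := by
  have h1 : (DecA_ps X) '' {d | Dg X d} = Set.Iio (Set.ncard {d | Dg X d}) := by
    refine Set.eq_of_subset_of_ncard_le ?_ ?_ (Set.finite_Iio _)
    · rintro _ ⟨d, hd, rfl⟩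
      exact DecA_s hd
    · have h2 : Set.InjOn (DecA_ps X) {d | Dg X d} := fun d hd d' hd' h => DecA_inj V hd hd' h
      rw [h2.ncard_image, ← Finset.coe_Iio, Set.ncard_coe_finset]
      simp
  have h2 : a ∈ (DecA_ps X) '' {d | Dg X d} := by
    rw [h1]
    exact ha
  obtain ⟨d, hd, h⟩ := h2
  exact ⟨d, hd, h⟩

/-- rows or columns -/
private theorem DecA_half {P : Type} [PartialOrder P] {Rw Dd U : P → Prop} {ps : P → ℕ} {s : ℕ}
    (hd : ∀ r, Rw r → ∃ x, Dd x ∧ ¬ r < x ∧ ∀ x', Dd x' → ¬ r < x' → x' = x)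
    (hu : ∀ x, U x → ∃ r, Rw r ∧ ¬ r < x ∧ ∀ r', Rw r' → ¬ r' < x → r' = r)
    (hDU : ∀ d, Dd d → U d) (hRU : ∀ x, U x → ¬ Rw x)
    (hi : ∀ d d', Dd d → Dd d' → ps d = ps d' → d = d') (hs : ∀ d, Dd d → ps d < s)
    (hsj : ∀ a, a < s → ∃ d, Dd d ∧ ps d = a) :
    ∃ rp : P → ℕ, (∀ r, Rw r → rp r < s) ∧ (∀ r r', Rw r → Rw r' → rp r = rp r' → r = r') ∧
      (∀ a, a < s → ∃ r, Rw r ∧ rp r = a) ∧ (∀ x r, U x → Rw r → (r < x ↔ rp r ≠ rp x)) ∧
      (∀ x, U x → rp x < s) ∧
      (∀ x y, U x → U y → (rp x = rp y ↔ ∀ r, Rw r → (r < x ↔ r < y))) ∧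
      ∀ d, Dd d → rp d = ps d := by
  classical
  -- the diagonal cell of a row
  choose! dd hdd using hd
  choose! mr hmr using hu
  obtain ⟨rp, hrp⟩ : ∃ rp : P → ℕ, rp = fun x => if Rw x then ps (dd x) else ps (dd (mr x)) :=
    ⟨_, rfl⟩
  have e1 : ∀ r, Rw r → rp r = ps (dd r) := fun r hr => by rw [hrp]; exact if_pos hr
  have e2 : ∀ x, U x → rp x = rp (mr x) := fun x hx => by
    rw [e1 _ (hmr x hx).1, hrp]
    exact if_neg (hRU x hx)
  have e3 : ∀ r r', Rw r → Rw r' → rp r = rp r' → r = r' := by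
    intro r r' hr hr' h
    rw [e1 r hr, e1 r' hr'] at h
    have h1 := hi _ _ (hdd r hr).1 (hdd r' hr').1 h
    have h2 := (hmr (dd r) (hDU _ (hdd r hr).1)).2.2
    rw [h2 r hr (hdd r hr).2.1, h2 r' hr' (by rw [h1]; exact (hdd r' hr').2.1)]
  have e4 : ∀ x r, U x → Rw r → (r < x ↔ rp r ≠ rp x) := by
    intro x r hx hr
    obtain ⟨h1, h2, h3⟩ := hmr x hx
    rw [e2 x hx]
    constructor
    · intro h h4
      have h5 := e3 _ _ hr h1 h4
      rw [h5] at h
      exact h2 h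
    · intro h
      by_contra h4
      exact h (by rw [h3 r hr h4])
  have e5 : ∀ d, Dd d → rp d = ps d := by
    intro d hd
    have hU := hDU d hd
    obtain ⟨h1, h2, h3⟩ := hmr d hU
    rw [e2 d hU, e1 _ h1, ← (hdd _ h1).2.2 d hd h2]
  refine ⟨rp, fun r hr => ?_, e3, fun a ha => ?_, e4, fun x hx => ?_, fun x y hx hy => ?_, e5⟩
  · rw [e1 r hr]
    exact hs _ (hdd r hr).1
  · obtain ⟨d, hd, h⟩ := hsj a ha
    refine ⟨mr d, (hmr d (hDU d hd)).1, ?_⟩
    rw [← e2 d (hDU d hd), e5 d hd, h]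
  · rw [e2 x hx, e1 _ (hmr x hx).1]
    exact hs _ (hdd _ (hmr x hx).1).1
  · constructor
    · intro h r hr
      rw [e4 x r hx hr, e4 y r hy hr, h]
    · intro h
      have h1 := hmr x hx
      have h2 := hmr y hy
      have h3 : ¬ mr x < y := fun h4 => h1.2.1 ((h _ h1.1).2 h4)
      rw [e2 x hx, e2 y hy, h2.2.2 _ h1.1 h3]

theorem exists_RC {P : Type} [PartialOrder P] [Finite P] {X : ℕ → LowerSet P} (V : Val X) :
    ∃ (s : ℕ) (rp cp : P → ℕ), RC X s rp cp := by
  obtain ⟨s, hs⟩ : ∃ s, s = Set.ncard {d | Dg X d} := ⟨_, rfl⟩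
  have hps : ∀ d, Dg X d → DecA_ps X d < s := fun d hd => by rw [hs]; exact DecA_s hd
  have hsj : ∀ a, a < s → ∃ d, Dg X d ∧ DecA_ps X d = a := fun a ha =>
    DecA_surj V (by rw [← hs]; exact ha)
  have hinj : ∀ d d', Dg X d → Dg X d' → DecA_ps X d = DecA_ps X d' → d = d' :=
    fun d d' hd hd' h => DecA_inj V hd hd' h
  obtain ⟨rp, r1, r2, r3, r4, r5, r6, r7⟩ := DecA_half (Rw := fun r => r ∈ X 0) (Dd := Dg X)
    (U := fun x => Ce X x ∨ Er X x) V.dr (by
      rintro x (hx | hx)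
      · exact V.cr x hx
      · exact V.err x hx) (fun d hd => Or.inl hd.1) (by
      rintro x (hx | hx) h
      · exact hx.2 (V.i01 x h)
      · exact hx.2 (V.i23 x (V.i12 x (V.i01 x h)))) hinj hps hsj
  obtain ⟨cp, c1, c2, c3, c4, c5, c6, c7⟩ := DecA_half (Rw := fun c => Co X c) (Dd := Dg X)
    (U := fun x => Ce X x ∨ Ec X x) V.dc (by
      rintro x (hx | hx)
      · exact V.cc x hx
      · exact V.ecc x hx) (fun d hd => Or.inl hd.1) (by
      rintro x (hx | hx) h
      · exact hx.2 h.1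
      · exact hx.2 (V.i12 x h.1)) hinj hps hsj
  have hceI : ∀ x y, Ce X x → Ce X y → rp x = rp y → cp x = cp y → x = y := by
    intro x y hx hy h1 h2
    exact V.uq x y hx hy ((r6 x y (Or.inl hx) (Or.inl hy)).1 h1)
      ((c6 x y (Or.inl hx) (Or.inl hy)).1 h2)
  refine ⟨s, rp, cp, ?_⟩
  exact
    { hs := by
        obtain ⟨d, d', d'', h1, h2, h3, h4, h5, h6⟩ := V.three
        rw [hs]
        exact (Set.two_lt_ncard_iff (Set.toFinite _)).2 ⟨d, d', d'', h1, h2, h3, h4, h5, h6⟩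
      ro := r1
      roI := r2
      roS := r3
      co := c1
      coI := c2
      coS := c3
      ceR := fun x r hx hr => r4 x r (Or.inl hx) hr
      ceC := fun x c hx hc => c4 x c (Or.inl hx) hc
      ce := fun x hx => ⟨r5 x (Or.inl hx), c5 x (Or.inl hx)⟩
      ceI := hceI
      ceS := by
        intro a b ha hb
        obtain ⟨r, hr, hra⟩ := r3 a ha
        obtain ⟨c, hc, hcb⟩ := c3 b hb
        obtain ⟨x, hx, h1, h2⟩ := V.ex r c hr hc
        refine ⟨x, hx, ?_, ?_⟩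
        · by_contra h
          exact h1 ((r4 x r (Or.inl hx) hr).2 (by rw [hra]; exact Ne.symm h))
        · by_contra h
          exact h2 ((c4 x c (Or.inl hx) hc).2 (by rw [hcb]; exact Ne.symm h))
      dg := by
        intro x hx
        constructor
        · intro h
          rw [r7 x ⟨hx, h⟩, c7 x ⟨hx, h⟩]
        · intro h
          obtain ⟨d, hd, hda⟩ := hsj (rp x) (r5 x (Or.inl hx))
          have h1 : x = d := hceI x d hx hd.1 (by rw [r7 d hd, hda]) (by rw [c7 d hd, hda, h])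
          rw [h1]
          exact hd.2
      le := by
        intro x hx
        obtain ⟨d, hd, hda⟩ := hsj (rp x) (r5 x (Or.inl hx))
        obtain ⟨d', hd', hda'⟩ := hsj (cp x) (c5 x (Or.inl hx))
        have h1 : DLe X d d' ↔ rp x ≤ cp x := by
          rw [DecA_le V hd hd', hda, hda']
        rw [← h1]
        constructor
        · intro h
          exact ⟨x, ⟨hx, (r6 x d (Or.inl hx) (Or.inl hd.1)).1 (by rw [r7 d hd, hda]),
            (c6 x d' (Or.inl hx) (Or.inl hd'.1)).1 (by rw [c7 d' hd', hda'])⟩, h⟩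
        · rintro ⟨z, ⟨hz, hz1, hz2⟩, hz6⟩
          have h2 : rp z = rp d := (r6 z d (Or.inl hz) (Or.inl hd.1)).2 hz1
          have h3 : cp z = cp d' := (c6 z d' (Or.inl hz) (Or.inl hd'.1)).2 hz2
          have h4 : x = z := hceI x z hx hz (by rw [h2, r7 d hd, hda])
            (by rw [h3, c7 d' hd', hda'])
          rw [h4]
          exact hz6
      ec := fun x hx => c5 x (Or.inr hx)
      ecC := fun x c hx hc => c4 x c (Or.inr hx) hc
      ecI := fun x y hx hy h => V.ecu x y hx hy ((c6 x y (Or.inr hx) (Or.inr hy)).1 h)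
      ecS := by
        intro x b hx hb
        have h0 := c5 x (Or.inr hx)
        obtain ⟨d', hd', hda'⟩ := hsj (cp x) h0
        obtain ⟨d, hd, hda⟩ := hsj b (hb.trans h0)
        have h1 : DLe X d d' := by
          rw [DecA_le V hd hd', hda, hda']
          exact hb.le
        obtain ⟨y, hy, hyd⟩ := V.eci x d d' hx
          ((c6 x d' (Or.inr hx) (Or.inl hd'.1)).1 (by rw [c7 d' hd', hda'])) hd hd' h1
        refine ⟨y, hy, ?_⟩
        rw [(c6 y d (Or.inr hy) (Or.inl hd.1)).2 hyd, c7 d hd, hda]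
      er := fun x hx => r5 x (Or.inr hx)
      erR := fun x r hx hr => r4 x r (Or.inr hx) hr
      erI := fun x y hx hy h => V.eru x y hx hy ((r6 x y (Or.inr hx) (Or.inr hy)).1 h)
      erS := by
        intro x b hx hb
        have h0 := r5 x (Or.inr hx)
        obtain ⟨d', hd', hda'⟩ := hsj (rp x) h0
        obtain ⟨d, hd, hda⟩ := hsj b (hb.trans h0)
        have h1 : DLe X d d' := by
          rw [DecA_le V hd hd', hda, hda']
          exact hb.le
        obtain ⟨y, hy, hyd⟩ := V.eri x d d' hx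
          ((r6 x d' (Or.inr hx) (Or.inl hd'.1)).1 (by rw [r7 d' hd', hda'])) hd hd' h1
        refine ⟨y, hy, ?_⟩
        rw [(r6 y d (Or.inr hy) (Or.inl hd.1)).2 hyd, r7 d hd, hda]
      erE := by
        intro x b hx hb
        obtain ⟨d, hd, hda⟩ := hsj b hb
        obtain ⟨y, hy, hyd⟩ := V.ecer x d hx hd
        refine ⟨y, hy, ?_⟩
        rw [(c6 y d (Or.inr hy) (Or.inl hd.1)).2 hyd, c7 d hd, hda] }

end Pool.Agent.Lib.MP_586990_lc.R
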