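import Pool.Agent.Lib.MP_586990_lc_R.RCLem

set_option autoImplicit false

/-!
# The numbers of the lower elements and of the units
-/

namespace Pool.Agent.Lib.MP_586990_lc.R

/-- A bounded initial segment. -/
private theorem DecB_seg (p : ℕ → Prop) (s : ℕ) (hp : ∀ b, p b → b < s)
    (hd : ∀ b c, p b → c < b → p c) : ∃ t, t ≤ s ∧ ∀ b, p b ↔ b < t := by
  classical
  have h : ∃ t, ¬ p t := ⟨s, fun h => (hp s h).false⟩
  refine ⟨Nat.find h, Nat.find_min' h (fun h => (hp s h).false),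
    fun b => ⟨fun hb => ?_, fun hb => ?_⟩⟩
  · by_contra hcon
    push Not at hcon
    rcases hcon.eq_or_lt with e | l
    · exact Nat.find_spec h (e ▸ hb)
    · exact Nat.find_spec h (hd _ _ hb l)
  · by_contra hn
    exact absurd (Nat.find_min' h hn) (not_le.2 hb)

private theorem DecB_div {s a b : ℕ} (hb : b < s) :
    (a * s + b) / s = a ∧ (a * s + b) % s = b := by
  have hs : 0 < s := by omega
  constructor
  · rw [Nat.add_comm, Nat.add_mul_div_right _ _ hs, Nat.div_eq_of_lt hb, Nat.zero_add]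
  · rw [Nat.add_comm, Nat.add_mul_mod_self_right, Nat.mod_eq_of_lt hb]

private theorem DecB_lt {s a b : ℕ} (ha : a < s) (hb : b < s) : a * s + b < s * s := by
  have h1 : (a + 1) * s ≤ s * s := Nat.mul_le_mul_right s ha
  have h2 : (a + 1) * s = a * s + s := by ring
  omega

theorem exists_CF {P : Type} [PartialOrder P] [Finite P] {X : ℕ → LowerSet P} (V : Val X)
    {s : ℕ} {rp cp : P → ℕ} (h : RC X s rp cp) : ∃ (t : ℕ) (f : P → ℕ), CF X s t f := by
  classical
  obtain ⟨tc, htc, hc⟩ := DecB_seg (fun b => ∃ y, Ec X y ∧ cp y = b) s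
    (by
      rintro b ⟨y, hy, rfl⟩
      exact h.ec y hy)
    (by
      rintro b c ⟨y, hy, rfl⟩ hcb
      exact h.ecS y c hy hcb)
  obtain ⟨tr, htr, hr⟩ := DecB_seg (fun a => ∃ y, Er X y ∧ rp y = a) s
    (by
      rintro b ⟨y, hy, rfl⟩
      exact h.er y hy)
    (by
      rintro b c ⟨y, hy, rfl⟩ hcb
      exact h.erS y c hy hcb)
  have hs3 := h.hs
  have htcs : 0 < tr → tc = s := by
    intro h0
    obtain ⟨y, hy, -⟩ := (hr 0).2 h0
    have h1 := h.erE y (s - 1) hy (by omega)
    have h2 := (hc (s - 1)).1 h1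
    omega
  obtain ⟨f, hf⟩ : ∃ f : P → ℕ, f = fun x => if x ∈ X 0 then rp x else
    if x ∈ X 1 then s + cp x else uf X s rp cp x := ⟨_, rfl⟩
  have fR : ∀ x, x ∈ X 0 → f x = rp x := by
    intro x hx
    rw [hf]
    simp only [if_pos hx]
  have fC : ∀ x, Co X x → f x = s + cp x := by
    intro x hx
    rw [hf]
    simp only [if_neg hx.2, if_pos hx.1]
  have fU : ∀ x, Un X x → f x = uf X s rp cp x := by
    intro x hx
    have h0 : x ∉ X 0 := fun h0 => hx.2 (V.i01 x h0)
    rw [hf]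
    simp only [if_neg h0, if_neg hx.2]
  have ceU : ∀ x, Ce X x → Un X x := fun x hx => ⟨V.i34 x (V.i23 x hx.1), hx.2⟩
  have ecU : ∀ x, Ec X x → Un X x := fun x hx => ⟨V.i34 x hx.1, fun h1 => hx.2 (V.i12 x h1)⟩
  have erU : ∀ x, Er X x → Un X x := fun x hx =>
    ⟨hx.1, fun h1 => hx.2 (V.i23 x (V.i12 x h1))⟩
  have fCe : ∀ x, Ce X x → f x = rp x * s + cp x := by
    intro x hx
    rw [fU x (ceU x hx), uf, if_pos hx.1]
  have fEc : ∀ x, Ec X x → f x = s * s + cp x := by
    intro x hx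
    rw [fU x (ecU x hx), uf, if_neg hx.2, if_pos hx.1]
  have fEr : ∀ x, Er X x → f x = s * s + s + rp x := by
    intro x hx
    have h2 : x ∉ X 2 := fun h2 => hx.2 (V.i23 x h2)
    rw [fU x (erU x hx), uf, if_neg h2, if_neg hx.2]
  have cases3 : ∀ x, Un X x → Ce X x ∨ Ec X x ∨ Er X x := by
    intro x hx
    by_cases h2 : x ∈ X 2
    · exact Or.inl ⟨h2, hx.2⟩
    · by_cases h3 : x ∈ X 3
      · exact Or.inr (Or.inl ⟨h3, h2⟩)
      · exact Or.inr (Or.inr ⟨hx.1, h3⟩)
  have cases2 : ∀ x, x ∈ X 1 → x ∈ X 0 ∨ Co X x := by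
    intro x hx
    by_cases h0 : x ∈ X 0
    · exact Or.inl h0
    · exact Or.inr ⟨hx, h0⟩
  have rE : ∀ x, Er X x → rp x < tr := fun x hx => (hr (rp x)).1 ⟨x, hx, rfl⟩
  have cE : ∀ x, Ec X x → cp x < tc := fun x hx => (hc (cp x)).1 ⟨x, hx, rfl⟩
  refine ⟨tc + tr, f, h.hs, by omega, ?_, ?_, ?_, ?_, ?_, ?_, ?_, ?_, ?_, ?_, ?_, ?_, ?_⟩
  · -- ro
    intro x hx
    rcases cases2 x hx with h0 | h0
    · have h1 := h.ro x h0
      rw [fR x h0]
      exact ⟨fun _ => h1, fun _ => h0⟩
    · rw [fC x h0]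
      exact ⟨fun h1 => absurd h1 h0.2, fun h1 => by omega⟩
  · -- lo
    intro x hx
    rcases cases2 x hx with h0 | h0
    · have h1 := h.ro x h0
      rw [fR x h0]
      omega
    · have h1 := h.co x h0
      rw [fC x h0]
      omega
  · -- loI
    intro x y hx hy hxy
    rcases cases2 x hx with h0 | h0 <;> rcases cases2 y hy with h1 | h1
    · rw [fR x h0, fR y h1] at hxy
      exact h.roI x y h0 h1 hxy
    · rw [fR x h0, fC y h1] at hxy
      have := h.ro x h0
      omega
    · rw [fC x h0, fR y h1] at hxy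
      have := h.ro y h1
      omega
    · rw [fC x h0, fC y h1] at hxy
      exact h.coI x y h0 h1 (by omega)
  · -- loS
    intro r hr'
    by_cases h0 : r < s
    · obtain ⟨x, hx, rfl⟩ := h.roS r h0
      exact ⟨x, V.i01 x hx, fR x hx⟩
    · obtain ⟨x, hx, hxr⟩ := h.coS (r - s) (by omega)
      refine ⟨x, hx.1, ?_⟩
      rw [fC x hx, hxr]
      omega
  · -- un
    intro x hx
    rcases cases3 x hx with h0 | h0 | h0
    · rw [fCe x h0]
      have := DecB_lt (h.ce x h0).1 (h.ce x h0).2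
      omega
    · rw [fEc x h0]
      have := cE x h0
      omega
    · rw [fEr x h0]
      have h1 := rE x h0
      have h2 := htcs (by omega)
      omega
  · -- unI
    intro x y hx hy hxy
    rcases cases3 x hx with h0 | h0 | h0 <;> rcases cases3 y hy with h1 | h1 | h1
    · rw [fCe x h0, fCe y h1] at hxy
      have h2 := DecB_div (a := rp x) (h.ce x h0).2
      have h3 := DecB_div (a := rp y) (h.ce y h1).2
      rw [hxy] at h2
      exact h.ceI x y h0 h1 (h2.1.symm.trans h3.1) (h2.2.symm.trans h3.2)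
    · rw [fCe x h0, fEc y h1] at hxy
      have := DecB_lt (h.ce x h0).1 (h.ce x h0).2
      omega
    · rw [fCe x h0, fEr y h1] at hxy
      have := DecB_lt (h.ce x h0).1 (h.ce x h0).2
      omega
    · rw [fEc x h0, fCe y h1] at hxy
      have := DecB_lt (h.ce y h1).1 (h.ce y h1).2
      omega
    · rw [fEc x h0, fEc y h1] at hxy
      exact h.ecI x y h0 h1 (by omega)
    · rw [fEc x h0, fEr y h1] at hxy
      have := h.ec x h0
      omega
    · rw [fEr x h0, fCe y h1] at hxy
      have := DecB_lt (h.ce y h1).1 (h.ce y h1).2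
      omega
    · rw [fEr x h0, fEc y h1] at hxy
      have := h.ec y h1
      omega
    · rw [fEr x h0, fEr y h1] at hxy
      exact h.erI x y h0 h1 (by omega)
  · -- unS
    intro i hi
    by_cases h0 : i < s * s
    · have h1 : i / s < s := Nat.div_lt_of_lt_mul h0
      have h2 : i % s < s := Nat.mod_lt _ (by omega)
      obtain ⟨x, hx, hxr, hxc⟩ := h.ceS _ _ h1 h2
      refine ⟨x, ceU x hx, ?_⟩
      rw [fCe x hx, hxr, hxc]
      exact Nat.div_add_mod' i s
    · by_cases h1 : i < s * s + tc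
      · obtain ⟨x, hx, hxc⟩ := (hc (i - s * s)).2 (by omega)
        refine ⟨x, ecU x hx, ?_⟩
        rw [fEc x hx, hxc]
        omega
      · have h2 := htcs (by omega)
        obtain ⟨x, hx, hxc⟩ := (hr (i - (s * s + s))).2 (by omega)
        refine ⟨x, erU x hx, ?_⟩
        rw [fEr x hx, hxc]
        omega
  · -- ce
    intro x hx
    rcases cases3 x hx with h0 | h0 | h0
    · rw [fCe x h0]
      exact ⟨fun _ => DecB_lt (h.ce x h0).1 (h.ce x h0).2, fun _ => h0.1⟩
    · rw [fEc x h0]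
      exact ⟨fun h1 => absurd h1 h0.2, fun h1 => by omega⟩
    · rw [fEr x h0]
      exact ⟨fun h1 => absurd (V.i23 x h1) h0.2, fun h1 => by omega⟩
  · -- ec
    intro x hx
    rcases cases3 x hx with h0 | h0 | h0
    · rw [fCe x h0]
      have := DecB_lt (h.ce x h0).1 (h.ce x h0).2
      exact ⟨fun _ => by omega, fun _ => V.i23 x h0.1⟩
    · rw [fEc x h0]
      have := h.ec x h0
      exact ⟨fun _ => by omega, fun _ => h0.1⟩
    · rw [fEr x h0]
      exact ⟨fun h1 => absurd h1 h0.2, fun h1 => by omega⟩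
  · -- dg
    intro x hx
    rcases cases3 x hx with h0 | h0 | h0
    · rw [fCe x h0, (DecB_div (a := rp x) (h.ce x h0).2).1, (DecB_div (h.ce x h0).2).2,
        h.dg x h0]
      exact ⟨fun h1 => ⟨DecB_lt (h.ce x h0).1 (h.ce x h0).2, h1⟩, fun h1 => h1.2⟩
    · rw [fEc x h0]
      exact ⟨fun h1 => absurd (V.i62 x (V.i56 x h1)) h0.2, fun h1 => by omega⟩
    · rw [fEr x h0]
      exact ⟨fun h1 => absurd (V.i23 x (V.i62 x (V.i56 x h1))) h0.2, fun h1 => by omega⟩
  · -- le
    intro x hx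
    rcases cases3 x hx with h0 | h0 | h0
    · rw [fCe x h0, (DecB_div (a := rp x) (h.ce x h0).2).1, (DecB_div (h.ce x h0).2).2,
        h.le x h0]
      exact ⟨fun h1 => ⟨DecB_lt (h.ce x h0).1 (h.ce x h0).2, h1⟩, fun h1 => h1.2⟩
    · rw [fEc x h0]
      exact ⟨fun h1 => absurd (V.i62 x h1) h0.2, fun h1 => by omega⟩
    · rw [fEr x h0]
      exact ⟨fun h1 => absurd (V.i23 x (V.i62 x h1)) h0.2, fun h1 => by omega⟩
  · -- ms
    intro r x hr' hx
    unfold Miss
    rcases cases3 x hx with h0 | h0 | h0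
    · have hlt := DecB_lt (h.ce x h0).1 (h.ce x h0).2
      have hb := h.ce x h0
      rw [fCe x h0, (DecB_div (a := rp x) (h.ce x h0).2).1, (DecB_div (h.ce x h0).2).2]
      rcases cases2 r hr' with h1 | h1
      · have h2 := h.ro r h1
        rw [fR r h1, h.ceR x r h0 h1]
        omega
      · have h2 := h.co r h1
        rw [fC r h1, h.ceC x r h0 h1]
        omega
    · have hb := h.ec x h0
      rw [fEc x h0]
      rcases cases2 r hr' with h1 | h1
      · have h2 := h.ro r h1
        rw [fR r h1]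
        exact ⟨fun _ => by omega, fun _ => V.ecr x r h0 h1⟩
      · have h2 := h.co r h1
        rw [fC r h1, h.ecC x r h0 h1]
        omega
    · have hb := h.er x h0
      rw [fEr x h0]
      rcases cases2 r hr' with h1 | h1
      · have h2 := h.ro r h1
        rw [fR r h1, h.erR x r h0 h1]
        omega
      · have h2 := h.co r h1
        rw [fC r h1]
        exact ⟨fun _ => by omega, fun _ => V.erc x r h0 h1⟩
  · -- ul
    intro x y hx hy
    rw [h.ul V.i12 V.i23 hx hy, fU x hx, fU y hy]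

end Pool.Agent.Lib.MP_586990_lc.R
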