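import Pool.Agent.Lib.MP_586990_lc_R.LatRel

set_option autoImplicit false

/-!
# The isomorphism with `PT ω`
-/

namespace Pool.Agent.Lib.MP_586990_lc.R

/-- the number of an upper element -/
private theorem DecC_key {P : Type} [PartialOrder P] {X : ℕ → LowerSet P} (V : Val X)
    {s t : ℕ} {f : P → ℕ} (h : CF X s t f) (g : P) :
    ∃ j, g ∉ X 4 → (j ≤ s * s + t ∧ ∀ x, Un X x → (x < g ↔ j ≤ f x)) := by
  by_cases hg : g ∈ X 4
  · exact ⟨0, fun h => absurd hg h⟩
  have hne : {k : ℕ | ∀ x, Un X x → k ≤ f x → x < g}.Nonempty := by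
    refine ⟨s * s + t, fun x hx hk => ?_⟩
    have := h.un x hx
    omega
  refine ⟨sInf {k : ℕ | ∀ x, Un X x → k ≤ f x → x < g}, fun _ => ⟨?_, fun x hx => ⟨?_, ?_⟩⟩⟩
  · refine Nat.sInf_le fun x hx hk => ?_
    have := h.un x hx
    omega
  · intro hxg
    refine Nat.sInf_le fun y hy hk => ?_
    rcases eq_or_lt_of_le hk with h1 | h1
    · rw [← h.unI x y hx hy h1]
      exact hxg
    · exact V.gi g x y hg ((h.ul x y hx hy).2 h1) hxg
  · intro hk
    exact Nat.sInf_mem hne x hx hk

theorem exists_Pres {P : Type} [PartialOrder P] [Finite P] {X : ℕ → LowerSet P} (V : Val X)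
    {s t : ℕ} {f : P → ℕ} (h : CF X s t f) : ∃ ω, Pres X ω := by
  classical
  choose j hj using DecC_key V h
  have h14 : ∀ x, x ∈ X 1 → x ∈ X 4 := fun x hx => V.i34 x (V.i23 x (V.i12 x hx))
  have hfin : (j '' {g | g ∉ X 4}).Finite := Set.toFinite _
  have hJ : ∀ i ∈ hfin.toFinset, i ≤ s * s + t := by
    intro i hi
    rw [Set.Finite.mem_toFinset] at hi
    obtain ⟨g, hg, rfl⟩ := hi
    exact (hj g hg).1
  have hmem : ∀ g, g ∉ X 4 → j g ∈ hfin.toFinset := by
    intro g hg
    rw [Set.Finite.mem_toFinset]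
    exact ⟨g, hg, rfl⟩
  set ω : Wd := ⟨s, t, hfin.toFinset, h.hs, h.ht, hJ⟩ with hω
  -- the map
  set e : P → PT ω := fun x => if h1 : x ∈ X 1 then PT.lo ⟨f x, h.lo x h1⟩ else
    if h4 : x ∈ X 4 then PT.un ⟨f x, h.un x ⟨h4, h1⟩⟩ else PT.up ⟨j x, hmem x h4⟩ with he
  have elo : ∀ x (h1 : x ∈ X 1), e x = PT.lo ⟨f x, h.lo x h1⟩ := by
    intro x h1
    simp only [he, dif_pos h1]
  have eun : ∀ x (h1 : Un X x), e x = PT.un ⟨f x, h.un x h1⟩ := by
    intro x h1
    simp only [he, dif_neg h1.2, dif_pos h1.1]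
  have eup : ∀ x (h1 : x ∉ X 4), e x = PT.up ⟨j x, hmem x h1⟩ := by
    intro x h1
    simp only [he, dif_neg fun h2 => h1 (h14 x h2), dif_neg h1]
  have cases3 : ∀ x, x ∈ X 1 ∨ Un X x ∨ x ∉ X 4 := by
    intro x
    by_cases h1 : x ∈ X 1
    · exact Or.inl h1
    · by_cases h4 : x ∈ X 4
      · exact Or.inr (Or.inl ⟨h4, h1⟩)
      · exact Or.inr (Or.inr h4)
  have hinj : Function.Injective e := by
    intro x y hxy
    rcases cases3 x with hx | hx | hx <;> rcases cases3 y with hy | hy | hy
    · rw [elo x hx, elo y hy] at hxy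
      refine h.loI x y hx hy ?_
      have h1 := Sum.inl_injective hxy
      exact Fin.mk.inj h1
    · rw [elo x hx, eun y hy] at hxy
      cases hxy
    · rw [elo x hx, eup y hy] at hxy
      cases hxy
    · rw [eun x hx, elo y hy] at hxy
      cases hxy
    · rw [eun x hx, eun y hy] at hxy
      refine h.unI x y hx hy ?_
      have h1 := Sum.inl_injective (Sum.inr_injective hxy)
      exact Fin.mk.inj h1
    · rw [eun x hx, eup y hy] at hxy
      have h1 := Sum.inr_injective hxy
      cases h1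
    · rw [eup x hx, elo y hy] at hxy
      cases hxy
    · rw [eup x hx, eun y hy] at hxy
      have h1 := Sum.inr_injective hxy
      cases h1
    · rw [eup x hx, eup y hy] at hxy
      have h1 := Sum.inr_injective (Sum.inr_injective hxy)
      have h2 : j x = j y := congrArg Subtype.val h1
      refine V.gu x y hx hy fun u hu => ?_
      rw [(hj x hx).2 u hu, (hj y hy).2 u hu, h2]
  have hsurj : Function.Surjective e := by
    rintro (r | k | i)
    · obtain ⟨x, hx, hr⟩ := h.loS r r.2
      refine ⟨x, ?_⟩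
      rw [elo x hx]
      exact congrArg Sum.inl (Fin.ext hr)
    · obtain ⟨x, hx, hr⟩ := h.unS k k.2
      refine ⟨x, ?_⟩
      rw [eun x hx]
      exact congrArg (fun a => Sum.inr (Sum.inl a)) (Fin.ext hr)
    · obtain ⟨i, hi⟩ := i
      have hi' : i ∈ hfin.toFinset := hi
      rw [Set.Finite.mem_toFinset] at hi'
      obtain ⟨g, hg, rfl⟩ := hi'
      exact ⟨g, eup g hg⟩
  have hlt : ∀ x y, x < y ↔ ptLt ω (e x) (e y) := by
    intro x y
    rcases cases3 x with hx | hx | hx <;> rcases cases3 y with hy | hy | hy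
    · rw [elo x hx, elo y hy]
      exact ⟨fun h1 => (V.lo x y hy h1).elim, fun h1 => h1.elim⟩
    · rw [elo x hx, eun y hy]
      exact h.ms x y hx hy
    · rw [elo x hx, eup y hy]
      exact ⟨fun _ => trivial, fun _ => V.up x y hy hx⟩
    · rw [eun x hx, elo y hy]
      exact ⟨fun h1 => (V.lo x y hy h1).elim, fun h1 => h1.elim⟩
    · rw [eun x hx, eun y hy]
      exact ⟨fun h1 => (hx.2 (V.un x y hy h1)).elim, fun h1 => h1.elim⟩
    · rw [eun x hx, eup y hy]
      exact (hj y hy).2 x hx
    · rw [eup x hx, elo y hy]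
      exact ⟨fun h1 => (V.lo x y hy h1).elim, fun h1 => h1.elim⟩
    · rw [eup x hx, eun y hy]
      exact ⟨fun h1 => (hx (h14 x (V.un x y hy h1))).elim, fun h1 => h1.elim⟩
    · rw [eup x hx, eup y hy, V.gg x y hx hy]
      change _ ↔ j y < j x
      constructor
      · rintro ⟨u, hu, h1, h2⟩
        rw [(hj y hy).2 u hu] at h1
        rw [(hj x hx).2 u hu] at h2
        omega
      · intro h1
        have h2 := (hj x hx).1
        obtain ⟨u, hu, h3⟩ := h.unS (j y) (by omega)
        refine ⟨u, hu, ?_, ?_⟩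
        · rw [(hj y hy).2 u hu]
          omega
        · rw [(hj x hx).2 u hu]
          omega
  refine ⟨ω, Equiv.ofBijective e ⟨hinj, hsurj⟩, fun x y => ?_, fun i hi x => ?_⟩
  · change x ≤ y ↔ (e x = e y ∨ ptLt ω (e x) (e y))
    rw [← hlt x y, hinj.eq_iff, le_iff_eq_or_lt]
  · rw [mem_par]
    change x ∈ X i ↔ parMem ω i (e x)
    rcases cases3 x with hx | hx | hx
    · rw [elo x hx]
      change x ∈ X i ↔ if i = 0 then f x < s else i < 7
      have h2 := V.i12 x hx
      have h3 := V.i23 x h2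
      have h4 := V.i34 x h3
      have h5 := V.i15 x hx
      have h6 := V.i56 x h5
      interval_cases i
      · simpa using h.ro x hx
      · simpa using hx
      · simpa using h2
      · simpa using h3
      · simpa using h4
      · simpa using h5
      · simpa using h6
    · rw [eun x hx]
      change x ∈ X i ↔ (i = 2 ∧ f x < s * s) ∨ (i = 3 ∧ f x < s * s + s) ∨ i = 4 ∨
        (i = 5 ∧ f x < s * s ∧ f x / s = f x % s) ∨
        (i = 6 ∧ f x < s * s ∧ f x / s ≤ f x % s)
      interval_cases i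
      · simpa using fun h0 => hx.2 (V.i01 x h0)
      · simpa using hx.2
      · simpa using h.ce x hx
      · simpa using h.ec x hx
      · simpa using hx.1
      · simpa using h.dg x hx
      · simpa using h.le x hx
    · rw [eup x hx]
      change x ∈ X i ↔ False
      have n3 : x ∉ X 3 := fun h => hx (V.i34 x h)
      have n2 : x ∉ X 2 := fun h => n3 (V.i23 x h)
      have n1 : x ∉ X 1 := fun h => n2 (V.i12 x h)
      have n0 : x ∉ X 0 := fun h => n1 (V.i01 x h)
      have n6 : x ∉ X 6 := fun h => n2 (V.i62 x h)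
      have n5 : x ∉ X 5 := fun h => n6 (V.i56 x h)
      rw [iff_false]
      interval_cases i
      · exact n0
      · exact n1
      · exact n2
      · exact n3
      · exact hx
      · exact n5
      · exact n6

end Pool.Agent.Lib.MP_586990_lc.R
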