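import Pool.Agent.Lib.MP_586990_lc_R.FrameDef

set_option autoImplicit false

/-!
# Digit calculus: numbers
-/

namespace Pool.Agent.Lib.MP_586990_lc.R

theorem num_lt {β : ℕ} (hβ : 0 < β) {v : ℕ → ℕ} (hv : ∀ i, v i < β) (a e : ℕ) :
    num β v a e < β ^ e := by
  induction e generalizing a with
  | zero => simp [num]
  | succ e ih =>
    have h1 := ih (a + 1)
    have h2 := hv a
    have h3 : β * num β v (a + 1) e + β ≤ β * β ^ e := by
      have : β * (num β v (a + 1) e + 1) ≤ β * β ^ e := Nat.mul_le_mul_left _ h1
      rwa [Nat.mul_add, Nat.mul_one] at this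
    rw [pow_succ']
    show v a + β * num β v (a + 1) e < β * β ^ e
    omega

theorem num_shift (β : ℕ) (v : ℕ → ℕ) (k a e : ℕ) :
    num β (fun i => v (i + k)) a e = num β v (a + k) e := by
  induction e generalizing a with
  | zero => rfl
  | succ e ih =>
    have h := ih (a + 1)
    have h2 : a + 1 + k = a + k + 1 := by omega
    show v (a + k) + β * num β (fun i => v (i + k)) (a + 1) e =
      v (a + k) + β * num β v (a + k + 1) e
    rw [h, h2]

/-- The value of a number depends only on its digits. -/
theorem num_congr {β : ℕ} {v w : ℕ → ℕ} {a b e : ℕ} (h : ∀ i, i < e → v (a + i) = w (b + i)) :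
    num β v a e = num β w b e := by
  induction e generalizing a b with
  | zero => rfl
  | succ e ih =>
    have h0 : v a = w b := h 0 (Nat.succ_pos e)
    have h1 : num β v (a + 1) e = num β w (b + 1) e := by
      apply ih
      intro i hi
      have h2 := h (i + 1) (Nat.succ_lt_succ hi)
      have e1 : a + 1 + i = a + (i + 1) := by omega
      have e2 : b + 1 + i = b + (i + 1) := by omega
      rw [e1, e2]
      exact h2
    show v a + β * num β v (a + 1) e = w b + β * num β w (b + 1) e
    rw [h0, h1]

/-- The digits are determined by the value. -/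
theorem num_inj {β : ℕ} {v w : ℕ → ℕ} {a b e : ℕ} (hv : ∀ i, v i < β) (hw : ∀ i, w i < β)
    (h : num β v a e = num β w b e) (i : ℕ) (hi : i < e) : v (a + i) = w (b + i) := by
  induction e generalizing a b i with
  | zero => exact absurd hi (Nat.not_lt_zero i)
  | succ e ih =>
    have hβ : 0 < β := lt_of_le_of_lt (Nat.zero_le _) (hv 0)
    have h' : v a + β * num β v (a + 1) e = w b + β * num β w (b + 1) e := h
    have h0 : v a = w b := by
      have h1 := congrArg (fun x => x % β) h'
      simpa [Nat.add_mul_mod_self_left, Nat.mod_eq_of_lt (hv a), Nat.mod_eq_of_lt (hw b)]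
        using h1
    have h1 : num β v (a + 1) e = num β w (b + 1) e := by
      rw [h0] at h'
      exact Nat.eq_of_mul_eq_mul_left hβ (Nat.add_left_cancel h')
    rcases i with _ | i
    · exact h0
    · have h2 := ih h1 i (Nat.lt_of_succ_lt_succ hi)
      have e1 : a + (i + 1) = a + 1 + i := by omega
      have e2 : b + (i + 1) = b + 1 + i := by omega
      rw [e1, e2]
      exact h2

/-- Additional digits which are zero. -/
theorem num_zeros {β : ℕ} {v : ℕ → ℕ} {a e e' : ℕ} (he : e ≤ e')
    (h : ∀ i, e ≤ i → i < e' → v (a + i) = 0) : num β v a e' = num β v a e := by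
  induction e generalizing a e' with
  | zero =>
    clear he
    induction e' generalizing a with
    | zero => rfl
    | succ e' ih =>
      have h0 : v a = 0 := h 0 (Nat.zero_le _) (Nat.succ_pos e')
      have h1 : num β v (a + 1) e' = num β v (a + 1) 0 := by
        apply ih
        intro i _ hi
        have h2 := h (i + 1) (Nat.zero_le _) (Nat.succ_lt_succ hi)
        have e1 : a + 1 + i = a + (i + 1) := by omega
        rw [e1]
        exact h2
      show v a + β * num β v (a + 1) e' = 0
      rw [h0, h1]
      simp [num]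
  | succ e ih =>
    rcases e' with _ | e'
    · exact absurd he (Nat.not_succ_le_zero e)
    · have h1 : num β v (a + 1) e' = num β v (a + 1) e := by
        apply ih (Nat.le_of_succ_le_succ he)
        intro i hi1 hi2
        have h2 := h (i + 1) (Nat.succ_le_succ hi1) (Nat.succ_lt_succ hi2)
        have e1 : a + 1 + i = a + (i + 1) := by omega
        rw [e1]
        exact h2
      show v a + β * num β v (a + 1) e' = v a + β * num β v (a + 1) e
      rw [h1]

/-- Every number is given by digits. -/
theorem exists_num {β : ℕ} (hβ : 0 < β) (e y : ℕ) (hy : y < β ^ e) :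
    ∃ v : ℕ → ℕ, (∀ i, v i < β) ∧ num β v 0 e = y := by
  induction e generalizing y with
  | zero =>
    refine ⟨fun _ => 0, fun _ => hβ, ?_⟩
    have : y = 0 := by simpa using hy
    rw [this]
    rfl
  | succ e ih =>
    have h1 : y / β < β ^ e := by
      apply Nat.div_lt_of_lt_mul
      rwa [pow_succ'] at hy
    obtain ⟨v, hv, hve⟩ := ih (y / β) h1
    refine ⟨fun i => Nat.casesOn i (y % β) v, ?_, ?_⟩
    · intro i
      rcases i with _ | i
      · exact Nat.mod_lt _ hβ
      · exact hv i
    · have h2 : num β (fun i => Nat.casesOn i (y % β) v : ℕ → ℕ) (0 + 1) e = num β v 0 e := by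
        rw [← num_shift]
      show y % β + β * num β (fun i => Nat.casesOn i (y % β) v : ℕ → ℕ) (0 + 1) e = y
      rw [h2, hve]
      exact Nat.mod_add_div y β

variable {Ω : Type} {β : Ω → ℕ} {Def : (Ω → (ℕ → ℕ) → Prop) → Prop}

/-- Quantification over a number with `e` digits. -/
theorem AFrame.exNum (F : AFrame β Def) (e : ℕ) {S : Ω → (ℕ → ℕ) → ℕ → Prop}
    (h : Def fun ω v => S ω (fun i => v (i + e)) (num (β ω) v 0 e)) :
    Def fun ω v => ∃ y, y < β ω ^ e ∧ S ω v y := by
  induction e generalizing S with
  | zero =>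
    refine F.congr (fun ω v _ => ?_) h
    constructor
    · intro h1
      exact ⟨0, by simp, h1⟩
    · rintro ⟨y, hy, h1⟩
      have : y = 0 := by simpa using hy
      rw [this] at h1
      exact h1
  | succ e ih =>
    have h1 : Def fun ω v => ∃ d, d < β ω ∧
        S ω (fun i => v (i + e)) (d + β ω * num (β ω) v 0 e) := by
      apply F.ex (S := fun ω v d => S ω (fun i => v (i + e)) (d + β ω * num (β ω) v 0 e))
      simp only [num_shift]
      exact h
    have h2 := ih (S := fun ω v y => ∃ d, d < β ω ∧ S ω v (d + β ω * y)) h1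
    refine F.congr (fun ω v _ => ?_) h2
    have hβ : 0 < β ω := lt_of_lt_of_le Nat.zero_lt_two (F.two ω)
    constructor
    · rintro ⟨y, hy, d, hd, hs⟩
      refine ⟨d + β ω * y, ?_, hs⟩
      have h3 : β ω * (y + 1) ≤ β ω * β ω ^ e := Nat.mul_le_mul_left _ hy
      rw [Nat.mul_add, Nat.mul_one] at h3
      rw [pow_succ']
      omega
    · rintro ⟨y, hy, hs⟩
      refine ⟨y / β ω, ?_, y % β ω, Nat.mod_lt _ hβ, ?_⟩
      · apply Nat.div_lt_of_lt_mul
        rwa [pow_succ'] at hy
      · rw [Nat.mod_add_div]
        exact hs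

end Pool.Agent.Lib.MP_586990_lc.R
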