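import Pool.Agent.Lib.MP_586990_lc_R.FrameBase
import Pool.Agent.Lib.MP_586990_lc_R.NumBase

set_option autoImplicit false

/-!
# Digit calculus: relations of numbers
-/

namespace Pool.Agent.Lib.MP_586990_lc.R

namespace AFrame

variable {Ω : Type} {β : Ω → ℕ} {Def : (Ω → (ℕ → ℕ) → Prop) → Prop} {e : ℕ}
  {Q Q' : Ω → (ℕ → ℕ) → Prop}

theorem congrN (F : AFrame β Def)
    (hQ : ∀ ω w, (∀ i, w i < β ω ^ e) → (Q ω w ↔ Q' ω w)) (h : DefN β Def e Q) :
    DefN β Def e Q' := by
  refine F.congr (fun ω v hv => hQ ω _ fun i => ?_) h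
  have h2 := F.two ω
  exact num_lt (by omega) hv _ _

theorem notN (F : AFrame β Def) (h : DefN β Def e Q) : DefN β Def e fun ω w => ¬ Q ω w := F.not h

theorem andN (F : AFrame β Def) (h : DefN β Def e Q) (h' : DefN β Def e Q') :
    DefN β Def e fun ω w => Q ω w ∧ Q' ω w := F.and h h'

theorem orN (F : AFrame β Def) (h : DefN β Def e Q) (h' : DefN β Def e Q') :
    DefN β Def e fun ω w => Q ω w ∨ Q' ω w := F.or h h'

theorem impN (F : AFrame β Def) (h : DefN β Def e Q) (h' : DefN β Def e Q') :
    DefN β Def e fun ω w => Q ω w → Q' ω w := F.imp h h'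

theorem constN (F : AFrame β Def) (p : Prop) : DefN β Def e fun _ _ => p := F.const p

theorem subN (F : AFrame β Def) (f : ℕ → ℕ) (h : DefN β Def e Q) :
    DefN β Def e fun ω w => Q ω fun i => w (f i) := by
  refine F.congr (fun ω v _ => ?_) (F.sub (fun k => f (k / e) * e + k % e) h)
  have h1 : (fun i => num (β ω) (fun j => v (f (j / e) * e + j % e)) (i * e) e) =
      fun i => num (β ω) v (f i * e) e := by
    funext i
    refine num_congr fun j hj => ?_
    have e1 : (i * e + j) / e = i := by
      rw [mul_comm, Nat.mul_add_div (by omega), Nat.div_eq_of_lt hj, add_zero]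
    have e2 : (i * e + j) % e = j := by
      rw [mul_comm, Nat.mul_add_mod, Nat.mod_eq_of_lt hj]
    simp only [e1, e2]
  rw [h1]

theorem exN (F : AFrame β Def) {S : Ω → (ℕ → ℕ) → ℕ → Prop}
    (h : DefN β Def e fun ω w => S ω (fun i => w (i + 1)) (w 0)) :
    DefN β Def e fun ω w => ∃ y, y < β ω ^ e ∧ S ω w y := by
  refine F.exNum e (S := fun ω v y => S ω (fun i => num (β ω) v (i * e) e) y) ?_
  refine F.congr (fun ω v _ => ?_) h
  have h1 : (fun i => num (β ω) (fun j => v (j + e)) (i * e) e) =
      fun i => num (β ω) v ((i + 1) * e) e := by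
    funext i
    rw [num_shift, add_mul, one_mul]
  rw [h1]
  show S ω (fun i => num (β ω) v ((i + 1) * e) e) (num (β ω) v (0 * e) e) ↔ _
  rw [zero_mul]

theorem allN (F : AFrame β Def) {S : Ω → (ℕ → ℕ) → ℕ → Prop}
    (h : DefN β Def e fun ω w => S ω (fun i => w (i + 1)) (w 0)) :
    DefN β Def e fun ω w => ∀ y, y < β ω ^ e → S ω w y := by
  refine F.congrN (Q := fun ω w => ¬ ∃ y, y < β ω ^ e ∧ ¬ S ω w y) (fun ω w _ => ?_)
    (F.notN (F.exN (S := fun ω w y => ¬ S ω w y) (F.notN h)))
  push Not
  rfl

theorem eqN (F : AFrame β Def) (x y : ℕ) : DefN β Def e fun _ w => w x = w y := by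
  have key : ∀ (a b n : ℕ), Def fun _ v => ∀ j, j < n → v (a + j) = v (b + j) := by
    intro a b n
    induction n with
    | zero =>
      refine F.congr (fun ω v _ => ?_) (F.const True)
      exact ⟨fun _ j hj => absurd hj (Nat.not_lt_zero j), fun _ => trivial⟩
    | succ n ih =>
      refine F.congr (fun ω v _ => ?_) (F.and ih (F.eq (a + n) (b + n)))
      constructor
      · rintro ⟨h1, h2⟩ j hj
        rcases Nat.lt_succ_iff_lt_or_eq.1 hj with h3 | rfl
        · exact h1 j h3
        · exact h2
      · intro h1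
        exact ⟨fun j hj => h1 j (by omega), h1 n (by omega)⟩
  refine F.congr (fun ω v hv => ?_) (key (x * e) (y * e) e)
  constructor
  · intro h1
    exact num_congr h1
  · intro h1 j hj
    exact num_inj hv hv h1 j hj

/-- From numbers with many digits to numbers with few digits. -/
theorem restrict (F : AFrame β Def) {e' : ℕ} (he : e ≤ e') (h : DefN β Def e' Q) :
    DefN β Def e Q := by
  refine F.congr (R := fun ω v => ∃ z, z < β ω ∧ (z = 0 ∧ Q ω fun i => num (β ω)
    (fun k => if k % e' < e then v (k / e' * e + k % e') else z) (i * e') e'))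
    (fun ω v _ => ?_)
    (F.ex (S := fun ω v z => z = 0 ∧ Q ω fun i => num (β ω)
      (fun k => if k % e' < e then v (k / e' * e + k % e') else z) (i * e') e')
    (F.and (F.nat 0 0) (F.congr (fun ω v _ => ?_)
      (F.sub (fun k => if k % e' < e then k / e' * e + k % e' + 1 else 0) h))))
  · have h2 := F.two ω
    have h1 : (fun i => num (β ω) (fun k => if k % e' < e then v (k / e' * e + k % e') else 0)
        (i * e') e') = fun i => num (β ω) v (i * e) e := by
      funext i
      rw [num_zeros he]
      · refine num_congr fun j hj => ?_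
        have e1 : (i * e' + j) / e' = i := by
          rw [mul_comm, Nat.mul_add_div (by omega), Nat.div_eq_of_lt (by omega), add_zero]
        have e2 : (i * e' + j) % e' = j := by
          rw [mul_comm, Nat.mul_add_mod, Nat.mod_eq_of_lt (by omega)]
        simp only [e1, e2, hj, if_true]
      · intro j hj hj'
        have e2 : (i * e' + j) % e' = j := by
          rw [mul_comm, Nat.mul_add_mod, Nat.mod_eq_of_lt (by omega)]
        simp only [e2]
        rw [if_neg (by omega)]
    constructor
    · rintro ⟨z, _, rfl, hz⟩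
      rwa [h1] at hz
    · intro hz
      exact ⟨0, by omega, rfl, by rwa [h1]⟩
  · have h1 : (fun k => v (if k % e' < e then k / e' * e + k % e' + 1 else 0)) =
        fun k => if k % e' < e then v (k / e' * e + k % e' + 1) else v 0 := by
      funext k
      split_ifs <;> rfl
    rw [h1]

end AFrame

end Pool.Agent.Lib.MP_586990_lc.R
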