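import Pool.Agent.Lib.MP_586990_lc_R.AddN

set_option autoImplicit false

/-!
# Digit calculus: multiplication by a digit and by the base
-/

namespace Pool.Agent.Lib.MP_586990_lc.R

variable {Ω : Type} {β : Ω → ℕ} {Def : (Ω → (ℕ → ℕ) → Prop) → Prop}

private theorem DigN_cancel {β a b x y : ℕ} (ha : a < β) (hb : b < β) :
    a + β * x = b + β * y ↔ a = b ∧ x = y := by
  have hβ : 0 < β := by omega
  constructor
  · intro h
    have h1 : a = b := by
      have h2 := congrArg (· % β) h
      simpa [Nat.add_mul_mod_self_left, Nat.mod_eq_of_lt ha, Nat.mod_eq_of_lt hb] using h2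
    subst h1
    exact ⟨rfl, Nat.eq_of_mul_eq_mul_left hβ (by omega)⟩
  · rintro ⟨rfl, rfl⟩
    rfl

private theorem DigN_zero (F : AFrame β Def) (k : ℕ) :
    ∀ a : ℕ, Def fun ω v => num (β ω) v a k = 0 := by
  induction k with
  | zero =>
    intro a
    exact F.congr (R := fun _ _ => True) (fun ω v _ => by simp [num]) (F.const True)
  | succ k ih =>
    intro a
    refine F.congr (R := fun ω v => v a = 0 ∧ num (β ω) v (a + 1) k = 0) (fun ω v hv => ?_)
      (F.and (F.nat a 0) (ih (a + 1)))
    have hβ := F.two ω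
    rw [num]
    constructor
    · rintro ⟨h1, h2⟩
      rw [h1, h2]
      simp
    · intro h
      have h1 : v a = 0 := by omega
      have h2 : β ω * num (β ω) v (a + 1) k = 0 := by omega
      rcases Nat.mul_eq_zero.1 h2 with h3 | h3
      · omega
      · exact ⟨h1, h3⟩

private theorem DigN_shift (F : AFrame β Def) (k : ℕ) :
    ∀ a b : ℕ, Def fun ω v => num (β ω) v a k = num (β ω) v b (k + 1) := by
  induction k with
  | zero =>
    intro a b
    refine F.congr (R := fun _ v => v b = 0) (fun ω v _ => ?_) (F.nat b 0)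
    simp only [num, Nat.mul_zero, Nat.add_zero]
    exact eq_comm
  | succ k ih =>
    intro a b
    refine F.congr (R := fun ω v => v a = v b ∧
      num (β ω) v (a + 1) k = num (β ω) v (b + 1) (k + 1)) (fun ω v hv => ?_)
      (F.and (F.eq a b) (ih (a + 1) (b + 1)))
    rw [num.eq_2 (β ω) v b (k + 1), num.eq_2 (β ω) v a k]
    exact (DigN_cancel (hv a) (hv b)).symm

/-- Multiplication by the base. -/
theorem AFrame.shiftN (F : AFrame β Def) (e x y : ℕ) :
    DefN β Def e fun ω w => w y = β ω * w x := by
  unfold DefN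
  cases e with
  | zero => exact F.congr (R := fun _ _ => True) (fun ω v _ => by simp [num]) (F.const True)
  | succ k =>
    refine F.congr (R := fun ω v => v (y * (k + 1)) = 0 ∧
      num (β ω) v (y * (k + 1) + 1) k = num (β ω) v (x * (k + 1)) (k + 1)) (fun ω v hv => ?_)
      (F.and (F.nat (y * (k + 1)) 0) (DigN_shift F k _ _))
    have hβ := F.two ω
    have h1 := DigN_cancel (x := num (β ω) v (y * (k + 1) + 1) k)
      (y := num (β ω) v (x * (k + 1)) (k + 1)) (hv (y * (k + 1))) (show 0 < β ω by omega)
    rw [Nat.zero_add] at h1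
    exact h1.symm

/-- Numbers below the base. -/
theorem AFrame.digN (F : AFrame β Def) (e x : ℕ) : DefN β Def e fun ω w => w x < β ω := by
  unfold DefN
  cases e with
  | zero =>
    refine F.congr (R := fun _ _ => True) (fun ω v _ => ?_) (F.const True)
    have hβ := F.two ω
    simp only [num, true_iff]
    omega
  | succ k =>
    refine F.congr (R := fun ω v => num (β ω) v (x * (k + 1) + 1) k = 0) (fun ω v hv => ?_)
      (DigN_zero F k _)
    have hβ := F.two ω
    have h1 := hv (x * (k + 1))
    change _ ↔ v (x * (k + 1)) + β ω * num (β ω) v (x * (k + 1) + 1) k < β ω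
    constructor
    · intro h
      rw [h]
      simpa using h1
    · intro h
      by_contra h2
      have h3 : 1 ≤ num (β ω) v (x * (k + 1) + 1) k := Nat.one_le_iff_ne_zero.2 h2
      have h4 : β ω * 1 ≤ β ω * num (β ω) v (x * (k + 1) + 1) k := Nat.mul_le_mul_left _ h3
      omega

private theorem DigN_step {β t a b c x y : ℕ} (ht : t < β) (ha : a < β) (hb : b < β)
    (hc : c < β) : (∃ q, q < β ∧ t * a + c = q * β + b ∧ t * x + q = y) ↔
      t * (a + β * x) + c = b + β * y := by
  have hβ : 0 < β := by omega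
  constructor
  · rintro ⟨q, -, h1, h2⟩
    rw [← h2]
    calc t * (a + β * x) + c = (t * a + c) + β * (t * x) := by ring
      _ = (q * β + b) + β * (t * x) := by rw [h1]
      _ = _ := by ring
  · intro h
    have h1 : t * a + c = (t * a + c) % β + β * ((t * a + c) / β) := (Nat.mod_add_div _ _).symm
    have h2 : (t * a + c) % β + β * ((t * a + c) / β + t * x) = b + β * y := by
      rw [← h]
      calc (t * a + c) % β + β * ((t * a + c) / β + t * x)
          = ((t * a + c) % β + β * ((t * a + c) / β)) + β * (t * x) := by ring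
        _ = (t * a + c) + β * (t * x) := by rw [← h1]
        _ = _ := by ring
    obtain ⟨h3, h4⟩ := (DigN_cancel (Nat.mod_lt _ hβ) hb).1 h2
    refine ⟨(t * a + c) / β, ?_, ?_, ?_⟩
    · rw [Nat.div_lt_iff_lt_mul hβ]
      have h5 : t * a ≤ (β - 1) * (β - 1) := Nat.mul_le_mul (by omega) (by omega)
      obtain ⟨m, rfl⟩ : ∃ m, β = m + 1 := ⟨β - 1, by omega⟩
      simp only [Nat.add_sub_cancel] at h5
      nlinarith
    · rw [← h3, mul_comm ((t * a + c) / β), Nat.add_comm (β * ((t * a + c) / β))]
      exact h1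
    · rw [← h4, Nat.add_comm]

private theorem DigN_mul (F : Frame β Def) (k : ℕ) :
    ∀ t a b c : ℕ, Def fun ω v => v t * num (β ω) v a k + v c = num (β ω) v b k := by
  induction k with
  | zero =>
    intro t a b c
    refine F.toAFrame.congr (R := fun _ v => v c = 0) (fun ω v _ => ?_) (F.toAFrame.nat c 0)
    simp [num]
  | succ k ih =>
    intro t a b c
    refine F.toAFrame.congr (R := fun ω v => ∃ q, q < β ω ∧
      (v t * v a + v c = q * β ω + v b ∧
        v t * num (β ω) v (a + 1) k + q = num (β ω) v (b + 1) k)) (fun ω v hv => ?_)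
      (F.toAFrame.ex (S := fun ω v q => v t * v a + v c = q * β ω + v b ∧
        v t * num (β ω) v (a + 1) k + q = num (β ω) v (b + 1) k)
        (F.toAFrame.and (F.mulAdd (t + 1) (a + 1) (c + 1) 0 (b + 1))
          (F.toAFrame.congr (fun ω v _ => ?_) (ih (t + 1) (a + 2) (b + 2) 0))))
    · rw [num.eq_2 (β ω) v a k, num.eq_2 (β ω) v b k]
      exact DigN_step (hv t) (hv a) (hv b) (hv c)
    · rw [num_shift, num_shift]

/-- Multiplication by a digit. -/
theorem Frame.digMulN (F : Frame β Def) (e d x z : ℕ) :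
    DefN β Def e fun ω w => w d < β ω ∧ w d * w x = w z := by
  unfold DefN
  cases e with
  | zero =>
    refine F.toAFrame.congr (R := fun _ _ => True) (fun ω v _ => ?_) (F.toAFrame.const True)
    have hβ := F.two ω
    simp only [num, true_iff]
    exact ⟨by omega, trivial⟩
  | succ k =>
    have h0 : Def fun ω v => v (d * (k + 1)) * num (β ω) v (x * (k + 1)) (k + 1) =
        num (β ω) v (z * (k + 1)) (k + 1) := by
      refine F.toAFrame.congr (R := fun ω v => ∃ q, q < β ω ∧ (q = 0 ∧
        v (d * (k + 1)) * num (β ω) v (x * (k + 1)) (k + 1) + q =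
          num (β ω) v (z * (k + 1)) (k + 1))) (fun ω v _ => ?_)
        (F.toAFrame.ex (S := fun ω v q => q = 0 ∧
          v (d * (k + 1)) * num (β ω) v (x * (k + 1)) (k + 1) + q =
            num (β ω) v (z * (k + 1)) (k + 1))
          (F.toAFrame.and (F.toAFrame.nat 0 0)
            (F.toAFrame.congr (fun ω v _ => ?_)
              (DigN_mul F (k + 1) (d * (k + 1) + 1) (x * (k + 1) + 1) (z * (k + 1) + 1) 0))))
      · have hβ := F.two ω
        constructor
        · rintro ⟨q, -, rfl, h⟩
          exact h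
        · intro h
          exact ⟨0, by omega, rfl, h⟩
      · rw [num_shift, num_shift]
    refine F.toAFrame.congr (R := fun ω v => num (β ω) v (d * (k + 1) + 1) k = 0 ∧
      v (d * (k + 1)) * num (β ω) v (x * (k + 1)) (k + 1) =
        num (β ω) v (z * (k + 1)) (k + 1)) (fun ω v hv => ?_)
      (F.toAFrame.and (DigN_zero F.toAFrame k _) h0)
    have hβ := F.two ω
    have h1 := hv (d * (k + 1))
    change _ ↔ v (d * (k + 1)) + β ω * num (β ω) v (d * (k + 1) + 1) k < β ω ∧
      (v (d * (k + 1)) + β ω * num (β ω) v (d * (k + 1) + 1) k) *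
        num (β ω) v (x * (k + 1)) (k + 1) = num (β ω) v (z * (k + 1)) (k + 1)
    constructor
    · rintro ⟨h2, h3⟩
      rw [h2, Nat.mul_zero, Nat.add_zero]
      exact ⟨h1, h3⟩
    · rintro ⟨h2, h3⟩
      have h4 : num (β ω) v (d * (k + 1) + 1) k = 0 := by
        by_contra h5
        have h6 : 1 ≤ num (β ω) v (d * (k + 1) + 1) k := Nat.one_le_iff_ne_zero.2 h5
        have h7 : β ω * 1 ≤ β ω * num (β ω) v (d * (k + 1) + 1) k := Nat.mul_le_mul_left _ h6
        omega
      rw [h4, Nat.mul_zero, Nat.add_zero] at h3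
      exact ⟨h4, h3⟩

end Pool.Agent.Lib.MP_586990_lc.R
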