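import Pool.Agent.Lib.MP_586990_lc_R.FrameDef

set_option autoImplicit false

/-!
# Digit calculus: derived rules
-/

namespace Pool.Agent.Lib.MP_586990_lc.R

namespace AFrame

variable {Ω : Type} {β : Ω → ℕ} {Def : (Ω → (ℕ → ℕ) → Prop) → Prop}
  {R R' : Ω → (ℕ → ℕ) → Prop}

private theorem FrameBase_zero (F : AFrame β Def) (x : ℕ) : Def fun _ v => v x = 0 := by
  refine F.congr (fun ω v _ => ?_) (F.add x x x x)
  have h2 := F.two ω
  constructor
  · intro h
    by_contra h0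
    have h1 : 0 < v x := Nat.pos_of_ne_zero h0
    nlinarith
  · intro h
    rw [h]
    omega

theorem or (F : AFrame β Def) (h : Def R) (h' : Def R') : Def fun ω v => R ω v ∨ R' ω v := by
  refine F.congr (R := fun ω v => ¬ (¬ R ω v ∧ ¬ R' ω v)) (fun ω v _ => by tauto)
    (F.not (F.and (F.not h) (F.not h')))

theorem imp (F : AFrame β Def) (h : Def R) (h' : Def R') : Def fun ω v => R ω v → R' ω v := by
  refine F.congr (R := fun ω v => ¬ (R ω v ∧ ¬ R' ω v)) (fun ω v _ => by tauto)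
    (F.not (F.and h (F.not h')))

theorem iff (F : AFrame β Def) (h : Def R) (h' : Def R') :
    Def fun ω v => (R ω v ↔ R' ω v) := by
  refine F.congr (R := fun ω v => (R ω v → R' ω v) ∧ (R' ω v → R ω v)) (fun ω v _ => by tauto)
    (F.and (F.imp h h') (F.imp h' h))

theorem all (F : AFrame β Def) {S : Ω → (ℕ → ℕ) → ℕ → Prop}
    (h : Def (fun ω v => S ω (fun i => v (i + 1)) (v 0))) :
    Def fun ω v => ∀ y, y < β ω → S ω v y := by
  refine F.congr (R := fun ω v => ¬ ∃ y, y < β ω ∧ ¬ S ω v y) (fun ω v _ => ?_)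
    (F.not (F.ex (S := fun ω v y => ¬ S ω v y) (F.not h)))
  push Not
  rfl

theorem const (F : AFrame β Def) (p : Prop) : Def fun _ _ => p := by
  by_cases hp : p
  · exact F.congr (fun ω v _ => ⟨fun _ => hp, fun _ => rfl⟩) (F.eq 0 0)
  · exact F.congr (fun ω v _ => ⟨fun h => absurd rfl h, fun h => absurd h hp⟩) (F.not (F.eq 0 0))

theorem addE (F : AFrame β Def) (x y z : ℕ) : Def fun _ v => v x + v y = v z := by
  refine F.congr (R := fun ω v => ∃ c, c < β ω ∧ (c = 0 ∧ v x + v y = c * β ω + v z))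
    (fun ω v _ => ?_)
    (F.ex (S := fun ω v c => c = 0 ∧ v x + v y = c * β ω + v z)
      (F.and (FrameBase_zero F 0) (F.add (x + 1) (y + 1) 0 (z + 1))))
  have h2 := F.two ω
  constructor
  · rintro ⟨c, _, rfl, h⟩
    rwa [zero_mul, zero_add] at h
  · intro h
    exact ⟨0, by omega, rfl, by rw [zero_mul, zero_add]; exact h⟩

theorem le (F : AFrame β Def) (x y : ℕ) : Def fun _ v => v x ≤ v y := by
  refine F.congr (R := fun ω v => ∃ u, u < β ω ∧ v x + u = v y) (fun ω v hv => ?_)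
    (F.ex (S := fun _ v u => v x + u = v y) (F.addE (x + 1) 0 (y + 1)))
  constructor
  · rintro ⟨u, _, h⟩
    omega
  · intro h
    exact ⟨v y - v x, lt_of_le_of_lt (Nat.sub_le _ _) (hv y), by omega⟩

theorem lt (F : AFrame β Def) (x y : ℕ) : Def fun _ v => v x < v y := by
  refine F.congr (R := fun _ v => v x ≤ v y ∧ ¬ v x = v y) (fun ω v _ => ?_)
    (F.and (F.le x y) (F.not (F.eq x y)))
  omega

private theorem FrameBase_one (F : AFrame β Def) (x : ℕ) : Def fun _ v => v x = 1 := by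
  refine F.congr (R := fun ω v => ¬ v x = 0 ∧ ¬ ∃ y, y < β ω ∧ (¬ y = 0 ∧ y < v x))
    (fun ω v _ => ?_)
    (F.and (F.not (FrameBase_zero F x)) (F.not (F.ex (S := fun _ v y => ¬ y = 0 ∧ y < v x)
      (F.and (F.not (FrameBase_zero F 0)) (F.lt 0 (x + 1))))))
  have h2 := F.two ω
  constructor
  · rintro ⟨h0, h1⟩
    by_contra h3
    exact h1 ⟨1, by omega, by omega, by omega⟩
  · intro h
    refine ⟨by omega, ?_⟩
    rintro ⟨y, _, h3, h4⟩
    omega

private theorem FrameBase_uniq {B q r s t : ℕ} (h : q * B + r = s * B + t) (hr : r < B)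
    (ht : t < B) : q = s ∧ r = t := by
  have hB : 0 < B := by omega
  have h1 : (q * B + r) / B = q := by
    rw [mul_comm, Nat.mul_add_div hB, Nat.div_eq_of_lt hr, add_zero]
  have h2 : (s * B + t) / B = s := by
    rw [mul_comm, Nat.mul_add_div hB, Nat.div_eq_of_lt ht, add_zero]
  have h3 : q = s := by rw [← h1, h, h2]
  subst h3
  exact ⟨rfl, by omega⟩

/-- The digit `v x` is the number `k`. -/
theorem nat (F : AFrame β Def) (x k : ℕ) : Def fun _ v => v x = k := by
  induction k generalizing x with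
  | zero => exact FrameBase_zero F x
  | succ k ih =>
    refine F.congr (R := fun ω v => ∃ y, y < β ω ∧ (y = k ∧ ∃ u, u < β ω ∧ (u = 1 ∧ y + u = v x)))
      (fun ω v hv => ?_)
      (F.ex (S := fun ω v y => y = k ∧ ∃ u, u < β ω ∧ (u = 1 ∧ y + u = v x))
        (F.and (ih 0) (F.ex (S := fun _ v u => u = 1 ∧ v 0 + u = v (x + 1))
          (F.and (FrameBase_one F 0) (F.addE 1 0 (x + 2))))))
    have h2 := F.two ω
    have h3 := hv x
    constructor
    · rintro ⟨y, _, rfl, u, _, rfl, h⟩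
      exact h.symm
    · intro h
      exact ⟨k, by omega, rfl, 1, by omega, rfl, h.symm⟩

/-- The digit `v x` is the largest digit. -/
theorem top (F : AFrame β Def) (x : ℕ) : Def fun ω v => v x + 1 = β ω := by
  refine F.congr (R := fun ω v => ∀ y, y < β ω → y ≤ v x) (fun ω v hv => ?_)
    (F.all (S := fun _ v y => y ≤ v x) (F.le 0 (x + 1)))
  have h2 := F.two ω
  have h3 := hv x
  constructor
  · intro h
    have h4 := h (β ω - 1) (by omega)
    omega
  · intro h y hy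
    omega

/-- Addition of three digits. -/
theorem add3 (F : AFrame β Def) (x y u c z : ℕ) :
    Def fun ω v => v x + v y + v u = v c * β ω + v z := by
  refine F.congr (R := fun ω v => ∃ c1, c1 < β ω ∧ ∃ z1, z1 < β ω ∧ ∃ c2, c2 < β ω ∧
    (v x + v y = c1 * β ω + z1 ∧ z1 + v u = c2 * β ω + v z ∧ c1 + c2 = v c)) (fun ω v hv => ?_)
    (F.ex (S := fun ω v c1 => ∃ z1, z1 < β ω ∧ ∃ c2, c2 < β ω ∧
      (v x + v y = c1 * β ω + z1 ∧ z1 + v u = c2 * β ω + v z ∧ c1 + c2 = v c))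
    (F.ex (S := fun ω v z1 => ∃ c2, c2 < β ω ∧
      (v (x + 1) + v (y + 1) = v 0 * β ω + z1 ∧ z1 + v (u + 1) = c2 * β ω + v (z + 1) ∧
        v 0 + c2 = v (c + 1)))
    (F.ex (S := fun ω v c2 => (v (x + 2) + v (y + 2) = v 1 * β ω + v 0 ∧
      v 0 + v (u + 2) = c2 * β ω + v (z + 2) ∧ v 1 + c2 = v (c + 2)))
    (F.and (F.add (x + 3) (y + 3) 2 1) (F.and (F.add 1 (u + 3) 0 (z + 3))
      (F.addE 2 0 (c + 3)))))))
  have h2 := F.two ω
  have hB : 0 < β ω := by omega
  have hx := hv x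
  have hy := hv y
  have hu := hv u
  constructor
  · rintro ⟨c1, _, z1, _, c2, _, h3, h4, h5⟩
    rw [← h5, h3]
    linarith
  · intro h
    have e1 := Nat.div_add_mod (v x + v y) (β ω)
    have hz1 := Nat.mod_lt (v x + v y) hB
    have hc1 : (v x + v y) / β ω < 2 := (Nat.div_lt_iff_lt_mul hB).mpr (by omega)
    generalize (v x + v y) / β ω = c1 at e1 hc1
    generalize (v x + v y) % β ω = z1 at e1 hz1
    have e2 := Nat.div_add_mod (z1 + v u) (β ω)
    have hr := Nat.mod_lt (z1 + v u) hB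
    have hc2 : (z1 + v u) / β ω < 2 := (Nat.div_lt_iff_lt_mul hB).mpr (by omega)
    generalize (z1 + v u) / β ω = c2 at e2 hc2
    generalize (z1 + v u) % β ω = r at e2 hr
    have e3 : (c1 + c2) * β ω + r = v c * β ω + v z := by
      rw [← h, ← e1]
      linarith
    obtain ⟨h3, h4⟩ := FrameBase_uniq e3 hr (hv z)
    exact ⟨c1, by omega, z1, hz1, c2, by omega, by rw [← e1]; ring, by rw [← e2, h4]; ring, h3⟩

end AFrame

/-- Multiplication and addition of digits. -/
theorem Frame.mulAdd {Ω : Type} {β : Ω → ℕ} {Def : (Ω → (ℕ → ℕ) → Prop) → Prop}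
    (F : Frame β Def) (x y u c z : ℕ) :
    Def fun ω v => v x * v y + v u = v c * β ω + v z := by
  refine F.congr (R := fun ω v => ∃ c1, c1 < β ω ∧ ∃ z1, z1 < β ω ∧ ∃ c2, c2 < β ω ∧
    (v x * v y = c1 * β ω + z1 ∧ z1 + v u = c2 * β ω + v z ∧ c1 + c2 = v c)) (fun ω v hv => ?_)
    (F.ex (S := fun ω v c1 => ∃ z1, z1 < β ω ∧ ∃ c2, c2 < β ω ∧
      (v x * v y = c1 * β ω + z1 ∧ z1 + v u = c2 * β ω + v z ∧ c1 + c2 = v c))
    (F.ex (S := fun ω v z1 => ∃ c2, c2 < β ω ∧
      (v (x + 1) * v (y + 1) = v 0 * β ω + z1 ∧ z1 + v (u + 1) = c2 * β ω + v (z + 1) ∧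
        v 0 + c2 = v (c + 1)))
    (F.ex (S := fun ω v c2 => (v (x + 2) * v (y + 2) = v 1 * β ω + v 0 ∧
      v 0 + v (u + 2) = c2 * β ω + v (z + 2) ∧ v 1 + c2 = v (c + 2)))
    (F.and (F.mul (x + 3) (y + 3) 2 1) (F.and (F.add 1 (u + 3) 0 (z + 3))
      (F.toAFrame.addE 2 0 (c + 3)))))))
  have h2 := F.two ω
  have hB : 0 < β ω := by omega
  have hx := hv x
  have hy := hv y
  have hu := hv u
  constructor
  · rintro ⟨c1, _, z1, _, c2, _, h3, h4, h5⟩
    rw [← h5, h3]
    linarith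
  · intro h
    have e1 := Nat.div_add_mod (v x * v y) (β ω)
    have hz1 := Nat.mod_lt (v x * v y) hB
    have hc1 : (v x * v y) / β ω < β ω := by
      rw [Nat.div_lt_iff_lt_mul hB]
      exact Nat.mul_lt_mul'' hx hy
    generalize (v x * v y) / β ω = c1 at e1 hc1
    generalize (v x * v y) % β ω = z1 at e1 hz1
    have e2 := Nat.div_add_mod (z1 + v u) (β ω)
    have hr := Nat.mod_lt (z1 + v u) hB
    have hc2 : (z1 + v u) / β ω < 2 := (Nat.div_lt_iff_lt_mul hB).mpr (by omega)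
    generalize (z1 + v u) / β ω = c2 at e2 hc2
    generalize (z1 + v u) % β ω = r at e2 hr
    have e3 : (c1 + c2) * β ω + r = v c * β ω + v z := by
      rw [← h, ← e1]
      linarith
    obtain ⟨h3, h4⟩ := AFrame.FrameBase_uniq e3 hr (hv z)
    exact ⟨c1, hc1, z1, hz1, c2, by omega, by rw [← e1]; ring, by rw [← e2, h4]; ring, h3⟩

end Pool.Agent.Lib.MP_586990_lc.R
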