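import Mathlib

set_option autoImplicit false

/-!
# MP_586990_lc, project R: digit calculus

`Def` is a family of relations of finitely many digits (numbers below the base `β ω`); the
relations depend on a parameter `ω`.  The variables are numbered by `ℕ`, the quantifiers are
written with de Bruijn indices.
-/

namespace Pool.Agent.Lib.MP_586990_lc.R

/-- A family of relations of digits which is closed under negation, conjunction, renaming of the
variables and quantification over digits, and contains the addition table. -/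
structure AFrame {Ω : Type} (β : Ω → ℕ) (Def : (Ω → (ℕ → ℕ) → Prop) → Prop) : Prop where
  two : ∀ ω, 2 ≤ β ω
  congr : ∀ {R R' : Ω → (ℕ → ℕ) → Prop},
    (∀ ω v, (∀ i, v i < β ω) → (R ω v ↔ R' ω v)) → Def R → Def R'
  not : ∀ {R : Ω → (ℕ → ℕ) → Prop}, Def R → Def fun ω v => ¬ R ω v
  and : ∀ {R R' : Ω → (ℕ → ℕ) → Prop}, Def R → Def R' → Def fun ω v => R ω v ∧ R' ω v
  sub : ∀ {R : Ω → (ℕ → ℕ) → Prop} (f : ℕ → ℕ), Def R → Def fun ω v => R ω fun i => v (f i)
  ex : ∀ {S : Ω → (ℕ → ℕ) → ℕ → Prop}, Def (fun ω v => S ω (fun i => v (i + 1)) (v 0)) →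
    Def fun ω v => ∃ y, y < β ω ∧ S ω v y
  eq : ∀ x y : ℕ, Def fun _ v => v x = v y
  add : ∀ x y c z : ℕ, Def fun ω v => v x + v y = v c * β ω + v z

/-- The same with the multiplication table. -/
structure Frame {Ω : Type} (β : Ω → ℕ) (Def : (Ω → (ℕ → ℕ) → Prop) → Prop) : Prop
    extends AFrame β Def where
  mul : ∀ x y h l : ℕ, Def fun ω v => v x * v y = v h * β ω + v l

/-- The number with the `e` digits `v a, v (a + 1), ..`, lowest digit first. -/
def num (β : ℕ) (v : ℕ → ℕ) : ℕ → ℕ → ℕ
  | _, 0 => 0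
  | a, e + 1 => v a + β * num β v (a + 1) e

/-- The relation `Q` of numbers is definable for numbers with `e` digits: the number variable
number `i` is given by the digit variables `i * e, .., i * e + e - 1`. -/
def DefN {Ω : Type} (β : Ω → ℕ) (Def : (Ω → (ℕ → ℕ) → Prop) → Prop) (e : ℕ)
    (Q : Ω → (ℕ → ℕ) → Prop) : Prop :=
  Def fun ω v => Q ω fun i => num (β ω) v (i * e) e

end Pool.Agent.Lib.MP_586990_lc.R
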