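import Pool.Agent.Lib.MP_586990_lc_R.Iter

set_option autoImplicit false

/-!
# Sequence calculus: indices as numbers
-/

namespace Pool.Agent.Lib.MP_586990_lc.R

namespace SFr

variable {Ω : Type} {s B : Ω → ℕ} {D : (Par s B → (ℕ → ℕ) → Prop) → Prop}

private theorem Idx_bd (F : SFr s B D) {e : ℕ} (he : 0 < e) (ω : Ω) : 2 * s ω ≤ B ω ^ e :=
  (F.base ω).trans (Nat.le_self_pow he.ne' _)

private theorem Idx_succ (F : SFr s B D) {e : ℕ} (he : 0 < e) (x y : ℕ) :
    SN D e fun _ w => w y = w x + 1 := by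
  have G := F.toAFrame
  refine G.congrN (Q := fun p w => ∃ u, u < B p.ω ^ e ∧ (u = 1 ∧ w x + u = w y))
    (fun p w _ => ?_)
    (G.exN (S := fun _ w u => (u = 1 ∧ w x + u = w y))
      (G.andN (G.natN e 0 1) (G.addN e (x + 1) 0 (y + 1))))
  have h1 := Idx_bd F he p.ω
  have h2 := F.three p.ω
  constructor
  · rintro ⟨u, _, rfl, h⟩
    exact h.symm
  · intro h
    exact ⟨1, by omega, rfl, h.symm⟩

theorem idxN (F : SFr s B D) {e : ℕ} (he : 0 < e) (x a : ℕ) :
    SN D e fun p w => w x = p.v a := by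
  have G := F.toAFrame
  refine G.congrN (fun p w _ => ?_) (F.iter0 e (R := fun p _ b y z =>
    (b < p.v a ∧ z = y + 1) ∨ (¬ b < p.v a ∧ z = y)) ?_ x)
  · have h1 := Idx_bd F he p.ω
    have h2 := F.three p.ω
    have h3 := p.hv a
    constructor
    · rintro ⟨z, _, h0, hs, hz⟩
      have key : ∀ b, b ≤ s p.ω → z b = min b (p.v a) := by
        intro b
        induction b with
        | zero =>
          intro _
          rw [h0]
          omega
        | succ b ih =>
          intro hb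
          have h4 := ih (by omega)
          rcases hz b (by omega) with ⟨h5, h6⟩ | ⟨h5, h6⟩
          · rw [h6, h4]
            omega
          · rw [h6, h4]
            omega
      rw [← hs, key _ le_rfl]
      omega
    · intro h
      refine ⟨fun b => min b (p.v a), fun b => ?_, ?_, ?_, fun b _ => ?_⟩
      · show min b (p.v a) < B p.ω ^ e
        omega
      · show min 0 (p.v a) = 0
        omega
      · show min (s p.ω) (p.v a) = w x
        omega
      · show (b < p.v a ∧ min (b + 1) (p.v a) = min b (p.v a) + 1) ∨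
          (¬ b < p.v a ∧ min (b + 1) (p.v a) = min b (p.v a))
        omega
  · exact G.orN (G.andN (F.ltI 0 (a + 1)) (Idx_succ F he 0 1))
      (G.andN (G.notN (F.ltI 0 (a + 1))) (G.eqN 1 0))

private theorem Idx_ex (F : SFr s B D) {e : ℕ} {T : Par s B → ℕ} (hT : ∀ p, T p < B p.ω ^ e)
    (hd : SN D e fun p w => w 0 = T p)
    {Q : Par s B → (ℕ → ℕ) → ℕ → Prop}
    (h : SN D e fun p w => Q p (fun i => w (i + 1)) (w 0)) :
    SN D e fun p w => Q p w (T p) := by
  have G := F.toAFrame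
  refine G.congrN (Q := fun p w => ∃ u, u < B p.ω ^ e ∧ (u = T p ∧ Q p w u))
    (fun p w _ => ?_) (G.exN (S := fun p w u => (u = T p ∧ Q p w u)) (G.andN hd h))
  constructor
  · rintro ⟨u, _, rfl, h1⟩
    exact h1
  · intro h1
    exact ⟨T p, hT p, rfl, h1⟩

private theorem Idx_exI (F : SFr s B D) {e : ℕ} (he : 0 < e) (a : ℕ)
    {Q : Par s B → (ℕ → ℕ) → ℕ → Prop}
    (h : SN D e fun p w => Q p (fun i => w (i + 1)) (w 0)) :
    SN D e fun p w => Q p w (p.v a) := by
  refine Idx_ex F (T := fun p => p.v a) (fun p => ?_) (F.idxN he 0 a) h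
  have h1 := Idx_bd F he p.ω
  have h3 := p.hv a
  show p.v a < B p.ω ^ e
  omega

private theorem Idx_exOne (F : SFr s B D) {e : ℕ} (he : 0 < e)
    {Q : Par s B → (ℕ → ℕ) → ℕ → Prop}
    (h : SN D e fun p w => Q p (fun i => w (i + 1)) (w 0)) :
    SN D e fun p w => Q p w 1 := by
  have G := F.toAFrame
  refine Idx_ex F (T := fun _ => 1) (fun p => ?_) (G.natN e 0 1) h
  have h1 := Idx_bd F he p.ω
  have h3 := F.three p.ω
  show 1 < B p.ω ^ e
  omega

theorem lenN (F : SFr s B D) {e : ℕ} (he : 0 < e) (x : ℕ) :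
    SN D e fun p w => w x = s p.ω := by
  have G := F.toAFrame
  refine G.congrN (Q := fun p w => ∃ m, m < s p.ω ∧ (m + 1 = s p.ω ∧ w x = m + 1))
    (fun p w _ => ?_)
    (F.exIN (S := fun p w m => (m + 1 = s p.ω ∧ w x = m + 1)) (G.andN (F.maxI 0)
      (Idx_exI F he 0 (Q := fun _ w u => w x = u + 1) (Idx_succ F he 0 (x + 1)))))
  have h3 := F.three p.ω
  constructor
  · rintro ⟨m, _, h1, h2⟩
    rw [h2, h1]
  · intro h
    exact ⟨s p.ω - 1, by omega, by omega, by omega⟩

private theorem Idx_exL (F : SFr s B D) {e : ℕ} (he : 0 < e)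
    {Q : Par s B → (ℕ → ℕ) → ℕ → Prop}
    (h : SN D e fun p w => Q p (fun i => w (i + 1)) (w 0)) :
    SN D e fun p w => Q p w (s p.ω) := by
  refine Idx_ex F (T := fun p => s p.ω) (fun p => ?_) (F.lenN he 0) h
  have h1 := Idx_bd F he p.ω
  have h3 := F.three p.ω
  show s p.ω < B p.ω ^ e
  omega

theorem addI (F : SFr s B D) (a b c : ℕ) : D fun p _ => p.v a + p.v b = p.v c := by
  have G := F.toAFrame
  have he : 0 < 1 := Nat.one_pos
  exact Idx_exI F he a (Q := fun p _ u => u + p.v b = p.v c)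
    (Idx_exI F he b (Q := fun p w u => w 0 + u = p.v c)
      (Idx_exI F he c (Q := fun _ w u => w 1 + w 0 = u) (G.addN 1 2 1 0)))

private theorem Idx_addW (F : SFr s B D) {e : ℕ} (he : 0 < e) (a b : ℕ) :
    SN D e fun p w => p.v a + p.v b = w 0 := by
  have G := F.toAFrame
  exact Idx_exI F he a (Q := fun p w u => u + p.v b = w 0)
    (Idx_exI F he b (Q := fun _ w u => w 0 + u = w 1) (G.addN e 1 0 2))

theorem addSI (F : SFr s B D) (a b c : ℕ) :
    D fun p _ => p.v a + p.v b = s p.ω + p.v c := by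
  have G := F.toAFrame
  have he : 0 < 1 := Nat.one_pos
  refine G.congr (R := fun p _ => ∃ u, u < B p.ω ^ 1 ∧
    (p.v a + p.v b = u ∧ s p.ω + p.v c = u)) (fun p w _ => ?_) ?_
  · have h1 := Idx_bd F he p.ω
    have h2 := p.hv a
    have h3 := p.hv b
    constructor
    · rintro ⟨u, _, h4, h5⟩
      rw [h4, h5]
    · intro h
      exact ⟨p.v a + p.v b, by omega, rfl, h.symm⟩
  · have h1 : SN D 1 fun p w => s p.ω + p.v c = w 0 :=
      Idx_exL F he (Q := fun p w u => u + p.v c = w 0)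
        (Idx_exI F he c (Q := fun _ w u => w 0 + u = w 1) (G.addN 1 1 0 2))
    exact G.exN (e := 1) (S := fun p _ u => (p.v a + p.v b = u ∧ s p.ω + p.v c = u))
      (G.andN (Idx_addW F he a b) h1)

theorem revI (F : SFr s B D) (a b : ℕ) : D fun p _ => p.v a + p.v b + 1 = s p.ω := by
  have G := F.toAFrame
  have he : 0 < 1 := Nat.one_pos
  refine G.congr (R := fun p _ => ∃ u, u < B p.ω ^ 1 ∧
    (p.v a + p.v b = u ∧ u + 1 = s p.ω)) (fun p w _ => ?_) ?_
  · have h1 := Idx_bd F he p.ω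
    have h2 := p.hv a
    have h3 := p.hv b
    constructor
    · rintro ⟨u, _, h4, h5⟩
      rw [h4, h5]
    · intro h
      exact ⟨p.v a + p.v b, by omega, rfl, h⟩
  · have h1 : SN D 1 fun p w => w 0 + 1 = s p.ω :=
      Idx_exOne F he (Q := fun p w u => w 0 + u = s p.ω)
        (Idx_exL F he (Q := fun _ w u => w 1 + w 0 = u) (G.addN 1 2 1 0))
    exact G.exN (e := 1) (S := fun p _ u => (p.v a + p.v b = u ∧ u + 1 = s p.ω))
      (G.andN (Idx_addW F he a b) h1)

end SFr

end Pool.Agent.Lib.MP_586990_lc.R
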