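import Pool.Agent.Lib.MP_586990_lc_R.SeqBase
import Pool.Agent.Lib.MP_586990_lc_R.AddN

set_option autoImplicit false

/-!
# Sequence calculus: recursion
-/

namespace Pool.Agent.Lib.MP_586990_lc.R

variable {Ω : Type} {s B : Ω → ℕ} {D : (Par s B → (ℕ → ℕ) → Prop) → Prop}

/-- Quantification over `n` sequences. -/
private theorem Iter_exQs (F : SFr s B D) (n : ℕ) :
    ∀ {S : Par s B → (ℕ → ℕ) → (ℕ → ℕ → ℕ) → Prop}
    (_ : ∀ p w z z', (∀ j, j < n → z j = z' j) → S p w z → S p w z')
    (_ : D fun p w => S (p.ren (fun i => i) (fun i => i + n)) w p.q),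
    D fun p w => ∃ z : ℕ → ℕ → ℕ, (∀ j, IsSeq (s p.ω) (B p.ω) (z j)) ∧ S p w z := by
  induction n with
  | zero =>
    intro S hS h
    refine F.congr (R := fun p w => S (p.ren (fun i => i) (fun i => i + 0)) w p.q)
      (fun p w _ => ?_) h
    constructor
    · intro h1
      exact ⟨p.q, p.hq, h1⟩
    · rintro ⟨z, _, h1⟩
      exact hS p w z p.q (fun j hj => absurd hj (Nat.not_lt_zero j)) h1
  | succ n ih =>
    intro S hS h
    refine F.congr (R := fun p w => ∃ y, IsSeq (s p.ω) (B p.ω) y ∧
      ∃ z : ℕ → ℕ → ℕ, (∀ j, IsSeq (s p.ω) (B p.ω) (z j)) ∧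
        S p w (fun j => if j < n then z j else y)) (fun p w _ => ?_)
      (F.exQ (S := fun p w y => ∃ z : ℕ → ℕ → ℕ, (∀ j, IsSeq (s p.ω) (B p.ω) (z j)) ∧
        S p w (fun j => if j < n then z j else y)) ?_)
    · constructor
      · rintro ⟨y, hy, z, hz, h1⟩
        refine ⟨_, fun j => ?_, h1⟩
        by_cases hj : j < n
        · simp only [hj, if_true]
          exact hz j
        · simp only [hj, if_false]
          exact hy
      · rintro ⟨z, hz, h1⟩
        refine ⟨z n, hz n, z, hz, hS p w z _ (fun j hj => ?_) h1⟩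
        by_cases hj' : j < n
        · simp only [hj', if_true]
        · have : j = n := by omega
          subst this
          simp only [lt_irrefl, if_false]
    · refine ih (S := fun p w z => S p.tlQ w (fun j => if j < n then z j else p.q 0))
        (fun p w z z' hz h1 => hS _ _ _ _ (fun j _ => ?_) h1) ?_
      · by_cases hj' : j < n
        · simp only [hj', if_true]
          exact hz j hj'
        · simp only [hj', if_false]
      · refine F.congr (fun p w _ => ?_) h
        have e1 : p.ren (fun i => i) (fun i => i + (n + 1)) =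
            (p.ren (fun i => i) (fun i => i + n)).tlQ := by
          have e2 : (fun i => i + (n + 1)) = (fun i => i + 1 + n) := by
            funext i
            omega
          rw [e2]
          rfl
        rw [e1]
        have e3 : ∀ j, j < n + 1 → p.q j =
            (fun j => if j < n then p.q j else
              (p.ren (fun i => i) (fun i => i + n)).q 0) j := by
          intro j hj
          by_cases hj' : j < n
          · simp only [hj', if_true]
          · have : j = n := by omega
            subst this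
            simp only [lt_irrefl, if_false]
            show p.q j = p.q (0 + j)
            rw [zero_add]
        exact ⟨hS _ _ _ _ e3, hS _ _ _ _ fun j hj => (e3 j hj).symm⟩

/-- The same for relations of numbers. -/
private theorem Iter_exQN (F : SFr s B D) (n : ℕ) {e : ℕ}
    {S : Par s B → (ℕ → ℕ) → (ℕ → ℕ → ℕ) → Prop}
    (hS : ∀ p w z z', (∀ j, j < n → z j = z' j) → S p w z → S p w z')
    (h : SN D e fun p w => S (p.ren (fun i => i) (fun i => i + n)) w p.q) :
    SN D e fun p w => ∃ z : ℕ → ℕ → ℕ, (∀ j, IsSeq (s p.ω) (B p.ω) (z j)) ∧ S p w z :=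
  Iter_exQs F n (S := fun p w z => S p (fun i => num (B p.ω) w (i * e) e) z)
    (fun _ _ _ _ hz h1 => hS _ _ _ _ hz h1) h

/-- The result of `s ω` steps of a definable relation. -/
theorem SFr.iter (F : SFr s B D) (e : ℕ) {R : Par s B → (ℕ → ℕ) → ℕ → ℕ → ℕ → Prop}
    (h : SN D e fun p w => R p.tlI (fun i => w (i + 2)) (p.v 0) (w 0) (w 1)) (x y : ℕ) :
    SN D e fun p w => ∃ z : ℕ → ℕ, (∀ a, z a < B p.ω ^ e) ∧ z 0 = w x ∧ z (s p.ω) = w y ∧
      ∀ a, a < s p.ω → R p w a (z a) (z (a + 1)) := by
  have G := F.toAFrame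
  refine G.congrN (Q := fun p w => ∃ z : ℕ → ℕ → ℕ, (∀ j, IsSeq (s p.ω) (B p.ω) (z j)) ∧
    ((∃ a, a < s p.ω ∧ (a = 0 ∧ w x = num (B p.ω) (fun j => z j a) 0 e)) ∧
    ((∀ a, a < s p.ω → ∀ b, b < s p.ω → (b = a + 1 →
      ∃ u', u' < B p.ω ^ e ∧ (u' = num (B p.ω) (fun j => z j b) 0 e ∧
        ∃ u, u < B p.ω ^ e ∧ (u = num (B p.ω) (fun j => z j a) 0 e ∧ R p w a u u')))) ∧
    (∃ a, a < s p.ω ∧ (a + 1 = s p.ω ∧
      ∃ u, u < B p.ω ^ e ∧ (u = num (B p.ω) (fun j => z j a) 0 e ∧ R p w a u (w y))))))) ?_ ?_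
  · intro p w hw
    have h3 := F.three p.ω
    have hB : 0 < B p.ω := by have := F.two p; omega
    have hBe : 0 < B p.ω ^ e := Nat.pow_pos hB
    constructor
    · rintro ⟨q, hq, ⟨a0, _, rfl, h0⟩, h1, a1, ha1, hs1, u, hu, rfl, h2⟩
      refine ⟨fun a => if a < s p.ω then num (B p.ω) (fun j => q j a) 0 e else
        if a = s p.ω then w y else 0, fun a => ?_, ?_, ?_, fun a ha => ?_⟩
      · show (if a < s p.ω then num (B p.ω) (fun j => q j a) 0 e else
          if a = s p.ω then w y else 0) < B p.ω ^ e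
        split_ifs
        · exact num_lt hB (fun j => (hq j).1 a) 0 e
        · exact hw y
        · exact hBe
      · show (if 0 < s p.ω then num (B p.ω) (fun j => q j 0) 0 e else
          if 0 = s p.ω then w y else 0) = w x
        rw [if_pos (by omega), h0]
      · show (if s p.ω < s p.ω then num (B p.ω) (fun j => q j (s p.ω)) 0 e else
          if s p.ω = s p.ω then w y else 0) = w y
        rw [if_neg (lt_irrefl _), if_pos rfl]
      · show R p w a (if a < s p.ω then num (B p.ω) (fun j => q j a) 0 e else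
          if a = s p.ω then w y else 0) (if a + 1 < s p.ω then
          num (B p.ω) (fun j => q j (a + 1)) 0 e else if a + 1 = s p.ω then w y else 0)
        rw [if_pos ha]
        by_cases ha' : a + 1 < s p.ω
        · rw [if_pos ha']
          obtain ⟨u', _, rfl, u, _, rfl, h4⟩ := h1 a ha (a + 1) ha' rfl
          exact h4
        · have ha2 : a + 1 = s p.ω := by omega
          rw [if_neg ha', if_pos ha2]
          have : a = a1 := by omega
          subst this
          exact h2
    · rintro ⟨z, hz, h0, hs, h1⟩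
      choose dig hdig hnum using fun a => exists_num hB e (z a) (hz a)
      have hZ : ∀ a, a < s p.ω →
          num (B p.ω) (fun j => if a < s p.ω then dig a j else 0) 0 e = z a := by
        intro a ha
        simp only [ha, if_true]
        exact hnum a
      refine ⟨fun j a => if a < s p.ω then dig a j else 0, fun j => ⟨fun a => ?_, fun a ha => ?_⟩,
        ⟨0, by omega, rfl, ?_⟩, fun a ha b hb hab => ?_, s p.ω - 1, by omega, by omega, ?_⟩
      · show (if a < s p.ω then dig a j else 0) < B p.ω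
        split_ifs
        · exact hdig a j
        · exact hB
      · show (if a < s p.ω then dig a j else 0) = 0
        rw [if_neg (by omega)]
      · rw [← h0]
        exact (hZ 0 (by omega)).symm
      · subst hab
        refine ⟨z (a + 1), hz _, (hZ _ hb).symm, z a, hz _, (hZ _ ha).symm, h1 a ha⟩
      · refine ⟨z (s p.ω - 1), hz _, (hZ _ (by omega)).symm, ?_⟩
        have h5 := h1 (s p.ω - 1) (by omega)
        have h6 : s p.ω - 1 + 1 = s p.ω := by omega
        rw [h6, hs] at h5
        exact h5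
  · refine Iter_exQN F e (S := fun p w z =>
      ((∃ a, a < s p.ω ∧ (a = 0 ∧ w x = num (B p.ω) (fun j => z j a) 0 e)) ∧
      ((∀ a, a < s p.ω → ∀ b, b < s p.ω → (b = a + 1 →
        ∃ u', u' < B p.ω ^ e ∧ (u' = num (B p.ω) (fun j => z j b) 0 e ∧
          ∃ u, u < B p.ω ^ e ∧ (u = num (B p.ω) (fun j => z j a) 0 e ∧ R p w a u u')))) ∧
      (∃ a, a < s p.ω ∧ (a + 1 = s p.ω ∧
        ∃ u, u < B p.ω ^ e ∧ (u = num (B p.ω) (fun j => z j a) 0 e ∧ R p w a u (w y)))))))
      ?_ ?_
    · intro p w z z' hz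
      have e1 : ∀ a, num (B p.ω) (fun j => z j a) 0 e = num (B p.ω) (fun j => z' j a) 0 e := by
        intro a
        refine num_congr fun i hi => ?_
        show z (0 + i) a = z' (0 + i) a
        rw [zero_add, hz i hi]
      simp only [e1]
      exact id
    · refine G.andN (F.exIN (S := fun p w a =>
        (a = 0 ∧ w x = num (B p.ω) (fun j => p.q j a) 0 e)) ?_) (G.andN ?_ ?_)
      · exact G.andN (F.zeroI 0) (F.numN e x 0 0)
      · refine F.allIN (S := fun p w a => ∀ b, b < s p.ω → (b = a + 1 →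
          ∃ u', u' < B p.ω ^ e ∧ (u' = num (B p.ω) (fun j => p.q j b) 0 e ∧
          ∃ u, u < B p.ω ^ e ∧ (u = num (B p.ω) (fun j => p.q j a) 0 e ∧
            R (p.ren (fun i => i) (fun i => i + e)) w a u u')))) ?_
        refine F.allIN (S := fun p w b => (b = p.v 0 + 1 →
          ∃ u', u' < B p.ω ^ e ∧ (u' = num (B p.ω) (fun j => p.q j b) 0 e ∧
          ∃ u, u < B p.ω ^ e ∧ (u = num (B p.ω) (fun j => p.q j (p.v 0)) 0 e ∧
            R (p.tlI.ren (fun i => i) (fun i => i + e)) w (p.v 0) u u')))) ?_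
        refine G.impN (F.succI 1 0) ?_
        refine G.exN (S := fun p w u' => (u' = num (B p.ω) (fun j => p.q j (p.v 0)) 0 e ∧
          ∃ u, u < B p.ω ^ e ∧ (u = num (B p.ω) (fun j => p.q j (p.v 1)) 0 e ∧
            R (p.tlI.tlI.ren (fun i => i) (fun i => i + e)) w (p.v 1) u u'))) ?_
        refine G.andN (F.numN e 0 0 0) ?_
        refine G.exN (S := fun p w u => (u = num (B p.ω) (fun j => p.q j (p.v 1)) 0 e ∧
            R (p.tlI.tlI.ren (fun i => i) (fun i => i + e)) (fun i => w (i + 1)) (p.v 1) u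
              (w 0))) ?_
        exact G.andN (F.numN e 0 0 1) (F.renN (fun i => i + 1) (fun i => i + e) h)
      · refine F.exIN (S := fun p w a => (a + 1 = s p.ω ∧
          ∃ u, u < B p.ω ^ e ∧ (u = num (B p.ω) (fun j => p.q j a) 0 e ∧
            R (p.ren (fun i => i) (fun i => i + e)) w a u (w y)))) ?_
        refine G.andN (F.maxI 0) ?_
        refine G.exN (S := fun p w u => (u = num (B p.ω) (fun j => p.q j (p.v 0)) 0 e ∧
            R (p.tlI.ren (fun i => i) (fun i => i + e)) w (p.v 0) u (w y))) ?_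
        refine G.andN (F.numN e 0 0 0) ?_
        have h1 := F.renN (fun i => i) (fun i => i + e) h
        exact G.subN (fun i => match i with
          | 0 => 0
          | 1 => y + 1
          | i + 2 => i + 1) h1

theorem SFr.iter0 (F : SFr s B D) (e : ℕ) {R : Par s B → (ℕ → ℕ) → ℕ → ℕ → ℕ → Prop}
    (h : SN D e fun p w => R p.tlI (fun i => w (i + 2)) (p.v 0) (w 0) (w 1)) (y : ℕ) :
    SN D e fun p w => ∃ z : ℕ → ℕ, (∀ a, z a < B p.ω ^ e) ∧ z 0 = 0 ∧ z (s p.ω) = w y ∧
      ∀ a, a < s p.ω → R p w a (z a) (z (a + 1)) := by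
  have G := F.toAFrame
  refine G.congrN (Q := fun p w => ∃ u, u < B p.ω ^ e ∧ (u = 0 ∧
    ∃ z : ℕ → ℕ, (∀ a, z a < B p.ω ^ e) ∧ z 0 = u ∧ z (s p.ω) = w y ∧
      ∀ a, a < s p.ω → R p w a (z a) (z (a + 1)))) ?_ ?_
  · intro p w _
    have hB : 0 < B p.ω := by have := F.two p; omega
    have hBe : 0 < B p.ω ^ e := Nat.pow_pos hB
    constructor
    · rintro ⟨u, _, rfl, hz⟩
      exact hz
    · intro hz
      exact ⟨0, hBe, rfl, hz⟩
  · refine G.exN (S := fun p w u => (u = 0 ∧
      ∃ z : ℕ → ℕ, (∀ a, z a < B p.ω ^ e) ∧ z 0 = u ∧ z (s p.ω) = w y ∧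
      ∀ a, a < s p.ω → R p w a (z a) (z (a + 1)))) ?_
    refine G.andN (G.natN e 0 0) ?_
    exact F.iter e (R := fun p w a b c => R p (fun i => w (i + 1)) a b c)
      (G.subN (fun i => match i with
          | 0 => 0
          | 1 => 1
          | i + 2 => i + 3) h) 0 (y + 1)

end Pool.Agent.Lib.MP_586990_lc.R
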