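import Pool.Agent.Lib.MP_586990_lc_R.RCLem

set_option autoImplicit false

/-!
# The relations of elements for the partial orders `PT ω`
-/

namespace Pool.Agent.Lib.MP_586990_lc.R

/-- The row of a row or of a unit. -/
def rpf (ω : Wd) : PT ω → ℕ
  | Sum.inl r => r
  | Sum.inr (Sum.inl k) =>
      if (k : ℕ) < ω.s * ω.s then (k : ℕ) / ω.s else (k : ℕ) - (ω.s * ω.s + ω.s)
  | Sum.inr (Sum.inr _) => 0

/-- The column of a column or of a unit. -/
def cpf (ω : Wd) : PT ω → ℕ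
  | Sum.inl r => (r : ℕ) - ω.s
  | Sum.inr (Sum.inl k) => if (k : ℕ) < ω.s * ω.s then (k : ℕ) % ω.s else (k : ℕ) - ω.s * ω.s
  | Sum.inr (Sum.inr _) => 0

private theorem LatPar_cases {ω : Wd} {p : PT ω → Prop} (h1 : ∀ r, p (PT.lo r))
    (h2 : ∀ k, p (PT.un k)) (h3 : ∀ j, p (PT.up j)) (x : PT ω) : p x := by
  rcases x with r | k | j
  · exact h1 r
  · exact h2 k
  · exact h3 j

private theorem LatPar_ll {ω : Wd} (r r' : Fin (2 * ω.s)) :
    (PT.lo r = (PT.lo r' : PT ω)) ↔ r = r' := ⟨fun h => Sum.inl.inj h, fun h => by rw [h]⟩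

private theorem LatPar_uu {ω : Wd} (k k' : Fin (ω.s * ω.s + ω.t)) :
    (PT.un k = (PT.un k' : PT ω)) ↔ k = k' :=
  ⟨fun h => Sum.inl.inj (Sum.inr.inj h), fun h => by rw [h]⟩

private theorem LatPar_pp {ω : Wd} (j j' : {j : ℕ // j ∈ ω.J}) :
    (PT.up j = (PT.up j' : PT ω)) ↔ j = j' :=
  ⟨fun h => Sum.inr.inj (Sum.inr.inj h), fun h => by rw [h]⟩

private theorem LatPar_lu {ω : Wd} (r : Fin (2 * ω.s)) (k : Fin (ω.s * ω.s + ω.t)) :
    ¬ (PT.lo r = (PT.un k : PT ω)) := fun h => Sum.inl_ne_inr h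

private theorem LatPar_ul {ω : Wd} (r : Fin (2 * ω.s)) (k : Fin (ω.s * ω.s + ω.t)) :
    ¬ (PT.un k = (PT.lo r : PT ω)) := fun h => Sum.inr_ne_inl h

private theorem LatPar_lp {ω : Wd} (r : Fin (2 * ω.s)) (j : {j : ℕ // j ∈ ω.J}) :
    ¬ (PT.lo r = (PT.up j : PT ω)) := fun h => Sum.inl_ne_inr h

private theorem LatPar_pl {ω : Wd} (r : Fin (2 * ω.s)) (j : {j : ℕ // j ∈ ω.J}) :
    ¬ (PT.up j = (PT.lo r : PT ω)) := fun h => Sum.inr_ne_inl h

private theorem LatPar_up {ω : Wd} (k : Fin (ω.s * ω.s + ω.t)) (j : {j : ℕ // j ∈ ω.J}) :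
    ¬ (PT.un k = (PT.up j : PT ω)) := fun h => Sum.inl_ne_inr (Sum.inr.inj h)

private theorem LatPar_pu {ω : Wd} (k : Fin (ω.s * ω.s + ω.t)) (j : {j : ℕ // j ∈ ω.J}) :
    ¬ (PT.up j = (PT.un k : PT ω)) := fun h => Sum.inr_ne_inl (Sum.inr.inj h)

section

variable {ω : Wd} {X : ℕ → LowerSet (PT ω)} (hX : ∀ j, j < 7 → X j = par ω j)

include hX

private theorem LatPar_ml {j : ℕ} (hj : j < 7) (r : Fin (2 * ω.s)) :
    PT.lo r ∈ X j ↔ (j = 0 → (r : ℕ) < ω.s) := by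
  rw [hX j hj]
  show parMem ω j (Sum.inl r) ↔ _
  show (if j = 0 then (r : ℕ) < ω.s else j < 7) ↔ _
  split_ifs with h
  · exact ⟨fun h1 _ => h1, fun h1 => h1 h⟩
  · exact ⟨fun _ h2 => absurd h2 h, fun _ => hj⟩

private theorem LatPar_mu {j : ℕ} (hj : j < 7) (k : Fin (ω.s * ω.s + ω.t)) :
    PT.un k ∈ X j ↔ ((j = 2 ∧ (k : ℕ) < ω.s * ω.s) ∨ (j = 3 ∧ (k : ℕ) < ω.s * ω.s + ω.s) ∨
      j = 4 ∨ (j = 5 ∧ (k : ℕ) < ω.s * ω.s ∧ (k : ℕ) / ω.s = (k : ℕ) % ω.s) ∨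
      (j = 6 ∧ (k : ℕ) < ω.s * ω.s ∧ (k : ℕ) / ω.s ≤ (k : ℕ) % ω.s)) := by
  rw [hX j hj]
  rfl

private theorem LatPar_mp {i : ℕ} (hi : i < 7) (j : {j : ℕ // j ∈ ω.J}) :
    ¬ PT.up j ∈ X i := by
  rw [hX i hi]
  exact fun h => h

theorem ro_iff {x : PT ω} : x ∈ X 0 ↔ ∃ r : Fin (2 * ω.s), (r : ℕ) < ω.s ∧ x = PT.lo r := by
  refine LatPar_cases (p := fun x => x ∈ X 0 ↔ ∃ r : Fin (2 * ω.s), (r : ℕ) < ω.s ∧
    x = PT.lo r) (fun r => ?_) (fun k => ?_) (fun j => ?_) x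
  · simp [LatPar_ml hX (j := 0) (by omega), LatPar_ll]
  · simp [LatPar_mu hX (j := 0) (by omega), LatPar_ul]
  · simp [LatPar_mp hX (i := 0) (by omega), LatPar_pl]

theorem lo_iff {x : PT ω} : x ∈ X 1 ↔ ∃ r : Fin (2 * ω.s), x = PT.lo r := by
  refine LatPar_cases (p := fun x => x ∈ X 1 ↔ ∃ r : Fin (2 * ω.s), x = PT.lo r)
    (fun r => ?_) (fun k => ?_) (fun j => ?_) x
  · simp [LatPar_ml hX (j := 1) (by omega), LatPar_ll]
  · simp [LatPar_mu hX (j := 1) (by omega), LatPar_ul]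
  · simp [LatPar_mp hX (i := 1) (by omega), LatPar_pl]

theorem co_iff {x : PT ω} : Co X x ↔ ∃ r : Fin (2 * ω.s), ω.s ≤ (r : ℕ) ∧ x = PT.lo r := by
  refine LatPar_cases (p := fun x => Co X x ↔ ∃ r : Fin (2 * ω.s), ω.s ≤ (r : ℕ) ∧
    x = PT.lo r) (fun r => ?_) (fun k => ?_) (fun j => ?_) x
  · simp [Co, LatPar_ml hX (j := 1) (by omega), LatPar_ml hX (j := 0) (by omega), LatPar_ll]
  · simp [Co, LatPar_mu hX (j := 1) (by omega), LatPar_ul]
  · simp [Co, LatPar_mp hX (i := 1) (by omega), LatPar_pl]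

theorem ce_iff {x : PT ω} :
    Ce X x ↔ ∃ k : Fin (ω.s * ω.s + ω.t), (k : ℕ) < ω.s * ω.s ∧ x = PT.un k := by
  refine LatPar_cases (p := fun x => Ce X x ↔ ∃ k : Fin (ω.s * ω.s + ω.t),
    (k : ℕ) < ω.s * ω.s ∧ x = PT.un k) (fun r => ?_) (fun k => ?_) (fun j => ?_) x
  · simp [Ce, LatPar_ml hX (j := 1) (by omega), LatPar_ml hX (j := 2) (by omega), LatPar_lu]
  · simp [Ce, LatPar_mu hX (j := 1) (by omega), LatPar_mu hX (j := 2) (by omega), LatPar_uu]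
  · simp [Ce, LatPar_mp hX (i := 2) (by omega), LatPar_pu]

theorem ec_iff {x : PT ω} : Ec X x ↔
    ∃ k : Fin (ω.s * ω.s + ω.t), ω.s * ω.s ≤ (k : ℕ) ∧ (k : ℕ) < ω.s * ω.s + ω.s ∧
      x = PT.un k := by
  refine LatPar_cases (p := fun x => Ec X x ↔ ∃ k : Fin (ω.s * ω.s + ω.t),
    ω.s * ω.s ≤ (k : ℕ) ∧ (k : ℕ) < ω.s * ω.s + ω.s ∧ x = PT.un k)
    (fun r => ?_) (fun k => ?_) (fun j => ?_) x
  · simp [Ec, LatPar_ml hX (j := 3) (by omega), LatPar_ml hX (j := 2) (by omega), LatPar_lu]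
  · constructor
    · rintro ⟨h1, h2⟩
      rw [LatPar_mu hX (by omega)] at h1 h2
      exact ⟨k, by omega, by omega, rfl⟩
    · rintro ⟨k', h1, h2, h3⟩
      rw [LatPar_uu] at h3
      subst h3
      constructor
      · rw [LatPar_mu hX (by omega)]
        omega
      · rw [LatPar_mu hX (by omega)]
        omega
  · simp [Ec, LatPar_mp hX (i := 3) (by omega), LatPar_pu]

theorem er_iff {x : PT ω} : Er X x ↔
    ∃ k : Fin (ω.s * ω.s + ω.t), ω.s * ω.s + ω.s ≤ (k : ℕ) ∧ x = PT.un k := by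
  refine LatPar_cases (p := fun x => Er X x ↔ ∃ k : Fin (ω.s * ω.s + ω.t),
    ω.s * ω.s + ω.s ≤ (k : ℕ) ∧ x = PT.un k)
    (fun r => ?_) (fun k => ?_) (fun j => ?_) x
  · simp [Er, LatPar_ml hX (j := 4) (by omega), LatPar_ml hX (j := 3) (by omega), LatPar_lu]
  · constructor
    · rintro ⟨h1, h2⟩
      rw [LatPar_mu hX (by omega)] at h1 h2
      exact ⟨k, by omega, rfl⟩
    · rintro ⟨k', h1, h3⟩
      rw [LatPar_uu] at h3
      subst h3
      constructor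
      · rw [LatPar_mu hX (by omega)]
        omega
      · rw [LatPar_mu hX (by omega)]
        omega
  · simp [Er, LatPar_mp hX (i := 4) (by omega), LatPar_pu]

theorem un_iff {x : PT ω} : Un X x ↔ ∃ k : Fin (ω.s * ω.s + ω.t), x = PT.un k := by
  refine LatPar_cases (p := fun x => Un X x ↔ ∃ k : Fin (ω.s * ω.s + ω.t), x = PT.un k)
    (fun r => ?_) (fun k => ?_) (fun j => ?_) x
  · simp [Un, LatPar_ml hX (j := 4) (by omega), LatPar_ml hX (j := 1) (by omega), LatPar_lu]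
  · simp [Un, LatPar_mu hX (j := 4) (by omega), LatPar_mu hX (j := 1) (by omega), LatPar_uu]
  · simp [Un, LatPar_mp hX (i := 4) (by omega), LatPar_pu]

theorem up_iff {x : PT ω} : x ∉ X 4 ↔ ∃ j : {j : ℕ // j ∈ ω.J}, x = PT.up j := by
  refine LatPar_cases (p := fun x => x ∉ X 4 ↔ ∃ j : {j : ℕ // j ∈ ω.J}, x = PT.up j)
    (fun r => ?_) (fun k => ?_) (fun j => ?_) x
  · simp [LatPar_ml hX (j := 4) (by omega), LatPar_lp]
  · simp [LatPar_mu hX (j := 4) (by omega), LatPar_up]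
  · refine ⟨fun _ => ⟨j, rfl⟩, fun _ => LatPar_mp hX (i := 4) (by omega) j⟩

omit hX in
private theorem LatPar_div {s k : ℕ} (hs : 0 < s) (hk : k < s * s) : k / s < s ∧ k % s < s :=
  ⟨Nat.div_lt_of_lt_mul hk, Nat.mod_lt _ hs⟩

omit hX in
private theorem LatPar_mk {s a b : ℕ} (ha : a < s) (hb : b < s) :
    a * s + b < s * s ∧ (a * s + b) / s = a ∧ (a * s + b) % s = b := by
  refine ⟨?_, ?_, ?_⟩
  · have h1 : (a + 1) * s ≤ s * s := Nat.mul_le_mul_right _ ha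
    have h2 : (a + 1) * s = a * s + s := Nat.succ_mul _ _
    omega
  · rw [mul_comm, Nat.mul_add_div (by omega), Nat.div_eq_of_lt hb, add_zero]
  · rw [mul_comm, Nat.mul_add_mod, Nat.mod_eq_of_lt hb]

omit hX in
private theorem LatPar_dm (s k : ℕ) : k / s * s + k % s = k := by
  rw [mul_comm]
  exact Nat.div_add_mod k s

theorem dg_iff {x : PT ω} : Dg X x ↔
    ∃ a, a < ω.s ∧ ∃ h : a * ω.s + a < ω.s * ω.s + ω.t, x = PT.un ⟨a * ω.s + a, h⟩ := by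
  have hs := ω.hs
  constructor
  · rintro ⟨h1, h2⟩
    obtain ⟨k, hk, rfl⟩ := (ce_iff hX).1 h1
    rw [LatPar_mu hX (j := 5) (by omega)] at h2
    have h3 : (k : ℕ) / ω.s = (k : ℕ) % ω.s := by omega
    have h4 := LatPar_div (by omega) hk
    have h5 := LatPar_dm ω.s k
    rw [← h3] at h5
    refine ⟨(k : ℕ) / ω.s, h4.1, by rw [h5]; exact k.2, ?_⟩
    rw [LatPar_uu]
    exact Fin.ext h5.symm
  · rintro ⟨a, ha, h, rfl⟩
    have h1 := LatPar_mk ha ha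
    refine ⟨(ce_iff hX).2 ⟨_, h1.1, rfl⟩, ?_⟩
    rw [LatPar_mu hX (j := 5) (by omega)]
    right; right; right; left
    refine ⟨rfl, h1.1, ?_⟩
    show (a * ω.s + a) / ω.s = (a * ω.s + a) % ω.s
    rw [h1.2.1, h1.2.2]

omit hX in
private theorem LatPar_rl (r : Fin (2 * ω.s)) : rpf ω (PT.lo r) = r := rfl

omit hX in
private theorem LatPar_cl (r : Fin (2 * ω.s)) : cpf ω (PT.lo r) = (r : ℕ) - ω.s := rfl

omit hX in
private theorem LatPar_ru (k : Fin (ω.s * ω.s + ω.t)) : rpf ω (PT.un k) =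
    if (k : ℕ) < ω.s * ω.s then (k : ℕ) / ω.s else (k : ℕ) - (ω.s * ω.s + ω.s) := rfl

omit hX in
private theorem LatPar_cu (k : Fin (ω.s * ω.s + ω.t)) : cpf ω (PT.un k) =
    if (k : ℕ) < ω.s * ω.s then (k : ℕ) % ω.s else (k : ℕ) - ω.s * ω.s := rfl

omit hX in
private theorem LatPar_lt (r : Fin (2 * ω.s)) (k : Fin (ω.s * ω.s + ω.t)) :
    PT.lo r < (PT.un k : PT ω) ↔ ¬ Miss ω.s r k := Iff.rfl

theorem uf_par (k : Fin (ω.s * ω.s + ω.t)) :
    uf X ω.s (rpf ω) (cpf ω) (PT.un k) = k := by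
  classical
  unfold uf
  rw [LatPar_ru, LatPar_cu]
  by_cases h2 : (k : ℕ) < ω.s * ω.s
  · rw [if_pos ((LatPar_mu hX (j := 2) (by omega) k).2 (by omega)), if_pos h2, if_pos h2]
    exact LatPar_dm ω.s k
  · rw [if_neg (fun h => h2 (by have := (LatPar_mu hX (j := 2) (by omega) k).1 h; omega)),
      if_neg h2, if_neg h2]
    by_cases h3 : (k : ℕ) < ω.s * ω.s + ω.s
    · rw [if_pos ((LatPar_mu hX (j := 3) (by omega) k).2 (by omega))]
      omega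
    · rw [if_neg (fun h => h3 (by have := (LatPar_mu hX (j := 3) (by omega) k).1 h; omega))]
      omega

theorem rcPar : RC X ω.s (rpf ω) (cpf ω) where
  hs := ω.hs
  ro := by
    intro x hx
    obtain ⟨r, hr, rfl⟩ := (ro_iff hX).1 hx
    exact hr
  roI := by
    intro x x' hx hx' h
    obtain ⟨r, hr, rfl⟩ := (ro_iff hX).1 hx
    obtain ⟨r', hr', rfl⟩ := (ro_iff hX).1 hx'
    rw [LatPar_ll]
    exact Fin.ext h
  roS := by
    intro a ha
    exact ⟨PT.lo ⟨a, by omega⟩, (ro_iff hX).2 ⟨_, ha, rfl⟩, rfl⟩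
  co := by
    intro x hx
    obtain ⟨r, hr, rfl⟩ := (co_iff hX).1 hx
    rw [LatPar_cl]
    omega
  coI := by
    intro x x' hx hx' h
    obtain ⟨r, hr, rfl⟩ := (co_iff hX).1 hx
    obtain ⟨r', hr', rfl⟩ := (co_iff hX).1 hx'
    rw [LatPar_cl, LatPar_cl] at h
    rw [LatPar_ll]
    apply Fin.ext
    omega
  coS := by
    intro b hb
    refine ⟨PT.lo ⟨ω.s + b, by omega⟩, (co_iff hX).2 ⟨⟨ω.s + b, by omega⟩, ?_, rfl⟩, ?_⟩
    · show ω.s ≤ ω.s + b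
      omega
    · show ω.s + b - ω.s = b
      omega
  ceR := by
    intro x y hx hy
    obtain ⟨k, hk, rfl⟩ := (ce_iff hX).1 hx
    obtain ⟨r, hr, rfl⟩ := (ro_iff hX).1 hy
    rw [LatPar_lt, LatPar_rl, LatPar_ru, if_pos hk]
    unfold Miss
    omega
  ceC := by
    intro x y hx hy
    obtain ⟨k, hk, rfl⟩ := (ce_iff hX).1 hx
    obtain ⟨r, hr, rfl⟩ := (co_iff hX).1 hy
    have h4 := LatPar_div (s := ω.s) (by have := ω.hs; omega) hk
    rw [LatPar_lt, LatPar_cl, LatPar_cu, if_pos hk]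
    unfold Miss
    have h5 : ω.s * ω.s + ω.s > k := by omega
    constructor
    · intro h h'
      apply h
      left
      exact ⟨hk, Or.inr (by omega)⟩
    · rintro h (⟨_, h1 | h1⟩ | ⟨h1, _⟩ | ⟨h1, _⟩)
      · omega
      · omega
      · omega
      · omega
  ce := by
    intro x hx
    obtain ⟨k, hk, rfl⟩ := (ce_iff hX).1 hx
    rw [LatPar_ru, LatPar_cu, if_pos hk, if_pos hk]
    exact LatPar_div (by have := ω.hs; omega) hk
  ceI := by
    intro x y hx hy h1 h2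
    obtain ⟨k, hk, rfl⟩ := (ce_iff hX).1 hx
    obtain ⟨k', hk', rfl⟩ := (ce_iff hX).1 hy
    rw [LatPar_ru, LatPar_ru, if_pos hk, if_pos hk'] at h1
    rw [LatPar_cu, LatPar_cu, if_pos hk, if_pos hk'] at h2
    rw [LatPar_uu]
    apply Fin.ext
    rw [← LatPar_dm ω.s k, ← LatPar_dm ω.s k', h1, h2]
  ceS := by
    intro a b ha hb
    have h := LatPar_mk ha hb
    have hk : a * ω.s + b < ω.s * ω.s + ω.t := by omega
    refine ⟨PT.un ⟨a * ω.s + b, hk⟩, (ce_iff hX).2 ⟨⟨a * ω.s + b, hk⟩, h.1, rfl⟩, ?_, ?_⟩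
    · rw [LatPar_ru, if_pos h.1]
      exact h.2.1
    · rw [LatPar_cu, if_pos h.1]
      exact h.2.2
  dg := by
    intro x hx
    obtain ⟨k, hk, rfl⟩ := (ce_iff hX).1 hx
    rw [LatPar_ru, LatPar_cu, if_pos hk, if_pos hk, LatPar_mu hX (j := 5) (by omega)]
    constructor
    · intro h
      omega
    · intro h
      right; right; right; left
      exact ⟨rfl, hk, h⟩
  le := by
    intro x hx
    obtain ⟨k, hk, rfl⟩ := (ce_iff hX).1 hx
    rw [LatPar_ru, LatPar_cu, if_pos hk, if_pos hk, LatPar_mu hX (j := 6) (by omega)]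
    constructor
    · intro h
      omega
    · intro h
      right; right; right; right
      exact ⟨rfl, hk, h⟩
  ec := by
    intro x hx
    obtain ⟨k, hk, hk', rfl⟩ := (ec_iff hX).1 hx
    rw [LatPar_cu, if_neg (by omega)]
    omega
  ecC := by
    intro x y hx hy
    obtain ⟨k, hk, hk', rfl⟩ := (ec_iff hX).1 hx
    obtain ⟨r, hr, rfl⟩ := (co_iff hX).1 hy
    rw [LatPar_lt, LatPar_cl, LatPar_cu, if_neg (by omega)]
    unfold Miss
    omega
  ecI := by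
    intro x y hx hy h
    obtain ⟨k, hk, hk', rfl⟩ := (ec_iff hX).1 hx
    obtain ⟨l, hl, hl', rfl⟩ := (ec_iff hX).1 hy
    rw [LatPar_cu, LatPar_cu, if_neg (by omega), if_neg (by omega)] at h
    rw [LatPar_uu]
    apply Fin.ext
    omega
  ecS := by
    intro x b hx hb
    obtain ⟨k, hk, hk', rfl⟩ := (ec_iff hX).1 hx
    rw [LatPar_cu, if_neg (by omega)] at hb
    have h : ω.s * ω.s + b < ω.s * ω.s + ω.t := by have := k.2; omega
    refine ⟨PT.un ⟨ω.s * ω.s + b, h⟩, (ec_iff hX).2 ⟨⟨ω.s * ω.s + b, h⟩, ?_, ?_, rfl⟩, ?_⟩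
    · show ω.s * ω.s ≤ ω.s * ω.s + b
      omega
    · show ω.s * ω.s + b < ω.s * ω.s + ω.s
      omega
    · rw [LatPar_cu]
      show (if ω.s * ω.s + b < ω.s * ω.s then (ω.s * ω.s + b) % ω.s
        else ω.s * ω.s + b - ω.s * ω.s) = b
      rw [if_neg (by omega)]
      omega
  er := by
    intro x hx
    obtain ⟨k, hk, rfl⟩ := (er_iff hX).1 hx
    rw [LatPar_ru, if_neg (by omega)]
    have h1 := k.2
    have h2 := ω.ht
    omega
  erR := by
    intro x y hx hy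
    obtain ⟨k, hk, rfl⟩ := (er_iff hX).1 hx
    obtain ⟨r, hr, rfl⟩ := (ro_iff hX).1 hy
    rw [LatPar_lt, LatPar_rl, LatPar_ru, if_neg (by omega)]
    unfold Miss
    omega
  erI := by
    intro x y hx hy h
    obtain ⟨k, hk, rfl⟩ := (er_iff hX).1 hx
    obtain ⟨l, hl, rfl⟩ := (er_iff hX).1 hy
    rw [LatPar_ru, LatPar_ru, if_neg (by omega), if_neg (by omega)] at h
    rw [LatPar_uu]
    apply Fin.ext
    omega
  erS := by
    intro x b hx hb
    obtain ⟨k, hk, rfl⟩ := (er_iff hX).1 hx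
    rw [LatPar_ru, if_neg (by omega)] at hb
    have h : ω.s * ω.s + ω.s + b < ω.s * ω.s + ω.t := by have := k.2; omega
    refine ⟨PT.un ⟨ω.s * ω.s + ω.s + b, h⟩,
      (er_iff hX).2 ⟨⟨ω.s * ω.s + ω.s + b, h⟩, ?_, rfl⟩, ?_⟩
    · show ω.s * ω.s + ω.s ≤ ω.s * ω.s + ω.s + b
      omega
    · rw [LatPar_ru]
      show (if ω.s * ω.s + ω.s + b < ω.s * ω.s then (ω.s * ω.s + ω.s + b) / ω.s
        else ω.s * ω.s + ω.s + b - (ω.s * ω.s + ω.s)) = b
      rw [if_neg (by omega)]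
      omega
  erE := by
    intro x b hx hb
    obtain ⟨k, hk, rfl⟩ := (er_iff hX).1 hx
    have h : ω.s * ω.s + b < ω.s * ω.s + ω.t := by have := k.2; omega
    refine ⟨PT.un ⟨ω.s * ω.s + b, h⟩, (ec_iff hX).2 ⟨⟨ω.s * ω.s + b, h⟩, ?_, ?_, rfl⟩, ?_⟩
    · show ω.s * ω.s ≤ ω.s * ω.s + b
      omega
    · show ω.s * ω.s + b < ω.s * ω.s + ω.s
      omega
    · rw [LatPar_cu]
      show (if ω.s * ω.s + b < ω.s * ω.s then (ω.s * ω.s + b) % ω.s
        else ω.s * ω.s + b - ω.s * ω.s) = b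
      rw [if_neg (by omega)]
      omega

theorem ul_par (k k' : Fin (ω.s * ω.s + ω.t)) :
    UL X (PT.un k) (PT.un k') ↔ (k : ℕ) < k' := by
  have h1 : ∀ x, x ∈ X 1 → x ∈ X 2 := by
    intro x hx
    obtain ⟨r, rfl⟩ := (lo_iff hX).1 hx
    rw [LatPar_ml hX (j := 2) (by omega)]
    omega
  have h2 : ∀ x, x ∈ X 2 → x ∈ X 3 := by
    refine LatPar_cases (p := fun x => x ∈ X 2 → x ∈ X 3) (fun r => ?_) (fun k => ?_)
      (fun j => ?_)
    · rw [LatPar_ml hX (j := 3) (by omega)]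
      omega
    · rw [LatPar_mu hX (j := 3) (by omega), LatPar_mu hX (j := 2) (by omega)]
      omega
    · intro h
      exact absurd h (LatPar_mp hX (i := 2) (by omega) j)
  rw [(rcPar hX).ul h1 h2 ((un_iff hX).2 ⟨k, rfl⟩) ((un_iff hX).2 ⟨k', rfl⟩), uf_par hX k,
    uf_par hX k']

end

end Pool.Agent.Lib.MP_586990_lc.R
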