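import Pool.Agent.Lib.MP_586990_lc_R.SetDef

set_option autoImplicit false

/-!
# Set calculus: derived rules
-/

namespace Pool.Agent.Lib.MP_586990_lc.R

namespace SetCal

variable {Ω : Type} {s : Ω → ℕ} {SD : (Ω → (ℕ → ℕ) → (ℕ → Set (ℕ × ℕ)) → Prop) → Prop}
  {R R' : Ω → (ℕ → ℕ) → (ℕ → Set (ℕ × ℕ)) → Prop}

theorem or (C : SetCal s SD) (h : SD R) (h' : SD R') : SD fun ω v V => R ω v V ∨ R' ω v V := by
  refine C.congr (R := fun ω v V => ¬ (¬ R ω v V ∧ ¬ R' ω v V)) (fun ω v V _ _ => ?_)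
    (C.not (C.and (C.not h) (C.not h')))
  tauto

theorem imp (C : SetCal s SD) (h : SD R) (h' : SD R') : SD fun ω v V => R ω v V → R' ω v V := by
  refine C.congr (R := fun ω v V => ¬ (R ω v V ∧ ¬ R' ω v V)) (fun ω v V _ _ => ?_)
    (C.not (C.and h (C.not h')))
  tauto

theorem iff (C : SetCal s SD) (h : SD R) (h' : SD R') :
    SD fun ω v V => (R ω v V ↔ R' ω v V) := by
  refine C.congr (R := fun ω v V => (R ω v V → R' ω v V) ∧ (R' ω v V → R ω v V))
    (fun ω v V _ _ => ?_) (C.and (C.imp h h') (C.imp h' h))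
  tauto

theorem all (C : SetCal s SD) {S : Ω → (ℕ → ℕ) → (ℕ → Set (ℕ × ℕ)) → ℕ → Prop}
    (h : SD fun ω v V => S ω (fun i => v (i + 1)) V (v 0)) :
    SD fun ω v V => ∀ y, y < s ω → S ω v V y := by
  refine C.congr (R := fun ω v V => ¬ ∃ y, y < s ω ∧ ¬ S ω v V y) (fun ω v V _ _ => ?_)
    (C.not (C.ex (S := fun ω v V y => ¬ S ω v V y) (C.not h)))
  push Not
  rfl

theorem allS (C : SetCal s SD) {S : Ω → (ℕ → ℕ) → (ℕ → Set (ℕ × ℕ)) → Set (ℕ × ℕ) → Prop}
    (h : SD fun ω v V => S ω v (fun i => V (i + 1)) (V 0)) :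
    SD fun ω v V => ∀ Y, Y ⊆ sq (s ω) → S ω v V Y := by
  refine C.congr (R := fun ω v V => ¬ ∃ Y, Y ⊆ sq (s ω) ∧ ¬ S ω v V Y) (fun ω v V _ _ => ?_)
    (C.not (C.exS (S := fun ω v V Y => ¬ S ω v V Y) (C.not h)))
  push Not
  rfl

theorem const (C : SetCal s SD) (p : Prop) : SD fun _ _ _ => p := by
  by_cases hp : p
  · exact C.congr (R := fun _ v _ => v 0 ≤ v 0) (fun ω v V _ _ => ⟨fun _ => hp, fun _ => le_rfl⟩)
      (C.le 0 0)
  · exact C.congr (R := fun _ v _ => ¬ v 0 ≤ v 0)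
      (fun ω v V _ _ => ⟨fun h => absurd le_rfl h, fun h => absurd h hp⟩) (C.not (C.le 0 0))

theorem eq (C : SetCal s SD) (x y : ℕ) : SD fun _ v _ => v x = v y := by
  refine C.congr (R := fun _ v _ => v x ≤ v y ∧ v y ≤ v x) (fun ω v V _ _ => ?_)
    (C.and (C.le x y) (C.le y x))
  omega

theorem lt (C : SetCal s SD) (x y : ℕ) : SD fun _ v _ => v x < v y := by
  refine C.congr (R := fun _ v _ => ¬ v y ≤ v x) (fun ω v V _ _ => ?_) (C.not (C.le y x))
  omega

theorem zero (C : SetCal s SD) (x : ℕ) : SD fun _ v _ => v x = 0 := by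
  refine C.congr (R := fun ω v _ => ∀ y, y < s ω → v x ≤ y) (fun ω v V _ _ => ?_)
    (C.all (S := fun _ v _ y => v x ≤ y) (C.le (x + 1) 0))
  have h3 := C.three ω
  constructor
  · intro h
    have := h 0 (by omega)
    omega
  · intro h y _
    omega

theorem succ (C : SetCal s SD) (x y : ℕ) : SD fun _ v _ => v y = v x + 1 := by
  refine C.congr (R := fun ω v _ => v x < v y ∧ ∀ c, c < s ω → (c ≤ v x ∨ v y ≤ c))
    (fun ω v V hv _ => ?_)
    (C.and (C.lt x y) (C.all (S := fun _ v _ c => c ≤ v x ∨ v y ≤ c)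
      (C.or (C.le 0 (x + 1)) (C.le (y + 1) 0))))
  have hb := hv y
  constructor
  · rintro ⟨h1, h2⟩
    have := h2 (v x + 1) (by omega)
    omega
  · intro h
    exact ⟨by omega, fun c _ => by omega⟩

theorem max (C : SetCal s SD) (x : ℕ) : SD fun ω v _ => v x + 1 = s ω := by
  refine C.congr (R := fun ω v _ => ∀ y, y < s ω → y ≤ v x) (fun ω v V hv _ => ?_)
    (C.all (S := fun _ v _ y => y ≤ v x) (C.le 0 (x + 1)))
  have h3 := C.three ω
  have ha := hv x
  constructor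
  · intro h
    have := h (s ω - 1) (by omega)
    omega
  · intro h y hy
    omega

theorem nat (C : SetCal s SD) (x k : ℕ) : SD fun _ v _ => v x = k := by
  induction k generalizing x with
  | zero => exact C.zero x
  | succ k ih =>
    refine C.congr (R := fun ω v _ => ∃ c, c < s ω ∧ (c = k ∧ v x = c + 1))
      (fun ω v V hv _ => ?_)
      (C.ex (S := fun _ v _ c => c = k ∧ v x = c + 1) (C.and (ih 0) (C.succ 0 (x + 1))))
    have ha := hv x
    constructor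
    · rintro ⟨c, _, rfl, h⟩
      exact h
    · intro h
      exact ⟨k, by omega, rfl, h⟩

/-- The pair of two given numbers. -/
theorem mem0 (C : SetCal s SD) (y i : ℕ) : SD fun _ v V => (0, v y) ∈ V i := by
  refine C.congr (R := fun ω v V => ∃ z, z < s ω ∧ (z = 0 ∧ (z, v y) ∈ V i))
    (fun ω v V _ _ => ?_)
    (C.ex (S := fun _ v V z => z = 0 ∧ (z, v y) ∈ V i) (C.and (C.zero 0) (C.mem 0 (y + 1) i)))
  have h3 := C.three ω
  constructor
  · rintro ⟨z, _, rfl, h⟩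
    exact h
  · intro h
    exact ⟨0, by omega, rfl, h⟩

/-- A set which is defined by a relation. -/
theorem eqSet (C : SetCal s SD) {S : Ω → (ℕ → ℕ) → (ℕ → Set (ℕ × ℕ)) → ℕ → ℕ → Prop} (i : ℕ)
    (h : SD fun ω v V => S ω (fun i => v (i + 2)) V (v 1) (v 0)) :
    SD fun ω v V => V i = {p | p ∈ sq (s ω) ∧ S ω v V p.1 p.2} := by
  refine C.congr (R := fun ω v V => ∀ x, x < s ω → ∀ y, y < s ω → ((x, y) ∈ V i ↔ S ω v V x y))
    (fun ω v V _ hV => ?_)
    (C.all (S := fun ω v V x => ∀ y, y < s ω → ((x, y) ∈ V i ↔ S ω v V x y))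
      (C.all (S := fun ω v V y => ((v 0, y) ∈ V i ↔ S ω (fun i => v (i + 1)) V (v 0) y))
        (C.iff (C.mem 1 0 i) h)))
  constructor
  · intro h1
    ext ⟨x, y⟩
    constructor
    · intro h2
      have h3 := hV i h2
      exact ⟨h3, (h1 x h3.1 y h3.2).1 h2⟩
    · rintro ⟨h3, h4⟩
      exact (h1 x h3.1 y h3.2).2 h4
  · intro h1 x hx y hy
    rw [h1]
    exact ⟨fun h2 => h2.2, fun h2 => ⟨⟨hx, hy⟩, h2⟩⟩

end SetCal

end Pool.Agent.Lib.MP_586990_lc.R
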