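import Pool.Agent.Lib.MP_586990_lc_R.LatPD
import Pool.Agent.Lib.MP_586990_lc_R.LatPar
import Pool.Agent.Lib.MP_586990_lc_R.SetBase

set_option autoImplicit false

/-!
# The set calculus for the lattices of lower sets: definition
-/

namespace Pool.Agent.Lib.MP_586990_lc.R

/-- The lower sets `X 0, .., X 6` are the parameters, the other ones give the sets `V 0, V 1, ..`,
the elements `w 0, w 1, ..` of the diagonal give the indices `v 0, v 1, ..`. -/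
structure Cod (ω : Wd) (v : ℕ → ℕ) (V : ℕ → Set (ℕ × ℕ)) (X : ℕ → LowerSet (PT ω))
    (w : ℕ → PT ω) : Prop where
  par : ∀ j, j < 7 → X j = par ω j
  set : ∀ i, cells ω (X (i + 7)) = V i
  idx : ∀ i, v i < ω.s ∧ ∃ h : v i * ω.s + v i < ω.s * ω.s + ω.t,
    w i = PT.un ⟨v i * ω.s + v i, h⟩

/-- The relations which are defined by a formula about the lattice of lower sets. -/
def LatD (R : Wd → (ℕ → ℕ) → (ℕ → Set (ℕ × ℕ)) → Prop) : Prop :=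
  ∃ Q : ∀ (P : Type) (i : PartialOrder P), (ℕ → LS P i) → (ℕ → P) → Prop, PD Q ∧
    ∀ (ω : Wd) (v : ℕ → ℕ) (V : ℕ → Set (ℕ × ℕ)) (X : ℕ → LowerSet (PT ω)) (w : ℕ → PT ω),
      Cod ω v V X w → (Q (PT ω) inferInstance X w ↔ R ω v V)

private theorem LatD_mk {s a b : ℕ} (ha : a < s) (hb : b < s) :
    a * s + b < s * s ∧ (a * s + b) / s = a ∧ (a * s + b) % s = b := by
  refine ⟨?_, ?_, ?_⟩
  · have h1 : (a + 1) * s ≤ s * s := Nat.mul_le_mul_right _ ha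
    have h2 : (a + 1) * s = a * s + s := Nat.succ_mul _ _
    omega
  · rw [mul_comm, Nat.mul_add_div (by omega), Nat.div_eq_of_lt hb, add_zero]
  · rw [mul_comm, Nat.mul_add_mod, Nat.mod_eq_of_lt hb]

private theorem LatD_ru {ω : Wd} (k : Fin (ω.s * ω.s + ω.t)) : rpf ω (PT.un k) =
    if (k : ℕ) < ω.s * ω.s then (k : ℕ) / ω.s else (k : ℕ) - (ω.s * ω.s + ω.s) := rfl

private theorem LatD_cu {ω : Wd} (k : Fin (ω.s * ω.s + ω.t)) : cpf ω (PT.un k) =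
    if (k : ℕ) < ω.s * ω.s then (k : ℕ) % ω.s else (k : ℕ) - ω.s * ω.s := rfl

private theorem LatD_eq {ω : Wd} {k : Fin (ω.s * ω.s + ω.t)} {j : ℕ} (h : (k : ℕ) = j) :
    ∃ hj : j < ω.s * ω.s + ω.t, (PT.un k : PT ω) = PT.un ⟨j, hj⟩ := by
  subst h
  exact ⟨k.2, rfl⟩

namespace Cod

variable {ω : Wd} {v : ℕ → ℕ} {V : ℕ → Set (ℕ × ℕ)} {X : ℕ → LowerSet (PT ω)} {w : ℕ → PT ω}

theorem dg (c : Cod ω v V X w) (i : ℕ) : Dg X (w i) := by
  obtain ⟨h1, h2, h3⟩ := c.idx i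
  exact (dg_iff c.par).2 ⟨v i, h1, h2, h3⟩

theorem rp (c : Cod ω v V X w) (i : ℕ) : rpf ω (w i) = v i := by
  obtain ⟨h1, h2, h3⟩ := c.idx i
  have h4 := LatD_mk h1 h1
  rw [h3, LatD_ru, if_pos h4.1]
  exact h4.2.1

theorem cp (c : Cod ω v V X w) (i : ℕ) : cpf ω (w i) = v i := by
  obtain ⟨h1, h2, h3⟩ := c.idx i
  have h4 := LatD_mk h1 h1
  rw [h3, LatD_cu, if_pos h4.1]
  exact h4.2.2

/-- The cell in the row number `v x` and in the column number `v y`. -/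
theorem at_iff (c : Cod ω v V X w) (x y : ℕ) (z : PT ω) : At X z (w x) (w y) ↔
    ∃ h : v x * ω.s + v y < ω.s * ω.s + ω.t, z = PT.un ⟨v x * ω.s + v y, h⟩ := by
  rw [(rcPar c.par).at_iff (Or.inl (c.dg x).1) (Or.inl (c.dg y).1), c.rp, c.cp]
  constructor
  · rintro ⟨h1, h2, h3⟩
    obtain ⟨k, hk, rfl⟩ := (ce_iff c.par).1 h1
    rw [LatD_ru, if_pos hk] at h2
    rw [LatD_cu, if_pos hk] at h3
    apply LatD_eq
    rw [← h2, ← h3, mul_comm ((k : ℕ) / ω.s) ω.s]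
    exact (Nat.div_add_mod _ _).symm
  · rintro ⟨h, rfl⟩
    have h4 := LatD_mk (c.idx x).1 (c.idx y).1
    refine ⟨(ce_iff c.par).2 ⟨_, h4.1, rfl⟩, ?_, ?_⟩
    · rw [LatD_ru, if_pos h4.1]
      exact h4.2.1
    · rw [LatD_cu, if_pos h4.1]
      exact h4.2.2

theorem sc_iff (c : Cod ω v V X w) (x : ℕ) {z : PT ω} (hz : Ec X z) : SC X z (w x) ↔
    ∃ h : ω.s * ω.s + v x < ω.s * ω.s + ω.t, z = PT.un ⟨ω.s * ω.s + v x, h⟩ := by
  rw [(rcPar c.par).sc (Or.inr hz) (Or.inl (c.dg x).1), c.cp]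
  obtain ⟨k, hk, hk', rfl⟩ := (ec_iff c.par).1 hz
  rw [LatD_cu, if_neg (by omega)]
  constructor
  · intro h
    exact LatD_eq (by omega)
  · rintro ⟨h, h1⟩
    have h2 := Sum.inl.inj (Sum.inr.inj h1)
    rw [h2]
    exact Nat.add_sub_cancel_left _ _

theorem sr_iff (c : Cod ω v V X w) (x : ℕ) {z : PT ω} (hz : Er X z) : SR X z (w x) ↔
    ∃ h : ω.s * ω.s + ω.s + v x < ω.s * ω.s + ω.t,
      z = PT.un ⟨ω.s * ω.s + ω.s + v x, h⟩ := by
  rw [(rcPar c.par).sr (Or.inr hz) (Or.inl (c.dg x).1), c.rp]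
  obtain ⟨k, hk, rfl⟩ := (er_iff c.par).1 hz
  rw [LatD_ru, if_neg (by omega)]
  constructor
  · intro h
    exact LatD_eq (by omega)
  · rintro ⟨h, h1⟩
    have h2 := Sum.inl.inj (Sum.inr.inj h1)
    rw [h2]
    exact Nat.add_sub_cancel_left _ _

end Cod

end Pool.Agent.Lib.MP_586990_lc.R
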