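import Pool.Agent.Lib.MP_586990_lc_R.SetDef

set_option autoImplicit false

/-!
# The partial orders whose lattices of lower sets are used

`PT ω` has `2 * s` lower elements (the rows `0, .., s - 1` and the columns `s, .., 2 * s - 1`),
`s * s + t` units and an element for each `j ∈ J`.
-/

namespace Pool.Agent.Lib.MP_586990_lc.R

/-- The data of a partial order. -/
structure Wd where
  s : ℕ
  t : ℕ
  J : Finset ℕ
  hs : 3 ≤ s
  ht : t ≤ 2 * s
  hJ : ∀ j ∈ J, j ≤ s * s + t

/-- The lower element number `r` is not below the unit number `k`.  The first `s * s` units are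
the cells: the cell in row `a` and column `b` has the number `a * s + b`. -/
def Miss (s r k : ℕ) : Prop :=
  (k < s * s ∧ (r = k / s ∨ r = s + k % s)) ∨
    (s * s ≤ k ∧ k < s * s + s ∧ r + s * s = s + k) ∨
    (s * s + s ≤ k ∧ r + s * s + s = k)

/-- The elements. -/
def PT (ω : Wd) : Type := Fin (2 * ω.s) ⊕ (Fin (ω.s * ω.s + ω.t) ⊕ {j : ℕ // j ∈ ω.J})

instance (ω : Wd) : Finite (PT ω) :=
  inferInstanceAs (Finite (Fin (2 * ω.s) ⊕ (Fin (ω.s * ω.s + ω.t) ⊕ {j : ℕ // j ∈ ω.J})))

/-- The lower element number `r`. -/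
def PT.lo {ω : Wd} (r : Fin (2 * ω.s)) : PT ω := Sum.inl r

/-- The unit number `k`. -/
def PT.un {ω : Wd} (k : Fin (ω.s * ω.s + ω.t)) : PT ω := Sum.inr (Sum.inl k)

/-- The upper element number `j`. -/
def PT.up {ω : Wd} (j : {j : ℕ // j ∈ ω.J}) : PT ω := Sum.inr (Sum.inr j)

/-- The strict order. -/
def ptLt (ω : Wd) : PT ω → PT ω → Prop
  | Sum.inl r, Sum.inr (Sum.inl k) => ¬ Miss ω.s r k
  | Sum.inl _, Sum.inr (Sum.inr _) => True
  | Sum.inr (Sum.inl k), Sum.inr (Sum.inr j) => (j : ℕ) ≤ k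
  | Sum.inr (Sum.inr j), Sum.inr (Sum.inr j') => (j' : ℕ) < j
  | _, _ => False

theorem ptLt_trans {ω : Wd} {x y z : PT ω} (h : ptLt ω x y) (h' : ptLt ω y z) : ptLt ω x z := by
  rcases x with r | k | j <;> rcases y with r' | k' | j' <;> rcases z with r'' | k'' | j'' <;>
    first
      | exact h.elim
      | exact h'.elim
      | exact trivial
      | (simp only [ptLt] at h h' ⊢; omega)

theorem ptLt_irrefl {ω : Wd} (x : PT ω) : ¬ ptLt ω x x := by
  rcases x with r | k | j <;> simp [ptLt]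

instance (ω : Wd) : PartialOrder (PT ω) where
  le x y := x = y ∨ ptLt ω x y
  lt x y := ptLt ω x y
  le_refl x := Or.inl rfl
  le_trans x y z h h' := by
    rcases h with rfl | h
    · exact h'
    · rcases h' with rfl | h'
      · exact Or.inr h
      · exact Or.inr (ptLt_trans h h')
  lt_iff_le_not_ge x y := by
    constructor
    · intro h
      refine ⟨Or.inr h, ?_⟩
      rintro (rfl | h')
      · exact ptLt_irrefl _ h
      · exact ptLt_irrefl _ (ptLt_trans h h')
    · rintro ⟨rfl | h, h'⟩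
      · exact absurd (Or.inl rfl) h'
      · exact h
  le_antisymm x y h h' := by
    rcases h with rfl | h
    · rfl
    · rcases h' with h' | h'
      · exact h'.symm
      · exact absurd (ptLt_trans h h') (ptLt_irrefl _)

theorem lt_iff_ptLt {ω : Wd} {x y : PT ω} : x < y ↔ ptLt ω x y := Iff.rfl

/-- The membership in the parameters: the rows; the lower elements; the same and the cells; the
same and the first `s` additional units; the same and all units; the lower elements and the
diagonal; the lower elements and the cells on and above the diagonal. -/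
def parMem (ω : Wd) (j : ℕ) : PT ω → Prop
  | Sum.inl r => if j = 0 then (r : ℕ) < ω.s else j < 7
  | Sum.inr (Sum.inl k) =>
      (j = 2 ∧ (k : ℕ) < ω.s * ω.s) ∨ (j = 3 ∧ (k : ℕ) < ω.s * ω.s + ω.s) ∨ j = 4 ∨
      (j = 5 ∧ (k : ℕ) < ω.s * ω.s ∧ (k : ℕ) / ω.s = (k : ℕ) % ω.s) ∨
      (j = 6 ∧ (k : ℕ) < ω.s * ω.s ∧ (k : ℕ) / ω.s ≤ (k : ℕ) % ω.s)
  | Sum.inr (Sum.inr _) => False

theorem parMem_lower {ω : Wd} {j : ℕ} {x y : PT ω} (h : y ≤ x) (hx : parMem ω j x) :
    parMem ω j y := by
  rcases h with rfl | h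
  · exact hx
  · rcases x with r | k | i <;> rcases y with r' | k' | i'
    · exact h.elim
    · exact h.elim
    · exact h.elim
    · simp only [parMem] at hx ⊢
      rw [if_neg (by omega)]
      omega
    · exact h.elim
    · exact h.elim
    · exact hx.elim
    · exact hx.elim
    · exact hx.elim

/-- The parameters. -/
def par (ω : Wd) (j : ℕ) : LowerSet (PT ω) := ⟨{x | parMem ω j x}, fun _ _ h hx => parMem_lower h hx⟩

theorem mem_par {ω : Wd} {j : ℕ} {x : PT ω} : x ∈ par ω j ↔ parMem ω j x := Iff.rfl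

/-- The pairs which belong to the cells in a lower set. -/
def cells (ω : Wd) (Y : LowerSet (PT ω)) : Set (ℕ × ℕ) :=
  {p | p ∈ sq ω.s ∧ ∃ h : p.1 * ω.s + p.2 < ω.s * ω.s + ω.t, PT.un ⟨_, h⟩ ∈ Y}

end Pool.Agent.Lib.MP_586990_lc.R
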