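import Pool.Agent.Lib.MP_586990_lc_R.LatD

set_option autoImplicit false

/-!
# The additional units and the upper elements, first part
-/

namespace Pool.Agent.Lib.MP_586990_lc.R

theorem lat_tC (x : ℕ) : LatD fun ω v _ => v x < ω.t := by
  refine ⟨fun P i X w => ∃ z, Ec X z ∧ SC X z (w x),
    PD.ex (S := fun _ _ X w z => Ec X z ∧ SC X z (w x)) ((PD.ec 0).and (PD.sc 0 (x + 1))), ?_⟩
  intro ω v V X w c
  constructor
  · rintro ⟨z, hz, h⟩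
    obtain ⟨h1, -⟩ := (c.sc_iff x hz).1 h
    omega
  · intro h
    have h0 := (c.idx x).1
    have h1 : ω.s * ω.s + v x < ω.s * ω.s + ω.t := by omega
    have hz : Ec X (PT.un ⟨ω.s * ω.s + v x, h1⟩) := by
      refine (ec_iff c.par).2 ⟨⟨ω.s * ω.s + v x, h1⟩, ?_, ?_, rfl⟩
      · show ω.s * ω.s ≤ ω.s * ω.s + v x
        omega
      · show ω.s * ω.s + v x < ω.s * ω.s + ω.s
        omega
    exact ⟨_, hz, (c.sc_iff x hz).2 ⟨h1, rfl⟩⟩

theorem lat_tR (x : ℕ) : LatD fun ω v _ => ω.s + v x < ω.t := by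
  refine ⟨fun P i X w => ∃ z, Er X z ∧ SR X z (w x),
    PD.ex (S := fun _ _ X w z => Er X z ∧ SR X z (w x)) ((PD.er 0).and (PD.sr 0 (x + 1))), ?_⟩
  intro ω v V X w c
  constructor
  · rintro ⟨z, hz, h⟩
    obtain ⟨h1, -⟩ := (c.sr_iff x hz).1 h
    omega
  · intro h
    have h1 : ω.s * ω.s + ω.s + v x < ω.s * ω.s + ω.t := by omega
    have hz : Er X (PT.un ⟨ω.s * ω.s + ω.s + v x, h1⟩) := by
      refine (er_iff c.par).2 ⟨⟨ω.s * ω.s + ω.s + v x, h1⟩, ?_, rfl⟩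
      show ω.s * ω.s + ω.s ≤ ω.s * ω.s + ω.s + v x
      omega
    exact ⟨_, hz, (c.sr_iff x hz).2 ⟨h1, rfl⟩⟩

theorem lat_jJ (x y : ℕ) : LatD fun ω v _ => v x * ω.s + v y ∈ ω.J := by
  refine ⟨fun P i X w => ∃ g z0, g ∉ X 4 ∧ At X z0 (w x) (w y) ∧ z0 < g ∧
      ∀ z, Ce X z → UL X z z0 → ¬ z < g,
    PD.ex (S := fun _ _ X w g => ∃ z0, g ∉ X 4 ∧ At X z0 (w x) (w y) ∧ z0 < g ∧
      ∀ z, Ce X z → UL X z z0 → ¬ z < g)
      (PD.ex (S := fun _ _ X w z0 => w 0 ∉ X 4 ∧ At X z0 (w (x + 1)) (w (y + 1)) ∧ z0 < w 0 ∧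
        ∀ z, Ce X z → UL X z z0 → ¬ z < w 0)
        ((PD.mem 1 4).not.and ((PD.at_ 0 (x + 2) (y + 2)).and ((PD.lt 0 1).and
          (PD.all (S := fun _ _ X w z => Ce X z → UL X z (w 0) → ¬ z < w 1)
            ((PD.ce 0).imp ((PD.ul 0 1).imp (PD.lt 0 2).not))))))), ?_⟩
  intro ω v V X w c
  have hs := ω.hs
  have hx := (c.idx x).1
  have hy := (c.idx y).1
  have hk : v x * ω.s + v y < ω.s * ω.s := by
    have h1 : (v x + 1) * ω.s ≤ ω.s * ω.s := Nat.mul_le_mul_right _ hx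
    have h2 : (v x + 1) * ω.s = v x * ω.s + ω.s := Nat.succ_mul _ _
    omega
  have hk' : v x * ω.s + v y < ω.s * ω.s + ω.t := by omega
  constructor
  · rintro ⟨g, z0, hg, hz, hzg, hm⟩
    obtain ⟨j, rfl⟩ := (up_iff c.par).1 hg
    obtain ⟨_, rfl⟩ := (c.at_iff x y _).1 hz
    have h1 : (j : ℕ) ≤ v x * ω.s + v y := hzg
    rcases Nat.lt_or_ge (j : ℕ) (v x * ω.s + v y) with h2 | h2
    · exfalso
      have h3 : (j : ℕ) < ω.s * ω.s + ω.t := by omega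
      refine hm (PT.un ⟨j, h3⟩) ((ce_iff c.par).2 ⟨⟨j, h3⟩, ?_, rfl⟩) ?_ ?_
      · show (j : ℕ) < ω.s * ω.s
        omega
      · exact (ul_par c.par ⟨j, h3⟩ ⟨v x * ω.s + v y, hk'⟩).2 h2
      · show (j : ℕ) ≤ j
        exact le_rfl
    · have h3 : (j : ℕ) = v x * ω.s + v y := le_antisymm h1 h2
      rw [← h3]
      exact j.2
  · intro h
    refine ⟨PT.up ⟨_, h⟩, PT.un ⟨_, hk'⟩, (up_iff c.par).2 ⟨_, rfl⟩,
      (c.at_iff x y _).2 ⟨hk', rfl⟩, ?_, ?_⟩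
    · show v x * ω.s + v y ≤ v x * ω.s + v y
      exact le_rfl
    · intro z hz hu
      obtain ⟨k, hk1, rfl⟩ := (ce_iff c.par).1 hz
      have h1 : (k : ℕ) < v x * ω.s + v y := (ul_par c.par k ⟨_, hk'⟩).1 hu
      intro h2
      have h3 : v x * ω.s + v y ≤ (k : ℕ) := h2
      omega

end Pool.Agent.Lib.MP_586990_lc.R
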