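import Pool.Agent.Lib.MP_586990_lc_R.LatD

set_option autoImplicit false

/-!
# The additional units and the upper elements, second part
-/

namespace Pool.Agent.Lib.MP_586990_lc.R

private theorem LatWB_diag {ω : Wd} {v : ℕ → ℕ} {V : ℕ → Set (ℕ × ℕ)}
    {X : ℕ → LowerSet (PT ω)} {w : ℕ → PT ω} (c : Cod ω v V X w) {d : PT ω} (hd : Dg X d) :
    ∃ a, a < ω.s ∧ Cod ω (fun _ => a) V X (fun _ => d) := by
  obtain ⟨a, ha, h, rfl⟩ := (dg_iff c.par).1 hd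
  exact ⟨a, ha, ⟨c.par, c.set, fun _ => ⟨ha, h, rfl⟩⟩⟩

private theorem LatWB_ex {ω : Wd} {v : ℕ → ℕ} {V : ℕ → Set (ℕ × ℕ)}
    {X : ℕ → LowerSet (PT ω)} {w : ℕ → PT ω} (c : Cod ω v V X w) {a : ℕ} (ha : a < ω.s) :
    ∃ d, Cod ω (fun _ => a) V X (fun _ => d) := by
  have h : a * ω.s + a < ω.s * ω.s + ω.t := by
    have h1 : (a + 1) * ω.s ≤ ω.s * ω.s := Nat.mul_le_mul_right _ ha
    have h2 : (a + 1) * ω.s = a * ω.s + ω.s := Nat.succ_mul _ _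
    omega
  exact ⟨PT.un ⟨a * ω.s + a, h⟩, ⟨c.par, c.set, fun _ => ⟨ha, h, rfl⟩⟩⟩

private theorem LatWB_lt {ω : Wd} (k : Fin (ω.s * ω.s + ω.t)) (j : {j : ℕ // j ∈ ω.J}) :
    PT.un k < (PT.up j : PT ω) ↔ (j : ℕ) ≤ k := Iff.rfl

private theorem LatWB_ce {ω : Wd} {v : ℕ → ℕ} {V : ℕ → Set (ℕ × ℕ)}
    {X : ℕ → LowerSet (PT ω)} {w : ℕ → PT ω} (c : Cod ω v V X w) (j : {j : ℕ // j ∈ ω.J}) :
    (∀ z, Ce X z → ¬ z < (PT.up j : PT ω)) ↔ ω.s * ω.s ≤ (j : ℕ) := by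
  have h9 : 3 * 3 ≤ ω.s * ω.s := Nat.mul_le_mul ω.hs ω.hs
  constructor
  · intro h
    have hk : ω.s * ω.s - 1 < ω.s * ω.s + ω.t := by omega
    have h1 := h (PT.un ⟨ω.s * ω.s - 1, hk⟩)
      ((ce_iff c.par).2 ⟨⟨ω.s * ω.s - 1, hk⟩, by show ω.s * ω.s - 1 < ω.s * ω.s; omega, rfl⟩)
    rw [LatWB_lt] at h1
    have h2 : ¬ (j : ℕ) ≤ ω.s * ω.s - 1 := h1
    omega
  · intro h z hz
    obtain ⟨k, hk, rfl⟩ := (ce_iff c.par).1 hz
    rw [LatWB_lt]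
    omega

private theorem LatWB_ec {ω : Wd} {V : ℕ → Set (ℕ × ℕ)}
    {X : ℕ → LowerSet (PT ω)} {d : PT ω} {a : ℕ} (c : Cod ω (fun _ => a) V X (fun _ => d))
    (j : {j : ℕ // j ∈ ω.J}) :
    (∃ z, Ec X z ∧ SC X z d ∧ ¬ z < (PT.up j : PT ω)) ↔
      a < ω.t ∧ ω.s * ω.s + a < (j : ℕ) := by
  have ha : a < ω.s := (c.idx 0).1
  constructor
  · rintro ⟨z, hz, h1, h2⟩
    obtain ⟨h, rfl⟩ := (c.sc_iff 0 hz).1 h1
    rw [LatWB_lt] at h2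
    have h3 : ¬ (j : ℕ) ≤ ω.s * ω.s + a := h2
    omega
  · rintro ⟨h1, h2⟩
    have h : ω.s * ω.s + a < ω.s * ω.s + ω.t := by omega
    have hz : Ec X (PT.un ⟨ω.s * ω.s + a, h⟩) := by
      refine (ec_iff c.par).2 ⟨⟨ω.s * ω.s + a, h⟩, ?_, ?_, rfl⟩
      · show ω.s * ω.s ≤ ω.s * ω.s + a
        omega
      · show ω.s * ω.s + a < ω.s * ω.s + ω.s
        omega
    refine ⟨_, hz, (c.sc_iff 0 hz).2 ⟨h, rfl⟩, ?_⟩
    rw [LatWB_lt]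
    show ¬ (j : ℕ) ≤ ω.s * ω.s + a
    omega

private theorem LatWB_er {ω : Wd} {V : ℕ → Set (ℕ × ℕ)}
    {X : ℕ → LowerSet (PT ω)} {d : PT ω} {a : ℕ} (c : Cod ω (fun _ => a) V X (fun _ => d))
    (j : {j : ℕ // j ∈ ω.J}) :
    (∃ z, Er X z ∧ SR X z d ∧ ¬ z < (PT.up j : PT ω)) ↔
      ω.s + a < ω.t ∧ ω.s * ω.s + ω.s + a < (j : ℕ) := by
  constructor
  · rintro ⟨z, hz, h1, h2⟩
    obtain ⟨h, rfl⟩ := (c.sr_iff 0 hz).1 h1
    rw [LatWB_lt] at h2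
    have h3 : ¬ (j : ℕ) ≤ ω.s * ω.s + ω.s + a := h2
    omega
  · rintro ⟨h1, h2⟩
    have h : ω.s * ω.s + ω.s + a < ω.s * ω.s + ω.t := by omega
    have hz : Er X (PT.un ⟨ω.s * ω.s + ω.s + a, h⟩) := by
      refine (er_iff c.par).2 ⟨⟨ω.s * ω.s + ω.s + a, h⟩, ?_, rfl⟩
      show ω.s * ω.s + ω.s ≤ ω.s * ω.s + ω.s + a
      omega
    refine ⟨_, hz, (c.sr_iff 0 hz).2 ⟨h, rfl⟩, ?_⟩
    rw [LatWB_lt]
    show ¬ (j : ℕ) ≤ ω.s * ω.s + ω.s + a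
    omega

private theorem LatWB_ec' {ω : Wd} {v : ℕ → ℕ} {V : ℕ → Set (ℕ × ℕ)}
    {X : ℕ → LowerSet (PT ω)} {w : ℕ → PT ω} (c : Cod ω v V X w) (x : ℕ)
    (j : {j : ℕ // j ∈ ω.J}) :
    (∀ z, Ec X z → SC X z (w x) → z < (PT.up j : PT ω)) ↔
      (v x < ω.t → (j : ℕ) ≤ ω.s * ω.s + v x) := by
  have c' : Cod ω (fun _ => v x) V X (fun _ => w x) := ⟨c.par, c.set, fun _ => c.idx x⟩
  have h := not_congr (LatWB_ec c' j)
  constructor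
  · intro h1 h2
    by_contra h3
    exact absurd ⟨h2, by omega⟩ (h.1 fun ⟨z, hz, h4, h5⟩ => h5 (h1 z hz h4))
  · intro h1 z hz h2
    by_contra h3
    have h4 := (LatWB_ec c' j).1 ⟨z, hz, h2, h3⟩
    have h5 := h1 h4.1
    omega

private theorem LatWB_er' {ω : Wd} {v : ℕ → ℕ} {V : ℕ → Set (ℕ × ℕ)}
    {X : ℕ → LowerSet (PT ω)} {w : ℕ → PT ω} (c : Cod ω v V X w) (x : ℕ)
    (j : {j : ℕ // j ∈ ω.J}) :
    (∀ z, Er X z → SR X z (w x) → z < (PT.up j : PT ω)) ↔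
      (ω.s + v x < ω.t → (j : ℕ) ≤ ω.s * ω.s + ω.s + v x) := by
  have c' : Cod ω (fun _ => v x) V X (fun _ => w x) := ⟨c.par, c.set, fun _ => c.idx x⟩
  have h := not_congr (LatWB_er c' j)
  constructor
  · intro h1 h2
    by_contra h3
    exact absurd ⟨h2, by omega⟩ (h.1 fun ⟨z, hz, h4, h5⟩ => h5 (h1 z hz h4))
  · intro h1 z hz h2
    by_contra h3
    have h4 := (LatWB_er c' j).1 ⟨z, hz, h2, h3⟩
    have h5 := h1 h4.1
    omega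

/-- the elements of the diagonal before `w x` -/
private theorem LatWB_bef {ω : Wd} {v : ℕ → ℕ} {V : ℕ → Set (ℕ × ℕ)}
    {X : ℕ → LowerSet (PT ω)} {w : ℕ → PT ω} (c : Cod ω v V X w) (x : ℕ) {d : PT ω} {a : ℕ}
    (c' : Cod ω (fun _ => a) V X (fun _ => d)) :
    (DLe X d (w x) ∧ d ≠ w x) ↔ a < v x := by
  have R := rcPar c.par
  rw [R.dle (c'.dg 0) (c.dg x), c'.rp 0, c.rp x]
  have h : d = w x ↔ a = v x := by
    constructor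
    · intro h
      rw [← c'.rp 0, ← c.rp x, h]
    · intro h
      have h1 := c'.idx 0
      have h2 := c.idx x
      obtain ⟨_, h3, h4⟩ := h1
      obtain ⟨_, h5, h6⟩ := h2
      have h4' : d = PT.un ⟨a * ω.s + a, h3⟩ := h4
      rw [h4', h6]
      subst h
      rfl
  rw [Ne, h]
  omega

/-- for all `a < v x` -/
private theorem LatWB_all {ω : Wd} {v : ℕ → ℕ} {V : ℕ → Set (ℕ × ℕ)}
    {X : ℕ → LowerSet (PT ω)} {w : ℕ → PT ω} (c : Cod ω v V X w) (x : ℕ)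
    {p : PT ω → Prop} {q : ℕ → Prop}
    (h : ∀ a d, Cod ω (fun _ => a) V X (fun _ => d) → (p d ↔ q a)) :
    (∀ d, Dg X d → DLe X d (w x) → d ≠ w x → p d) ↔ ∀ a, a < v x → q a := by
  constructor
  · intro h1 a ha
    have hv := (c.idx x).1
    obtain ⟨d, c'⟩ := LatWB_ex c (a := a) (by omega)
    have h2 := (LatWB_bef c x c').2 ha
    exact (h a d c').1 (h1 d (c'.dg 0) h2.1 h2.2)
  · intro h1 d hd h2 h3
    obtain ⟨a, ha, c'⟩ := LatWB_diag c hd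
    exact (h a d c').2 (h1 a ((LatWB_bef c x c').1 ⟨h2, h3⟩))

private theorem LatWB_allD {ω : Wd} {v : ℕ → ℕ} {V : ℕ → Set (ℕ × ℕ)}
    {X : ℕ → LowerSet (PT ω)} {w : ℕ → PT ω} (c : Cod ω v V X w)
    {p : PT ω → Prop} {q : ℕ → Prop}
    (h : ∀ a d, Cod ω (fun _ => a) V X (fun _ => d) → (p d ↔ q a)) :
    (∀ d, Dg X d → p d) ↔ ∀ a, a < ω.s → q a := by
  constructor
  · intro h1 a ha
    obtain ⟨d, c'⟩ := LatWB_ex c ha
    exact (h a d c').1 (h1 d (c'.dg 0))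
  · intro h1 d hd
    obtain ⟨a, ha, c'⟩ := LatWB_diag c hd
    exact (h a d c').2 (h1 a ha)

/-! ### Definability -/

private theorem LatWB_pce (g : ℕ) : PD fun _ _ X w => ∀ z, Ce X z → ¬ z < w g :=
  PD.all (S := fun _ _ X w z => Ce X z → ¬ z < w g)
    (PD.imp (PD.ce 0) (PD.not (PD.lt 0 (g + 1))))

private theorem LatWB_pec (d g : ℕ) :
    PD fun _ _ X w => ∃ z, Ec X z ∧ SC X z (w d) ∧ ¬ z < w g :=
  PD.ex (S := fun _ _ X w z => Ec X z ∧ SC X z (w d) ∧ ¬ z < w g)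
    (PD.and (PD.ec 0) (PD.and (PD.sc 0 (d + 1)) (PD.not (PD.lt 0 (g + 1)))))

private theorem LatWB_per (d g : ℕ) :
    PD fun _ _ X w => ∃ z, Er X z ∧ SR X z (w d) ∧ ¬ z < w g :=
  PD.ex (S := fun _ _ X w z => Er X z ∧ SR X z (w d) ∧ ¬ z < w g)
    (PD.and (PD.er 0) (PD.and (PD.sr 0 (d + 1)) (PD.not (PD.lt 0 (g + 1)))))

private theorem LatWB_pec' (x g : ℕ) :
    PD fun _ _ X w => ∀ z, Ec X z → SC X z (w x) → z < w g :=
  PD.all (S := fun _ _ X w z => Ec X z → SC X z (w x) → z < w g)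
    (PD.imp (PD.ec 0) (PD.imp (PD.sc 0 (x + 1)) (PD.lt 0 (g + 1))))

private theorem LatWB_per' (x g : ℕ) :
    PD fun _ _ X w => ∀ z, Er X z → SR X z (w x) → z < w g :=
  PD.all (S := fun _ _ X w z => Er X z → SR X z (w x) → z < w g)
    (PD.imp (PD.er 0) (PD.imp (PD.sr 0 (x + 1)) (PD.lt 0 (g + 1))))

private theorem LatWB_pbec (x g : ℕ) : PD fun _ _ X w => ∀ d, Dg X d → DLe X d (w x) →
    d ≠ w x → ∃ z, Ec X z ∧ SC X z d ∧ ¬ z < w g :=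
  PD.all (S := fun _ _ X w d => Dg X d → DLe X d (w x) →
    d ≠ w x → ∃ z, Ec X z ∧ SC X z d ∧ ¬ z < w g)
    (PD.imp (PD.dg 0) (PD.imp (PD.dle 0 (x + 1)) (PD.imp (PD.not (PD.eq 0 (x + 1)))
      (LatWB_pec 0 (g + 1)))))

private theorem LatWB_pber (x g : ℕ) : PD fun _ _ X w => ∀ d, Dg X d → DLe X d (w x) →
    d ≠ w x → ∃ z, Er X z ∧ SR X z d ∧ ¬ z < w g :=
  PD.all (S := fun _ _ X w d => Dg X d → DLe X d (w x) →
    d ≠ w x → ∃ z, Er X z ∧ SR X z d ∧ ¬ z < w g)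
    (PD.imp (PD.dg 0) (PD.imp (PD.dle 0 (x + 1)) (PD.imp (PD.not (PD.eq 0 (x + 1)))
      (LatWB_per 0 (g + 1)))))

private theorem LatWB_paec (g : ℕ) : PD fun _ _ X w => ∀ d, Dg X d →
    ∃ z, Ec X z ∧ SC X z d ∧ ¬ z < w g :=
  PD.all (S := fun _ _ X w d => Dg X d → ∃ z, Ec X z ∧ SC X z d ∧ ¬ z < w g)
    (PD.imp (PD.dg 0) (LatWB_pec 0 (g + 1)))

private theorem LatWB_paer (g : ℕ) : PD fun _ _ X w => ∀ d, Dg X d →
    ∃ z, Er X z ∧ SR X z d ∧ ¬ z < w g :=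
  PD.all (S := fun _ _ X w d => Dg X d → ∃ z, Er X z ∧ SR X z d ∧ ¬ z < w g)
    (PD.imp (PD.dg 0) (LatWB_per 0 (g + 1)))

theorem lat_hC (x : ℕ) : LatD fun ω v _ => ω.s * ω.s + v x ∈ ω.J := by
  refine ⟨fun _ _ X w => ∃ g, g ∉ X 4 ∧ (∀ z, Ce X z → ¬ z < g) ∧
    (∀ d, Dg X d → DLe X d (w x) → d ≠ w x → ∃ z, Ec X z ∧ SC X z d ∧ ¬ z < g) ∧
    (∀ z, Ec X z → SC X z (w x) → z < g),
    PD.ex (S := fun _ _ X w g => g ∉ X 4 ∧ (∀ z, Ce X z → ¬ z < g) ∧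
      (∀ d, Dg X d → DLe X d (w x) → d ≠ w x → ∃ z, Ec X z ∧ SC X z d ∧ ¬ z < g) ∧
      (∀ z, Ec X z → SC X z (w x) → z < g))
      (PD.and (PD.not (PD.mem 0 4)) (PD.and (LatWB_pce 0)
        (PD.and (LatWB_pbec (x + 1) 0) (LatWB_pec' (x + 1) 0)))), ?_⟩
  intro ω v V X w c
  constructor
  · rintro ⟨g, hg, h1, h2, h3⟩
    obtain ⟨j, rfl⟩ := (up_iff c.par).1 hg
    rw [LatWB_ce c] at h1
    rw [LatWB_all c x (fun a d c' => LatWB_ec c' j)] at h2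
    rw [LatWB_ec' c x] at h3
    have h4 := ω.hJ j.1 j.2
    have h5 : (j : ℕ) = ω.s * ω.s + v x := by
      rcases Nat.eq_zero_or_pos (v x) with h0 | h0
      · rcases Nat.lt_or_ge (v x) ω.t with h6 | h6
        · have := h3 h6
          omega
        · omega
      · have h7 := h2 (v x - 1) (by omega)
        rcases Nat.lt_or_ge (v x) ω.t with h6 | h6
        · have := h3 h6
          omega
        · omega
    rw [← h5]
    exact j.2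
  · intro hJ
    have h4 := ω.hJ _ hJ
    refine ⟨PT.up ⟨_, hJ⟩, (up_iff c.par).2 ⟨_, rfl⟩, (LatWB_ce c _).2 ?_,
      (LatWB_all c x (fun a d c' => LatWB_ec c' ⟨_, hJ⟩)).2 ?_, (LatWB_ec' c x _).2 ?_⟩
    · show ω.s * ω.s ≤ ω.s * ω.s + v x
      omega
    · intro a ha
      show a < ω.t ∧ ω.s * ω.s + a < ω.s * ω.s + v x
      omega
    · intro _
      exact le_rfl

theorem lat_hR (x : ℕ) : LatD fun ω v _ => ω.s * ω.s + ω.s + v x ∈ ω.J := by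
  refine ⟨fun _ _ X w => ∃ g, g ∉ X 4 ∧ (∀ z, Ce X z → ¬ z < g) ∧
    (∀ d, Dg X d → ∃ z, Ec X z ∧ SC X z d ∧ ¬ z < g) ∧
    (∀ d, Dg X d → DLe X d (w x) → d ≠ w x → ∃ z, Er X z ∧ SR X z d ∧ ¬ z < g) ∧
    (∀ z, Er X z → SR X z (w x) → z < g),
    PD.ex (S := fun _ _ X w g => g ∉ X 4 ∧ (∀ z, Ce X z → ¬ z < g) ∧
      (∀ d, Dg X d → ∃ z, Ec X z ∧ SC X z d ∧ ¬ z < g) ∧
      (∀ d, Dg X d → DLe X d (w x) → d ≠ w x → ∃ z, Er X z ∧ SR X z d ∧ ¬ z < g) ∧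
      (∀ z, Er X z → SR X z (w x) → z < g))
      (PD.and (PD.not (PD.mem 0 4)) (PD.and (LatWB_pce 0) (PD.and (LatWB_paec 0)
        (PD.and (LatWB_pber (x + 1) 0) (LatWB_per' (x + 1) 0))))), ?_⟩
  intro ω v V X w c
  have hs := ω.hs
  constructor
  · rintro ⟨g, hg, h1, h8, h2, h3⟩
    obtain ⟨j, rfl⟩ := (up_iff c.par).1 hg
    rw [LatWB_ce c] at h1
    rw [LatWB_allD c (fun a d c' => LatWB_ec c' j)] at h8
    rw [LatWB_all c x (fun a d c' => LatWB_er c' j)] at h2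
    rw [LatWB_er' c x] at h3
    have h4 := ω.hJ j.1 j.2
    have h9 := h8 (ω.s - 1) (by omega)
    have h5 : (j : ℕ) = ω.s * ω.s + ω.s + v x := by
      rcases Nat.eq_zero_or_pos (v x) with h0 | h0
      · rcases Nat.lt_or_ge (ω.s + v x) ω.t with h6 | h6
        · have := h3 h6
          omega
        · omega
      · have h7 := h2 (v x - 1) (by omega)
        rcases Nat.lt_or_ge (ω.s + v x) ω.t with h6 | h6
        · have := h3 h6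
          omega
        · omega
    rw [← h5]
    exact j.2
  · intro hJ
    have h4 := ω.hJ _ hJ
    refine ⟨PT.up ⟨_, hJ⟩, (up_iff c.par).2 ⟨_, rfl⟩, (LatWB_ce c _).2 ?_,
      (LatWB_allD c (fun a d c' => LatWB_ec c' ⟨_, hJ⟩)).2 ?_,
      (LatWB_all c x (fun a d c' => LatWB_er c' ⟨_, hJ⟩)).2 ?_, (LatWB_er' c x _).2 ?_⟩
    · show ω.s * ω.s ≤ ω.s * ω.s + ω.s + v x
      omega
    · intro a ha
      show a < ω.t ∧ ω.s * ω.s + a < ω.s * ω.s + ω.s + v x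
      omega
    · intro a ha
      show ω.s + a < ω.t ∧ ω.s * ω.s + ω.s + a < ω.s * ω.s + ω.s + v x
      omega
    · intro _
      exact le_rfl

theorem lat_h2 : LatD fun ω _ _ => ω.s * ω.s + 2 * ω.s ∈ ω.J := by
  refine ⟨fun _ _ X _ => ∃ g, g ∉ X 4 ∧ (∀ z, Ce X z → ¬ z < g) ∧
    (∀ d, Dg X d → ∃ z, Ec X z ∧ SC X z d ∧ ¬ z < g) ∧
    (∀ d, Dg X d → ∃ z, Er X z ∧ SR X z d ∧ ¬ z < g),
    PD.ex (S := fun _ _ X _ g => g ∉ X 4 ∧ (∀ z, Ce X z → ¬ z < g) ∧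
      (∀ d, Dg X d → ∃ z, Ec X z ∧ SC X z d ∧ ¬ z < g) ∧
      (∀ d, Dg X d → ∃ z, Er X z ∧ SR X z d ∧ ¬ z < g))
      (PD.and (PD.not (PD.mem 0 4)) (PD.and (LatWB_pce 0) (PD.and (LatWB_paec 0)
        (LatWB_paer 0)))), ?_⟩
  intro ω v V X w c
  have hs := ω.hs
  have ht := ω.ht
  constructor
  · rintro ⟨g, hg, h1, h8, h2⟩
    obtain ⟨j, rfl⟩ := (up_iff c.par).1 hg
    rw [LatWB_allD c (fun a d c' => LatWB_er c' j)] at h2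
    have h4 := ω.hJ j.1 j.2
    have h9 := h2 (ω.s - 1) (by omega)
    have h5 : (j : ℕ) = ω.s * ω.s + 2 * ω.s := by omega
    rw [← h5]
    exact j.2
  · intro hJ
    have h4 := ω.hJ _ hJ
    refine ⟨PT.up ⟨_, hJ⟩, (up_iff c.par).2 ⟨_, rfl⟩, (LatWB_ce c _).2 ?_,
      (LatWB_allD c (fun a d c' => LatWB_ec c' ⟨_, hJ⟩)).2 ?_,
      (LatWB_allD c (fun a d c' => LatWB_er c' ⟨_, hJ⟩)).2 ?_⟩
    · show ω.s * ω.s ≤ ω.s * ω.s + 2 * ω.s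
      omega
    · intro a ha
      show a < ω.t ∧ ω.s * ω.s + a < ω.s * ω.s + 2 * ω.s
      omega
    · intro a ha
      show ω.s + a < ω.t ∧ ω.s * ω.s + ω.s + a < ω.s * ω.s + 2 * ω.s
      omega

end Pool.Agent.Lib.MP_586990_lc.R
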