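import Pool.Agent.Lib.MP_586990_lc_R.LatPD

set_option autoImplicit false

/-!
# The conditions on the parameters are definable
-/

namespace Pool.Agent.Lib.MP_586990_lc.R

private theorem valPD_sub (a b : ℕ) : PD fun _ _ X _ => ∀ x, x ∈ X a → x ∈ X b :=
  PD.all (S := fun _ _ X _ x => x ∈ X a → x ∈ X b) ((PD.mem 0 a).imp (PD.mem 0 b))

private theorem valPD_lo : PD fun P _ X _ => ∀ x y : P, y ∈ X 1 → ¬ x < y :=
  PD.all (S := fun P _ X _ x => ∀ y : P, y ∈ X 1 → ¬ x < y)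
    (PD.all (S := fun _ _ X w y => y ∈ X 1 → ¬ w 0 < y) ((PD.mem 0 1).imp (PD.lt 1 0).not))

private theorem valPD_un : PD fun P _ X _ => ∀ x y : P, Un X y → x < y → x ∈ X 1 :=
  PD.all (S := fun P _ X _ x => ∀ y : P, Un X y → x < y → x ∈ X 1)
    (PD.all (S := fun _ _ X w y => Un X y → w 0 < y → w 0 ∈ X 1)
      ((PD.un 0).imp ((PD.lt 1 0).imp (PD.mem 1 1))))

private theorem valPD_up : PD fun P _ X _ => ∀ x y : P, y ∉ X 4 → x ∈ X 1 → x < y :=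
  PD.all (S := fun P _ X _ x => ∀ y : P, y ∉ X 4 → x ∈ X 1 → x < y)
    (PD.all (S := fun _ _ X w y => y ∉ X 4 → w 0 ∈ X 1 → w 0 < y)
      ((PD.mem 0 4).not.imp ((PD.mem 1 1).imp (PD.lt 1 0))))

/-- The unique row which is not below. -/
private theorem valPD_row (x : ℕ) : PD fun P _ X w => ∃ r : P, r ∈ X 0 ∧ ¬ r < w x ∧
    ∀ r', r' ∈ X 0 → ¬ r' < w x → r' = r :=
  PD.ex (S := fun P _ X w r => r ∈ X 0 ∧ ¬ r < w x ∧ ∀ r', r' ∈ X 0 → ¬ r' < w x → r' = r)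
    ((PD.mem 0 0).and ((PD.lt 0 (x + 1)).not.and
      (PD.all (S := fun P _ X w r' => r' ∈ X 0 → ¬ r' < w (x + 1) → r' = w 0)
        ((PD.mem 0 0).imp ((PD.lt 0 (x + 2)).not.imp (PD.eq 0 1))))))

/-- The unique column which is not below. -/
private theorem valPD_col (x : ℕ) : PD fun P _ X w => ∃ r : P, Co X r ∧ ¬ r < w x ∧
    ∀ r', Co X r' → ¬ r' < w x → r' = r :=
  PD.ex (S := fun P _ X w r => Co X r ∧ ¬ r < w x ∧ ∀ r', Co X r' → ¬ r' < w x → r' = r)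
    ((PD.co 0).and ((PD.lt 0 (x + 1)).not.and
      (PD.all (S := fun P _ X w r' => Co X r' → ¬ r' < w (x + 1) → r' = w 0)
        ((PD.co 0).imp ((PD.lt 0 (x + 2)).not.imp (PD.eq 0 1))))))

/-- The unique element of the diagonal which is not above. -/
private theorem valPD_dia (x : ℕ) : PD fun P _ X w => ∃ r : P, Dg X r ∧ ¬ w x < r ∧
    ∀ r', Dg X r' → ¬ w x < r' → r' = r :=
  PD.ex (S := fun P _ X w r => Dg X r ∧ ¬ w x < r ∧ ∀ r', Dg X r' → ¬ w x < r' → r' = r)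
    ((PD.dg 0).and ((PD.lt (x + 1) 0).not.and
      (PD.all (S := fun P _ X w r' => Dg X r' → ¬ w (x + 1) < r' → r' = w 0)
        ((PD.dg 0).imp ((PD.lt (x + 2) 0).not.imp (PD.eq 0 1))))))

private theorem valPD_cr : PD fun P _ X _ => ∀ x : P, Ce X x →
    ∃ r, r ∈ X 0 ∧ ¬ r < x ∧ ∀ r', r' ∈ X 0 → ¬ r' < x → r' = r :=
  PD.all (S := fun P _ X _ x => Ce X x →
    ∃ r, r ∈ X 0 ∧ ¬ r < x ∧ ∀ r', r' ∈ X 0 → ¬ r' < x → r' = r) ((PD.ce 0).imp (valPD_row 0))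

private theorem valPD_cc : PD fun P _ X _ => ∀ x : P, Ce X x →
    ∃ c, Co X c ∧ ¬ c < x ∧ ∀ c', Co X c' → ¬ c' < x → c' = c :=
  PD.all (S := fun P _ X _ x => Ce X x →
    ∃ c, Co X c ∧ ¬ c < x ∧ ∀ c', Co X c' → ¬ c' < x → c' = c) ((PD.ce 0).imp (valPD_col 0))

private theorem valPD_ex : PD fun P _ X _ => ∀ r c : P, r ∈ X 0 → Co X c →
    ∃ x, Ce X x ∧ ¬ r < x ∧ ¬ c < x :=
  PD.all (S := fun P _ X _ r => ∀ c : P, r ∈ X 0 → Co X c → ∃ x, Ce X x ∧ ¬ r < x ∧ ¬ c < x)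
    (PD.all (S := fun _ _ X w c => w 0 ∈ X 0 → Co X c → ∃ x, Ce X x ∧ ¬ w 0 < x ∧ ¬ c < x)
      ((PD.mem 1 0).imp ((PD.co 0).imp
        (PD.ex (S := fun _ _ X w x => Ce X x ∧ ¬ w 1 < x ∧ ¬ w 0 < x)
          ((PD.ce 0).and ((PD.lt 2 0).not.and (PD.lt 1 0).not))))))

private theorem valPD_uq : PD fun P _ X _ => ∀ x y : P, Ce X x → Ce X y → SR X x y → SC X x y →
    x = y :=
  PD.all (S := fun P _ X _ x => ∀ y : P, Ce X x → Ce X y → SR X x y → SC X x y → x = y)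
    (PD.all (S := fun _ _ X w y => Ce X (w 0) → Ce X y → SR X (w 0) y → SC X (w 0) y → w 0 = y)
      ((PD.ce 1).imp ((PD.ce 0).imp ((PD.sr 1 0).imp ((PD.sc 1 0).imp (PD.eq 1 0))))))

private theorem valPD_ecr : PD fun P _ X _ => ∀ x r : P, Ec X x → r ∈ X 0 → r < x :=
  PD.all (S := fun P _ X _ x => ∀ r : P, Ec X x → r ∈ X 0 → r < x)
    (PD.all (S := fun _ _ X w r => Ec X (w 0) → r ∈ X 0 → r < w 0)
      ((PD.ec 1).imp ((PD.mem 0 0).imp (PD.lt 0 1))))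

private theorem valPD_ecc : PD fun P _ X _ => ∀ x : P, Ec X x →
    ∃ c, Co X c ∧ ¬ c < x ∧ ∀ c', Co X c' → ¬ c' < x → c' = c :=
  PD.all (S := fun P _ X _ x => Ec X x →
    ∃ c, Co X c ∧ ¬ c < x ∧ ∀ c', Co X c' → ¬ c' < x → c' = c) ((PD.ec 0).imp (valPD_col 0))

private theorem valPD_ecu : PD fun P _ X _ => ∀ x y : P, Ec X x → Ec X y → SC X x y → x = y :=
  PD.all (S := fun P _ X _ x => ∀ y : P, Ec X x → Ec X y → SC X x y → x = y)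
    (PD.all (S := fun _ _ X w y => Ec X (w 0) → Ec X y → SC X (w 0) y → w 0 = y)
      ((PD.ec 1).imp ((PD.ec 0).imp ((PD.sc 1 0).imp (PD.eq 1 0)))))

private theorem valPD_erc : PD fun P _ X _ => ∀ x c : P, Er X x → Co X c → c < x :=
  PD.all (S := fun P _ X _ x => ∀ c : P, Er X x → Co X c → c < x)
    (PD.all (S := fun _ _ X w c => Er X (w 0) → Co X c → c < w 0)
      ((PD.er 1).imp ((PD.co 0).imp (PD.lt 0 1))))

private theorem valPD_err : PD fun P _ X _ => ∀ x : P, Er X x →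
    ∃ r, r ∈ X 0 ∧ ¬ r < x ∧ ∀ r', r' ∈ X 0 → ¬ r' < x → r' = r :=
  PD.all (S := fun P _ X _ x => Er X x →
    ∃ r, r ∈ X 0 ∧ ¬ r < x ∧ ∀ r', r' ∈ X 0 → ¬ r' < x → r' = r) ((PD.er 0).imp (valPD_row 0))

private theorem valPD_eru : PD fun P _ X _ => ∀ x y : P, Er X x → Er X y → SR X x y → x = y :=
  PD.all (S := fun P _ X _ x => ∀ y : P, Er X x → Er X y → SR X x y → x = y)
    (PD.all (S := fun _ _ X w y => Er X (w 0) → Er X y → SR X (w 0) y → w 0 = y)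
      ((PD.er 1).imp ((PD.er 0).imp ((PD.sr 1 0).imp (PD.eq 1 0)))))

private theorem valPD_dr : PD fun P _ X _ => ∀ r : P, r ∈ X 0 →
    ∃ x, Dg X x ∧ ¬ r < x ∧ ∀ x', Dg X x' → ¬ r < x' → x' = x :=
  PD.all (S := fun P _ X _ r => r ∈ X 0 →
    ∃ x, Dg X x ∧ ¬ r < x ∧ ∀ x', Dg X x' → ¬ r < x' → x' = x) ((PD.mem 0 0).imp (valPD_dia 0))

private theorem valPD_dc : PD fun P _ X _ => ∀ c : P, Co X c →
    ∃ x, Dg X x ∧ ¬ c < x ∧ ∀ x', Dg X x' → ¬ c < x' → x' = x :=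
  PD.all (S := fun P _ X _ c => Co X c →
    ∃ x, Dg X x ∧ ¬ c < x ∧ ∀ x', Dg X x' → ¬ c < x' → x' = x) ((PD.co 0).imp (valPD_dia 0))

private theorem valPD_tot : PD fun P _ X _ => ∀ d d' : P, Dg X d → Dg X d' →
    DLe X d d' ∨ DLe X d' d :=
  PD.all (S := fun P _ X _ d => ∀ d' : P, Dg X d → Dg X d' → DLe X d d' ∨ DLe X d' d)
    (PD.all (S := fun _ _ X w d' => Dg X (w 0) → Dg X d' → DLe X (w 0) d' ∨ DLe X d' (w 0))
      ((PD.dg 1).imp ((PD.dg 0).imp ((PD.dle 1 0).or (PD.dle 0 1)))))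

private theorem valPD_anti : PD fun P _ X _ => ∀ d d' : P, Dg X d → Dg X d' →
    DLe X d d' → DLe X d' d → d = d' :=
  PD.all (S := fun P _ X _ d => ∀ d' : P, Dg X d → Dg X d' → DLe X d d' → DLe X d' d → d = d')
    (PD.all (S := fun _ _ X w d' => Dg X (w 0) → Dg X d' → DLe X (w 0) d' → DLe X d' (w 0) →
      w 0 = d')
      ((PD.dg 1).imp ((PD.dg 0).imp ((PD.dle 1 0).imp ((PD.dle 0 1).imp (PD.eq 1 0))))))

private theorem valPD_trn : PD fun P _ X _ => ∀ d d' d'' : P, Dg X d → Dg X d' → Dg X d'' →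
    DLe X d d' → DLe X d' d'' → DLe X d d'' :=
  PD.all (S := fun P _ X _ d => ∀ d' d'' : P, Dg X d → Dg X d' → Dg X d'' →
    DLe X d d' → DLe X d' d'' → DLe X d d'')
    (PD.all (S := fun P _ X w d' => ∀ d'' : P, Dg X (w 0) → Dg X d' → Dg X d'' →
      DLe X (w 0) d' → DLe X d' d'' → DLe X (w 0) d'')
      (PD.all (S := fun P _ X w d'' => Dg X (w 1) → Dg X (w 0) → Dg X d'' →
        DLe X (w 1) (w 0) → DLe X (w 0) d'' → DLe X (w 1) d'')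
        ((PD.dg 2).imp ((PD.dg 1).imp ((PD.dg 0).imp
          ((PD.dle 2 1).imp ((PD.dle 1 0).imp (PD.dle 2 0))))))))

private theorem valPD_three : PD fun P _ X _ => ∃ d d' d'' : P, Dg X d ∧ Dg X d' ∧ Dg X d'' ∧
    d ≠ d' ∧ d ≠ d'' ∧ d' ≠ d'' :=
  PD.ex (S := fun P _ X _ d => ∃ d' d'' : P, Dg X d ∧ Dg X d' ∧ Dg X d'' ∧
    d ≠ d' ∧ d ≠ d'' ∧ d' ≠ d'')
    (PD.ex (S := fun P _ X w d' => ∃ d'' : P, Dg X (w 0) ∧ Dg X d' ∧ Dg X d'' ∧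
      w 0 ≠ d' ∧ w 0 ≠ d'' ∧ d' ≠ d'')
      (PD.ex (S := fun P _ X w d'' => Dg X (w 1) ∧ Dg X (w 0) ∧ Dg X d'' ∧
        w 1 ≠ w 0 ∧ w 1 ≠ d'' ∧ w 0 ≠ d'')
        ((PD.dg 2).and ((PD.dg 1).and ((PD.dg 0).and
          ((PD.eq 2 1).not.and ((PD.eq 2 0).not.and (PD.eq 1 0).not)))))))

private theorem valPD_eci : PD fun P _ X _ => ∀ x d d' : P, Ec X x → SC X x d' → Dg X d →
    Dg X d' → DLe X d d' → ∃ y, Ec X y ∧ SC X y d :=
  PD.all (S := fun P _ X _ x => ∀ d d' : P, Ec X x → SC X x d' → Dg X d →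
    Dg X d' → DLe X d d' → ∃ y, Ec X y ∧ SC X y d)
    (PD.all (S := fun P _ X w d => ∀ d' : P, Ec X (w 0) → SC X (w 0) d' → Dg X d →
      Dg X d' → DLe X d d' → ∃ y, Ec X y ∧ SC X y d)
      (PD.all (S := fun P _ X w d' => Ec X (w 1) → SC X (w 1) d' → Dg X (w 0) →
        Dg X d' → DLe X (w 0) d' → ∃ y, Ec X y ∧ SC X y (w 0))
        ((PD.ec 2).imp ((PD.sc 2 0).imp ((PD.dg 1).imp ((PD.dg 0).imp ((PD.dle 1 0).imp
          (PD.ex (S := fun P _ X w y => Ec X y ∧ SC X y (w 1)) ((PD.ec 0).and (PD.sc 0 2))))))))))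

private theorem valPD_eri : PD fun P _ X _ => ∀ x d d' : P, Er X x → SR X x d' → Dg X d →
    Dg X d' → DLe X d d' → ∃ y, Er X y ∧ SR X y d :=
  PD.all (S := fun P _ X _ x => ∀ d d' : P, Er X x → SR X x d' → Dg X d →
    Dg X d' → DLe X d d' → ∃ y, Er X y ∧ SR X y d)
    (PD.all (S := fun P _ X w d => ∀ d' : P, Er X (w 0) → SR X (w 0) d' → Dg X d →
      Dg X d' → DLe X d d' → ∃ y, Er X y ∧ SR X y d)
      (PD.all (S := fun P _ X w d' => Er X (w 1) → SR X (w 1) d' → Dg X (w 0) →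
        Dg X d' → DLe X (w 0) d' → ∃ y, Er X y ∧ SR X y (w 0))
        ((PD.er 2).imp ((PD.sr 2 0).imp ((PD.dg 1).imp ((PD.dg 0).imp ((PD.dle 1 0).imp
          (PD.ex (S := fun P _ X w y => Er X y ∧ SR X y (w 1)) ((PD.er 0).and (PD.sr 0 2))))))))))

private theorem valPD_ecer : PD fun P _ X _ => ∀ x d : P, Er X x → Dg X d →
    ∃ y, Ec X y ∧ SC X y d :=
  PD.all (S := fun P _ X _ x => ∀ d : P, Er X x → Dg X d → ∃ y, Ec X y ∧ SC X y d)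
    (PD.all (S := fun P _ X w d => Er X (w 0) → Dg X d → ∃ y, Ec X y ∧ SC X y d)
      ((PD.er 1).imp ((PD.dg 0).imp
        (PD.ex (S := fun P _ X w y => Ec X y ∧ SC X y (w 0)) ((PD.ec 0).and (PD.sc 0 1))))))

private theorem valPD_gi : PD fun P _ X _ => ∀ g x y : P, g ∉ X 4 → UL X x y → x < g → y < g :=
  PD.all (S := fun P _ X _ g => ∀ x y : P, g ∉ X 4 → UL X x y → x < g → y < g)
    (PD.all (S := fun P _ X w x => ∀ y : P, w 0 ∉ X 4 → UL X x y → x < w 0 → y < w 0)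
      (PD.all (S := fun P _ X w y => w 1 ∉ X 4 → UL X (w 0) y → w 0 < w 1 → y < w 1)
        ((PD.mem 2 4).not.imp ((PD.ul 1 0).imp ((PD.lt 1 2).imp (PD.lt 0 2))))))

private theorem valPD_gg : PD fun P _ X _ => ∀ g g' : P, g ∉ X 4 → g' ∉ X 4 →
    (g < g' ↔ ∃ x, Un X x ∧ x < g' ∧ ¬ x < g) :=
  PD.all (S := fun P _ X _ g => ∀ g' : P, g ∉ X 4 → g' ∉ X 4 →
    (g < g' ↔ ∃ x, Un X x ∧ x < g' ∧ ¬ x < g))
    (PD.all (S := fun P _ X w g' => w 0 ∉ X 4 → g' ∉ X 4 →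
      (w 0 < g' ↔ ∃ x, Un X x ∧ x < g' ∧ ¬ x < w 0))
      ((PD.mem 1 4).not.imp ((PD.mem 0 4).not.imp ((PD.lt 1 0).iff
        (PD.ex (S := fun P _ X w x => Un X x ∧ x < w 0 ∧ ¬ x < w 1)
          ((PD.un 0).and ((PD.lt 0 1).and (PD.lt 0 2).not)))))))

private theorem valPD_gu : PD fun P _ X _ => ∀ g g' : P, g ∉ X 4 → g' ∉ X 4 →
    (∀ x, Un X x → (x < g ↔ x < g')) → g = g' :=
  PD.all (S := fun P _ X _ g => ∀ g' : P, g ∉ X 4 → g' ∉ X 4 →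
    (∀ x, Un X x → (x < g ↔ x < g')) → g = g')
    (PD.all (S := fun P _ X w g' => w 0 ∉ X 4 → g' ∉ X 4 →
      (∀ x, Un X x → (x < w 0 ↔ x < g')) → w 0 = g')
      ((PD.mem 1 4).not.imp ((PD.mem 0 4).not.imp
        ((PD.all (S := fun P _ X w x => Un X x → (x < w 1 ↔ x < w 0))
          ((PD.un 0).imp ((PD.lt 0 2).iff (PD.lt 0 1)))).imp (PD.eq 1 0)))))

theorem PD.val : PD fun _ _ X _ => Val X := by
  have h1 := (valPD_sub 0 1).and ((valPD_sub 1 2).and ((valPD_sub 2 3).and ((valPD_sub 3 4).and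
    ((valPD_sub 1 5).and ((valPD_sub 5 6).and (valPD_sub 6 2))))))
  have h2 := valPD_lo.and (valPD_un.and (valPD_up.and (valPD_cr.and (valPD_cc.and
    (valPD_ex.and (valPD_uq.and (valPD_ecr.and valPD_ecc)))))))
  have h3 := valPD_ecu.and (valPD_erc.and (valPD_err.and (valPD_eru.and (valPD_dr.and
    (valPD_dc.and (valPD_tot.and (valPD_anti.and valPD_trn)))))))
  have h4 := valPD_three.and (valPD_eci.and (valPD_eri.and (valPD_ecer.and (valPD_gi.and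
    (valPD_gg.and valPD_gu)))))
  refine PD.congr ?_ (h1.and (h2.and (h3.and h4)))
  intro P i _ X w
  constructor
  · rintro ⟨⟨a1, a2, a3, a4, a5, a6, a7⟩, ⟨b1, b2, b3, b4, b5, b6, b7, b8, b9⟩,
      ⟨c1, c2, c3, c4, c5, c6, c7, c8, c9⟩, d1, d2, d3, d4, d5, d6, d7⟩
    exact ⟨a1, a2, a3, a4, a5, a6, a7, b1, b2, b3, b4, b5, b6, b7, b8, b9, c1, c2, c3, c4, c5, c6,
      c7, c8, c9, d1, d2, d3, d4, d5, d6, d7⟩
  · rintro ⟨a1, a2, a3, a4, a5, a6, a7, b1, b2, b3, b4, b5, b6, b7, b8, b9, c1, c2, c3, c4, c5,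
      c6, c7, c8, c9, d1, d2, d3, d4, d5, d6, d7⟩
    exact ⟨⟨a1, a2, a3, a4, a5, a6, a7⟩, ⟨b1, b2, b3, b4, b5, b6, b7, b8, b9⟩,
      ⟨c1, c2, c3, c4, c5, c6, c7, c8, c9⟩, d1, d2, d3, d4, d5, d6, d7⟩

end Pool.Agent.Lib.MP_586990_lc.R
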