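import Pool.Agent.Lib.MP_586990_lc_R.LatPar

set_option autoImplicit false

/-!
# The parameters of the partial orders `PT ω` satisfy the conditions
-/

namespace Pool.Agent.Lib.MP_586990_lc.R

section

variable {ω : Wd} {X : ℕ → LowerSet (PT ω)} (hX : ∀ j, j < 7 → X j = par ω j)

include hX

private theorem ValPar_mem {j : ℕ} (hj : j < 7) (x : PT ω) : x ∈ X j ↔ parMem ω j x := by
  rw [hX j hj]
  rfl

private theorem ValPar_i01 (x : PT ω) (hx : x ∈ X 0) : x ∈ X 1 := by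
  rw [ValPar_mem hX (by omega)] at hx ⊢
  rcases x with r | k | l
  · simp [parMem]
  · simp [parMem] at hx
  · exact hx.elim

private theorem ValPar_i12 (x : PT ω) (hx : x ∈ X 1) : x ∈ X 2 := by
  rw [ValPar_mem hX (by omega)] at hx ⊢
  rcases x with r | k | l
  · simp [parMem]
  · simp [parMem] at hx
  · exact hx.elim

private theorem ValPar_i23 (x : PT ω) (hx : x ∈ X 2) : x ∈ X 3 := by
  rw [ValPar_mem hX (by omega)] at hx ⊢
  rcases x with r | k | l
  · simp [parMem]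
  · simp [parMem] at hx ⊢
    omega
  · exact hx.elim

private theorem ValPar_i34 (x : PT ω) (hx : x ∈ X 3) : x ∈ X 4 := by
  rw [ValPar_mem hX (by omega)] at hx ⊢
  rcases x with r | k | l
  · simp [parMem]
  · simp [parMem]
  · exact hx.elim

private theorem ValPar_i15 (x : PT ω) (hx : x ∈ X 1) : x ∈ X 5 := by
  rw [ValPar_mem hX (by omega)] at hx ⊢
  rcases x with r | k | l
  · simp [parMem]
  · simp [parMem] at hx
  · exact hx.elim

private theorem ValPar_i56 (x : PT ω) (hx : x ∈ X 5) : x ∈ X 6 := by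
  rw [ValPar_mem hX (by omega)] at hx ⊢
  rcases x with r | k | l
  · simp [parMem]
  · simp [parMem] at hx ⊢
    exact ⟨hx.1, hx.2.le⟩
  · exact hx.elim

private theorem ValPar_i62 (x : PT ω) (hx : x ∈ X 6) : x ∈ X 2 := by
  rw [ValPar_mem hX (by omega)] at hx ⊢
  rcases x with r | k | l
  · simp [parMem]
  · simp [parMem] at hx ⊢
    exact hx.1
  · exact hx.elim

private theorem ValPar_unit {x : PT ω} (hx : Ce X x ∨ Ec X x ∨ Er X x) :
    ∃ k : Fin (ω.s * ω.s + ω.t), x = PT.un k := by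
  rcases hx with hx | hx | hx
  · obtain ⟨k, _, h⟩ := (ce_iff hX).1 hx
    exact ⟨k, h⟩
  · obtain ⟨k, _, _, h⟩ := (ec_iff hX).1 hx
    exact ⟨k, h⟩
  · obtain ⟨k, _, h⟩ := (er_iff hX).1 hx
    exact ⟨k, h⟩

omit hX in
private theorem ValPar_ULu {x y : PT ω} (h : UL X x y) :
    (Ce X x ∨ Ec X x ∨ Er X x) ∧ (Ce X y ∨ Ec X y ∨ Er X y) := by
  unfold UL at h
  tauto

theorem ValPar_val : Val X := by
  have R := rcPar hX
  refine
    { i01 := ValPar_i01 hX
      i12 := ValPar_i12 hX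
      i23 := ValPar_i23 hX
      i34 := ValPar_i34 hX
      i15 := ValPar_i15 hX
      i56 := ValPar_i56 hX
      i62 := ValPar_i62 hX
      lo := ?_
      un := ?_
      up := ?_
      cr := ?_
      cc := ?_
      ex := ?_
      uq := ?_
      ecr := ?_
      ecc := ?_
      ecu := ?_
      erc := ?_
      err := ?_
      eru := ?_
      dr := ?_
      dc := ?_
      tot := ?_
      anti := ?_
      trn := ?_
      three := ?_
      eci := ?_
      eri := ?_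
      ecer := ?_
      gi := ?_
      gg := ?_
      gu := ?_ }
  · -- lo
    intro x y hy hxy
    obtain ⟨r, rfl⟩ := (lo_iff hX).1 hy
    rcases x with r' | k | l <;> exact hxy.elim
  · -- un
    intro x y hy hxy
    obtain ⟨k, rfl⟩ := (un_iff hX).1 hy
    rcases x with r' | k' | l
    · exact (lo_iff hX).2 ⟨r', rfl⟩
    · exact hxy.elim
    · exact hxy.elim
  · -- up
    intro x y hy hx
    obtain ⟨j, rfl⟩ := (up_iff hX).1 hy
    obtain ⟨r, rfl⟩ := (lo_iff hX).1 hx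
    exact trivial
  · -- cr
    intro x hx
    obtain ⟨r, hr, h1⟩ := R.roS _ (R.ce x hx).1
    refine ⟨r, hr, fun h2 => (R.ceR x r hx hr).1 h2 h1, fun r' hr' h2 => ?_⟩
    refine R.roI r' r hr' hr ?_
    by_contra h3
    exact h2 ((R.ceR x r' hx hr').2 (by rw [← h1]; exact h3))
  · -- cc
    intro x hx
    obtain ⟨r, hr, h1⟩ := R.coS _ (R.ce x hx).2
    refine ⟨r, hr, fun h2 => (R.ceC x r hx hr).1 h2 h1, fun r' hr' h2 => ?_⟩
    refine R.coI r' r hr' hr ?_
    by_contra h3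
    exact h2 ((R.ceC x r' hx hr').2 (by rw [← h1]; exact h3))
  · -- ex
    intro r c hr hc
    obtain ⟨x, hx, h1, h2⟩ := R.ceS _ _ (R.ro r hr) (R.co c hc)
    exact ⟨x, hx, fun h3 => (R.ceR x r hx hr).1 h3 h1.symm,
      fun h3 => (R.ceC x c hx hc).1 h3 h2.symm⟩
  · -- uq
    intro x y hx hy h1 h2
    exact R.ceI x y hx hy ((R.sr (Or.inl hx) (Or.inl hy)).1 h1)
      ((R.sc (Or.inl hx) (Or.inl hy)).1 h2)
  · -- ecr
    intro x r hx hr
    obtain ⟨k, hk, hk', rfl⟩ := (ec_iff hX).1 hx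
    obtain ⟨r, hr', rfl⟩ := (ro_iff hX).1 hr
    show ¬ Miss ω.s r k
    unfold Miss
    omega
  · -- ecc
    intro x hx
    obtain ⟨r, hr, h1⟩ := R.coS _ (R.ec x hx)
    refine ⟨r, hr, fun h2 => (R.ecC x r hx hr).1 h2 h1, fun r' hr' h2 => ?_⟩
    refine R.coI r' r hr' hr ?_
    by_contra h3
    exact h2 ((R.ecC x r' hx hr').2 (by rw [← h1]; exact h3))
  · -- ecu
    intro x y hx hy h
    exact R.ecI x y hx hy ((R.sc (Or.inr hx) (Or.inr hy)).1 h)
  · -- erc
    intro x c hx hc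
    obtain ⟨k, hk, rfl⟩ := (er_iff hX).1 hx
    obtain ⟨r, hr', rfl⟩ := (co_iff hX).1 hc
    show ¬ Miss ω.s r k
    have h1 := k.2
    have h2 := ω.ht
    unfold Miss
    omega
  · -- err
    intro x hx
    obtain ⟨r, hr, h1⟩ := R.roS _ (R.er x hx)
    refine ⟨r, hr, fun h2 => (R.erR x r hx hr).1 h2 h1, fun r' hr' h2 => ?_⟩
    refine R.roI r' r hr' hr ?_
    by_contra h3
    exact h2 ((R.erR x r' hx hr').2 (by rw [← h1]; exact h3))
  · -- eru
    intro x y hx hy h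
    exact R.erI x y hx hy ((R.sr (Or.inr hx) (Or.inr hy)).1 h)
  · -- dr
    intro r hr
    obtain ⟨d, hd, h1, h2⟩ := R.dgS (R.ro r hr)
    refine ⟨d, hd, fun h3 => (R.ceR d r hd.1 hr).1 h3 h1.symm, fun x' hx' h3 => ?_⟩
    have h4 : rpf ω r = rpf ω x' := by
      by_contra h5
      exact h3 ((R.ceR x' r hx'.1 hr).2 h5)
    have h5 := (R.dgE hx').1
    exact R.ceI x' d hx'.1 hd.1 (by omega) (by omega)
  · -- dc
    intro c hc
    obtain ⟨d, hd, h1, h2⟩ := R.dgS (R.co c hc)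
    refine ⟨d, hd, fun h3 => (R.ceC d c hd.1 hc).1 h3 h2.symm, fun x' hx' h3 => ?_⟩
    have h4 : cpf ω c = cpf ω x' := by
      by_contra h5
      exact h3 ((R.ceC x' c hx'.1 hc).2 h5)
    have h5 := (R.dgE hx').1
    exact R.ceI x' d hx'.1 hd.1 (by omega) (by omega)
  · -- tot
    intro d d' hd hd'
    rw [R.dle hd hd', R.dle hd' hd]
    omega
  · -- anti
    intro d d' hd hd' h1 h2
    rw [R.dle hd hd'] at h1
    rw [R.dle hd' hd] at h2
    have h3 := (R.dgE hd).1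
    have h4 := (R.dgE hd').1
    exact R.ceI d d' hd.1 hd'.1 (by omega) (by omega)
  · -- trn
    intro d d' d'' hd hd' hd'' h1 h2
    rw [R.dle hd hd'] at h1
    rw [R.dle hd' hd''] at h2
    rw [R.dle hd hd'']
    omega
  · -- three
    have hs := ω.hs
    obtain ⟨d, hd, h1, h2⟩ := R.dgS (a := 0) (by omega)
    obtain ⟨d', hd', h1', h2'⟩ := R.dgS (a := 1) (by omega)
    obtain ⟨d'', hd'', h1'', h2''⟩ := R.dgS (a := 2) (by omega)
    refine ⟨d, d', d'', hd, hd', hd'', ?_, ?_, ?_⟩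
    · rintro rfl
      omega
    · rintro rfl
      omega
    · rintro rfl
      omega
  · -- eci
    intro x d d' hx h1 hd hd' h2
    rw [R.sc (Or.inr hx) (Or.inl hd'.1)] at h1
    rw [R.dle hd hd'] at h2
    have h3 := (R.dgE hd).1
    have h4 := (R.dgE hd').1
    rcases eq_or_lt_of_le (show cpf ω d ≤ cpf ω x by omega) with h5 | h5
    · exact ⟨x, hx, (R.sc (Or.inr hx) (Or.inl hd.1)).2 h5.symm⟩
    · obtain ⟨y, hy, h6⟩ := R.ecS x _ hx h5
      exact ⟨y, hy, (R.sc (Or.inr hy) (Or.inl hd.1)).2 h6⟩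
  · -- eri
    intro x d d' hx h1 hd hd' h2
    rw [R.sr (Or.inr hx) (Or.inl hd'.1)] at h1
    rw [R.dle hd hd'] at h2
    rcases eq_or_lt_of_le (show rpf ω d ≤ rpf ω x by omega) with h5 | h5
    · exact ⟨x, hx, (R.sr (Or.inr hx) (Or.inl hd.1)).2 h5.symm⟩
    · obtain ⟨y, hy, h6⟩ := R.erS x _ hx h5
      exact ⟨y, hy, (R.sr (Or.inr hy) (Or.inl hd.1)).2 h6⟩
  · -- ecer
    intro x d hx hd
    have h3 := R.dgE hd
    obtain ⟨y, hy, h6⟩ := R.erE x (cpf ω d) hx (by omega)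
    exact ⟨y, hy, (R.sc (Or.inr hy) (Or.inl hd.1)).2 h6⟩
  · -- gi
    intro g x y hg h1 h2
    obtain ⟨j, rfl⟩ := (up_iff hX).1 hg
    obtain ⟨h3, h4⟩ := ValPar_ULu h1
    obtain ⟨k, rfl⟩ := ValPar_unit hX h3
    obtain ⟨k', rfl⟩ := ValPar_unit hX h4
    have h5 := (ul_par hX k k').1 h1
    have h6 : (j : ℕ) ≤ k := h2
    show (j : ℕ) ≤ k'
    omega
  · -- gg
    intro g g' hg hg'
    obtain ⟨j, rfl⟩ := (up_iff hX).1 hg
    obtain ⟨j', rfl⟩ := (up_iff hX).1 hg'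
    constructor
    · intro h1
      have h2 : (j' : ℕ) < j := h1
      have h3 := ω.hJ j j.2
      refine ⟨PT.un ⟨j', by omega⟩, (un_iff hX).2 ⟨_, rfl⟩, ?_, ?_⟩
      · show (j' : ℕ) ≤ j'
        exact le_rfl
      · show ¬ (j : ℕ) ≤ j'
        omega
    · rintro ⟨x, hx, h1, h2⟩
      obtain ⟨k, rfl⟩ := (un_iff hX).1 hx
      have h3 : (j' : ℕ) ≤ k := h1
      have h4 : ¬ (j : ℕ) ≤ k := h2
      show (j' : ℕ) < j
      omega
  · -- gu
    intro g g' hg hg' h
    obtain ⟨j, rfl⟩ := (up_iff hX).1 hg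
    obtain ⟨j', rfl⟩ := (up_iff hX).1 hg'
    have h1 := ω.hJ j j.2
    have h2 := ω.hJ j' j'.2
    have h3 : (j : ℕ) = j' := by
      by_contra hne
      rcases Nat.lt_or_gt_of_ne hne with h4 | h4
      · have h5 := (h (PT.un ⟨j, by omega⟩) ((un_iff hX).2 ⟨_, rfl⟩)).1
          (show (j : ℕ) ≤ j from le_rfl)
        have h6 : (j' : ℕ) ≤ j := h5
        omega
      · have h5 := (h (PT.un ⟨j', by omega⟩) ((un_iff hX).2 ⟨_, rfl⟩)).2
          (show (j' : ℕ) ≤ j' from le_rfl)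
        have h6 : (j : ℕ) ≤ j' := h5
        omega
    rw [Subtype.ext h3]

end

theorem valPar {ω : Wd} {X : ℕ → LowerSet (PT ω)} (hX : ∀ j, j < 7 → X j = par ω j) :
    Val X := ValPar_val hX

end Pool.Agent.Lib.MP_586990_lc.R
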