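import Pool.Agent.Lib.MP_586990_lc_R.Iter
import Pool.Agent.Lib.MP_586990_lc_R.ValLem

set_option autoImplicit false

/-!
# Sequences as digits: addition
-/

namespace Pool.Agent.Lib.MP_586990_lc.R

variable {Ω : Type} {s B : Ω → ℕ} {D : (Par s B → (ℕ → ℕ) → Prop) → Prop}

private theorem LiftAdd_step (F : SFr s B D) (x y z : ℕ) :
    SN D 1 fun p w => p.q x (p.v 0) + p.q y (p.v 0) + w 0 =
      p.q z (p.v 0) + B p.ω * w 1 := by
  refine F.congr (R := fun p v => ∃ d1, d1 < B p.ω ∧ (d1 = p.q x (p.v 0) ∧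
    ∃ d2, d2 < B p.ω ∧ (d2 = p.q y (p.v 0) ∧ ∃ d3, d3 < B p.ω ∧ (d3 = p.q z (p.v 0) ∧
      d1 + d2 + v 0 = v 1 * B p.ω + d3)))) (fun p v _ => ?_)
    (F.ex (S := fun p v d1 => (d1 = p.q x (p.v 0) ∧
      ∃ d2, d2 < B p.ω ∧ (d2 = p.q y (p.v 0) ∧ ∃ d3, d3 < B p.ω ∧ (d3 = p.q z (p.v 0) ∧
        d1 + d2 + v 0 = v 1 * B p.ω + d3))))
    (F.and (F.seq 0 x 0) (F.ex (S := fun p v d2 => (d2 = p.q y (p.v 0) ∧
      ∃ d3, d3 < B p.ω ∧ (d3 = p.q z (p.v 0) ∧ v 0 + d2 + v 1 = v 2 * B p.ω + d3)))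
    (F.and (F.seq 0 y 0) (F.ex (S := fun p v d3 => (d3 = p.q z (p.v 0) ∧
      v 1 + v 0 + v 2 = v 3 * B p.ω + d3))
    (F.and (F.seq 0 z 0) (F.toAFrame.add3 2 1 3 4 0)))))))
  have hn : ∀ i, num (B p.ω) v (i * 1) 1 = v i := by
    intro i
    simp only [num, mul_one, mul_zero, add_zero]
  simp only [hn]
  have hx := (p.hq x).1 (p.v 0)
  have hy := (p.hq y).1 (p.v 0)
  have hz := (p.hq z).1 (p.v 0)
  constructor
  · rintro ⟨d1, _, rfl, d2, _, rfl, d3, _, rfl, h⟩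
    rw [h]
    ring
  · intro h
    exact ⟨_, hx, rfl, _, hy, rfl, _, hz, rfl, by rw [h]; ring⟩

theorem SFr.lift_add {Ω : Type} {s B : Ω → ℕ} {D : (Par s B → (ℕ → ℕ) → Prop) → Prop}
    (F : SFr s B D) (x y c z : ℕ) :
    LiftD D fun ω v => v x + v y = v c * B ω ^ s ω + v z := by
  have G := F.toAFrame
  have key : SN D 1 fun p _ => ∃ u, u < B p.ω ^ 1 ∧
      ((∃ t : ℕ → ℕ, (∀ a, t a < B p.ω ^ 1) ∧ t 0 = 0 ∧ t (s p.ω) = u ∧
        ∀ a, a < s p.ω → p.q x a + p.q y a + t a = p.q z a + B p.ω * t (a + 1)) ∧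
      ∀ a, a < s p.ω → ((a = 0 ∧ u = p.q c a) ∨ (¬ a = 0 ∧ p.q c a = 0))) := by
    refine G.exN (S := fun p _ u =>
      ((∃ t : ℕ → ℕ, (∀ a, t a < B p.ω ^ 1) ∧ t 0 = 0 ∧ t (s p.ω) = u ∧
        ∀ a, a < s p.ω → p.q x a + p.q y a + t a = p.q z a + B p.ω * t (a + 1)) ∧
      ∀ a, a < s p.ω → ((a = 0 ∧ u = p.q c a) ∨ (¬ a = 0 ∧ p.q c a = 0)))) ?_
    refine G.andN (F.iter0 1 (R := fun p _ a u u' => p.q x a + p.q y a + u =
      p.q z a + B p.ω * u') (LiftAdd_step F x y z) 0) ?_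
    refine F.allIN (S := fun p w a => ((a = 0 ∧ w 0 = p.q c a) ∨ (¬ a = 0 ∧ p.q c a = 0))) ?_
    exact G.orN (G.andN (F.zeroI 0) (F.seqN one_pos 0 c 0))
      (G.andN (G.notN (F.zeroI 0)) (F.seqNat c 0 0))
  refine F.congr (fun p _ _ => ?_) key
  have h3 := F.three p.ω
  have hB2 : 2 ≤ B p.ω := F.two p
  have hx := (p.hq x).1
  have hy := (p.hq y).1
  have hz := (p.hq z).1
  have hc := p.hq c
  simp only [pow_one]
  show _ ↔ val (B p.ω) (s p.ω) (p.q x) + val (B p.ω) (s p.ω) (p.q y) =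
    val (B p.ω) (s p.ω) (p.q c) * B p.ω ^ s p.ω + val (B p.ω) (s p.ω) (p.q z)
  constructor
  · rintro ⟨u, _, ⟨t, ht, t0, ts, ht1⟩, hall⟩
    have hu : val (B p.ω) (s p.ω) (p.q c) = u := by
      rw [val_single (k := 0) (by omega) (fun a ha => ?_), pow_zero, mul_one]
      · rcases hall 0 (by omega) with ⟨_, h⟩ | ⟨h, _⟩
        · exact h.symm
        · exact absurd rfl h
      · by_cases has : a < s p.ω
        · rcases hall a has with ⟨h, _⟩ | ⟨_, h⟩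
          · exact absurd h ha
          · exact h
        · exact hc.2 a (by omega)
    exact (add_chain hx hy hz _).2 ⟨t, ht, t0, ts.trans hu.symm, ht1⟩
  · intro h
    obtain ⟨t, ht, t0, ts, ht1⟩ := (add_chain hx hy hz _).1 h
    refine ⟨t (s p.ω), ht _, ⟨t, ht, t0, rfl, ht1⟩, ?_⟩
    have hseq : IsSeq (s p.ω) (B p.ω) (fun a => if a = 0 then t (s p.ω) else 0) := by
      refine ⟨fun a => ?_, fun a ha => ?_⟩
      · show (if a = 0 then t (s p.ω) else 0) < B p.ω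
        split_ifs
        · exact ht _
        · omega
      · show (if a = 0 then t (s p.ω) else 0) = 0
        rw [if_neg (by omega)]
    have hval : val (B p.ω) (s p.ω) (fun a => if a = 0 then t (s p.ω) else 0) =
        t (s p.ω) := by
      rw [val_single (k := 0) (by omega) (fun a ha => if_neg ha), pow_zero, mul_one,
        if_pos rfl]
    have heq := val_inj hc hseq (by rw [hval, ts])
    intro a _
    rw [heq]
    show (a = 0 ∧ t (s p.ω) = if a = 0 then t (s p.ω) else 0) ∨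
      (¬ a = 0 ∧ (if a = 0 then t (s p.ω) else 0) = 0)
    by_cases ha : a = 0
    · left
      exact ⟨ha, by rw [if_pos ha]⟩
    · right
      exact ⟨ha, by rw [if_neg ha]⟩

end Pool.Agent.Lib.MP_586990_lc.R
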