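import Pool.Agent.Lib.MP_586990_lc_R.ConvN

set_option autoImplicit false

/-!
# Sequences as digits: multiplication
-/

namespace Pool.Agent.Lib.MP_586990_lc.R

variable {Ω : Type} {s B : Ω → ℕ} {D : (Par s B → (ℕ → ℕ) → Prop) → Prop}

/-- One step of the school multiplication with carry `u` and next carry `u'`. -/
private def LiftMul_St (b : ℕ) (C L u u' : ℕ) : Prop :=
  ∃ t, t < b ^ 5 ∧ ∃ r, r < b ^ 5 ∧ ∃ v, v < b ^ 5 ∧ ∃ m, m < b ^ 5 ∧
    (t = C ∧ r = L ∧ v = b * u' ∧ t + u = m ∧ r + v = m)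

private theorem LiftMul_St_imp {b C L u u' : ℕ} (h : LiftMul_St b C L u u') :
    C + u = L + b * u' := by
  obtain ⟨t, _, r, _, v, _, m, _, rfl, rfl, rfl, h1, h2⟩ := h
  rw [h1, h2]

private theorem LiftMul_St_of {b C L u u' : ℕ} (hb : 2 ≤ b) (hC : C < b ^ 3) (hL : L < b)
    (hu : u < b ^ 4) (hu' : u' < b ^ 4) (h : C + u = L + b * u') : LiftMul_St b C L u u' := by
  have h0 : 0 < b := by omega
  have e3 : b ^ 3 ≤ b ^ 4 := Nat.pow_le_pow_right h0 (by omega)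
  have e1 : b ^ 1 ≤ b ^ 4 := Nat.pow_le_pow_right h0 (by omega)
  have e5 : 2 * b ^ 4 ≤ b ^ 5 := by
    rw [pow_succ b 4, mul_comm (b ^ 4) b]
    exact Nat.mul_le_mul_right _ hb
  have hV : b * u' < b ^ 5 := by
    rw [pow_succ b 4, mul_comm (b ^ 4) b]
    exact Nat.mul_lt_mul_of_pos_left hu' h0
  rw [pow_one] at e1
  exact ⟨C, by omega, L, by omega, b * u', hV, C + u, by omega, rfl, rfl, rfl, rfl, h.symm⟩

private theorem LiftMul_step (F : SFr s B D) (hmul : HasMul D) (x y l : ℕ) :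
    SN D 5 fun p w => LiftMul_St (B p.ω) (conv (s p.ω) (p.q x) (p.q y) (p.v 0))
      (p.q l (p.v 0)) (w 0) (w 1) := by
  have G := F.toAFrame
  unfold LiftMul_St
  apply G.exN
  apply G.exN
  apply G.exN
  apply G.exN
  exact G.andN (F.convN hmul (by norm_num) 3 x y 0) (G.andN (F.seqN (by norm_num) 2 l 0)
    (G.andN (G.shiftN 5 5 1) (G.andN (G.addN 5 3 4 0) (G.addN 5 2 1 0))))

private theorem LiftMul_step' (F : SFr s B D) (hmul : HasMul D) (x y h : ℕ) :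
    SN D 5 fun p w => LiftMul_St (B p.ω) (conv (s p.ω) (p.q x) (p.q y) (s p.ω + p.v 0))
      (p.q h (p.v 0)) (w 0) (w 1) := by
  have G := F.toAFrame
  unfold LiftMul_St
  apply G.exN
  apply G.exN
  apply G.exN
  apply G.exN
  exact G.andN (F.convN' hmul (by norm_num) 3 x y 0) (G.andN (F.seqN (by norm_num) 2 h 0)
    (G.andN (G.shiftN 5 5 1) (G.andN (G.addN 5 3 4 0) (G.addN 5 2 1 0))))

theorem SFr.lift_mul {Ω : Type} {s B : Ω → ℕ} {D : (Par s B → (ℕ → ℕ) → Prop) → Prop}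
    (F : SFr s B D) (hmul : HasMul D) (x y h l : ℕ) :
    LiftD D fun ω v => v x * v y = v h * B ω ^ s ω + v l := by
  have G := F.toAFrame
  have key : SN D 5 fun p _ => ∃ c, c < B p.ω ^ 5 ∧ ∃ o, o < B p.ω ^ 5 ∧ (o = 0 ∧
      (∃ z : ℕ → ℕ, (∀ a, z a < B p.ω ^ 5) ∧ z 0 = 0 ∧ z (s p.ω) = c ∧
        ∀ a, a < s p.ω → LiftMul_St (B p.ω) (conv (s p.ω) (p.q x) (p.q y) a)
          (p.q l a) (z a) (z (a + 1))) ∧
      ∃ z : ℕ → ℕ, (∀ a, z a < B p.ω ^ 5) ∧ z 0 = c ∧ z (s p.ω) = o ∧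
        ∀ a, a < s p.ω → LiftMul_St (B p.ω) (conv (s p.ω) (p.q x) (p.q y) (s p.ω + a))
          (p.q h a) (z a) (z (a + 1))) := by
    apply G.exN
    apply G.exN
    exact G.andN (G.natN 5 0 0) (G.andN
      (F.iter0 5 (R := fun p _ a u u' => LiftMul_St (B p.ω)
        (conv (s p.ω) (p.q x) (p.q y) a) (p.q l a) u u') (LiftMul_step F hmul x y l) 1)
      (F.iter 5 (R := fun p _ a u u' => LiftMul_St (B p.ω)
        (conv (s p.ω) (p.q x) (p.q y) (s p.ω + a)) (p.q h a) u u')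
        (LiftMul_step' F hmul x y h) 1 0))
  refine F.congr (fun p _ _ => ?_) key
  have h3 := F.three p.ω
  have hb := F.base p.ω
  have hB2 : 2 ≤ B p.ω := F.two p
  have hB0 : 0 < B p.ω := by omega
  have hsB : s p.ω ≤ B p.ω := by omega
  have hx := (p.hq x).1
  have hy := (p.hq y).1
  have hh := (p.hq h).1
  have hl := (p.hq l).1
  have e45 : B p.ω ^ 4 ≤ B p.ω ^ 5 := Nat.pow_le_pow_right hB0 (by omega)
  show _ ↔ val (B p.ω) (s p.ω) (p.q x) * val (B p.ω) (s p.ω) (p.q y) =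
    val (B p.ω) (s p.ω) (p.q h) * B p.ω ^ s p.ω + val (B p.ω) (s p.ω) (p.q l)
  constructor
  · rintro ⟨c, hc, o, _, rfl, ⟨z, hz, z0, zs, hz1⟩, z', hz', z0', zs', hz1'⟩
    refine (mul_chain hsB hB2 (e := 5) (by norm_num) hx hy hh hl).2 ⟨c, hc,
      ⟨z, hz, z0, zs, fun k hk => LiftMul_St_imp (hz1 k hk)⟩,
      ⟨z', hz', z0', zs', fun k hk => LiftMul_St_imp (hz1' k hk)⟩⟩
  · intro he
    obtain ⟨c, hc, ⟨u, hu, u0, us, hu1⟩, u', hu', u0', us', hu1'⟩ :=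
      (mul_chain hsB hB2 (e := 4) (by norm_num) hx hy hh hl).1 he
    refine ⟨c, by omega, 0, Nat.pow_pos hB0, rfl,
      ⟨u, fun a => lt_of_lt_of_le (hu a) e45, u0, us, fun k hk => ?_⟩,
      ⟨u', fun a => lt_of_lt_of_le (hu' a) e45, u0', us', fun k hk => ?_⟩⟩
    · exact LiftMul_St_of hB2 (conv_lt hsB hB0 hx hy k) (hl k) (hu k) (hu (k + 1)) (hu1 k hk)
    · exact LiftMul_St_of hB2 (conv_lt hsB hB0 hx hy _) (hh k) (hu' k) (hu' (k + 1)) (hu1' k hk)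

end Pool.Agent.Lib.MP_586990_lc.R
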