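import Pool.Agent.Lib.MP_586990_lc_R.LiftBase
import Pool.Agent.Lib.MP_586990_lc_R.LiftAdd
import Pool.Agent.Lib.MP_586990_lc_R.LiftMul

set_option autoImplicit false

/-!
# Sequences as digits: the calculus
-/

namespace Pool.Agent.Lib.MP_586990_lc.R

theorem SFr.lift {Ω : Type} {s B : Ω → ℕ} {D : (Par s B → (ℕ → ℕ) → Prop) → Prop}
    (F : SFr s B D) (hmul : HasMul D) : Frame (fun ω => B ω ^ s ω) (LiftD D) where
  two ω := by
    have h1 := F.three ω
    have h2 := F.base ω
    calc 2 ≤ B ω := by omega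
      _ = B ω ^ 1 := (pow_one _).symm
      _ ≤ B ω ^ s ω := Nat.pow_le_pow_right (by omega) (by omega)
  congr h hR := F.lift_congr h hR
  not h := F.not h
  and h h' := F.and h h'
  sub f h := F.ren (fun i => i) f h
  ex h := F.lift_ex h
  eq := F.lift_eq
  add := F.lift_add
  mul := F.lift_mul hmul

end Pool.Agent.Lib.MP_586990_lc.R
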