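import Pool.Agent.Lib.MP_586990_lc_R.Idx
import Pool.Agent.Lib.MP_586990_lc_R.DigN

set_option autoImplicit false

/-!
# Sequence calculus: multiplication of digits to the base `2 ^ s`
-/

namespace Pool.Agent.Lib.MP_586990_lc.R

variable {Ω : Type} {s B : Ω → ℕ} {D : (Par s B → (ℕ → ℕ) → Prop) → Prop}

private theorem RowMul_bitN (F : SFr s B D) (hB : ∀ ω, B ω = 2 ^ s ω)
    (hbit : ∀ x a : ℕ, D fun p w => (w x).testBit (p.v a) = true) (y a : ℕ) :
    SN D 2 fun p w => (w y).testBit (p.v a) = true := by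
  refine F.toAFrame.congr (fun p w hw => ?_) (hbit (y * 2) a)
  show (w (y * 2)).testBit (p.v a) = true ↔ (num (B p.ω) w (y * 2) 2).testBit (p.v a) = true
  have h1 : num (B p.ω) w (y * 2) 2 = 2 ^ s p.ω * w (y * 2 + 1) + w (y * 2) := by
    rw [← hB]
    simp only [num]
    ring
  have h2 : w (y * 2) < 2 ^ s p.ω := by
    rw [← hB]
    exact hw _
  rw [h1, Nat.testBit_two_pow_mul_add _ h2, if_pos (p.hv a)]

private theorem RowMul_add3 (F : SFr s B D) (x y z u : ℕ) :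
    SN D 2 fun _ w => w x + w y + w z = w u := by
  have A := F.toAFrame
  refine A.congrN (Q := fun p w => ∃ t, t < B p.ω ^ 2 ∧ (w x + w y = t ∧ t + w z = w u))
    (fun p w hw => ?_) ?_
  · constructor
    · rintro ⟨t, -, h1, h2⟩
      rw [h1, h2]
    · intro h
      have hu := hw u
      exact ⟨w x + w y, by omega, rfl, h⟩
  · refine A.exN (S := fun _ w t => w x + w y = t ∧ t + w z = w u) ?_
    exact A.andN (A.addN 2 (x + 1) (y + 1) 0) (A.addN 2 0 (z + 1) (u + 1))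

/-- one step of the multiplication -/
private def RowMul_R (x y : ℕ) (p : Par s B) (w : ℕ → ℕ) (a u u' : ℕ) : Prop :=
  ∃ b, b < s p.ω ∧ (a + b + 1 = s p.ω ∧
    (((w y).testBit b = true ∧ u + u + w x = u') ∨ (¬ (w y).testBit b = true ∧ u + u = u')))

private theorem RowMul_step (F : SFr s B D) (hB : ∀ ω, B ω = 2 ^ s ω)
    (hbit : ∀ x a : ℕ, D fun p w => (w x).testBit (p.v a) = true) (x y : ℕ) :
    SN D 2 fun p w => RowMul_R x y p.tlI (fun i => w (i + 2)) (p.v 0) (w 0) (w 1) := by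
  have A := F.toAFrame
  refine F.exIN (S := fun p w b => (p.v 0 + b + 1 = s p.ω ∧
    (((w (y + 2)).testBit b = true ∧ w 0 + w 0 + w (x + 2) = w 1) ∨
      (¬ (w (y + 2)).testBit b = true ∧ w 0 + w 0 = w 1)))) ?_
  have h0 : SN D 2 fun p _ => p.v 1 + p.v 0 + 1 = s p.ω := F.revI 1 0
  exact A.andN h0
    (A.orN (A.andN (RowMul_bitN F hB hbit (y + 2) 0) (RowMul_add3 F 0 0 (x + 2) 1))
      (A.andN (A.notN (RowMul_bitN F hB hbit (y + 2) 0)) (A.addN 2 0 0 1)))

private theorem RowMul_bit (n b : ℕ) :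
    n / 2 ^ b = n / 2 ^ (b + 1) + n / 2 ^ (b + 1) + (if n.testBit b = true then 1 else 0) := by
  have h1 : n / 2 ^ (b + 1) = n / 2 ^ b / 2 := by rw [pow_succ, Nat.div_div_eq_div_mul]
  have h2 : (n.testBit b = true) ↔ n / 2 ^ b % 2 = 1 := by
    rw [Nat.testBit_eq_decide_div_mod_eq, decide_eq_true_iff]
  rw [h1]
  split_ifs with h
  · have := h2.1 h
    omega
  · have h3 : n / 2 ^ b % 2 ≠ 1 := fun h' => h (h2.2 h')
    omega

private theorem RowMul_prod (F : SFr s B D) (hB : ∀ ω, B ω = 2 ^ s ω)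
    (hbit : ∀ x a : ℕ, D fun p w => (w x).testBit (p.v a) = true) (x y u : ℕ) :
    SN D 2 fun p w => w x < B p.ω ∧ w y < B p.ω ∧ w x * w y = w u := by
  have A := F.toAFrame
  refine A.congrN (Q := fun p w => w x < B p.ω ∧ w y < B p.ω ∧
    ∃ z : ℕ → ℕ, (∀ a, z a < B p.ω ^ 2) ∧ z 0 = 0 ∧ z (s p.ω) = w u ∧
      ∀ a, a < s p.ω → RowMul_R x y p w a (z a) (z (a + 1))) (fun p w _ => ?_)
    (A.andN (A.digN 2 x) (A.andN (A.digN 2 y)
      (F.iter0 2 (RowMul_step F hB hbit x y) u)))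
  refine and_congr_right fun hx => and_congr_right fun hy => ?_
  have hs : w y / 2 ^ s p.ω = 0 := Nat.div_eq_of_lt (by rw [← hB]; exact hy)
  constructor
  · rintro ⟨z, -, h0, hu, hz⟩
    have key : ∀ a, a ≤ s p.ω → z a = w x * (w y / 2 ^ (s p.ω - a)) := by
      intro a
      induction a with
      | zero =>
        intro _
        rw [Nat.sub_zero, hs, mul_zero, h0]
      | succ a ih =>
        intro ha
        obtain ⟨b, -, hab, h⟩ := hz a (by omega)
        have e1 : s p.ω - a = b + 1 := by omega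
        have e2 : s p.ω - (a + 1) = b := by omega
        have h1 := ih (by omega)
        rw [e1] at h1
        rw [e2, RowMul_bit (w y) b, mul_add, mul_add, ← h1]
        rcases h with ⟨hb, h⟩ | ⟨hb, h⟩
        · rw [if_pos hb, mul_one, h]
        · rw [if_neg hb, mul_zero, add_zero, h]
    have h1 := key (s p.ω) le_rfl
    rw [Nat.sub_self, pow_zero, Nat.div_one, hu] at h1
    exact h1.symm
  · intro h
    refine ⟨fun a => w x * (w y / 2 ^ (s p.ω - a)), fun a => ?_, ?_, ?_, fun a ha => ?_⟩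
    · have h1 : w y / 2 ^ (s p.ω - a) ≤ w y := Nat.div_le_self _ _
      calc w x * (w y / 2 ^ (s p.ω - a)) ≤ w x * w y := Nat.mul_le_mul_left _ h1
        _ < B p.ω * B p.ω := Nat.mul_lt_mul'' hx hy
        _ = B p.ω ^ 2 := (sq _).symm
    · show w x * (w y / 2 ^ (s p.ω - 0)) = 0
      rw [Nat.sub_zero, hs, mul_zero]
    · show w x * (w y / 2 ^ (s p.ω - s p.ω)) = w u
      rw [Nat.sub_self, pow_zero, Nat.div_one, h]
    · obtain ⟨b, hb⟩ : ∃ b, s p.ω = a + b + 1 := ⟨s p.ω - a - 1, by omega⟩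
      have e1 : s p.ω - a = b + 1 := by omega
      have e2 : s p.ω - (a + 1) = b := by omega
      refine ⟨b, by omega, hb.symm, ?_⟩
      show (_ ∧ w x * (w y / 2 ^ (s p.ω - a)) + w x * (w y / 2 ^ (s p.ω - a)) + w x =
        w x * (w y / 2 ^ (s p.ω - (a + 1)))) ∨ (_ ∧ w x * (w y / 2 ^ (s p.ω - a)) +
        w x * (w y / 2 ^ (s p.ω - a)) = w x * (w y / 2 ^ (s p.ω - (a + 1))))
      rw [e1, e2, RowMul_bit (w y) b, mul_add, mul_add]
      by_cases hb' : (w y).testBit b = true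
      · left
        rw [if_pos hb', mul_one]
        exact ⟨hb', rfl⟩
      · right
        rw [if_neg hb', mul_zero, add_zero]
        exact ⟨hb', rfl⟩

theorem SFr.mul_of_bit {Ω : Type} {s B : Ω → ℕ} {D : (Par s B → (ℕ → ℕ) → Prop) → Prop}
    (F : SFr s B D) (hB : ∀ ω, B ω = 2 ^ s ω)
    (hbit : ∀ x a : ℕ, D fun p w => (w x).testBit (p.v a) = true) : HasMul D := by
  intro x y h l
  have A := F.toAFrame
  have h2 : SN D 2 fun p w => w h < B p.ω ∧ w l < B p.ω ∧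
      ∃ u, u < B p.ω ^ 2 ∧ ((w x < B p.ω ∧ w y < B p.ω ∧ w x * w y = u) ∧
      ∃ t, t < B p.ω ^ 2 ∧ (t = B p.ω * w h ∧ t + w l = u)) := by
    refine A.andN (A.digN 2 h) (A.andN (A.digN 2 l) ?_)
    refine A.exN (S := fun p w u => ((w x < B p.ω ∧ w y < B p.ω ∧ w x * w y = u) ∧
      ∃ t, t < B p.ω ^ 2 ∧ (t = B p.ω * w h ∧ t + w l = u))) ?_
    refine A.andN (RowMul_prod F hB hbit (x + 1) (y + 1) 0) ?_
    refine A.exN (S := fun p w t => (t = B p.ω * w (h + 1) ∧ t + w (l + 1) = w 0)) ?_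
    exact A.andN (A.shiftN 2 (h + 2) 0) (A.addN 2 0 (l + 2) 1)
  have h1 := A.restrict (show 1 ≤ 2 by omega) h2
  refine A.congr (fun p w hw => ?_) h1
  have hn : ∀ i, num (B p.ω) w (i * 1) 1 = w i := by
    intro i
    simp only [num, mul_one, mul_zero, add_zero]
  simp only [hn]
  constructor
  · rintro ⟨-, -, u, -, ⟨-, -, h3⟩, t, -, h4, h5⟩
    rw [h3, ← h5, h4, mul_comm]
  · intro h3
    have hx := hw x
    have hy := hw y
    have hlt : w x * w y < B p.ω ^ 2 := by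
      rw [sq]
      exact Nat.mul_lt_mul'' hx hy
    refine ⟨hw h, hw l, w x * w y, hlt, ⟨hx, hy, rfl⟩, B p.ω * w h, ?_, rfl, ?_⟩
    · refine lt_of_le_of_lt ?_ hlt
      rw [h3, mul_comm]
      exact Nat.le_add_right _ _
    · rw [h3, mul_comm]

end Pool.Agent.Lib.MP_586990_lc.R
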