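import Pool.Agent.Lib.MP_586990_lc_R.SetFr
import Pool.Agent.Lib.MP_586990_lc_R.RowMul
import Pool.Agent.Lib.MP_586990_lc_R.LiftFr

set_option autoImplicit false

/-!
# Set calculus: the numbers given by sets
-/

namespace Pool.Agent.Lib.MP_586990_lc.R

theorem SetCal.hasMul {Ω : Type} {s : Ω → ℕ}
    {SD : (Ω → (ℕ → ℕ) → (ℕ → Set (ℕ × ℕ)) → Prop) → Prop} (C : SetCal s SD) :
    HasMul (SetD s SD) :=
  C.sfr.mul_of_bit (fun _ => rfl) C.bit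

theorem SetCal.frame {Ω : Type} {s : Ω → ℕ}
    {SD : (Ω → (ℕ → ℕ) → (ℕ → Set (ℕ × ℕ)) → Prop) → Prop} (C : SetCal s SD) :
    Frame (fun ω => (2 ^ s ω) ^ s ω) (LiftD (SetD s SD)) :=
  C.sfr.lift C.hasMul

end Pool.Agent.Lib.MP_586990_lc.R
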