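import Pool.Agent.Lib.MP_586990_lc_R.SeqDef

set_option autoImplicit false

/-!
# Set calculus: definitions

One sort of variables runs over the indices below `s ω`, the other one over the sets of pairs of
indices.
-/

namespace Pool.Agent.Lib.MP_586990_lc.R

/-- The pairs of numbers below `s`. -/
def sq (s : ℕ) : Set (ℕ × ℕ) := {p | p.1 < s ∧ p.2 < s}

/-- A family of relations of indices and sets of pairs of indices. -/
structure SetCal {Ω : Type} (s : Ω → ℕ) (SD : (Ω → (ℕ → ℕ) → (ℕ → Set (ℕ × ℕ)) → Prop) → Prop) :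
    Prop where
  three : ∀ ω, 3 ≤ s ω
  congr : ∀ {R R' : Ω → (ℕ → ℕ) → (ℕ → Set (ℕ × ℕ)) → Prop},
    (∀ ω v V, (∀ i, v i < s ω) → (∀ i, V i ⊆ sq (s ω)) → (R ω v V ↔ R' ω v V)) → SD R → SD R'
  not : ∀ {R : Ω → (ℕ → ℕ) → (ℕ → Set (ℕ × ℕ)) → Prop}, SD R → SD fun ω v V => ¬ R ω v V
  and : ∀ {R R' : Ω → (ℕ → ℕ) → (ℕ → Set (ℕ × ℕ)) → Prop}, SD R → SD R' →
    SD fun ω v V => R ω v V ∧ R' ω v V
  sub : ∀ {R : Ω → (ℕ → ℕ) → (ℕ → Set (ℕ × ℕ)) → Prop} (f g : ℕ → ℕ), SD R →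
    SD fun ω v V => R ω (fun i => v (f i)) fun i => V (g i)
  ex : ∀ {S : Ω → (ℕ → ℕ) → (ℕ → Set (ℕ × ℕ)) → ℕ → Prop},
    SD (fun ω v V => S ω (fun i => v (i + 1)) V (v 0)) →
    SD fun ω v V => ∃ y, y < s ω ∧ S ω v V y
  exS : ∀ {S : Ω → (ℕ → ℕ) → (ℕ → Set (ℕ × ℕ)) → Set (ℕ × ℕ) → Prop},
    SD (fun ω v V => S ω v (fun i => V (i + 1)) (V 0)) →
    SD fun ω v V => ∃ Y, Y ⊆ sq (s ω) ∧ S ω v V Y
  le : ∀ x y : ℕ, SD fun _ v _ => v x ≤ v y
  mem : ∀ x y i : ℕ, SD fun _ v V => (v x, v y) ∈ V i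

open Classical in
/-- The number with the binary digits given by the row number `a` of the set `V`. -/
noncomputable def row (s : ℕ) (V : Set (ℕ × ℕ)) (a : ℕ) : ℕ :=
  ∑ b ∈ Finset.range s, if a < s ∧ (a, b) ∈ V then 2 ^ b else 0

theorem row_isSeq (s : ℕ) (V : Set (ℕ × ℕ)) : IsSeq s (2 ^ s) (row s V) := by
  classical
  refine ⟨fun a => ?_, fun a ha => ?_⟩
  · have h1 : row s V a ≤ ∑ b ∈ Finset.range s, 2 ^ b := by
      unfold row
      refine Finset.sum_le_sum fun b _ => ?_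
      split_ifs
      · exact le_rfl
      · exact Nat.zero_le _
    have h2 : ∑ b ∈ Finset.range s, 2 ^ b < 2 ^ s := by
      have h3 := Nat.geomSum_eq (le_refl 2) s
      have h4 : 0 < 2 ^ s := Nat.pow_pos (by norm_num)
      omega
    exact lt_of_le_of_lt h1 h2
  · unfold row
    refine Finset.sum_eq_zero fun b _ => ?_
    rw [if_neg]
    rintro ⟨h, -⟩
    omega

/-- The parameters given by indices and sets: the sequence number `i` is given by the rows of the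
set number `2 * i + 1`. -/
noncomputable def mkPar {Ω : Type} {s : Ω → ℕ} (ω : Ω) (v : ℕ → ℕ) (V : ℕ → Set (ℕ × ℕ))
    (hv : ∀ i, v i < s ω) : Par s fun ω => 2 ^ s ω :=
  ⟨ω, v, fun i => row (s ω) (V (2 * i + 1)), hv, fun i => row_isSeq (s ω) (V (2 * i + 1))⟩

/-- The relations of indices, sequences and digits to the base `2 ^ s ω`; the digit number `i` is
given by the first row of the set number `2 * i`. -/
def SetD {Ω : Type} (s : Ω → ℕ) (SD : (Ω → (ℕ → ℕ) → (ℕ → Set (ℕ × ℕ)) → Prop) → Prop)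
    (R : Par s (fun ω => 2 ^ s ω) → (ℕ → ℕ) → Prop) : Prop :=
  SD fun ω v V => ∀ hv : ∀ i, v i < s ω, R (mkPar ω v V hv) fun i => row (s ω) (V (2 * i)) 0

/-- The calculus for the lattices: `t ω` additional positions, a set `J ω` of positions. -/
structure World {Ω : Type} (s t : Ω → ℕ) (J : Ω → Finset ℕ)
    (SD : (Ω → (ℕ → ℕ) → (ℕ → Set (ℕ × ℕ)) → Prop) → Prop) : Prop extends SetCal s SD where
  tle : ∀ ω, t ω ≤ 2 * s ω
  Jle : ∀ ω, ∀ j ∈ J ω, j ≤ s ω * s ω + t ω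
  tC : ∀ x : ℕ, SD fun ω v _ => v x < t ω
  tR : ∀ x : ℕ, SD fun ω v _ => s ω + v x < t ω
  jJ : ∀ x y : ℕ, SD fun ω v _ => v x * s ω + v y ∈ J ω
  hC : ∀ x : ℕ, SD fun ω v _ => s ω * s ω + v x ∈ J ω
  hR : ∀ x : ℕ, SD fun ω v _ => s ω * s ω + s ω + v x ∈ J ω
  h2 : SD fun ω _ _ => s ω * s ω + 2 * s ω ∈ J ω

/-- The number of elements of the lattices. -/
def size (s t : ℕ) (J : Finset ℕ) : ℕ :=
  2 ^ (2 * s) + 2 ^ (s * s + t) + (2 * s + t) * 2 ^ s + s * s - (2 * s + 1) + ∑ j ∈ J, 2 ^ j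

end Pool.Agent.Lib.MP_586990_lc.R
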