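import Pool.Agent.Lib.MP_586990_lc.RudSub
import Pool.Agent.Lib.MP_586990_lc_R.SetDef

set_option autoImplicit false

/-!
# The size of the lattice and rudimentary sets
-/

namespace Pool.Agent.Lib.MP_586990_lc.R

/-- `n` is the size which belongs to the numbers `u`: `s`, `t`, `2 ^ s`, `2 ^ t`,
`2 ^ (s * s) - 1` and the two parts of the binary number of `J`. -/
def SizeRel (u : Fin 7 → ℕ) (n : ℕ) : Prop :=
  n + (2 * u 0 + 1) = u 2 * u 2 + (u 4 + 1) * u 3 + (2 * u 0 + u 1) * u 2 + u 0 * u 0 + u 5 +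
    (u 4 + 1) * u 6

private theorem SizeBd_evalP (n : ℕ) (u : Fin 7 → ℕ) :
    MvPolynomial.eval (Fin.cons n u : Fin 8 → ℕ)
      (MvPolynomial.X 0 + (MvPolynomial.C 2 * MvPolynomial.X 1 + MvPolynomial.C 1)) =
      n + (2 * u 0 + 1) := by
  simp only [map_add, map_mul, MvPolynomial.eval_X, MvPolynomial.eval_C]
  rfl

private theorem SizeBd_evalQ (n : ℕ) (u : Fin 7 → ℕ) :
    MvPolynomial.eval (Fin.cons n u : Fin 8 → ℕ)
      (MvPolynomial.X 3 * MvPolynomial.X 3 +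
        (MvPolynomial.X 5 + MvPolynomial.C 1) * MvPolynomial.X 4 +
        (MvPolynomial.C 2 * MvPolynomial.X 1 + MvPolynomial.X 2) * MvPolynomial.X 3 +
        MvPolynomial.X 1 * MvPolynomial.X 1 + MvPolynomial.X 6 +
        (MvPolynomial.X 5 + MvPolynomial.C 1) * MvPolynomial.X 7) =
      u 2 * u 2 + (u 4 + 1) * u 3 + (2 * u 0 + u 1) * u 2 + u 0 * u 0 + u 5 +
        (u 4 + 1) * u 6 := by
  simp only [map_add, map_mul, MvPolynomial.eval_X, MvPolynomial.eval_C]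
  rfl

private theorem SizeBd_evalR (u : Fin 7 → ℕ) :
    MvPolynomial.eval u
      (MvPolynomial.X 2 * MvPolynomial.X 2 +
        (MvPolynomial.X 4 + MvPolynomial.C 1) * MvPolynomial.X 3 +
        (MvPolynomial.C 2 * MvPolynomial.X 0 + MvPolynomial.X 1) * MvPolynomial.X 2 +
        MvPolynomial.X 0 * MvPolynomial.X 0 + MvPolynomial.X 5 +
        (MvPolynomial.X 4 + MvPolynomial.C 1) * MvPolynomial.X 6) =
      u 2 * u 2 + (u 4 + 1) * u 3 + (2 * u 0 + u 1) * u 2 + u 0 * u 0 + u 5 +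
        (u 4 + 1) * u 6 := by
  simp only [map_add, map_mul, MvPolynomial.eval_X, MvPolynomial.eval_C]

theorem bd_sizeRel {A : Set ℕ} (hA : Rud A) : Bd 7 {u | ∃ n, SizeRel u n ∧ n ∈ A} := by
  have h1 : Bd 8 {v : Fin 8 → ℕ | v 0 ∈ A} := by
    have h2 := Bd.subst hA (l := 8) fun _ => MvPolynomial.X 0
    simpa using h2
  have h2 := Bd.le 8
    (MvPolynomial.X 0 + (MvPolynomial.C 2 * MvPolynomial.X 1 + MvPolynomial.C 1))
    (MvPolynomial.X 3 * MvPolynomial.X 3 +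
        (MvPolynomial.X 5 + MvPolynomial.C 1) * MvPolynomial.X 4 +
        (MvPolynomial.C 2 * MvPolynomial.X 1 + MvPolynomial.X 2) * MvPolynomial.X 3 +
        MvPolynomial.X 1 * MvPolynomial.X 1 + MvPolynomial.X 6 +
        (MvPolynomial.X 5 + MvPolynomial.C 1) * MvPolynomial.X 7)
  have h3 := Bd.le 8
    (MvPolynomial.X 3 * MvPolynomial.X 3 +
        (MvPolynomial.X 5 + MvPolynomial.C 1) * MvPolynomial.X 4 +
        (MvPolynomial.C 2 * MvPolynomial.X 1 + MvPolynomial.X 2) * MvPolynomial.X 3 +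
        MvPolynomial.X 1 * MvPolynomial.X 1 + MvPolynomial.X 6 +
        (MvPolynomial.X 5 + MvPolynomial.C 1) * MvPolynomial.X 7)
    (MvPolynomial.X 0 + (MvPolynomial.C 2 * MvPolynomial.X 1 + MvPolynomial.C 1))
  have h5 := Bd.ex 7
    (MvPolynomial.X 2 * MvPolynomial.X 2 +
        (MvPolynomial.X 4 + MvPolynomial.C 1) * MvPolynomial.X 3 +
        (MvPolynomial.C 2 * MvPolynomial.X 0 + MvPolynomial.X 1) * MvPolynomial.X 2 +
        MvPolynomial.X 0 * MvPolynomial.X 0 + MvPolynomial.X 5 +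
        (MvPolynomial.X 4 + MvPolynomial.C 1) * MvPolynomial.X 6) _
    (Bd.inter 8 _ _ h1 (Bd.inter 8 _ _ h2 h3))
  convert h5 using 1
  ext u
  rw [Set.mem_ofPred_eq, Set.mem_ofPred_eq, SizeBd_evalR]
  simp only [Set.mem_inter_iff, Set.mem_ofPred_eq, SizeBd_evalP, SizeBd_evalQ, Fin.cons_zero]
  unfold SizeRel
  constructor
  · rintro ⟨n, h, hn⟩
    exact ⟨n, by omega, hn, h.le, h.ge⟩
  · rintro ⟨n, -, hn, h, h'⟩
    exact ⟨n, le_antisymm h h', hn⟩

theorem sizeRel_iff {s t : ℕ} {J : Finset ℕ} {u : Fin 7 → ℕ} (h0 : u 0 = s) (h1 : u 1 = t)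
    (h2 : u 2 = 2 ^ s) (h3 : u 3 = 2 ^ t) (h4 : u 4 + 1 = 2 ^ (s * s))
    (h5 : u 5 = ∑ j ∈ J.filter (fun j => j < s * s), 2 ^ j)
    (h6 : u 6 = ∑ j ∈ J.filter (fun j => s * s ≤ j), 2 ^ (j - s * s)) (n : ℕ) :
    SizeRel u n ↔ n = size s t J := by
  have e1 : 2 ^ s * 2 ^ s = 2 ^ (2 * s) := by rw [← pow_add, two_mul]
  have e2 : 2 ^ (s * s) * 2 ^ t = 2 ^ (s * s + t) := (pow_add _ _ _).symm
  have e3 : ∑ j ∈ J.filter (fun j => j < s * s), 2 ^ j +
      2 ^ (s * s) * ∑ j ∈ J.filter (fun j => s * s ≤ j), 2 ^ (j - s * s) = ∑ j ∈ J, 2 ^ j := by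
    rw [← Finset.sum_filter_add_sum_filter_not J (fun j => j < s * s), Finset.mul_sum]
    congr 1
    have e4 : J.filter (fun j => ¬ j < s * s) = J.filter (fun j => s * s ≤ j) :=
      Finset.filter_congr fun j _ => Nat.not_lt
    rw [e4]
    refine Finset.sum_congr rfl fun j hj => ?_
    have h7 := (Finset.mem_filter.1 hj).2
    rw [← pow_add, Nat.add_sub_cancel' h7]
  have e5 : 2 * s + 1 ≤ 2 ^ (2 * s) := Nat.lt_two_pow_self
  unfold SizeRel size
  rw [h0, h1, h2, h3, h4, h5, h6, e1, e2, ← e3]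
  clear e1 e2 e3 h0 h1 h2 h3 h4 h5 h6
  generalize ∑ j ∈ J.filter (fun j => j < s * s), 2 ^ j = S1
  generalize 2 ^ (s * s) * ∑ j ∈ J.filter (fun j => s * s ≤ j), 2 ^ (j - s * s) = S2
  generalize (2 * s + t) * 2 ^ s = S3
  generalize 2 ^ (s * s + t) = S6
  generalize s * s = S4
  generalize 2 ^ (2 * s) = S5 at e5 ⊢
  omega

end Pool.Agent.Lib.MP_586990_lc.R
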