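import Pool.Agent.Lib.MP_586990_lc_R.SetFr
import Pool.Agent.Lib.MP_586990_lc_R.Idx
import Pool.Agent.Lib.MP_586990_lc_R.CodeLem

set_option autoImplicit false

/-!
# The numbers which determine the size of the lattice: second part
-/

namespace Pool.Agent.Lib.MP_586990_lc.R

namespace World

variable {Ω : Type} {s t : Ω → ℕ} {J : Ω → Finset ℕ}
  {SD : (Ω → (ℕ → ℕ) → (ℕ → Set (ℕ × ℕ)) → Prop) → Prop}

private theorem WorldNuB_sum {s : ℕ} (hs : 0 < s) (S : ℕ → ℕ → Prop) (T : Finset ℕ)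
    (hT : ∀ j ∈ T, j < s * s) (h : ∀ j, j < s * s → (S (j / s) (j % s) ↔ j ∈ T)) :
    val (2 ^ s) s (row s {p | p ∈ sq s ∧ S p.1 p.2}) = ∑ j ∈ T, 2 ^ j := by
  classical
  rw [val_row]
  have h1 : ∀ j, j < s * s →
      ((j / s, j % s) ∈ {p : ℕ × ℕ | p ∈ sq s ∧ S p.1 p.2} ↔ j ∈ T) := by
    intro j hj
    rw [← h j hj]
    constructor
    · exact fun h2 => h2.2
    · intro h2
      refine ⟨⟨?_, Nat.mod_lt _ hs⟩, h2⟩
      exact (Nat.div_lt_iff_lt_mul hs).2 hj
  calc _ = ∑ j ∈ Finset.range (s * s), if j ∈ T then 2 ^ j else 0 := by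
        refine Finset.sum_congr rfl fun j hj => ?_
        have h2 := h1 j (Finset.mem_range.1 hj)
        by_cases h3 : j ∈ T
        · rw [if_pos h3, if_pos (h2.2 h3)]
        · rw [if_neg h3, if_neg (fun h4 => h3 (h2.1 h4))]
    _ = ∑ j ∈ T, 2 ^ j := by
        rw [← Finset.sum_filter]
        congr 1
        ext j
        rw [Finset.mem_filter, Finset.mem_range]
        exact ⟨fun h => h.2, fun h => ⟨hT j h, h⟩⟩

private theorem WorldNuB_main (W : World s t J SD) (i : ℕ) (S : Ω → ℕ → ℕ → Prop)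
    (T : Ω → Finset ℕ) (hSD : SD fun ω v _ => S ω (v 1) (v 0))
    (hT : ∀ ω, ∀ j ∈ T ω, j < s ω * s ω)
    (h : ∀ ω j, j < s ω * s ω → (S ω (j / s ω) (j % s ω) ↔ j ∈ T ω)) :
    SetD s SD fun p _ => val (2 ^ s p.ω) (s p.ω) (p.q i) = ∑ j ∈ T p.ω, 2 ^ j := by
  have C := W.toSetCal
  refine C.ofSD (C.eqSet (S := fun ω _ _ a b => S ω a b) (2 * i + 1) hSD) ?_
  intro ω v V hv hV
  have hs : 0 < s ω := by
    have := C.three ω
    omega
  have h1 := WorldNuB_sum hs (S ω) (T ω) (hT ω) (h ω)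
  change V (2 * i + 1) = {p | p ∈ sq (s ω) ∧ S ω p.1 p.2} ↔
    val (2 ^ s ω) (s ω) (row (s ω) (V (2 * i + 1))) = ∑ j ∈ T ω, 2 ^ j
  constructor
  · intro h2
    rw [h2, h1]
  · intro h2
    exact val_row_inj (hV _) (fun p hp => hp.1) (h2.trans h1.symm)

private theorem WorldNuB_sq {s : ℕ} (h : 3 ≤ s) : 2 * s < s * s :=
  Nat.mul_lt_mul_of_pos_right (by omega) (by omega)

theorem numPT (W : World s t J SD) (i : ℕ) :
    SetD s SD fun p _ => val (2 ^ s p.ω) (s p.ω) (p.q i) = 2 ^ t p.ω := by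
  have C := W.toSetCal
  have key := WorldNuB_main W i (fun ω a b =>
    (a = 0 ∧ ∀ c, c < s ω → (c < t ω ↔ c < b)) ∨
    ((a = 1 ∧ ((∀ c, c < s ω → c < t ω) ∧ ∀ c, c < s ω → (s ω + c < t ω ↔ c < b))) ∨
    (a = 2 ∧ (b = 0 ∧ ∀ c, c < s ω → s ω + c < t ω)))) (fun ω => {t ω}) ?_ ?_ ?_
  · simpa only [Finset.sum_singleton] using key
  · refine C.or (C.and (C.nat 1 0) ?_) (C.or (C.and (C.nat 1 1) (C.and ?_ ?_))
      (C.and (C.nat 1 2) (C.and (C.nat 0 0) ?_)))
    · exact C.all (S := fun ω v _ c => (c < t ω ↔ c < v 0)) (C.iff (W.tC 0) (C.lt 0 1))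
    · exact C.all (S := fun ω _ _ c => c < t ω) (W.tC 0)
    · exact C.all (S := fun ω v _ c => (s ω + c < t ω ↔ c < v 0)) (C.iff (W.tR 0) (C.lt 0 1))
    · exact C.all (S := fun ω _ _ c => s ω + c < t ω) (W.tR 0)
  · intro ω j hj
    rw [Finset.mem_singleton.1 hj]
    exact lt_of_le_of_lt (W.tle ω) (WorldNuB_sq (C.three ω))
  · intro ω j _
    have h3 := C.three ω
    have hs : 0 < s ω := by omega
    have htle := W.tle ω
    rw [Finset.mem_singleton]
    have hdm := Nat.div_add_mod j (s ω)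
    have hm := Nat.mod_lt j hs
    generalize j / s ω = a at *
    generalize j % s ω = b at *
    constructor
    · rintro (⟨ha, h⟩ | ⟨ha, h1, h2⟩ | ⟨ha, hb, h2⟩)
      · rw [ha, mul_zero, zero_add] at hdm
        have e1 := h b hm
        rcases Nat.lt_or_ge (t ω) (s ω) with h4 | h4
        · have e2 := h (t ω) h4
          omega
        · omega
      · rw [ha, mul_one] at hdm
        have e1 := h1 (s ω - 1) (by omega)
        have e2 := h2 b hm
        rcases Nat.lt_or_ge (t ω - s ω) (s ω) with h4 | h4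
        · have e3 := h2 (t ω - s ω) h4
          omega
        · omega
      · rw [ha, hb] at hdm
        have e2 := h2 (s ω - 1) (by omega)
        omega
    · intro hjt
      have ha : a < 3 := by
        by_contra h4
        have h5 : s ω * 3 ≤ s ω * a := Nat.mul_le_mul_left _ (by omega)
        omega
      have ha' : a = 0 ∨ a = 1 ∨ a = 2 := by omega
      rcases ha' with rfl | rfl | rfl
      · refine Or.inl ⟨rfl, fun c _ => ?_⟩
        omega
      · refine Or.inr (Or.inl ⟨rfl, fun c _ => ?_, fun c _ => ?_⟩)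
        · omega
        · omega
      · refine Or.inr (Or.inr ⟨rfl, ?_, fun c _ => ?_⟩)
        · omega
        · omega

theorem numJL (W : World s t J SD) (i : ℕ) :
    SetD s SD fun p _ => val (2 ^ s p.ω) (s p.ω) (p.q i) =
      ∑ j ∈ (J p.ω).filter (fun j => j < s p.ω * s p.ω), 2 ^ j := by
  have C := W.toSetCal
  refine WorldNuB_main W i (fun ω a b => a * s ω + b ∈ J ω)
    (fun ω => (J ω).filter (fun j => j < s ω * s ω)) (W.jJ 1 0) ?_ ?_
  · intro ω j hj
    exact (Finset.mem_filter.1 hj).2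
  · intro ω j hj
    have hdm := Nat.div_add_mod' j (s ω)
    rw [hdm, Finset.mem_filter]
    exact ⟨fun h => ⟨h, hj⟩, fun h => h.1⟩

theorem numJH (W : World s t J SD) (i : ℕ) :
    SetD s SD fun p _ => val (2 ^ s p.ω) (s p.ω) (p.q i) =
      ∑ j ∈ (J p.ω).filter (fun j => s p.ω * s p.ω ≤ j), 2 ^ (j - s p.ω * s p.ω) := by
  classical
  have C := W.toSetCal
  have hJ : ∀ ω j, s ω * s ω + j ∈ J ω → j ≤ 2 * s ω := by
    intro ω j hj
    have h1 := W.Jle ω _ hj
    have h2 := W.tle ω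
    omega
  have key := WorldNuB_main W i (fun ω a b =>
    (a = 0 ∧ s ω * s ω + b ∈ J ω) ∨ ((a = 1 ∧ s ω * s ω + s ω + b ∈ J ω) ∨
      (a = 2 ∧ (b = 0 ∧ s ω * s ω + 2 * s ω ∈ J ω))))
    (fun ω => (Finset.range (2 * s ω + 1)).filter (fun j => s ω * s ω + j ∈ J ω)) ?_ ?_ ?_
  · have h1 : ∀ ω, ∑ j ∈ (Finset.range (2 * s ω + 1)).filter (fun j => s ω * s ω + j ∈ J ω),
        2 ^ j = ∑ j ∈ (J ω).filter (fun j => s ω * s ω ≤ j), 2 ^ (j - s ω * s ω) := by
      intro ω
      refine Finset.sum_bij' (fun j _ => s ω * s ω + j) (fun j _ => j - s ω * s ω) ?_ ?_ ?_ ?_ ?_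
      · intro j hj
        rw [Finset.mem_filter] at hj ⊢
        exact ⟨hj.2, Nat.le_add_right _ _⟩
      · intro j hj
        rw [Finset.mem_filter] at hj ⊢
        have h2 : s ω * s ω + (j - s ω * s ω) = j := Nat.add_sub_of_le hj.2
        have h3 := hJ ω (j - s ω * s ω) (by rw [h2]; exact hj.1)
        rw [h2]
        exact ⟨Finset.mem_range.2 (by omega), hj.1⟩
      · intro j _
        exact Nat.add_sub_cancel_left _ _
      · intro j hj
        rw [Finset.mem_filter] at hj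
        exact Nat.add_sub_of_le hj.2
      · intro j _
        rw [Nat.add_sub_cancel_left]
    simp only [h1] at key
    exact key
  · exact C.or (C.and (C.nat 1 0) (W.hC 0)) (C.or (C.and (C.nat 1 1) (W.hR 0))
      (C.and (C.nat 1 2) (C.and (C.nat 0 0) W.h2)))
  · intro ω j hj
    rw [Finset.mem_filter, Finset.mem_range] at hj
    have := WorldNuB_sq (C.three ω)
    omega
  · intro ω j _
    have h3 := C.three ω
    have hs : 0 < s ω := by omega
    rw [Finset.mem_filter, Finset.mem_range]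
    have hdm := Nat.div_add_mod j (s ω)
    have hm := Nat.mod_lt j hs
    generalize j / s ω = a at *
    generalize j % s ω = b at *
    constructor
    · rintro (⟨ha, h⟩ | ⟨ha, h⟩ | ⟨ha, hb, h⟩)
      · rw [ha, mul_zero, zero_add] at hdm
        rw [hdm] at h
        exact ⟨by omega, h⟩
      · rw [ha, mul_one] at hdm
        rw [add_assoc, hdm] at h
        exact ⟨by omega, h⟩
      · rw [ha, hb, add_zero, mul_comm] at hdm
        rw [hdm] at h
        exact ⟨by omega, h⟩
    · rintro ⟨h4, h⟩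
      have ha : a < 3 := by
        by_contra h6
        have h5 : s ω * 3 ≤ s ω * a := Nat.mul_le_mul_left _ (by omega)
        omega
      have ha' : a = 0 ∨ a = 1 ∨ a = 2 := by omega
      rcases ha' with rfl | rfl | rfl
      · rw [mul_zero, zero_add] at hdm
        rw [← hdm] at h
        exact Or.inl ⟨rfl, h⟩
      · rw [mul_one] at hdm
        rw [← hdm, ← add_assoc] at h
        exact Or.inr (Or.inl ⟨rfl, h⟩)
      · have hb : b = 0 := by omega
        rw [hb, add_zero, mul_comm] at hdm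
        rw [← hdm] at h
        exact Or.inr (Or.inr ⟨rfl, hb, h⟩)

end World

end Pool.Agent.Lib.MP_586990_lc.R
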