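import Pool.Agent.Lib.MP_586990_lc_R.WorldNum
import Pool.Agent.Lib.MP_586990_lc_R.WorldNuB
import Pool.Agent.Lib.MP_586990_lc_R.SetLift
import Pool.Agent.Lib.MP_586990_lc_R.SizeBd
import Pool.Agent.Lib.MP_586990_lc_R.BdN

set_option autoImplicit false

/-!
# Rudimentary sets of sizes are definable
-/

namespace Pool.Agent.Lib.MP_586990_lc.R

/-- a sequence in front of the sequences -/
private def WorldFin_cq (z : ℕ → ℕ) (q : ℕ → ℕ → ℕ) : ℕ → ℕ → ℕ
  | 0 => z
  | i + 1 => q i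

/-- quantification over `n` sequences -/
private def WorldFin_it {Ω : Type} (s B : Ω → ℕ) (K : Ω → (ℕ → ℕ → ℕ) → Prop) :
    ℕ → Ω → (ℕ → ℕ → ℕ) → Prop
  | 0 => K
  | n + 1 => fun ω q => ∃ z, IsSeq (s ω) (B ω) z ∧ WorldFin_it s B K n ω (WorldFin_cq z q)

private theorem WorldFin_D {Ω : Type} {s B : Ω → ℕ} {D : (Par s B → (ℕ → ℕ) → Prop) → Prop}
    (F : SFr s B D) (K : Ω → (ℕ → ℕ → ℕ) → Prop) (h : D fun p _ => K p.ω p.q) (n : ℕ) :
    D fun p _ => WorldFin_it s B K n p.ω p.q := by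
  induction n with
  | zero => exact h
  | succ n ih =>
    have h1 : D fun p w => (fun (p : Par s B) (_ : ℕ → ℕ) (z : ℕ → ℕ) =>
        WorldFin_it s B K n p.ω (WorldFin_cq z p.q)) p.tlQ w (p.q 0) := by
      refine F.toAFrame.congr (fun p w _ => ?_) ih
      show WorldFin_it s B K n p.ω p.q ↔
        WorldFin_it s B K n p.ω (WorldFin_cq (p.q 0) fun i => p.q (i + 1))
      have h2 : WorldFin_cq (p.q 0) (fun i => p.q (i + 1)) = p.q := by
        funext i
        cases i with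
        | zero => rfl
        | succ i => rfl
      rw [h2]
    exact F.exQ (S := fun (p : Par s B) (_ : ℕ → ℕ) (z : ℕ → ℕ) =>
        WorldFin_it s B K n p.ω (WorldFin_cq z p.q)) h1

private theorem WorldFin_iff {Ω : Type} {s B : Ω → ℕ} (K : Ω → (ℕ → ℕ → ℕ) → Prop) (n : ℕ)
    (ω : Ω) (q : ℕ → ℕ → ℕ) : WorldFin_it s B K n ω q ↔
      ∃ Z : ℕ → ℕ → ℕ, (∀ i, i < n → IsSeq (s ω) (B ω) (Z i)) ∧
        K ω fun i => if i < n then Z i else q (i - n) := by
  induction n generalizing q with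
  | zero =>
    show K ω q ↔ _
    constructor
    · intro h
      exact ⟨q, fun i hi => absurd hi (Nat.not_lt_zero i), h⟩
    · rintro ⟨Z, -, h⟩
      exact h
  | succ n ih =>
    show (∃ z, IsSeq (s ω) (B ω) z ∧ WorldFin_it s B K n ω (WorldFin_cq z q)) ↔ _
    constructor
    · rintro ⟨z, hz, h⟩
      obtain ⟨Z, hZ, h1⟩ := (ih _).1 h
      refine ⟨fun i => if i < n then Z i else z, fun i hi => ?_, ?_⟩
      · dsimp only
        split_ifs with h2
        · exact hZ i h2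
        · exact hz
      · have h2 : (fun i => if i < n then Z i else WorldFin_cq z q (i - n)) =
            fun i => if i < n + 1 then (if i < n then Z i else z) else q (i - (n + 1)) := by
          funext i
          rcases lt_trichotomy i n with h3 | h3 | h3
          · rw [if_pos h3, if_pos (by omega), if_pos h3]
          · subst h3
            rw [if_neg (lt_irrefl i), if_pos (Nat.lt_succ_self i), if_neg (lt_irrefl i),
              Nat.sub_self]
            rfl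
          · rw [if_neg (by omega), if_neg (by omega)]
            obtain ⟨k, rfl⟩ : ∃ k, i = n + 1 + k := ⟨i - (n + 1), by omega⟩
            rw [show n + 1 + k - n = k + 1 by omega, show n + 1 + k - (n + 1) = k by omega]
            rfl
        rw [← h2]
        exact h1
    · rintro ⟨Z, hZ, h⟩
      refine ⟨Z n, hZ n (Nat.lt_succ_self n), (ih _).2 ⟨Z, fun i hi => hZ i (by omega), ?_⟩⟩
      have h2 : (fun i => if i < n then Z i else WorldFin_cq (Z n) q (i - n)) =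
          fun i => if i < n + 1 then Z i else q (i - (n + 1)) := by
        funext i
        rcases lt_trichotomy i n with h3 | h3 | h3
        · rw [if_pos h3, if_pos (by omega)]
        · subst h3
          rw [if_neg (lt_irrefl i), if_pos (Nat.lt_succ_self i), Nat.sub_self]
          rfl
        · rw [if_neg (by omega), if_neg (by omega)]
          obtain ⟨k, rfl⟩ : ∃ k, i = n + 1 + k := ⟨i - (n + 1), by omega⟩
          rw [show n + 1 + k - n = k + 1 by omega, show n + 1 + k - (n + 1) = k by omega]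
          rfl
      rw [h2]
      exact h

private theorem WorldFin_geom (n : ℕ) : ∑ j ∈ Finset.range n, 2 ^ j < 2 ^ n := by
  have h3 := Nat.geomSum_eq (le_refl 2) n
  have h4 : 0 < 2 ^ n := Nat.pow_pos (by norm_num)
  omega

private theorem WorldFin_jl (n : ℕ) (J : Finset ℕ) :
    ∑ j ∈ J.filter (fun j => j < n), 2 ^ j < 2 ^ n := by
  refine lt_of_le_of_lt (Finset.sum_le_sum_of_subset ?_) (WorldFin_geom n)
  intro j hj
  rw [Finset.mem_filter] at hj
  exact Finset.mem_range.2 hj.2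

private theorem WorldFin_jh (n : ℕ) (J : Finset ℕ) (h : ∀ j ∈ J, j < n + n) :
    ∑ j ∈ J.filter (fun j => n ≤ j), 2 ^ (j - n) < 2 ^ n := by
  have h1 : ∑ i ∈ (J.filter (fun j => n ≤ j)).image (fun j => j - n), 2 ^ i =
      ∑ j ∈ J.filter (fun j => n ≤ j), 2 ^ (j - n) := by
    rw [Finset.sum_image]
    intro a ha b hb hab
    rw [Finset.mem_coe, Finset.mem_filter] at ha hb
    have h2 := ha.2
    have h3 := hb.2
    dsimp only at hab
    omega
  rw [← h1]
  refine lt_of_le_of_lt (Finset.sum_le_sum_of_subset ?_) (WorldFin_geom n)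
  intro i hi
  rw [Finset.mem_image] at hi
  obtain ⟨j, hj, rfl⟩ := hi
  rw [Finset.mem_filter] at hj
  have h2 := h j hj.1
  have h3 := hj.2
  rw [Finset.mem_range]
  omega

/-- the relation of the seven sequences -/
private def WorldFin_K {Ω : Type} (s t : Ω → ℕ) (J : Ω → Finset ℕ) (A : Set ℕ) (ω : Ω)
    (q : ℕ → ℕ → ℕ) : Prop :=
  (∃ n, SizeRel (fun i : Fin 7 => val (2 ^ s ω) (s ω) (q i)) n ∧ n ∈ A) ∧
  val (2 ^ s ω) (s ω) (q 0) = s ω ∧ val (2 ^ s ω) (s ω) (q 1) = t ω ∧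
  val (2 ^ s ω) (s ω) (q 2) = 2 ^ s ω ∧ val (2 ^ s ω) (s ω) (q 3) = 2 ^ t ω ∧
  val (2 ^ s ω) (s ω) (q 4) + 1 = 2 ^ (s ω * s ω) ∧
  val (2 ^ s ω) (s ω) (q 5) = ∑ j ∈ (J ω).filter (fun j => j < s ω * s ω), 2 ^ j ∧
  val (2 ^ s ω) (s ω) (q 6) =
    ∑ j ∈ (J ω).filter (fun j => s ω * s ω ≤ j), 2 ^ (j - s ω * s ω)

private theorem WorldFin_size {Ω : Type} {s t : Ω → ℕ} {J : Ω → Finset ℕ} {A : Set ℕ} {ω : Ω}
    (h3 : 3 ≤ s ω) (ht : t ω ≤ 2 * s ω) (hJ : ∀ j ∈ J ω, j ≤ s ω * s ω + t ω)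
    (q : ℕ → ℕ → ℕ) : WorldFin_it s (fun ω => 2 ^ s ω) (WorldFin_K s t J A) 7 ω q ↔
      size (s ω) (t ω) (J ω) ∈ A := by
  rw [WorldFin_iff]
  have hss : 2 * s ω < s ω * s ω := Nat.mul_lt_mul_of_pos_right (by omega) (by omega)
  constructor
  · rintro ⟨Z, -, ⟨n, hn, hnA⟩, k0, k1, k2, k3, k4, k5, k6⟩
    have h := (sizeRel_iff k0 k1 k2 k3 k4 k5 k6 n).1 hn
    rw [← h]
    exact hnA
  · intro hA
    have hpow : (2 ^ s ω) ^ s ω = 2 ^ (s ω * s ω) := by rw [← pow_mul]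
    have hp : ∀ m, m < s ω * s ω → 2 ^ m < 2 ^ (s ω * s ω) := fun m hm =>
      Nat.pow_lt_pow_right (by norm_num) hm
    have hself : s ω * s ω < 2 ^ (s ω * s ω) := Nat.lt_two_pow_self
    have hex : ∀ y, y < 2 ^ (s ω * s ω) → ∃ z, IsSeq (s ω) (2 ^ s ω) z ∧
        val (2 ^ s ω) (s ω) z = y := fun y hy =>
      exists_val (Nat.pow_pos (by norm_num)) (by rw [hpow]; exact hy)
    obtain ⟨z0, i0, e0⟩ := hex (s ω) (by omega)
    obtain ⟨z1, i1, e1⟩ := hex (t ω) (by omega)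
    obtain ⟨z2, i2, e2⟩ := hex (2 ^ s ω) (hp _ (by omega))
    obtain ⟨z3, i3, e3⟩ := hex (2 ^ t ω) (hp _ (by omega))
    obtain ⟨z4, i4, e4⟩ := hex (2 ^ (s ω * s ω) - 1) (by omega)
    obtain ⟨z5, i5, e5⟩ := hex _ (WorldFin_jl (s ω * s ω) (J ω))
    obtain ⟨z6, i6, e6⟩ := hex _ (WorldFin_jh (s ω * s ω) (J ω) fun j hj => by
      have := hJ j hj
      omega)
    have e4' : val (2 ^ s ω) (s ω) z4 + 1 = 2 ^ (s ω * s ω) := by omega
    refine ⟨fun i => if i = 0 then z0 else if i = 1 then z1 else if i = 2 then z2 else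
      if i = 3 then z3 else if i = 4 then z4 else if i = 5 then z5 else z6, ?_, ?_⟩
    · intro i _
      dsimp only
      split_ifs <;> assumption
    · refine ⟨⟨size (s ω) (t ω) (J ω), ?_, hA⟩, e0, e1, e2, e3, e4', e5, e6⟩
      exact (sizeRel_iff e0 e1 e2 e3 e4' e5 e6 _).2 rfl

theorem World.final {Ω : Type} {s t : Ω → ℕ} {J : Ω → Finset ℕ}
    {SD : (Ω → (ℕ → ℕ) → (ℕ → Set (ℕ × ℕ)) → Prop) → Prop} (W : World s t J SD)
    {A : Set ℕ} (hA : Rud A) : SD fun ω _ _ => size (s ω) (t ω) (J ω) ∈ A := by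
  have C : SetCal s SD := W.toSetCal
  have F := C.sfr
  have hK : SetD s SD fun p _ => WorldFin_K s t J A p.ω p.q := by
    have h0 : SetD s SD fun p _ =>
        ∃ n, SizeRel (fun i : Fin 7 => val (2 ^ s p.ω) (s p.ω) (p.q i)) n ∧ n ∈ A := by
      have h1 := C.frame.bd (bd_sizeRel hA) 1
      unfold DefN LiftD at h1
      refine F.toAFrame.congr (fun p w _ => ?_) h1
      have h2 : (fun i : Fin 7 => num ((2 ^ s p.ω) ^ s p.ω)
          (fun i => val (2 ^ s p.ω) (s p.ω) (p.q i)) ((i : ℕ) * 1) 1) =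
          fun i : Fin 7 => val (2 ^ s p.ω) (s p.ω) (p.q i) := by
        funext i
        simp [num]
      show (fun i : Fin 7 => num ((2 ^ s p.ω) ^ s p.ω)
          (fun i => val (2 ^ s p.ω) (s p.ω) (p.q i)) ((i : ℕ) * 1) 1) ∈
          {u : Fin 7 → ℕ | ∃ n, SizeRel u n ∧ n ∈ A} ↔ _
      rw [h2]
      rfl
    exact F.and h0 (F.and (W.numS 0) (F.and (W.numT 1) (F.and (W.numPS 2) (F.and (W.numPT 3)
      (F.and (W.numFull 4) (F.and (W.numJL 5) (W.numJH 6)))))))
  have h7 := WorldFin_D F _ hK 7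
  have h8 : SetD s SD fun p _ => size (s p.ω) (t p.ω) (J p.ω) ∈ A := by
    refine F.toAFrame.congr (fun p w _ => ?_) h7
    exact WorldFin_size (C.three p.ω) (W.tle p.ω) (W.Jle p.ω) p.q
  unfold SetD at h8
  refine C.congr (fun ω v V hv _ => ?_) h8
  exact ⟨fun h => h hv, fun h _ => h⟩

end Pool.Agent.Lib.MP_586990_lc.R
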