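import Pool.Agent.Lib.MP_586990_lc_R.LatSet
import Pool.Agent.Lib.MP_586990_lc_R.LatWA
import Pool.Agent.Lib.MP_586990_lc_R.LatWB
import Pool.Agent.Lib.MP_586990_lc_R.WorldFin
import Pool.Agent.Lib.MP_586990_lc_R.ValPar
import Pool.Agent.Lib.MP_586990_lc_R.ValPD
import Pool.Agent.Lib.MP_586990_lc_R.DecA
import Pool.Agent.Lib.MP_586990_lc_R.DecB
import Pool.Agent.Lib.MP_586990_lc_R.DecC
import Pool.Agent.Lib.MP_586990_lc_R.Cover
import Pool.Agent.Lib.MP_586990_lc_R.CntAll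
import Pool.Agent.Lib.MP_586990_lc_W.LMain

set_option autoImplicit false

/-!
# Rudimentary sets are spectra of distributive lattices
-/

namespace Pool.Agent.Lib.MP_586990_lc.R

open FirstOrder FirstOrder.Language

theorem latWorld : World Wd.s Wd.t Wd.J LatD where
  __ := latCal
  tle ω := ω.ht
  Jle ω := ω.hJ
  tC := lat_tC
  tR := lat_tR
  jJ := lat_jJ
  hC := lat_hC
  hR := lat_hR
  h2 := lat_h2

/-- The image of a lower set. -/
private def latMain_img {P P' : Type} [PartialOrder P] [PartialOrder P'] (e : P ≃ P')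
    (he : ∀ x y : P, x ≤ y ↔ e x ≤ e y) (X : LowerSet P) : LowerSet P' :=
  ⟨{y | e.symm y ∈ X}, fun a b hab ha => X.lower (by
    rw [he, e.apply_symm_apply, e.apply_symm_apply]; exact hab) ha⟩

private theorem latMain_mem {P P' : Type} [PartialOrder P] [PartialOrder P'] (e : P ≃ P')
    (he : ∀ x y : P, x ≤ y ↔ e x ≤ e y) (X : LowerSet P) (x : P) :
    x ∈ X ↔ e x ∈ latMain_img e he X := by
  change x ∈ X ↔ e.symm (e x) ∈ X
  rw [e.symm_apply_apply]

/-- A sentence for a rudimentary set. -/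
theorem exists_sizes {A : Set ℕ} (hA : Rud A) : ∃ ψ : FirstOrder.Language.order.Sentence,
    ∀ (P : Type) (i : PartialOrder P), Finite P →
      (Tr (LS P i) ψ ↔ ∃ ω : Wd, Nonempty (P ≃o PT ω) ∧ size ω.s ω.t ω.J ∈ A) := by
  obtain ⟨Q, hQ, h⟩ := World.final latWorld hA
  have h1 : PD fun P i X w => Val X ∧ Dg X (w 0) ∧ Q P i X fun _ => w 0 :=
    PD.val.and ((PD.dg 0).and (hQ.sub (fun j => j) fun _ => 0))
  obtain ⟨ψ, hψ⟩ := h1.sentence
  refine ⟨ψ, fun P i hP => (hψ P i hP).trans ⟨?_, ?_⟩⟩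
  · rintro ⟨X, w, hX⟩
    obtain ⟨s, rp, cp, hR⟩ := exists_RC hX.1
    obtain ⟨t, f, hC⟩ := exists_CF hX.1 hR
    obtain ⟨ω, e, he, hp⟩ := exists_Pres hX.1 hC
    refine ⟨ω, ⟨⟨e, fun {x y} => (he x y).symm⟩⟩, ?_⟩
    have h2 := (h1.iso hP e he (X := X) (X' := fun j => latMain_img e he (X j)) (w := w)
      (w' := fun j => e (w j)) (fun j x => latMain_mem e he (X j) x) fun _ => rfl).1 hX
    have h3 : ∀ j, j < 7 → latMain_img e he (X j) = par ω j := by
      intro j hj
      ext y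
      change e.symm y ∈ X j ↔ y ∈ par ω j
      rw [hp j hj, e.apply_symm_apply]
    obtain ⟨a, ha, h4, h5⟩ := (dg_iff h3).1 h2.2.1
    exact (h ω (fun _ => a) (fun i => cells ω (latMain_img e he (X (i + 7))))
      (fun j => latMain_img e he (X j)) (fun _ => e (w 0))
      ⟨h3, fun _ => rfl, fun _ => ⟨ha, h4, h5⟩⟩).1 h2.2.2
  · rintro ⟨ω, ⟨e⟩, hs⟩
    have hω : 0 * ω.s + 0 < ω.s * ω.s + ω.t := by
      have := ω.hs
      nlinarith
    have h2 : Val (par ω) ∧ Dg (par ω) (PT.un ⟨0 * ω.s + 0, hω⟩) ∧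
        Q (PT ω) inferInstance (par ω) fun _ => PT.un ⟨0 * ω.s + 0, hω⟩ := by
      refine ⟨valPar fun _ _ => rfl, (dg_iff fun _ _ => rfl).2 ⟨0, by have := ω.hs; omega, hω, rfl⟩,
        (h ω (fun _ => 0) (fun i => cells ω (par ω (i + 7))) (par ω) _
          ⟨fun _ _ => rfl, fun _ => rfl, fun _ => ⟨by have := ω.hs; omega, hω, rfl⟩⟩).2 hs⟩
    have he : ∀ x y : PT ω, x ≤ y ↔ e.symm x ≤ e.symm y := fun x y =>
      (e.symm.map_rel_iff).symm
    exact ⟨fun j => latMain_img e.symm.toEquiv he (par ω j),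
      fun _ => e.symm (PT.un ⟨0 * ω.s + 0, hω⟩),
      (h1.iso (P := PT ω) (P' := P) inferInstance e.symm.toEquiv he
      (X' := fun j => latMain_img e.symm.toEquiv he (par ω j))
      (w := fun _ => PT.un ⟨0 * ω.s + 0, hω⟩)
      (w' := fun _ => e.symm (PT.un ⟨0 * ω.s + 0, hω⟩))
      (fun j x => latMain_mem e.symm.toEquiv he (par ω j) x) fun _ => rfl).1 h2⟩

private theorem latMain_card (k : ℕ) : ∃ χ : FirstOrder.Language.order.Sentence,
    ∀ (M : Type) (i : PartialOrder M), Finite M → (@Tr M i χ ↔ k ≤ Nat.card M) := by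
  refine ⟨FirstOrder.Language.Sentence.cardGe _ k, fun M i hM => ?_⟩
  let _ := FirstOrder.Language.orderStructure M
  have h1 := FirstOrder.Language.Sentence.realize_cardGe (L := FirstOrder.Language.order)
    (M := M) k
  refine h1.trans ?_
  rw [← Nat.cast_card]
  exact Nat.cast_le

private theorem latMain_small (A : Set ℕ) (k : ℕ) : ∃ χ : FirstOrder.Language.order.Sentence,
    ∀ (M : Type) (i : PartialOrder M), Finite M →
      (@Tr M i χ ↔ Nat.card M ∈ A ∧ Nat.card M < k) := by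
  induction k with
  | zero =>
    refine ⟨⊥, fun M i _ => ?_⟩
    let _ := FirstOrder.Language.orderStructure M
    have h1 : ¬ @Tr M i ⊥ := fun h => h
    simp [h1]
  | succ k ih =>
    obtain ⟨χ, hχ⟩ := ih
    obtain ⟨a, ha⟩ := latMain_card k
    obtain ⟨b, hb⟩ := latMain_card (k + 1)
    by_cases hk : k ∈ A
    · refine ⟨χ ⊔ (a ⊓ b.not), fun M i hM => ?_⟩
      have h1 : @Tr M i (χ ⊔ (a ⊓ b.not)) ↔ (@Tr M i χ ∨ (@Tr M i a ∧ ¬ @Tr M i b)) := by
        let _ := FirstOrder.Language.orderStructure M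
        unfold Tr
        rw [FirstOrder.Language.Sentence.realize_sup, FirstOrder.Language.Sentence.realize_inf,
          FirstOrder.Language.Sentence.realize_not]
      rw [h1, hχ M i hM, ha M i hM, hb M i hM]
      constructor
      · rintro (h | h)
        · exact ⟨h.1, by omega⟩
        · have h2 : Nat.card M = k := by omega
          exact ⟨h2 ▸ hk, by omega⟩
      · rintro ⟨h, h'⟩
        by_cases h2 : Nat.card M = k
        · right; omega
        · left; exact ⟨h, by omega⟩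
    · refine ⟨χ, fun M i hM => (hχ M i hM).trans ?_⟩
      constructor
      · exact fun h => ⟨h.1, by omega⟩
      · rintro ⟨h, h'⟩
        refine ⟨h, ?_⟩
        by_contra h2
        have h3 : Nat.card M = k := by omega
        exact hk (h3 ▸ h)

/-- Every rudimentary set of positive integers is the spectrum of a sentence about distributive
lattices. -/
theorem rud_lattice {A : Set ℕ} (hA : Rud A) : ∃ ψ : FirstOrder.Language.order.Sentence,
    ∀ C : ∀ (M : Type), PartialOrder M → Prop,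
      (∀ (M : Type) (i : PartialOrder M), Finite M → @W.DL M i → C M i) →
      SpecC C ψ = {n | n ∈ A ∧ 1 ≤ n} := by
  obtain ⟨ψ, hψ⟩ := exists_sizes hA
  obtain ⟨δ, hδ⟩ := W.exists_dlSentence
  obtain ⟨χ, hχ⟩ := latMain_small A 626
  refine ⟨δ ⊓ (ψ ⊔ χ), fun C hC => ?_⟩
  have h1 : ∀ (M : Type) (i : PartialOrder M), Finite M → (@Tr M i (δ ⊓ (ψ ⊔ χ)) ↔
      @W.DL M i ∧ (@Tr M i ψ ∨ (Nat.card M ∈ A ∧ Nat.card M < 626))) := by
    intro M i hM
    rw [← hδ M i, ← hχ M i hM]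
    let _ := FirstOrder.Language.orderStructure M
    unfold Tr
    rw [FirstOrder.Language.Sentence.realize_inf, FirstOrder.Language.Sentence.realize_sup]
  have h2 : ∀ ω : Wd, 1 ≤ size ω.s ω.t ω.J := by
    intro ω
    rw [← card_lowerSet ω]
    exact Nat.card_pos
  ext n
  constructor
  · rintro ⟨M, i, hM, hn, -, ht⟩
    obtain ⟨hdl, h3⟩ := (h1 M i hM).1 ht
    rcases h3 with h3 | h3
    · obtain ⟨e⟩ := W.birkhoff hdl
      have h4 := (W.Tr_iso e ψ).1 h3
      obtain ⟨ω, ⟨e'⟩, h5⟩ := (hψ _ _ inferInstance).1 h4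
      have h6 : Nat.card M = size ω.s ω.t ω.J := by
        rw [← card_lowerSet ω, Nat.card_congr e.toEquiv]
        exact Nat.card_congr (LowerSet.map e').toEquiv
      exact ⟨by rw [← hn, h6]; exact h5, by rw [← hn, h6]; exact h2 ω⟩
    · obtain ⟨x, -⟩ := hdl.ne
      have : Nonempty M := ⟨x⟩
      exact ⟨hn ▸ h3.1, hn ▸ Nat.card_pos⟩
  · rintro ⟨hn, hn1⟩
    by_cases h3 : 626 ≤ n
    · obtain ⟨ω, hω⟩ := exists_wd h3
      have h4 : W.DL (LowerSet (PT ω)) := W.DL_lowerSet (PT ω)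
      refine ⟨LowerSet (PT ω), inferInstance, inferInstance, (card_lowerSet ω).trans hω,
        hC _ _ inferInstance h4, (h1 _ _ inferInstance).2 ⟨h4, Or.inl ?_⟩⟩
      exact (hψ _ _ inferInstance).2 ⟨ω, ⟨OrderIso.refl _⟩, hω ▸ hn⟩
    · have : Nonempty (Fin n) := ⟨⟨0, hn1⟩⟩
      have h4 : W.DL (Fin n) := W.DL_iff.2 ⟨inferInstance, inferInstance, rfl⟩
      refine ⟨Fin n, inferInstance, inferInstance, Nat.card_fin n, hC _ _ inferInstance h4,
        (h1 _ _ inferInstance).2 ⟨h4, Or.inr ?_⟩⟩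
      rw [Nat.card_fin]
      exact ⟨hn, by omega⟩

end Pool.Agent.Lib.MP_586990_lc.R
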