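import Pool.Agent.Lib.MP_586990_lc_R.LatDef

set_option autoImplicit false

/-!
# Relations of elements of a partial order with given lower sets

The lower sets `X 0, .., X 6` are the parameters.
-/

namespace Pool.Agent.Lib.MP_586990_lc.R

section

variable {P : Type} [PartialOrder P] (X : ℕ → LowerSet P)

/-- Columns. -/
def Co (x : P) : Prop := x ∈ X 1 ∧ x ∉ X 0

/-- Cells. -/
def Ce (x : P) : Prop := x ∈ X 2 ∧ x ∉ X 1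

/-- Additional units which belong to columns. -/
def Ec (x : P) : Prop := x ∈ X 3 ∧ x ∉ X 2

/-- Additional units which belong to rows. -/
def Er (x : P) : Prop := x ∈ X 4 ∧ x ∉ X 3

/-- Units. -/
def Un (x : P) : Prop := x ∈ X 4 ∧ x ∉ X 1

/-- Cells on the diagonal. -/
def Dg (x : P) : Prop := Ce X x ∧ x ∈ X 5

/-- The same rows are below. -/
def SR (x y : P) : Prop := ∀ r, r ∈ X 0 → (r < x ↔ r < y)

/-- The same columns are below. -/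
def SC (x y : P) : Prop := ∀ c, Co X c → (c < x ↔ c < y)

/-- `z` is the cell in the row of `x` and the column of `y`. -/
def At (z x y : P) : Prop := Ce X z ∧ SR X z x ∧ SC X z y

/-- The order of the elements of the diagonal. -/
def DLe (x y : P) : Prop := ∃ z, At X z x y ∧ z ∈ X 6

/-- The row of `x` is before the row of `y`. -/
def RLt (x y : P) : Prop :=
  ∃ d d', Dg X d ∧ Dg X d' ∧ SR X x d ∧ SR X y d' ∧ DLe X d d' ∧ d ≠ d'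

/-- The column of `x` is before the column of `y`. -/
def CLt (x y : P) : Prop :=
  ∃ d d', Dg X d ∧ Dg X d' ∧ SC X x d ∧ SC X y d' ∧ DLe X d d' ∧ d ≠ d'

/-- The order of the units. -/
def UL (x y : P) : Prop :=
  (Ce X x ∧ Ce X y ∧ (RLt X x y ∨ (SR X x y ∧ CLt X x y))) ∨
    (Ce X x ∧ (Ec X y ∨ Er X y)) ∨ (Ec X x ∧ Er X y) ∨
    (Ec X x ∧ Ec X y ∧ CLt X x y) ∨ (Er X x ∧ Er X y ∧ RLt X x y)

/-- The conditions on the parameters. -/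
structure Val : Prop where
  i01 : ∀ x, x ∈ X 0 → x ∈ X 1
  i12 : ∀ x, x ∈ X 1 → x ∈ X 2
  i23 : ∀ x, x ∈ X 2 → x ∈ X 3
  i34 : ∀ x, x ∈ X 3 → x ∈ X 4
  i15 : ∀ x, x ∈ X 1 → x ∈ X 5
  i56 : ∀ x, x ∈ X 5 → x ∈ X 6
  i62 : ∀ x, x ∈ X 6 → x ∈ X 2
  lo : ∀ x y, y ∈ X 1 → ¬ x < y
  un : ∀ x y, Un X y → x < y → x ∈ X 1
  up : ∀ x y, y ∉ X 4 → x ∈ X 1 → x < y
  cr : ∀ x, Ce X x → ∃ r, r ∈ X 0 ∧ ¬ r < x ∧ ∀ r', r' ∈ X 0 → ¬ r' < x → r' = r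
  cc : ∀ x, Ce X x → ∃ c, Co X c ∧ ¬ c < x ∧ ∀ c', Co X c' → ¬ c' < x → c' = c
  ex : ∀ r c, r ∈ X 0 → Co X c → ∃ x, Ce X x ∧ ¬ r < x ∧ ¬ c < x
  uq : ∀ x y, Ce X x → Ce X y → SR X x y → SC X x y → x = y
  ecr : ∀ x r, Ec X x → r ∈ X 0 → r < x
  ecc : ∀ x, Ec X x → ∃ c, Co X c ∧ ¬ c < x ∧ ∀ c', Co X c' → ¬ c' < x → c' = c
  ecu : ∀ x y, Ec X x → Ec X y → SC X x y → x = y
  erc : ∀ x c, Er X x → Co X c → c < x
  err : ∀ x, Er X x → ∃ r, r ∈ X 0 ∧ ¬ r < x ∧ ∀ r', r' ∈ X 0 → ¬ r' < x → r' = r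
  eru : ∀ x y, Er X x → Er X y → SR X x y → x = y
  dr : ∀ r, r ∈ X 0 → ∃ x, Dg X x ∧ ¬ r < x ∧ ∀ x', Dg X x' → ¬ r < x' → x' = x
  dc : ∀ c, Co X c → ∃ x, Dg X x ∧ ¬ c < x ∧ ∀ x', Dg X x' → ¬ c < x' → x' = x
  tot : ∀ d d', Dg X d → Dg X d' → DLe X d d' ∨ DLe X d' d
  anti : ∀ d d', Dg X d → Dg X d' → DLe X d d' → DLe X d' d → d = d'
  trn : ∀ d d' d'', Dg X d → Dg X d' → Dg X d'' → DLe X d d' → DLe X d' d'' → DLe X d d''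
  three : ∃ d d' d'', Dg X d ∧ Dg X d' ∧ Dg X d'' ∧ d ≠ d' ∧ d ≠ d'' ∧ d' ≠ d''
  eci : ∀ x d d', Ec X x → SC X x d' → Dg X d → Dg X d' → DLe X d d' →
    ∃ y, Ec X y ∧ SC X y d
  eri : ∀ x d d', Er X x → SR X x d' → Dg X d → Dg X d' → DLe X d d' →
    ∃ y, Er X y ∧ SR X y d
  ecer : ∀ x d, Er X x → Dg X d → ∃ y, Ec X y ∧ SC X y d
  gi : ∀ g x y, g ∉ X 4 → UL X x y → x < g → y < g
  gg : ∀ g g', g ∉ X 4 → g' ∉ X 4 → (g < g' ↔ ∃ x, Un X x ∧ x < g' ∧ ¬ x < g)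
  gu : ∀ g g', g ∉ X 4 → g' ∉ X 4 → (∀ x, Un X x → (x < g ↔ x < g')) → g = g'

/-- The positions of the rows and columns. -/
structure RC (s : ℕ) (rp cp : P → ℕ) : Prop where
  hs : 3 ≤ s
  ro : ∀ r, r ∈ X 0 → rp r < s
  roI : ∀ r r', r ∈ X 0 → r' ∈ X 0 → rp r = rp r' → r = r'
  roS : ∀ a, a < s → ∃ r, r ∈ X 0 ∧ rp r = a
  co : ∀ c, Co X c → cp c < s
  coI : ∀ c c', Co X c → Co X c' → cp c = cp c' → c = c'
  coS : ∀ b, b < s → ∃ c, Co X c ∧ cp c = b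
  ceR : ∀ x r, Ce X x → r ∈ X 0 → (r < x ↔ rp r ≠ rp x)
  ceC : ∀ x c, Ce X x → Co X c → (c < x ↔ cp c ≠ cp x)
  ce : ∀ x, Ce X x → rp x < s ∧ cp x < s
  ceI : ∀ x y, Ce X x → Ce X y → rp x = rp y → cp x = cp y → x = y
  ceS : ∀ a b, a < s → b < s → ∃ x, Ce X x ∧ rp x = a ∧ cp x = b
  dg : ∀ x, Ce X x → (x ∈ X 5 ↔ rp x = cp x)
  le : ∀ x, Ce X x → (x ∈ X 6 ↔ rp x ≤ cp x)
  ec : ∀ x, Ec X x → cp x < s
  ecC : ∀ x c, Ec X x → Co X c → (c < x ↔ cp c ≠ cp x)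
  ecI : ∀ x y, Ec X x → Ec X y → cp x = cp y → x = y
  ecS : ∀ x b, Ec X x → b < cp x → ∃ y, Ec X y ∧ cp y = b
  er : ∀ x, Er X x → rp x < s
  erR : ∀ x r, Er X x → r ∈ X 0 → (r < x ↔ rp r ≠ rp x)
  erI : ∀ x y, Er X x → Er X y → rp x = rp y → x = y
  erS : ∀ x a, Er X x → a < rp x → ∃ y, Er X y ∧ rp y = a
  erE : ∀ x b, Er X x → b < s → ∃ y, Ec X y ∧ cp y = b

/-- The numbers of the lower elements and of the units. -/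
structure CF (s t : ℕ) (f : P → ℕ) : Prop where
  hs : 3 ≤ s
  ht : t ≤ 2 * s
  ro : ∀ x, x ∈ X 1 → (x ∈ X 0 ↔ f x < s)
  lo : ∀ x, x ∈ X 1 → f x < 2 * s
  loI : ∀ x y, x ∈ X 1 → y ∈ X 1 → f x = f y → x = y
  loS : ∀ r, r < 2 * s → ∃ x, x ∈ X 1 ∧ f x = r
  un : ∀ x, Un X x → f x < s * s + t
  unI : ∀ x y, Un X x → Un X y → f x = f y → x = y
  unS : ∀ k, k < s * s + t → ∃ x, Un X x ∧ f x = k
  ce : ∀ x, Un X x → (x ∈ X 2 ↔ f x < s * s)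
  ec : ∀ x, Un X x → (x ∈ X 3 ↔ f x < s * s + s)
  dg : ∀ x, Un X x → (x ∈ X 5 ↔ f x < s * s ∧ f x / s = f x % s)
  le : ∀ x, Un X x → (x ∈ X 6 ↔ f x < s * s ∧ f x / s ≤ f x % s)
  ms : ∀ r x, r ∈ X 1 → Un X x → (r < x ↔ ¬ Miss s (f r) (f x))
  ul : ∀ x y, Un X x → Un X y → (UL X x y ↔ f x < f y)

/-- The partial order with the parameters is `PT ω`. -/
def Pres (ω : Wd) : Prop :=
  ∃ e : P ≃ PT ω, (∀ x y, x ≤ y ↔ e x ≤ e y) ∧ ∀ j, j < 7 → ∀ x, x ∈ X j ↔ e x ∈ par ω j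

end

end Pool.Agent.Lib.MP_586990_lc.R
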