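import Pool.Agent.Lib.MP_586990_lc_R.PDCal
import Pool.Agent.Lib.MP_586990_lc_R.LatRel

set_option autoImplicit false

/-!
# The relations of elements are definable
-/

namespace Pool.Agent.Lib.MP_586990_lc.R

namespace PD

theorem co (x : ℕ) : PD fun _ _ X w => Co X (w x) := (mem x 1).and (mem x 0).not

theorem ce (x : ℕ) : PD fun _ _ X w => Ce X (w x) := (mem x 2).and (mem x 1).not

theorem ec (x : ℕ) : PD fun _ _ X w => Ec X (w x) := (mem x 3).and (mem x 2).not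

theorem er (x : ℕ) : PD fun _ _ X w => Er X (w x) := (mem x 4).and (mem x 3).not

theorem un (x : ℕ) : PD fun _ _ X w => Un X (w x) := (mem x 4).and (mem x 1).not

theorem dg (x : ℕ) : PD fun _ _ X w => Dg X (w x) := (ce x).and (mem x 5)

theorem sr (x y : ℕ) : PD fun _ _ X w => SR X (w x) (w y) :=
  PD.all (S := fun _ _ X w r => r ∈ X 0 → (r < w x ↔ r < w y))
    ((mem 0 0).imp ((lt 0 (x + 1)).iff (lt 0 (y + 1))))

theorem sc (x y : ℕ) : PD fun _ _ X w => SC X (w x) (w y) :=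
  PD.all (S := fun _ _ X w r => Co X r → (r < w x ↔ r < w y))
    ((co 0).imp ((lt 0 (x + 1)).iff (lt 0 (y + 1))))

theorem at_ (z x y : ℕ) : PD fun _ _ X w => At X (w z) (w x) (w y) :=
  (ce z).and ((sr z x).and (sc z y))

theorem dle (x y : ℕ) : PD fun _ _ X w => DLe X (w x) (w y) :=
  PD.ex (S := fun _ _ X w z => At X z (w x) (w y) ∧ z ∈ X 6)
    ((at_ 0 (x + 1) (y + 1)).and (mem 0 6))

theorem rlt (x y : ℕ) : PD fun _ _ X w => RLt X (w x) (w y) :=
  PD.ex (S := fun _ _ X w d => ∃ d', Dg X d ∧ Dg X d' ∧ SR X (w x) d ∧ SR X (w y) d' ∧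
      DLe X d d' ∧ d ≠ d')
    (PD.ex (S := fun _ _ X w d' => Dg X (w 0) ∧ Dg X d' ∧ SR X (w (x + 1)) (w 0) ∧
      SR X (w (y + 1)) d' ∧ DLe X (w 0) d' ∧ w 0 ≠ d')
      ((dg 1).and ((dg 0).and ((sr (x + 2) 1).and ((sr (y + 2) 0).and
        ((dle 1 0).and (eq 1 0).not))))))

theorem clt (x y : ℕ) : PD fun _ _ X w => CLt X (w x) (w y) :=
  PD.ex (S := fun _ _ X w d => ∃ d', Dg X d ∧ Dg X d' ∧ SC X (w x) d ∧ SC X (w y) d' ∧
      DLe X d d' ∧ d ≠ d')
    (PD.ex (S := fun _ _ X w d' => Dg X (w 0) ∧ Dg X d' ∧ SC X (w (x + 1)) (w 0) ∧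
      SC X (w (y + 1)) d' ∧ DLe X (w 0) d' ∧ w 0 ≠ d')
      ((dg 1).and ((dg 0).and ((sc (x + 2) 1).and ((sc (y + 2) 0).and
        ((dle 1 0).and (eq 1 0).not))))))

theorem ul (x y : ℕ) : PD fun _ _ X w => UL X (w x) (w y) :=
  ((ce x).and ((ce y).and ((rlt x y).or ((sr x y).and (clt x y))))).or
    (((ce x).and ((ec y).or (er y))).or (((ec x).and (er y)).or
      (((ec x).and ((ec y).and (clt x y))).or ((er x).and ((er y).and (rlt x y))))))

end PD

end Pool.Agent.Lib.MP_586990_lc.R
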