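import Pool.Agent.Lib.MP_586990_lc_R.LatD

set_option autoImplicit false

/-!
# The set calculus for the lattices of lower sets
-/

namespace Pool.Agent.Lib.MP_586990_lc.R

/-- A sequence with a new first term. -/
private def LatSet_cons {α : Type} (y : α) (w : ℕ → α) : ℕ → α
  | 0 => y
  | j + 1 => w j

private theorem LatSet_cons_eta {α : Type} (w : ℕ → α) :
    LatSet_cons (w 0) (fun j => w (j + 1)) = w := by
  funext j
  cases j <;> rfl

/-- A new lower set after the parameters. -/
private def LatSet_ins {α : Type} (Y : α) (X : ℕ → α) (j : ℕ) : α :=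
  if j < 7 then X j else if j = 7 then Y else X (j - 1)

private theorem LatSet_ins_lt {α : Type} (Y : α) (X : ℕ → α) {j : ℕ} (hj : j < 7) :
    LatSet_ins Y X j = X j := if_pos hj

private theorem LatSet_ins_seven {α : Type} (Y : α) (X : ℕ → α) : LatSet_ins Y X (0 + 7) = Y := rfl

private theorem LatSet_ins_succ {α : Type} (Y : α) (X : ℕ → α) (i : ℕ) :
    LatSet_ins Y X (i + 1 + 7) = X (i + 7) := by
  unfold LatSet_ins
  rw [if_neg (by omega), if_neg (by omega)]
  congr 1

private theorem LatSet_cells_sub (ω : Wd) (Y : LowerSet (PT ω)) : cells ω Y ⊆ sq ω.s :=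
  fun _ hp => hp.1

/-- The lower set of a set of pairs. -/
private def LatSet_low (ω : Wd) (U : Set (ℕ × ℕ)) : LowerSet (PT ω) where
  carrier := {x | x ∈ par ω 1 ∨ ∃ p ∈ U, ∃ h : p.1 * ω.s + p.2 < ω.s * ω.s + ω.t,
    x = PT.un ⟨p.1 * ω.s + p.2, h⟩}
  lower' := by
    rintro x y hyx (hx | ⟨p, hp, h, rfl⟩)
    · exact Or.inl ((par ω 1).lower hyx hx)
    · rcases hyx with rfl | hyx
      · exact Or.inr ⟨p, hp, h, rfl⟩
      · left
        rcases y with r | k | j
        · change parMem ω 1 (Sum.inl r)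
          simp [parMem]
        · exact hyx.elim
        · exact hyx.elim

private theorem LatSet_cells_low (ω : Wd) (U : Set (ℕ × ℕ)) (hU : U ⊆ sq ω.s) :
    cells ω (LatSet_low ω U) = U := by
  ext p
  constructor
  · rintro ⟨hp, h, h1 | ⟨q, hq, h', h2⟩⟩
    · exfalso
      have h3 : parMem ω 1 (Sum.inr (Sum.inl ⟨p.1 * ω.s + p.2, h⟩)) := h1
      simp [parMem] at h3
    · have h3 := hU hq
      have h4 : p.1 * ω.s + p.2 = q.1 * ω.s + q.2 := by
        have h5 : (Sum.inr (Sum.inl ⟨p.1 * ω.s + p.2, h⟩) : PT ω) =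
          Sum.inr (Sum.inl ⟨q.1 * ω.s + q.2, h'⟩) := h2
        have h6 := Sum.inl.inj (Sum.inr.inj h5)
        exact Fin.mk.inj_iff.1 h6
      have h5 : p.1 = q.1 := by
        have e1 : (p.1 * ω.s + p.2) / ω.s = p.1 := by
          rw [Nat.mul_comm, Nat.mul_add_div (by have := ω.hs; omega), Nat.div_eq_of_lt hp.2,
            Nat.add_zero]
        have e2 : (q.1 * ω.s + q.2) / ω.s = q.1 := by
          rw [Nat.mul_comm, Nat.mul_add_div (by have := ω.hs; omega), Nat.div_eq_of_lt h3.2,
            Nat.add_zero]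
        rw [← e1, ← e2, h4]
      have h6 : p.2 = q.2 := by
        rw [h5] at h4
        omega
      have h7 : p = q := Prod.ext h5 h6
      rw [h7]
      exact hq
  · intro hp
    have h1 := hU hp
    have h2 : p.1 * ω.s + p.2 < ω.s * ω.s := by
      have h3 : (p.1 + 1) * ω.s ≤ ω.s * ω.s := Nat.mul_le_mul_right _ h1.1
      have h4 := h1.2
      rw [Nat.add_mul] at h3
      omega
    exact ⟨h1, by omega, Or.inr ⟨p, hp, by omega, rfl⟩⟩

theorem latCal : SetCal Wd.s LatD where
  three := fun ω => ω.hs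
  congr := by
    rintro R R' e ⟨Q, hQ, h⟩
    refine ⟨Q, hQ, fun ω v V X w c => (h ω v V X w c).trans
      (e ω v V (fun i => (c.idx i).1) (fun i => ?_))⟩
    rw [← c.set i]
    exact LatSet_cells_sub ω _
  not := by
    rintro R ⟨Q, hQ, h⟩
    exact ⟨fun P i X w => ¬ Q P i X w, hQ.not, fun ω v V X w c => not_congr (h ω v V X w c)⟩
  and := by
    rintro R R' ⟨Q, hQ, h⟩ ⟨Q', hQ', h'⟩
    exact ⟨fun P i X w => Q P i X w ∧ Q' P i X w, hQ.and hQ',
      fun ω v V X w c => and_congr (h ω v V X w c) (h' ω v V X w c)⟩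
  sub := by
    rintro R f g ⟨Q, hQ, h⟩
    refine ⟨fun P i X w => Q P i (fun j => X (if j < 7 then j else g (j - 7) + 7))
      (fun j => w (f j)), PD.sub (fun j => if j < 7 then j else g (j - 7) + 7) f hQ,
      fun ω v V X w c => h ω _ _ _ _ ⟨?_, ?_, ?_⟩⟩
    · intro j hj
      simp only [hj, if_true]
      exact c.par j hj
    · intro i
      have e : (if i + 7 < 7 then i + 7 else g (i + 7 - 7) + 7) = g i + 7 := by
        rw [if_neg (by omega), Nat.add_sub_cancel]
      rw [e]
      exact c.set (g i)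
    · intro i
      exact c.idx (f i)
  ex := by
    rintro S ⟨Q, hQ, h⟩
    refine ⟨fun P i X w => ∃ y, Dg X y ∧ Q P i X (LatSet_cons y w), ?_, ?_⟩
    · refine PD.ex (S := fun P i X w y => Dg X y ∧ Q P i X (LatSet_cons y w)) ?_
      refine PD.congr (fun P i _ X w => ?_) ((PD.dg 0).and hQ)
      rw [LatSet_cons_eta]
    · intro ω v V X w c
      constructor
      · rintro ⟨y, hy, hq⟩
        obtain ⟨a, ha, hh, rfl⟩ := (dg_iff c.par).1 hy
        refine ⟨a, ha, ?_⟩
        refine (h ω (LatSet_cons a v) V X (LatSet_cons (PT.un ⟨a * ω.s + a, hh⟩) w)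
          ⟨c.par, c.set, ?_⟩).1 hq
        intro i
        cases i with
        | zero => exact ⟨ha, hh, rfl⟩
        | succ i => exact c.idx i
      · rintro ⟨a, ha, hs⟩
        have hh : a * ω.s + a < ω.s * ω.s + ω.t := by
          have h3 : (a + 1) * ω.s ≤ ω.s * ω.s := Nat.mul_le_mul_right _ ha
          rw [Nat.add_mul] at h3
          omega
        refine ⟨PT.un ⟨a * ω.s + a, hh⟩, (dg_iff c.par).2 ⟨a, ha, hh, rfl⟩, ?_⟩
        refine (h ω (LatSet_cons a v) V X (LatSet_cons (PT.un ⟨a * ω.s + a, hh⟩) w)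
          ⟨c.par, c.set, ?_⟩).2 hs
        intro i
        cases i with
        | zero => exact ⟨ha, hh, rfl⟩
        | succ i => exact c.idx i
  exS := by
    rintro S ⟨Q, hQ, h⟩
    have key : ∀ (ω : Wd) (v : ℕ → ℕ) (V : ℕ → Set (ℕ × ℕ)) (X : ℕ → LowerSet (PT ω))
        (w : ℕ → PT ω) (Y : LowerSet (PT ω)), Cod ω v V X w →
        (Q (PT ω) inferInstance (LatSet_ins Y X) w ↔ S ω v V (cells ω Y)) := by
      intro ω v V X w Y c
      refine h ω v (LatSet_cons (cells ω Y) V) (LatSet_ins Y X) w ⟨?_, ?_, c.idx⟩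
      · intro j hj
        rw [LatSet_ins_lt Y X hj]
        exact c.par j hj
      · intro i
        cases i with
        | zero => rw [LatSet_ins_seven]; rfl
        | succ i => rw [LatSet_ins_succ]; exact c.set i
    refine ⟨fun P i X w => ∃ Y, Q P i (LatSet_ins Y X) w, ?_, ?_⟩
    · refine PD.exS (S := fun P i X w Y => Q P i (LatSet_ins Y X) w) ?_
      refine PD.congr (fun P i _ X w => ?_)
        (PD.sub (fun j => if j < 7 then j + 1 else if j = 7 then 0 else j) id hQ)
      have e : (LatSet_ins (X 0) fun j => X (j + 1)) =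
          fun j => X (if j < 7 then j + 1 else if j = 7 then 0 else j) := by
        funext j
        unfold LatSet_ins
        split_ifs with h1 h2
        · rfl
        · rfl
        · exact congrArg X (by omega : j - 1 + 1 = j)
      rw [e]
      rfl
    · intro ω v V X w c
      constructor
      · rintro ⟨Y, hY⟩
        exact ⟨cells ω Y, LatSet_cells_sub ω Y, (key ω v V X w Y c).1 hY⟩
      · rintro ⟨U, hU, hS⟩
        refine ⟨LatSet_low ω U, (key ω v V X w _ c).2 ?_⟩
        rw [LatSet_cells_low ω U hU]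
        exact hS
  le := by
    intro x y
    refine ⟨fun P i X w => DLe X (w x) (w y), PD.dle x y, fun ω v V X w c => ?_⟩
    have h1 := (rcPar c.par).dle (c.dg x) (c.dg y)
    rw [c.rp x, c.rp y] at h1
    exact h1
  mem := by
    intro x y i
    refine ⟨fun P _ X w => ∃ z, At X z (w x) (w y) ∧ z ∈ X (i + 7), ?_, ?_⟩
    · refine PD.ex (S := fun P _ X w z => At X z (w x) (w y) ∧ z ∈ X (i + 7)) ?_
      exact (PD.at_ 0 (x + 1) (y + 1)).and (PD.mem 0 (i + 7))
    · intro ω v V X w c
      change (∃ z, At X z (w x) (w y) ∧ z ∈ X (i + 7)) ↔ (v x, v y) ∈ V i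
      rw [← c.set i]
      constructor
      · rintro ⟨z, hz, hzi⟩
        obtain ⟨hh, rfl⟩ := (c.at_iff x y z).1 hz
        exact ⟨⟨(c.idx x).1, (c.idx y).1⟩, hh, hzi⟩
      · rintro ⟨-, hh, hzi⟩
        exact ⟨_, (c.at_iff x y _).2 ⟨hh, rfl⟩, hzi⟩

end Pool.Agent.Lib.MP_586990_lc.R
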