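import Pool.Agent.Lib.MP_586990_lc_R.SeqBase
import Pool.Agent.Lib.MP_586990_lc_R.ValLem

set_option autoImplicit false

/-!
# Sequences as digits
-/

namespace Pool.Agent.Lib.MP_586990_lc.R

namespace SFr

variable {Ω : Type} {s B : Ω → ℕ} {D : (Par s B → (ℕ → ℕ) → Prop) → Prop}

theorem lift_congr (F : SFr s B D) {R R' : Ω → (ℕ → ℕ) → Prop}
    (h : ∀ ω v, (∀ i, v i < B ω ^ s ω) → (R ω v ↔ R' ω v)) (hR : LiftD D R) :
    LiftD D R' := by
  refine F.congr (fun p w _ => h p.ω _ fun i => ?_) hR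
  exact val_lt (p.hq i).1

theorem lift_ex (F : SFr s B D) {S : Ω → (ℕ → ℕ) → ℕ → Prop}
    (h : LiftD D fun ω v => S ω (fun i => v (i + 1)) (v 0)) :
    LiftD D fun ω v => ∃ y, y < B ω ^ s ω ∧ S ω v y := by
  refine F.congr (R := fun p _ => ∃ z, IsSeq (s p.ω) (B p.ω) z ∧
    S p.ω (fun i => val (B p.ω) (s p.ω) (p.q i)) (val (B p.ω) (s p.ω) z)) (fun p w _ => ?_)
    (F.exQ (S := fun p _ z =>
      S p.ω (fun i => val (B p.ω) (s p.ω) (p.q i)) (val (B p.ω) (s p.ω) z)) h)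
  have h2 := F.two p
  constructor
  · rintro ⟨z, hz, h1⟩
    exact ⟨_, val_lt hz.1, h1⟩
  · rintro ⟨y, hy, h1⟩
    obtain ⟨z, hz, rfl⟩ := exists_val (by omega) hy
    exact ⟨z, hz, h1⟩

theorem lift_eq (F : SFr s B D) (x y : ℕ) : LiftD D fun _ v => v x = v y := by
  refine F.congr (R := fun p _ => ∀ a, a < s p.ω → p.q x a = p.q y a) (fun p w _ => ?_)
    (F.allI (S := fun p _ a => p.q x a = p.q y a) (F.seqEq x y 0 0))
  constructor
  · intro h
    have h1 : p.q x = p.q y := by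
      funext a
      by_cases ha : a < s p.ω
      · exact h a ha
      · rw [(p.hq x).2 a (by omega), (p.hq y).2 a (by omega)]
    show val (B p.ω) (s p.ω) (p.q x) = val (B p.ω) (s p.ω) (p.q y)
    rw [h1]
  · intro h a ha
    exact congrFun (val_inj (p.hq x) (p.hq y) h) a

end SFr

end Pool.Agent.Lib.MP_586990_lc.R
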