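import Pool.Agent.Lib.MP_586990_lc_R.PDDef

set_option autoImplicit false

/-!
# First-order formulas about the lattice of lower sets: the calculus
-/

namespace Pool.Agent.Lib.MP_586990_lc.R

open FirstOrder FirstOrder.Language

/-! ### Relations with variables numbered by `ℕ` -/

/-- put `b` in front of `u` -/
private def PDCal_cons {M : Type} (b : M) (u : ℕ → M) : ℕ → M
  | 0 => b
  | j + 1 => u j

private theorem PDCal_eta {M : Type} (v : ℕ → M) :
    PDCal_cons (v 0) (fun j => v (j + 1)) = v := by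
  funext j
  cases j <;> rfl

private def PDCal_UN (Q : ∀ (M : Type), PartialOrder M → (ℕ → M) → Prop) : Prop :=
  ∃ k0 : ℕ, ∀ k, k0 ≤ k → ∃ Q0 : ∀ (M : Type), PartialOrder M → (Fin k → M) → Prop, UD k Q0 ∧
    ∀ (M : Type) (i : PartialOrder M) (v : ℕ → M), Q M i v ↔ Q0 M i fun j => v j

private theorem PDCal_of {k : ℕ} {Q : ∀ (M : Type), PartialOrder M → (Fin k → M) → Prop}
    (h : UD k Q) : PDCal_UN fun M i v => Q M i fun j => v j :=
  ⟨k, fun _ hl => ⟨fun M i v => Q M i fun j => v (Fin.castLE hl j), h.sub (Fin.castLE hl),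
    fun _ _ _ => Iff.rfl⟩⟩

private theorem PDCal_not {Q : ∀ (M : Type), PartialOrder M → (ℕ → M) → Prop}
    (h : PDCal_UN Q) : PDCal_UN fun M i v => ¬ Q M i v := by
  obtain ⟨k0, h⟩ := h
  refine ⟨k0, fun k hk => ?_⟩
  obtain ⟨Q0, h1, h2⟩ := h k hk
  exact ⟨_, h1.not, fun M i v => not_congr (h2 M i v)⟩

private theorem PDCal_and {Q Q' : ∀ (M : Type), PartialOrder M → (ℕ → M) → Prop}
    (h : PDCal_UN Q) (h' : PDCal_UN Q') : PDCal_UN fun M i v => Q M i v ∧ Q' M i v := by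
  obtain ⟨k0, h⟩ := h
  obtain ⟨k1, h'⟩ := h'
  refine ⟨max k0 k1, fun k hk => ?_⟩
  obtain ⟨Q0, h1, h2⟩ := h k ((le_max_left _ _).trans hk)
  obtain ⟨Q1, h3, h4⟩ := h' k ((le_max_right _ _).trans hk)
  exact ⟨_, h1.and h3, fun M i v => and_congr (h2 M i v) (h4 M i v)⟩

private theorem PDCal_sub {Q : ∀ (M : Type), PartialOrder M → (ℕ → M) → Prop} (f : ℕ → ℕ)
    (h : PDCal_UN Q) : PDCal_UN fun M i v => Q M i fun j => v (f j) := by
  obtain ⟨k0, h⟩ := h
  obtain ⟨Q0, h1, h2⟩ := h k0 le_rfl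
  have hb : ∀ j : Fin k0, f j < (Finset.range k0).sup f + 1 := fun j =>
    Nat.lt_succ_of_le (Finset.le_sup (f := f) (Finset.mem_range.2 j.2))
  refine ⟨(Finset.range k0).sup f + 1, fun k hk => ?_⟩
  refine ⟨fun M i v => Q0 M i fun j => v ⟨f j, (hb j).trans_le hk⟩,
    h1.sub fun j => ⟨f j, (hb j).trans_le hk⟩, fun M i v => h2 M i _⟩

private theorem PDCal_ex {S : ∀ (M : Type), PartialOrder M → (ℕ → M) → M → Prop}
    (h : PDCal_UN fun M i v => S M i (fun j => v (j + 1)) (v 0)) :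
    PDCal_UN fun M i v => ∃ y, S M i v y := by
  obtain ⟨k0, h⟩ := h
  refine ⟨k0, fun k hk => ?_⟩
  obtain ⟨Q0, h1, h2⟩ := h (k + 1) (hk.trans (Nat.le_succ k))
  refine ⟨fun M i v => ∃ a, Q0 M i (Fin.cons a v : Fin (k + 1) → M), ?_, fun M i v => ?_⟩
  · refine UD.ex (R := fun M i v a => Q0 M i (Fin.cons a v : Fin (k + 1) → M)) ?_
    obtain ⟨φ, hφ⟩ := h1
    refine ⟨φ, fun M i v => (hφ M i v).trans ?_⟩
    have e : (Fin.cons (v 0) (fun j => v j.succ) : Fin (k + 1) → M) = v := Fin.cons_self_tail v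
    change Q0 M i v ↔ Q0 M i (Fin.cons (v 0) fun j => v j.succ)
    rw [e]
  · refine exists_congr fun a => ?_
    have h3 := h2 M i (PDCal_cons a v)
    have e1 : (fun j => PDCal_cons a v (j + 1)) = v := rfl
    have e2 : (fun j : Fin (k + 1) => PDCal_cons a v j) =
        (Fin.cons a (fun j : Fin k => v j) : Fin (k + 1) → M) := by
      funext j
      refine Fin.cases ?_ (fun j => ?_) j
      · rfl
      · rfl
    rw [e2] at h3
    exact h3

private theorem PDCal_var {P : ∀ (M : Type), PartialOrder M → M → Prop}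
    (h : UD 1 fun M i v => P M i (v 0)) (x : ℕ) : PDCal_UN fun M i v => P M i (v x) :=
  PDCal_sub (fun _ => x) (PDCal_of h)

private theorem PDCal_var2 {P : ∀ (M : Type), PartialOrder M → M → M → Prop}
    (h : UD 2 fun M i v => P M i (v 0) (v 1)) (x y : ℕ) :
    PDCal_UN fun M i v => P M i (v x) (v y) :=
  PDCal_sub (fun j => if j = 0 then x else y) (PDCal_of h)

/-- the same notion with variables numbered by `ℕ` -/
private theorem PDCal_iff {R : ∀ (P : Type) (i : PartialOrder P), (ℕ → LS P i) → (ℕ → P) → Prop} :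
    PD R ↔ ∃ Q : ∀ (M : Type), PartialOrder M → (ℕ → M) → Prop, PDCal_UN Q ∧
      ∀ (P : Type) (i : PartialOrder P), Finite P → ∀ (X : ℕ → LS P i) (w : ℕ → P),
        (R P i X w ↔ Q (LS P i) inferInstance (mixV i X w)) := by
  constructor
  · rintro ⟨k, Q, h1, h2⟩
    exact ⟨fun M i v => Q M i fun j => v j, PDCal_of h1, h2⟩
  · rintro ⟨Q, ⟨k, h1⟩, h2⟩
    obtain ⟨Q0, h3, h4⟩ := h1 k le_rfl
    exact ⟨k, Q0, h3, fun P i hP X w => (h2 P i hP X w).trans (h4 _ _ _)⟩

private theorem PDCal_even {P : Type} (i : PartialOrder P) (X : ℕ → LS P i) (w : ℕ → P) (j : ℕ) :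
    mixV i X w (2 * j) = X j := by
  unfold mixV
  rw [if_pos (by omega)]
  congr 1
  omega

private theorem PDCal_odd {P : Type} (i : PartialOrder P) (X : ℕ → LS P i) (w : ℕ → P) (j : ℕ) :
    mixV i X w (2 * j + 1) = LowerSet.Iic (w j) := by
  unfold mixV
  rw [if_neg (by omega)]
  congr 2
  omega

/-- the join-irreducible lower sets -/
private theorem PDCal_JI {P : Type} [PartialOrder P] [Finite P] (I : LowerSet P) :
    W.JI I ↔ ∃ p, I = LowerSet.Iic p := by
  constructor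
  · rintro ⟨⟨y, hy⟩, h⟩
    have hne : (I : Set P).Nonempty := by
      by_contra hcon
      rw [Set.not_nonempty_iff_eq_empty] at hcon
      have h1 : I ≤ y := fun x hx => by
        have h2 : x ∈ (I : Set P) := hx
        rw [hcon] at h2
        exact h2.elim
      exact (hy.trans_le h1).false
    obtain ⟨p, hp⟩ := (Set.toFinite (I : Set P)).exists_maximal hne
    have hpI : p ∈ I := hp.1
    let I' : LowerSet P := ⟨{x | x ∈ I ∧ x ≠ p}, by
      rintro x z hzx ⟨hx, hxp⟩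
      refine ⟨I.lower hzx hx, ?_⟩
      rintro rfl
      exact hxp (le_antisymm (hp.2 hx hzx) hzx)⟩
    have hlub : W.Lub (LowerSet.Iic p) I' I := by
      refine ⟨LowerSet.Iic_le.2 hpI, fun x hx => hx.1, fun w h1 h2 x hx => ?_⟩
      by_cases hxp : x = p
      · rw [hxp]
        exact LowerSet.Iic_le.1 h1
      · exact h2 ⟨hx, hxp⟩
    rcases h _ _ hlub with h1 | h1
    · exact ⟨p, h1⟩
    · have h2 : p ∈ I' := h1 ▸ hpI
      exact absurd rfl h2.2
  · rintro ⟨p, rfl⟩
    refine ⟨⟨⊥, bot_lt_iff_ne_bot.2 fun h => ?_⟩, fun y z h => ?_⟩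
    · have h1 : p ∈ LowerSet.Iic p := LowerSet.mem_Iic_iff.2 le_rfl
      rw [h] at h1
      exact h1
    · have h1 : LowerSet.Iic p ≤ y ⊔ z := h.2.2 _ le_sup_left le_sup_right
      rcases LowerSet.mem_sup_iff.1 (LowerSet.Iic_le.1 h1) with h2 | h2
      · exact Or.inl (le_antisymm (LowerSet.Iic_le.2 h2) h.1)
      · exact Or.inr (le_antisymm (LowerSet.Iic_le.2 h2) h.2.1)

private theorem PDCal_Iic_le {P : Type} [PartialOrder P] (x y : P) :
    LowerSet.Iic x ≤ LowerSet.Iic y ↔ x ≤ y :=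
  LowerSet.Iic_le.trans LowerSet.mem_Iic_iff

namespace PD

variable {R R' : ∀ (P : Type) (i : PartialOrder P), (ℕ → LS P i) → (ℕ → P) → Prop}

theorem congr (e : ∀ (P : Type) (i : PartialOrder P), Finite P → ∀ X w,
    (R P i X w ↔ R' P i X w)) (h : PD R) : PD R' := by
  obtain ⟨k, Q, h1, h2⟩ := h
  exact ⟨k, Q, h1, fun P i hP X w => (e P i hP X w).symm.trans (h2 P i hP X w)⟩

theorem not (h : PD R) : PD fun P i X w => ¬ R P i X w := by
  obtain ⟨k, Q, h1, h2⟩ := h
  exact ⟨k, _, h1.not, fun P i hP X w => not_congr (h2 P i hP X w)⟩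

theorem and (h : PD R) (h' : PD R') : PD fun P i X w => R P i X w ∧ R' P i X w := by
  rw [PDCal_iff] at h h' ⊢
  obtain ⟨Q, h1, h2⟩ := h
  obtain ⟨Q', h3, h4⟩ := h'
  exact ⟨_, PDCal_and h1 h3, fun P i hP X w => and_congr (h2 P i hP X w) (h4 P i hP X w)⟩

theorem or (h : PD R) (h' : PD R') : PD fun P i X w => R P i X w ∨ R' P i X w :=
  congr (fun _ _ _ _ _ => by tauto) (not (and (not h) (not h')))

theorem imp (h : PD R) (h' : PD R') : PD fun P i X w => R P i X w → R' P i X w :=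
  congr (fun _ _ _ _ _ => by tauto) (or (not h) h')

theorem iff (h : PD R) (h' : PD R') : PD fun P i X w => (R P i X w ↔ R' P i X w) :=
  congr (fun _ _ _ _ _ => by tauto) (and (imp h h') (imp h' h))

theorem const (p : Prop) : PD fun _ _ _ _ => p :=
  ⟨0, _, UD.const p, fun _ _ _ _ _ => Iff.rfl⟩

theorem sub (f g : ℕ → ℕ) (h : PD R) :
    PD fun P i X w => R P i (fun j => X (f j)) fun j => w (g j) := by
  rw [PDCal_iff] at h ⊢
  obtain ⟨Q, h1, h2⟩ := h
  refine ⟨_, PDCal_sub (fun j => if j % 2 = 0 then 2 * f (j / 2) else 2 * g (j / 2) + 1) h1,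
    fun P i hP X w => (h2 P i hP _ _).trans ?_⟩
  have e : mixV i (fun j => X (f j)) (fun j => w (g j)) =
      fun j => mixV i X w (if j % 2 = 0 then 2 * f (j / 2) else 2 * g (j / 2) + 1) := by
    funext j
    by_cases h : j % 2 = 0
    · rw [if_pos h, PDCal_even]
      unfold mixV
      rw [if_pos h]
    · rw [if_neg h, PDCal_odd]
      unfold mixV
      rw [if_neg h]
  rw [e]

/-- Quantification over elements. -/
theorem ex {S : ∀ (P : Type) (i : PartialOrder P), (ℕ → LS P i) → (ℕ → P) → P → Prop}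
    (h : PD fun P i X w => S P i X (fun j => w (j + 1)) (w 0)) :
    PD fun P i X w => ∃ y, S P i X w y := by
  rw [PDCal_iff] at h ⊢
  obtain ⟨Q, h1, h2⟩ := h
  have h3 := PDCal_sub (fun n => if n % 2 = 0 then n + 1 else n - 1) h1
  have h4 : PDCal_UN fun M i v => W.JI (v 0) :=
    PDCal_var (P := fun M i x => W.JI x) (W.UD_JI 0) 0
  refine ⟨fun M i v => ∃ b, W.JI b ∧
    Q M i (fun n => PDCal_cons b v (if n % 2 = 0 then n + 1 else n - 1)), ?_, ?_⟩
  · refine PDCal_ex (S := fun M i v b => W.JI b ∧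
      Q M i (fun n => PDCal_cons b v (if n % 2 = 0 then n + 1 else n - 1))) ?_
    simp only [PDCal_eta]
    exact PDCal_and h4 h3
  · intro P i hP X w
    have key : ∀ y : P, (fun n => PDCal_cons (LowerSet.Iic y : LS P i) (mixV i X w)
        (if n % 2 = 0 then n + 1 else n - 1)) = mixV i X (PDCal_cons y w) := by
      intro y
      funext n
      by_cases hn : n % 2 = 0
      · rw [if_pos hn]
        obtain ⟨m, rfl⟩ : ∃ m, n = 2 * m := ⟨n / 2, by omega⟩
        rw [PDCal_even]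
        change mixV i X w (2 * m) = X m
        rw [PDCal_even]
      · rw [if_neg hn]
        obtain ⟨m, rfl⟩ : ∃ m, n = 2 * m + 1 := ⟨n / 2, by omega⟩
        rw [PDCal_odd]
        cases m with
        | zero => rfl
        | succ m =>
          change mixV i X w (2 * m + 1) = LowerSet.Iic (w m)
          rw [PDCal_odd]
    constructor
    · rintro ⟨y, hy⟩
      refine ⟨LowerSet.Iic y, (PDCal_JI _).2 ⟨y, rfl⟩, ?_⟩
      rw [key]
      exact (h2 P i hP X (PDCal_cons y w)).1 hy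
    · rintro ⟨b, hb, hQ⟩
      obtain ⟨y, rfl⟩ := (PDCal_JI b).1 hb
      rw [key] at hQ
      exact ⟨y, (h2 P i hP X (PDCal_cons y w)).2 hQ⟩

theorem all {S : ∀ (P : Type) (i : PartialOrder P), (ℕ → LS P i) → (ℕ → P) → P → Prop}
    (h : PD fun P i X w => S P i X (fun j => w (j + 1)) (w 0)) :
    PD fun P i X w => ∀ y, S P i X w y :=
  congr (fun P i _ X w => by simp only [not_exists, not_not])
    (not (ex (S := fun P i X w y => ¬ S P i X w y) (not h)))

/-- Quantification over lower sets. -/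
theorem exS {S : ∀ (P : Type) (i : PartialOrder P), (ℕ → LS P i) → (ℕ → P) → LS P i → Prop}
    (h : PD fun P i X w => S P i (fun j => X (j + 1)) w (X 0)) :
    PD fun P i X w => ∃ Y, S P i X w Y := by
  rw [PDCal_iff] at h ⊢
  obtain ⟨Q, h1, h2⟩ := h
  have h3 := PDCal_sub (fun n => if n = 0 then 0 else if n % 2 = 0 then n - 1 else n + 1) h1
  refine ⟨fun M i v => ∃ b,
    Q M i (fun n => PDCal_cons b v (if n = 0 then 0 else if n % 2 = 0 then n - 1 else n + 1)),
    ?_, ?_⟩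
  · refine PDCal_ex (S := fun M i v b =>
      Q M i (fun n => PDCal_cons b v
        (if n = 0 then 0 else if n % 2 = 0 then n - 1 else n + 1))) ?_
    simp only [PDCal_eta]
    exact h3
  · intro P i hP X w
    have key : ∀ Y : LS P i, (fun n => PDCal_cons Y (mixV i X w)
        (if n = 0 then 0 else if n % 2 = 0 then n - 1 else n + 1)) =
          mixV i (PDCal_cons Y X) w := by
      intro Y
      funext n
      by_cases h0 : n = 0
      · subst h0
        rfl
      rw [if_neg h0]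
      by_cases hn : n % 2 = 0
      · rw [if_pos hn]
        obtain ⟨m, rfl⟩ : ∃ m, n = 2 * (m + 1) := ⟨n / 2 - 1, by omega⟩
        rw [PDCal_even]
        have e : 2 * (m + 1) - 1 = 2 * m + 1 := by omega
        rw [e]
        change mixV i X w (2 * m) = X m
        rw [PDCal_even]
      · rw [if_neg hn]
        obtain ⟨m, rfl⟩ : ∃ m, n = 2 * m + 1 := ⟨n / 2, by omega⟩
        rw [PDCal_odd]
        change mixV i X w (2 * m + 1) = LowerSet.Iic (w m)
        rw [PDCal_odd]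
    refine exists_congr fun Y => ?_
    rw [key]
    exact h2 P i hP (PDCal_cons Y X) w

theorem allS {S : ∀ (P : Type) (i : PartialOrder P), (ℕ → LS P i) → (ℕ → P) → LS P i → Prop}
    (h : PD fun P i X w => S P i (fun j => X (j + 1)) w (X 0)) :
    PD fun P i X w => ∀ Y, S P i X w Y :=
  congr (fun P i _ X w => by simp only [not_exists, not_not])
    (not (exS (S := fun P i X w Y => ¬ S P i X w Y) (not h)))

theorem lt (x y : ℕ) : PD fun _ _ _ w => w x < w y := by
  rw [PDCal_iff]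
  refine ⟨fun M i v => v (2 * x + 1) < v (2 * y + 1),
    PDCal_var2 (P := fun M i a b => a < b) (UD.lt 0 1) _ _, fun P i hP X w => ?_⟩
  change w x < w y ↔ mixV i X w (2 * x + 1) < mixV i X w (2 * y + 1)
  rw [PDCal_odd, PDCal_odd, lt_iff_le_not_ge, lt_iff_le_not_ge, PDCal_Iic_le, PDCal_Iic_le]

theorem eq (x y : ℕ) : PD fun _ _ _ w => w x = w y := by
  rw [PDCal_iff]
  refine ⟨fun M i v => v (2 * x + 1) = v (2 * y + 1),
    PDCal_var2 (P := fun M i a b => a = b) (UD.eq 0 1) _ _, fun P i hP X w => ?_⟩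
  change w x = w y ↔ mixV i X w (2 * x + 1) = mixV i X w (2 * y + 1)
  rw [PDCal_odd, PDCal_odd, le_antisymm_iff, le_antisymm_iff, PDCal_Iic_le, PDCal_Iic_le]

theorem mem (x j : ℕ) : PD fun _ _ X w => w x ∈ X j := by
  rw [PDCal_iff]
  refine ⟨fun M i v => v (2 * x + 1) ≤ v (2 * j),
    PDCal_var2 (P := fun M i a b => a ≤ b) (W.UD_le 0 1) _ _, fun P i hP X w => ?_⟩
  change w x ∈ X j ↔ mixV i X w (2 * x + 1) ≤ mixV i X w (2 * j)
  rw [PDCal_odd, PDCal_even]
  exact LowerSet.Iic_le.symm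

/-- Isomorphic partial orders. -/
theorem iso (h : PD R) {P P' : Type} {i : PartialOrder P} {i' : PartialOrder P'} (hP : Finite P)
    (e : P ≃ P') (he : ∀ x y : P, x ≤ y ↔ e x ≤ e y) {X : ℕ → LS P i} {X' : ℕ → LS P' i'}
    {w : ℕ → P} {w' : ℕ → P'} (hX : ∀ j x, x ∈ X j ↔ e x ∈ X' j) (hw : ∀ j, e (w j) = w' j) :
    R P i X w ↔ R P' i' X' w' := by
  obtain ⟨k, Q, ⟨φ, hφ⟩, h2⟩ := h
  have hP' : Finite P' := Finite.of_equiv P e
  rw [h2 P i hP X w, h2 P' i' hP' X' w']
  let e' : P ≃o P' := ⟨e, fun {a b} => (he a b).symm⟩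
  let E : LS P i ≃o LS P' i' := LowerSet.map e'
  have hE1 : ∀ j, E (X j) = X' j := by
    intro j
    refine LowerSet.ext (Set.ext fun y => ?_)
    have h3 : y ∈ E (X j) ↔ e'.symm y ∈ X j := LowerSet.mem_map
    have h4 : e (e'.symm y) = y := e'.apply_symm_apply y
    refine h3.trans ((hX j _).trans ?_)
    rw [h4]
    rfl
  have hE2 : ∀ x, E (LowerSet.Iic x) = LowerSet.Iic (e x) := by
    intro x
    refine LowerSet.ext (Set.ext fun y => ?_)
    have h3 : y ∈ E (LowerSet.Iic x) ↔ e'.symm y ∈ LowerSet.Iic x := LowerSet.mem_map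
    refine h3.trans (LowerSet.mem_Iic_iff.trans ?_)
    rw [e'.symm_apply_le]
    exact LowerSet.mem_Iic_iff.symm
  have hE : ∀ n, E (mixV i X w n) = mixV i' X' w' n := by
    intro n
    unfold mixV
    split_ifs with hn
    · exact hE1 _
    · rw [hE2, hw]
  rw [← hφ, ← hφ]
  let _ := FirstOrder.Language.orderStructure (LS P i)
  let _ := FirstOrder.Language.orderStructure (LS P' i')
  have : FirstOrder.Language.order.OrderedStructure (LS P i) := ⟨fun _ => Iff.rfl⟩
  have : FirstOrder.Language.order.OrderedStructure (LS P' i') := ⟨fun _ => Iff.rfl⟩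
  have h5 := StrongHomClass.realize_formula E φ (v := fun j : Fin k => mixV i X w j)
  have h6 : (E ∘ fun j : Fin k => mixV i X w j) = fun j : Fin k => mixV i' X' w' j :=
    funext fun j => hE j
  rw [h6] at h5
  exact h5.symm

/-- The sentence about the lattice. -/
theorem sentence (h : PD R) : ∃ ψ : FirstOrder.Language.order.Sentence,
    ∀ (P : Type) (i : PartialOrder P), Finite P → (Tr (LS P i) ψ ↔ ∃ X w, R P i X w) := by
  obtain ⟨k, Q, h1, h2⟩ := h
  have hne : UD 0 fun M _ _ => ∃ b : M, W.JI b := by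
    refine UD.ex (R := fun M _ _ b => W.JI b) ?_
    exact W.UD_JI 0
  have hex : UD 0 fun M i _ => ∃ g : Fin k → M,
      (∀ j : Fin k, (j : ℕ) % 2 = 1 → W.JI (g j)) ∧ Q M i g := by
    refine UD.exFin (R := fun M i _ g =>
      (∀ j : Fin k, (j : ℕ) % 2 = 1 → W.JI (g j)) ∧ Q M i g) ?_
    refine UD.and (UD.allType fun j => ?_) ?_
    · exact (UD.const _).imp (W.UD_JI (Fin.natAdd 0 j))
    · exact h1.sub (Fin.natAdd 0)
  obtain ⟨ψ, hψ⟩ := UD.sentence (R := fun M i => (∃ b : M, W.JI b) ∧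
    ∃ g : Fin k → M, (∀ j : Fin k, (j : ℕ) % 2 = 1 → W.JI (g j)) ∧ Q M i g) (hne.and hex)
  refine ⟨ψ, fun P i hP => (hψ (LS P i) inferInstance).trans ?_⟩
  constructor
  · rintro ⟨⟨b, hb⟩, g, hg, hQ⟩
    obtain ⟨p0, rfl⟩ := (PDCal_JI b).1 hb
    have h3 : ∀ j : Fin k, ∃ p : P, (j : ℕ) % 2 = 1 → g j = LowerSet.Iic p := by
      intro j
      by_cases hj : (j : ℕ) % 2 = 1
      · obtain ⟨p, hp⟩ := (PDCal_JI (g j)).1 (hg j hj)
        exact ⟨p, fun _ => hp⟩
      · exact ⟨p0, fun h => absurd h hj⟩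
    choose p hp using h3
    refine ⟨fun m => if h : 2 * m < k then g ⟨2 * m, h⟩ else ⊥,
      fun m => if h : 2 * m + 1 < k then p ⟨2 * m + 1, h⟩ else p0, ?_⟩
    rw [h2 P i hP]
    convert! hQ using 1
    funext j
    by_cases hj : (j : ℕ) % 2 = 0
    · obtain ⟨m, hm⟩ : ∃ m, (j : ℕ) = 2 * m := ⟨j / 2, by omega⟩
      have hmk : 2 * m < k := hm ▸ j.2
      rw [hm, PDCal_even, dif_pos hmk]
      congr 1
      exact Fin.ext hm.symm
    · obtain ⟨m, hm⟩ : ∃ m, (j : ℕ) = 2 * m + 1 := ⟨j / 2, by omega⟩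
      have hmk : 2 * m + 1 < k := hm ▸ j.2
      rw [hm, PDCal_odd, dif_pos hmk]
      have hj' : (⟨2 * m + 1, hmk⟩ : Fin k) = j := Fin.ext hm.symm
      rw [hj']
      exact (hp j (by omega)).symm
  · rintro ⟨X, w, hR⟩
    refine ⟨⟨LowerSet.Iic (w 0), (PDCal_JI _).2 ⟨_, rfl⟩⟩, fun j => mixV i X w j, fun j hj => ?_,
      (h2 P i hP X w).1 hR⟩
    obtain ⟨m, hm⟩ : ∃ m, (j : ℕ) = 2 * m + 1 := ⟨j / 2, by omega⟩
    change W.JI (mixV i X w j)
    rw [hm, PDCal_odd]
    exact (PDCal_JI _).2 ⟨_, rfl⟩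

end PD

end Pool.Agent.Lib.MP_586990_lc.R
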