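import Pool.Agent.Lib.MP_586990_lc.Cal
import Pool.Agent.Lib.MP_586990_lc_W.LDef

set_option autoImplicit false

/-!
# First-order formulas about the lattice of lower sets
-/

namespace Pool.Agent.Lib.MP_586990_lc.R

/-- The lower sets of the partial order `P`. -/
abbrev LS (P : Type) (i : PartialOrder P) : Type := @LowerSet P i.toLE

/-- The value of the variable number `j`: the lower sets `X 0, X 1, ..` and the principal lower
sets of the elements `w 0, w 1, ..`. -/
def mixV {P : Type} (i : PartialOrder P) (X : ℕ → LS P i) (w : ℕ → P) (j : ℕ) : LS P i :=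
  if j % 2 = 0 then X (j / 2) else LowerSet.Iic (w (j / 2))

/-- The relation `R` of lower sets and elements of a finite partial order is defined by a
first-order formula about the lattice of lower sets. -/
def PD (R : ∀ (P : Type) (i : PartialOrder P), (ℕ → LS P i) → (ℕ → P) → Prop) : Prop :=
  ∃ (k : ℕ) (Q : ∀ (M : Type), PartialOrder M → (Fin k → M) → Prop), UD k Q ∧
    ∀ (P : Type) (i : PartialOrder P), Finite P → ∀ (X : ℕ → LS P i) (w : ℕ → P),
      (R P i X w ↔ Q (LS P i) inferInstance fun j => mixV i X w j)

end Pool.Agent.Lib.MP_586990_lc.R
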