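import Pool.Agent.Lib.MP_586990_lc_R.LatRel

set_option autoImplicit false

/-!
# Relations of elements in terms of the positions of their rows and columns
-/

namespace Pool.Agent.Lib.MP_586990_lc.R

section

variable {P : Type} [PartialOrder P]

open Classical in
/-- The number of a unit. -/
noncomputable def uf (X : ℕ → LowerSet P) (s : ℕ) (rp cp : P → ℕ) (x : P) : ℕ :=
  if x ∈ X 2 then rp x * s + cp x else if x ∈ X 3 then s * s + cp x else s * s + s + rp x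

variable {X : ℕ → LowerSet P} {s : ℕ} {rp cp : P → ℕ}

namespace RC

private theorem RCLem_rb (h : RC X s rp cp) {x : P} (hx : Ce X x ∨ Er X x) : rp x < s := by
  rcases hx with hx | hx
  · exact (h.ce x hx).1
  · exact h.er x hx

private theorem RCLem_cb (h : RC X s rp cp) {x : P} (hx : Ce X x ∨ Ec X x) : cp x < s := by
  rcases hx with hx | hx
  · exact (h.ce x hx).2
  · exact h.ec x hx

private theorem RCLem_rR (h : RC X s rp cp) {x : P} (hx : Ce X x ∨ Er X x) {r : P}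
    (hr : r ∈ X 0) : r < x ↔ rp r ≠ rp x := by
  rcases hx with hx | hx
  · exact h.ceR x r hx hr
  · exact h.erR x r hx hr

private theorem RCLem_cC (h : RC X s rp cp) {x : P} (hx : Ce X x ∨ Ec X x) {c : P}
    (hc : Co X c) : c < x ↔ cp c ≠ cp x := by
  rcases hx with hx | hx
  · exact h.ceC x c hx hc
  · exact h.ecC x c hx hc

theorem dgS (h : RC X s rp cp) {a : ℕ} (ha : a < s) : ∃ d, Dg X d ∧ rp d = a ∧ cp d = a := by
  obtain ⟨x, hx, h1, h2⟩ := h.ceS a a ha ha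
  exact ⟨x, ⟨hx, (h.dg x hx).2 (h1.trans h2.symm)⟩, h1, h2⟩

theorem dgE (h : RC X s rp cp) {d : P} (hd : Dg X d) : rp d = cp d ∧ rp d < s :=
  ⟨(h.dg d hd.1).1 hd.2, (h.ce d hd.1).1⟩

theorem sr (h : RC X s rp cp) {x y : P} (hx : Ce X x ∨ Er X x) (hy : Ce X y ∨ Er X y) :
    SR X x y ↔ rp x = rp y := by
  constructor
  · intro hs
    obtain ⟨r, hr, hrx⟩ := h.roS (rp x) (RCLem_rb h hx)
    have h1 := hs r hr
    rw [RCLem_rR h hx hr, RCLem_rR h hy hr] at h1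
    by_contra hne
    exact (h1.2 (by rw [hrx]; exact hne)) hrx
  · intro he r hr
    rw [RCLem_rR h hx hr, RCLem_rR h hy hr, he]

theorem sc (h : RC X s rp cp) {x y : P} (hx : Ce X x ∨ Ec X x) (hy : Ce X y ∨ Ec X y) :
    SC X x y ↔ cp x = cp y := by
  constructor
  · intro hs
    obtain ⟨c, hc, hcx⟩ := h.coS (cp x) (RCLem_cb h hx)
    have h1 := hs c hc
    rw [RCLem_cC h hx hc, RCLem_cC h hy hc] at h1
    by_contra hne
    exact (h1.2 (by rw [hcx]; exact hne)) hcx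
  · intro he c hc
    rw [RCLem_cC h hx hc, RCLem_cC h hy hc, he]

theorem at_iff (h : RC X s rp cp) {x y z : P} (hx : Ce X x ∨ Er X x) (hy : Ce X y ∨ Ec X y) :
    At X z x y ↔ Ce X z ∧ rp z = rp x ∧ cp z = cp y := by
  unfold At
  constructor
  · rintro ⟨h1, h2, h3⟩
    exact ⟨h1, (h.sr (Or.inl h1) hx).1 h2, (h.sc (Or.inl h1) hy).1 h3⟩
  · rintro ⟨h1, h2, h3⟩
    exact ⟨h1, (h.sr (Or.inl h1) hx).2 h2, (h.sc (Or.inl h1) hy).2 h3⟩

theorem dle (h : RC X s rp cp) {d d' : P} (hd : Dg X d) (hd' : Dg X d') :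
    DLe X d d' ↔ rp d ≤ rp d' := by
  obtain ⟨h1, h2⟩ := h.dgE hd
  obtain ⟨h3, h4⟩ := h.dgE hd'
  constructor
  · rintro ⟨z, hz, hz6⟩
    obtain ⟨h5, h6, h7⟩ := (h.at_iff (Or.inl hd.1) (Or.inl hd'.1)).1 hz
    have h8 := (h.le z h5).1 hz6
    omega
  · intro hle
    obtain ⟨z, hz, hz1, hz2⟩ := h.ceS (rp d) (cp d') h2 (by omega)
    exact ⟨z, (h.at_iff (Or.inl hd.1) (Or.inl hd'.1)).2 ⟨hz, hz1, hz2⟩,
      (h.le z hz).2 (by omega)⟩

private theorem RCLem_dne (h : RC X s rp cp) {d d' : P} (hd : Dg X d) (hd' : Dg X d') :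
    d ≠ d' ↔ rp d ≠ rp d' := by
  obtain ⟨h1, -⟩ := h.dgE hd
  obtain ⟨h3, -⟩ := h.dgE hd'
  constructor
  · intro hne he
    exact hne (h.ceI d d' hd.1 hd'.1 he (by omega))
  · rintro hne rfl
    exact hne rfl

theorem rlt (h : RC X s rp cp) {x y : P} (hx : Ce X x ∨ Er X x) (hy : Ce X y ∨ Er X y) :
    RLt X x y ↔ rp x < rp y := by
  constructor
  · rintro ⟨d, d', hd, hd', h1, h2, h3, h4⟩
    have h1' := (h.sr hx (Or.inl hd.1)).1 h1
    have h2' := (h.sr hy (Or.inl hd'.1)).1 h2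
    have h3' := (h.dle hd hd').1 h3
    have h4' := (RCLem_dne h hd hd').1 h4
    omega
  · intro hlt
    obtain ⟨d, hd, hd1, -⟩ := h.dgS (RCLem_rb h hx)
    obtain ⟨d', hd', hd1', -⟩ := h.dgS (RCLem_rb h hy)
    exact ⟨d, d', hd, hd', (h.sr hx (Or.inl hd.1)).2 hd1.symm,
      (h.sr hy (Or.inl hd'.1)).2 hd1'.symm, (h.dle hd hd').2 (by omega),
      (RCLem_dne h hd hd').2 (by omega)⟩

theorem clt (h : RC X s rp cp) {x y : P} (hx : Ce X x ∨ Ec X x) (hy : Ce X y ∨ Ec X y) :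
    CLt X x y ↔ cp x < cp y := by
  constructor
  · rintro ⟨d, d', hd, hd', h1, h2, h3, h4⟩
    have h1' := (h.sc hx (Or.inl hd.1)).1 h1
    have h2' := (h.sc hy (Or.inl hd'.1)).1 h2
    have h3' := (h.dle hd hd').1 h3
    have h4' := (RCLem_dne h hd hd').1 h4
    have h5 := (h.dgE hd).1
    have h6 := (h.dgE hd').1
    omega
  · intro hlt
    obtain ⟨d, hd, hd1, hd2⟩ := h.dgS (RCLem_cb h hx)
    obtain ⟨d', hd', hd1', hd2'⟩ := h.dgS (RCLem_cb h hy)
    exact ⟨d, d', hd, hd', (h.sc hx (Or.inl hd.1)).2 hd2.symm,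
      (h.sc hy (Or.inl hd'.1)).2 hd2'.symm, (h.dle hd hd').2 (by omega),
      (RCLem_dne h hd hd').2 (by omega)⟩

private theorem RCLem_kind (i12 : ∀ x, x ∈ X 1 → x ∈ X 2) (i23 : ∀ x, x ∈ X 2 → x ∈ X 3)
    {x : P} (hx : Un X x) :
    (Ce X x ∧ ¬ Ec X x ∧ ¬ Er X x ∧ uf X s rp cp x = rp x * s + cp x) ∨
    (¬ Ce X x ∧ Ec X x ∧ ¬ Er X x ∧ uf X s rp cp x = s * s + cp x) ∨
    (¬ Ce X x ∧ ¬ Ec X x ∧ Er X x ∧ uf X s rp cp x = s * s + s + rp x) := by
  have _ := i12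
  unfold uf
  by_cases h2 : x ∈ X 2
  · left
    rw [if_pos h2]
    exact ⟨⟨h2, hx.2⟩, fun h => h.2 h2, fun h => h.2 (i23 x h2), rfl⟩
  · by_cases h3 : x ∈ X 3
    · right; left
      rw [if_neg h2, if_pos h3]
      exact ⟨fun h => h2 h.1, ⟨h3, h2⟩, fun h => h.2 h3, rfl⟩
    · right; right
      rw [if_neg h2, if_neg h3]
      exact ⟨fun h => h2 h.1, fun h => h3 h.1, ⟨hx.1, h3⟩, rfl⟩

private theorem RCLem_lex {a b c d s : ℕ} (hb : b < s) (hd : d < s) :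
    (a < c ∨ (a = c ∧ b < d)) ↔ a * s + b < c * s + d := by
  constructor
  · rintro (h1 | ⟨rfl, h1⟩)
    · have h2 : (a + 1) * s ≤ c * s := Nat.mul_le_mul_right s h1
      have h3 : (a + 1) * s = a * s + s := by ring
      omega
    · omega
  · intro h1
    rcases lt_trichotomy a c with h2 | h2 | h2
    · exact Or.inl h2
    · subst h2
      exact Or.inr ⟨rfl, by omega⟩
    · exfalso
      have h3 : (c + 1) * s ≤ a * s := Nat.mul_le_mul_right s h2
      have h4 : (c + 1) * s = c * s + s := by ring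
      omega

private theorem RCLem_cell {a b s : ℕ} (ha : a < s) (hb : b < s) : a * s + b < s * s := by
  have h2 : (a + 1) * s ≤ s * s := Nat.mul_le_mul_right s ha
  have h3 : (a + 1) * s = a * s + s := by ring
  omega

theorem ul (h : RC X s rp cp) (i12 : ∀ x, x ∈ X 1 → x ∈ X 2) (i23 : ∀ x, x ∈ X 2 → x ∈ X 3)
    {x y : P} (hx : Un X x) (hy : Un X y) :
    UL X x y ↔ uf X s rp cp x < uf X s rp cp y := by
  unfold UL
  rcases RCLem_kind (s := s) (rp := rp) (cp := cp) i12 i23 hx with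
    ⟨a1, a2, a3, a4⟩ | ⟨a1, a2, a3, a4⟩ | ⟨a1, a2, a3, a4⟩ <;>
  rcases RCLem_kind (s := s) (rp := rp) (cp := cp) i12 i23 hy with
    ⟨b1, b2, b3, b4⟩ | ⟨b1, b2, b3, b4⟩ | ⟨b1, b2, b3, b4⟩ <;>
  rw [a4, b4] <;>
  simp only [a1, a2, a3, b1, b2, b3, true_and, false_and, and_false, or_false, false_or,
    or_true, true_or, true_iff, false_iff, not_lt, and_true]
  · rw [h.rlt (Or.inl a1) (Or.inl b1), h.sr (Or.inl a1) (Or.inl b1),
      h.clt (Or.inl a1) (Or.inl b1)]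
    exact RCLem_lex (h.ce x a1).2 (h.ce y b1).2
  · have h1 := RCLem_cell (h.ce x a1).1 (h.ce x a1).2
    omega
  · have h1 := RCLem_cell (h.ce x a1).1 (h.ce x a1).2
    omega
  · have h1 := RCLem_cell (h.ce y b1).1 (h.ce y b1).2
    omega
  · rw [h.clt (Or.inr a2) (Or.inr b2)]
    omega
  · have h1 := h.ec x a2
    omega
  · have h1 := RCLem_cell (h.ce y b1).1 (h.ce y b1).2
    omega
  · have h1 := h.ec y b2
    omega
  · rw [h.rlt (Or.inr a3) (Or.inr b3)]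
    omega

end RC

end

end Pool.Agent.Lib.MP_586990_lc.R
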