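import Pool.Agent.Lib.MP_586990_lc_R.SetDef

set_option autoImplicit false

/-!
# The rows of a set of pairs
-/

namespace Pool.Agent.Lib.MP_586990_lc.R

theorem row_lt (s : ℕ) (V : Set (ℕ × ℕ)) (a : ℕ) : row s V a < 2 ^ s := (row_isSeq s V).1 a

private theorem RowLem_lt (c : ℕ → Prop) [DecidablePred c] (s : ℕ) :
    ∑ i ∈ Finset.range s, (if c i then 2 ^ i else 0) < 2 ^ s := by
  induction s with
  | zero => simp
  | succ s ih =>
    rw [Finset.sum_range_succ, pow_succ]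
    split_ifs <;> omega

private theorem RowLem_testBit (c : ℕ → Prop) [DecidablePred c] (s b : ℕ) :
    (∑ i ∈ Finset.range s, (if c i then 2 ^ i else 0)).testBit b = true ↔ b < s ∧ c b := by
  induction s with
  | zero => simp
  | succ s ih =>
    have h1 := RowLem_lt c s
    rw [Finset.sum_range_succ]
    by_cases hc : c s
    · rw [if_pos hc, add_comm]
      rcases lt_trichotomy b s with h | h | h
      · rw [Nat.testBit_two_pow_add_gt h, ih]
        exact ⟨fun h2 => ⟨by omega, h2.2⟩, fun h2 => ⟨h, h2.2⟩⟩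
      · subst h
        rw [Nat.testBit_two_pow_add_eq, Nat.testBit_lt_two_pow h1]
        exact ⟨fun _ => ⟨by omega, hc⟩, fun _ => rfl⟩
      · have h3 : 2 ^ (s + 1) ≤ 2 ^ b := Nat.pow_le_pow_right (by norm_num) h
        rw [Nat.testBit_lt_two_pow (by rw [pow_succ] at h3; omega)]
        exact ⟨fun h2 => by simp at h2, fun h2 => by omega⟩
    · rw [if_neg hc, add_zero, ih]
      refine ⟨fun h2 => ⟨by omega, h2.2⟩, fun h2 => ⟨?_, h2.2⟩⟩
      rcases Nat.lt_succ_iff_lt_or_eq.1 h2.1 with h | h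
      · exact h
      · exact absurd (h ▸ h2.2) hc

theorem testBit_row (s : ℕ) (V : Set (ℕ × ℕ)) (a b : ℕ) :
    (row s V a).testBit b = true ↔ a < s ∧ b < s ∧ (a, b) ∈ V := by
  classical
  unfold row
  refine (RowLem_testBit (fun b => a < s ∧ (a, b) ∈ V) s b).trans ?_
  tauto

theorem row_eq_iff (s : ℕ) (V V' : Set (ℕ × ℕ)) (a a' : ℕ) : row s V a = row s V' a' ↔
    ∀ b, b < s → (a < s ∧ (a, b) ∈ V ↔ a' < s ∧ (a', b) ∈ V') := by
  constructor
  · intro h b hb
    have h1 := testBit_row s V a b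
    have h2 := testBit_row s V' a' b
    rw [h] at h1
    have h3 := h1.symm.trans h2
    exact ⟨fun h4 => ⟨(h3.1 ⟨h4.1, hb, h4.2⟩).1, (h3.1 ⟨h4.1, hb, h4.2⟩).2.2⟩,
      fun h4 => ⟨(h3.2 ⟨h4.1, hb, h4.2⟩).1, (h3.2 ⟨h4.1, hb, h4.2⟩).2.2⟩⟩
  · intro h
    refine Nat.eq_of_testBit_eq fun b => ?_
    rw [Bool.eq_iff_iff, testBit_row, testBit_row]
    constructor
    · rintro ⟨h1, h2, h3⟩
      have h4 := (h b h2).1 ⟨h1, h3⟩
      exact ⟨h4.1, h2, h4.2⟩
    · rintro ⟨h1, h2, h3⟩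
      have h4 := (h b h2).2 ⟨h1, h3⟩
      exact ⟨h4.1, h2, h4.2⟩

/-- Every sequence is given by a set. -/
theorem exists_row {s : ℕ} {z : ℕ → ℕ} (h : IsSeq s (2 ^ s) z) :
    ∃ V, V ⊆ sq s ∧ row s V = z := by
  refine ⟨{p | p.1 < s ∧ p.2 < s ∧ (z p.1).testBit p.2 = true}, fun p hp => ⟨hp.1, hp.2.1⟩, ?_⟩
  funext a
  refine Nat.eq_of_testBit_eq fun b => ?_
  rw [Bool.eq_iff_iff, testBit_row]
  constructor
  · rintro ⟨-, -, h1⟩
    exact h1.2.2
  · intro h1
    have ha : a < s := by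
      by_contra h2
      rw [h.2 a (by omega), Nat.zero_testBit] at h1
      exact Bool.false_ne_true h1
    have hb : b < s := by
      by_contra h2
      have h3 : 2 ^ s ≤ 2 ^ b := Nat.pow_le_pow_right (by norm_num) (by omega)
      rw [Nat.testBit_lt_two_pow (lt_of_lt_of_le (h.1 a) h3)] at h1
      exact Bool.false_ne_true h1
    exact ⟨ha, hb, ha, hb, h1⟩

/-- Every digit is given by a set. -/
theorem exists_row0 {s : ℕ} (hs : 0 < s) {y : ℕ} (h : y < 2 ^ s) :
    ∃ V, V ⊆ sq s ∧ row s V 0 = y := by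
  obtain ⟨V, hV, h1⟩ := exists_row (s := s) (z := fun a => if a = 0 then y else 0) (by
    refine ⟨fun a => ?_, fun a ha => ?_⟩
    · change (if a = 0 then y else 0) < 2 ^ s
      split_ifs
      · exact h
      · exact Nat.pow_pos (by norm_num)
    · exact if_neg (by omega))
  exact ⟨V, hV, by rw [h1]; exact if_pos rfl⟩

end Pool.Agent.Lib.MP_586990_lc.R
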