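import Pool.Agent.Lib.MP_586990_lc_R.SetBase
import Pool.Agent.Lib.MP_586990_lc_R.RowLem

set_option autoImplicit false

/-!
# Set calculus: addition of rows
-/

namespace Pool.Agent.Lib.MP_586990_lc.R

namespace RowAdd

/-- majority -/
def Maj (p q r : Prop) : Prop := (p ∧ q) ∨ ((p ∨ q) ∧ r)

open Classical in
/-- truth value -/
noncomputable def t (p : Prop) : ℕ := if p then 1 else 0

/-- partial sum -/
noncomputable def ps (x : ℕ → Prop) (k : ℕ) : ℕ := ∑ b ∈ Finset.range k, t (x b) * 2 ^ b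

theorem t_true {p : Prop} (h : p) : t p = 1 := if_pos h

theorem t_false {p : Prop} (h : ¬ p) : t p = 0 := if_neg h

theorem t_le (p : Prop) : t p ≤ 1 := by
  by_cases h : p
  · rw [t_true h]
  · rw [t_false h]; omega

theorem t_inj {p q : Prop} (h : t p = t q) : p ↔ q := by
  by_cases hp : p <;> by_cases hq : q
  · exact ⟨fun _ => hq, fun _ => hp⟩
  · rw [t_true hp, t_false hq] at h; omega
  · rw [t_false hp, t_true hq] at h; omega
  · exact ⟨fun h => absurd h hp, fun h => absurd h hq⟩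

theorem t_add (x y u : Prop) : t x + t y + t u = 2 * t (Maj x y u) + t (x ↔ (y ↔ u)) := by
  by_cases hx : x <;> by_cases hy : y <;> by_cases hu : u <;> simp [t, Maj, hx, hy, hu]

theorem ps_succ (x : ℕ → Prop) (k : ℕ) : ps x (k + 1) = ps x k + t (x k) * 2 ^ k :=
  Finset.sum_range_succ _ k

theorem ps_congr {x y : ℕ → Prop} {k : ℕ} (h : ∀ b, b < k → (x b ↔ y b)) : ps x k = ps y k := by
  refine Finset.sum_congr rfl fun b hb => ?_
  rw [propext (h b (Finset.mem_range.1 hb))]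

theorem ps_lt (x : ℕ → Prop) (k : ℕ) : ps x k < 2 ^ k := by
  induction k with
  | zero => simp [ps]
  | succ k ih =>
    rw [ps_succ, pow_succ]
    have h1 : t (x k) * 2 ^ k ≤ 1 * 2 ^ k := Nat.mul_le_mul_right _ (t_le _)
    omega

theorem uniq {q r q' r' B : ℕ} (h : q * B + r = q' * B + r') (hr : r < B) (hr' : r' < B) :
    q = q' ∧ r = r' := by
  have hB : 0 < B := by omega
  have h1 : (q * B + r) / B = q := by
    rw [mul_comm, Nat.mul_add_div hB, Nat.div_eq_of_lt hr, add_zero]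
  have h2 : (q' * B + r') / B = q' := by
    rw [mul_comm, Nat.mul_add_div hB, Nat.div_eq_of_lt hr', add_zero]
  have h3 : q = q' := by rw [← h1, h, h2]
  subst h3
  exact ⟨rfl, by omega⟩

theorem ps_inj {x y : ℕ → Prop} {k : ℕ} (h : ps x k = ps y k) (b : ℕ) (hb : b < k) :
    x b ↔ y b := by
  induction k with
  | zero => omega
  | succ k ih =>
    rw [ps_succ, ps_succ] at h
    have h1 : t (x k) * 2 ^ k + ps x k = t (y k) * 2 ^ k + ps y k := by omega
    obtain ⟨h2, h3⟩ := uniq h1 (ps_lt x k) (ps_lt y k)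
    rcases Nat.lt_succ_iff_lt_or_eq.1 hb with h4 | rfl
    · exact ih h3 h4
    · exact t_inj h2

theorem ps_single {p : Prop} {k : ℕ} (hk : 0 < k) : ps (fun b => b = 0 ∧ p) k = t p := by
  unfold ps
  rw [Finset.sum_eq_single 0]
  · by_cases hp : p
    · rw [t_true ⟨rfl, hp⟩, t_true hp, pow_zero, mul_one]
    · rw [t_false fun h => hp h.2, t_false hp, zero_mul]
  · intro b _ hb
    rw [t_false fun h => hb h.1, zero_mul]
  · intro h
    exact absurd (Finset.mem_range.2 hk) h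

theorem ps_add {x y z u : ℕ → Prop} (k : ℕ) (h0 : ¬ u 0)
    (hu : ∀ b, b < k → (u (b + 1) ↔ Maj (x b) (y b) (u b)))
    (hz : ∀ b, b < k → (z b ↔ (x b ↔ (y b ↔ u b)))) :
    ps x k + ps y k = t (u k) * 2 ^ k + ps z k := by
  induction k with
  | zero =>
    rw [t_false h0]
    simp [ps]
  | succ k ih =>
    have h1 := ih (fun b hb => hu b (by omega)) (fun b hb => hz b (by omega))
    rw [ps_succ, ps_succ, ps_succ, propext (hu k (by omega)), propext (hz k (by omega))]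
    have h2 := t_add (x k) (y k) (u k)
    have h3 : (t (x k) + t (y k) + t (u k)) * 2 ^ k =
        (2 * t (Maj (x k) (y k) (u k)) + t (x k ↔ (y k ↔ u k))) * 2 ^ k := by rw [h2]
    rw [pow_succ]
    linarith

theorem row_eq {s : ℕ} (hs : 0 < s) (V : Set (ℕ × ℕ)) :
    row s V 0 = ps (fun b => (0, b) ∈ V) s := by
  classical
  unfold row ps
  refine Finset.sum_congr rfl fun b _ => ?_
  by_cases h : (0, b) ∈ V
  · rw [if_pos ⟨hs, h⟩, t_true h, one_mul]
  · rw [if_neg fun h' => h h'.2, t_false h, zero_mul]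

/-- the carry -/
def carry (x y : ℕ → Prop) : ℕ → Prop
  | 0 => False
  | b + 1 => Maj (x b) (y b) (carry x y b)

/-- the conditions for the carry set -/
def Car (s : ℕ) (X Y K Z U : Set (ℕ × ℕ)) : Prop :=
  (∀ b, b < s → (b = 0 → ¬ (0, b) ∈ U)) ∧
  (∀ b, b < s → ∀ b', b' < s → (b' = b + 1 →
    ((0, b') ∈ U ↔ Maj ((0, b) ∈ X) ((0, b) ∈ Y) ((0, b) ∈ U)))) ∧
  (∀ b, b < s → ((0, b) ∈ Z ↔ ((0, b) ∈ X ↔ ((0, b) ∈ Y ↔ (0, b) ∈ U)))) ∧
  (∀ b, b < s → (b + 1 = s → ∀ b', b' < s →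
    ((0, b') ∈ K ↔ (b' = 0 ∧ Maj ((0, b) ∈ X) ((0, b) ∈ Y) ((0, b) ∈ U)))))

theorem main {s : ℕ} (hs : 0 < s) (X Y K Z : Set (ℕ × ℕ)) :
    (∃ U, U ⊆ sq s ∧ Car s X Y K Z U) ↔
      row s X 0 + row s Y 0 = row s K 0 * 2 ^ s + row s Z 0 := by
  rw [row_eq hs, row_eq hs, row_eq hs, row_eq hs]
  constructor
  · rintro ⟨U, -, h1, h2, h3, h4⟩
    have h5 := ps_add (x := fun b => (0, b) ∈ X) (y := fun b => (0, b) ∈ Y)
      (z := fun b => (0, b) ∈ Z)
      (u := fun b => (b < s ∧ (0, b) ∈ U) ∨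
        (b = s ∧ Maj ((0, s - 1) ∈ X) ((0, s - 1) ∈ Y) ((0, s - 1) ∈ U))) s ?_ ?_ ?_
    · have h6 : ps (fun b => (0, b) ∈ K) s = t ((s < s ∧ (0, s) ∈ U) ∨
          (s = s ∧ Maj ((0, s - 1) ∈ X) ((0, s - 1) ∈ Y) ((0, s - 1) ∈ U))) := by
        rw [← ps_single hs]
        refine ps_congr fun b' hb' => ?_
        rw [h4 (s - 1) (by omega) (by omega) b' hb']
        constructor
        · rintro ⟨h7, h8⟩
          exact ⟨h7, Or.inr ⟨rfl, h8⟩⟩
        · rintro ⟨h7, h8 | h8⟩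
          · exact absurd h8.1 (lt_irrefl s)
          · exact ⟨h7, h8.2⟩
      rw [h6]
      exact h5
    · rintro (h | h)
      · exact h1 0 hs rfl h.2
      · omega
    · intro b hb
      have e1 : ((b < s ∧ (0, b) ∈ U) ∨
          (b = s ∧ Maj ((0, s - 1) ∈ X) ((0, s - 1) ∈ Y) ((0, s - 1) ∈ U))) ↔ (0, b) ∈ U := by
        constructor
        · rintro (h | h)
          · exact h.2
          · omega
        · exact fun h => Or.inl ⟨hb, h⟩
      rw [propext e1]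
      by_cases hb' : b + 1 < s
      · rw [← h2 b hb (b + 1) hb' rfl]
        constructor
        · rintro (h | h)
          · exact h.2
          · omega
        · exact fun h => Or.inl ⟨hb', h⟩
      · have e2 : s = b + 1 := by omega
        subst e2
        rw [Nat.add_sub_cancel]
        constructor
        · rintro (h | h)
          · exact absurd h.1 (lt_irrefl _)
          · exact h.2
        · exact fun h => Or.inr ⟨rfl, h⟩
    · intro b hb
      have e1 : ((b < s ∧ (0, b) ∈ U) ∨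
          (b = s ∧ Maj ((0, s - 1) ∈ X) ((0, s - 1) ∈ Y) ((0, s - 1) ∈ U))) ↔ (0, b) ∈ U := by
        constructor
        · rintro (h | h)
          · exact h.2
          · omega
        · exact fun h => Or.inl ⟨hb, h⟩
      rw [propext e1]
      exact h3 b hb
  · intro h
    set u := carry (fun b => (0, b) ∈ X) (fun b => (0, b) ∈ Y) with hu
    have h5 := ps_add (x := fun b => (0, b) ∈ X) (y := fun b => (0, b) ∈ Y)
      (z := fun b => ((0, b) ∈ X ↔ ((0, b) ∈ Y ↔ u b))) (u := u) s (fun h => h)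
      (fun b _ => Iff.rfl) (fun b _ => Iff.rfl)
    rw [h5] at h
    obtain ⟨h6, h7⟩ := uniq h (ps_lt _ _) (ps_lt _ _)
    have hU : ∀ b, b < s → ((0, b) ∈ {p : ℕ × ℕ | p ∈ sq s ∧ u p.2} ↔ u b) := by
      intro b hb
      exact ⟨fun h => h.2, fun h => ⟨⟨hs, hb⟩, h⟩⟩
    refine ⟨{p | p ∈ sq s ∧ u p.2}, fun p hp => hp.1, ?_, ?_, ?_, ?_⟩
    · rintro b hb rfl h8
      exact (hU 0 hb).1 h8
    · rintro b hb b' hb' rfl
      rw [hU b hb, hU (b + 1) hb']
      exact Iff.rfl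
    · intro b hb
      rw [hU b hb]
      exact (ps_inj h7 b hb).symm
    · intro b hb hbs b' hb'
      rw [hU b hb]
      rw [← ps_single hs] at h6
      have h8 := ps_inj h6 b' hb'
      rw [← h8]
      have h9 : u s ↔ Maj ((0, b) ∈ X) ((0, b) ∈ Y) (u b) := by
        rw [← hbs]
        exact Iff.rfl
      rw [propext h9]

end RowAdd

theorem SetCal.rowAdd {Ω : Type} {s : Ω → ℕ}
    {SD : (Ω → (ℕ → ℕ) → (ℕ → Set (ℕ × ℕ)) → Prop) → Prop} (C : SetCal s SD) (i j c l : ℕ) :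
    SD fun ω _ V => row (s ω) (V i) 0 + row (s ω) (V j) 0 =
      row (s ω) (V c) 0 * 2 ^ s ω + row (s ω) (V l) 0 := by
  have maj : ∀ {P Q R : Ω → (ℕ → ℕ) → (ℕ → Set (ℕ × ℕ)) → Prop}, SD P → SD Q → SD R →
      SD fun ω v V => RowAdd.Maj (P ω v V) (Q ω v V) (R ω v V) := fun hP hQ hR =>
    C.or (C.and hP hQ) (C.and (C.or hP hQ) hR)
  refine C.congr (R := fun ω _ V => ∃ U, U ⊆ sq (s ω) ∧
    RowAdd.Car (s ω) (V i) (V j) (V c) (V l) U)
    (fun ω v V _ _ => RowAdd.main (by have := C.three ω; omega) _ _ _ _) ?_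
  refine C.exS (S := fun ω _ V U => RowAdd.Car (s ω) (V i) (V j) (V c) (V l) U) ?_
  refine C.and (C.all (S := fun _ _ V b => b = 0 → ¬ (0, b) ∈ V 0)
    (C.imp (C.zero 0) (C.not (C.mem0 0 0)))) (C.and ?_ (C.and ?_ ?_))
  · refine C.all (S := fun ω _ V b => ∀ b', b' < s ω → (b' = b + 1 → ((0, b') ∈ V 0 ↔
      RowAdd.Maj ((0, b) ∈ V (i + 1)) ((0, b) ∈ V (j + 1)) ((0, b) ∈ V 0)))) ?_
    refine C.all (S := fun ω v V b' => (b' = v 0 + 1 → ((0, b') ∈ V 0 ↔
      RowAdd.Maj ((0, v 0) ∈ V (i + 1)) ((0, v 0) ∈ V (j + 1)) ((0, v 0) ∈ V 0)))) ?_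
    exact C.imp (C.succ 1 0) (C.iff (C.mem0 0 0)
      (maj (C.mem0 1 (i + 1)) (C.mem0 1 (j + 1)) (C.mem0 1 0)))
  · refine C.all (S := fun ω _ V b => ((0, b) ∈ V (l + 1) ↔ ((0, b) ∈ V (i + 1) ↔
      ((0, b) ∈ V (j + 1) ↔ (0, b) ∈ V 0)))) ?_
    exact C.iff (C.mem0 0 (l + 1)) (C.iff (C.mem0 0 (i + 1)) (C.iff (C.mem0 0 (j + 1))
      (C.mem0 0 0)))
  · refine C.all (S := fun ω _ V b => (b + 1 = s ω → ∀ b', b' < s ω → ((0, b') ∈ V (c + 1) ↔
      (b' = 0 ∧
        RowAdd.Maj ((0, b) ∈ V (i + 1)) ((0, b) ∈ V (j + 1)) ((0, b) ∈ V 0))))) ?_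
    refine C.imp (C.max 0) ?_
    refine C.all (S := fun ω v V b' => ((0, b') ∈ V (c + 1) ↔ (b' = 0 ∧
        RowAdd.Maj ((0, v 0) ∈ V (i + 1)) ((0, v 0) ∈ V (j + 1)) ((0, v 0) ∈ V 0)))) ?_
    exact C.iff (C.mem0 0 (c + 1)) (C.and (C.zero 0)
      (maj (C.mem0 1 (i + 1)) (C.mem0 1 (j + 1)) (C.mem0 1 0)))

end Pool.Agent.Lib.MP_586990_lc.R
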