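import Pool.Agent.Lib.MP_586990_lc_R.SeqDef
import Pool.Agent.Lib.MP_586990_lc_R.DefNBase

set_option autoImplicit false

/-!
# Sequence calculus: derived rules
-/

namespace Pool.Agent.Lib.MP_586990_lc.R

namespace SFr

variable {Ω : Type} {s B : Ω → ℕ} {D : (Par s B → (ℕ → ℕ) → Prop) → Prop}

theorem allI (F : SFr s B D) {S : Par s B → (ℕ → ℕ) → ℕ → Prop}
    (h : D fun p w => S p.tlI w (p.v 0)) : D fun p w => ∀ a, a < s p.ω → S p w a := by
  refine F.congr (R := fun p w => ¬ ∃ a, a < s p.ω ∧ ¬ S p w a) (fun p w _ => ?_)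
    (F.not (F.exI (S := fun p w a => ¬ S p w a) (F.not h)))
  push Not
  rfl

theorem eqI (F : SFr s B D) (a b : ℕ) : D fun p _ => p.v a = p.v b := by
  refine F.congr (R := fun p _ => p.v a ≤ p.v b ∧ p.v b ≤ p.v a) (fun p w _ => ?_)
    (F.and (F.leI a b) (F.leI b a))
  omega

theorem ltI (F : SFr s B D) (a b : ℕ) : D fun p _ => p.v a < p.v b := by
  refine F.congr (R := fun p _ => ¬ p.v b ≤ p.v a) (fun p w _ => ?_) (F.not (F.leI b a))
  omega

theorem zeroI (F : SFr s B D) (a : ℕ) : D fun p _ => p.v a = 0 := by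
  refine F.congr (R := fun p _ => ∀ y, y < s p.ω → p.v a ≤ y) (fun p w _ => ?_)
    (F.allI (S := fun p _ y => p.v a ≤ y) (F.leI (a + 1) 0))
  have h3 := F.three p.ω
  constructor
  · intro h
    have := h 0 (by omega)
    omega
  · intro h y _
    omega

theorem succI (F : SFr s B D) (a b : ℕ) : D fun p _ => p.v b = p.v a + 1 := by
  refine F.congr (R := fun p _ => p.v a < p.v b ∧ ∀ c, c < s p.ω → (c ≤ p.v a ∨ p.v b ≤ c))
    (fun p w _ => ?_)
    (F.and (F.ltI a b) (F.allI (S := fun p _ c => c ≤ p.v a ∨ p.v b ≤ c)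
      (F.or (F.leI 0 (a + 1)) (F.leI (b + 1) 0))))
  have hb := p.hv b
  constructor
  · rintro ⟨h1, h2⟩
    have := h2 (p.v a + 1) (by omega)
    omega
  · intro h
    exact ⟨by omega, fun c _ => by omega⟩

theorem maxI (F : SFr s B D) (a : ℕ) : D fun p _ => p.v a + 1 = s p.ω := by
  refine F.congr (R := fun p _ => ∀ y, y < s p.ω → y ≤ p.v a) (fun p w _ => ?_)
    (F.allI (S := fun p _ y => y ≤ p.v a) (F.leI 0 (a + 1)))
  have h3 := F.three p.ω
  have ha := p.hv a
  constructor
  · intro h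
    have := h (s p.ω - 1) (by omega)
    omega
  · intro h y hy
    omega

theorem natI (F : SFr s B D) (a k : ℕ) : D fun p _ => p.v a = k := by
  induction k generalizing a with
  | zero => exact F.zeroI a
  | succ k ih =>
    refine F.congr (R := fun p _ => ∃ c, c < s p.ω ∧ (c = k ∧ p.v a = c + 1))
      (fun p w _ => ?_)
      (F.exI (S := fun p _ c => c = k ∧ p.v a = c + 1) (F.and (ih 0) (F.succI 0 (a + 1))))
    have ha := p.hv a
    constructor
    · rintro ⟨c, _, rfl, h⟩
      exact h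
    · intro h
      exact ⟨k, by omega, rfl, h⟩

theorem exIN (F : SFr s B D) {e : ℕ} {S : Par s B → (ℕ → ℕ) → ℕ → Prop}
    (h : SN D e fun p w => S p.tlI w (p.v 0)) :
    SN D e fun p w => ∃ a, a < s p.ω ∧ S p w a :=
  F.exI (S := fun p v a => S p (fun i => num (B p.ω) v (i * e) e) a) h

theorem allIN (F : SFr s B D) {e : ℕ} {S : Par s B → (ℕ → ℕ) → ℕ → Prop}
    (h : SN D e fun p w => S p.tlI w (p.v 0)) :
    SN D e fun p w => ∀ a, a < s p.ω → S p w a :=
  F.allI (S := fun p v a => S p (fun i => num (B p.ω) v (i * e) e) a) h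

theorem renN (F : SFr s B D) {e : ℕ} {Q : Par s B → (ℕ → ℕ) → Prop} (f g : ℕ → ℕ)
    (h : SN D e Q) : SN D e fun p w => Q (p.ren f g) w :=
  F.ren f g h

private theorem SeqBase_numZero (F : SFr s B D) (k n : ℕ) :
    D fun p v => num (B p.ω) v k n = 0 := by
  induction n generalizing k with
  | zero =>
    exact F.congr (R := fun _ _ => True) (fun p v _ => ⟨fun _ => rfl, fun _ => trivial⟩)
      (F.const True)
  | succ n ih =>
    refine F.congr (R := fun p v => v k = 0 ∧ num (B p.ω) v (k + 1) n = 0) (fun p v _ => ?_)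
      (F.and (F.nat k 0) (ih (k + 1)))
    have h2 : 2 ≤ B p.ω := F.two p
    show _ ↔ v k + B p.ω * num (B p.ω) v (k + 1) n = 0
    constructor
    · rintro ⟨h0, h1⟩
      rw [h0, h1]
      simp
    · intro h
      refine ⟨by omega, ?_⟩
      have h3 : B p.ω * num (B p.ω) v (k + 1) n = 0 := by omega
      rcases Nat.mul_eq_zero.1 h3 with h4 | h4
      · omega
      · exact h4

private theorem SeqBase_uniq {B a b x y : ℕ} (ha : a < B) (hb : b < B)
    (h : a + B * x = b + B * y) : a = b ∧ x = y := by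
  have h1 : (a + B * x) / B = x := by
    rw [Nat.add_mul_div_left _ _ (by omega), Nat.div_eq_of_lt ha, zero_add]
  have h2 : (b + B * y) / B = y := by
    rw [Nat.add_mul_div_left _ _ (by omega), Nat.div_eq_of_lt hb, zero_add]
  have h3 : x = y := by rw [← h1, h, h2]
  subst h3
  exact ⟨by omega, rfl⟩

/-- A number variable and a term of a sequence. -/
theorem seqN (F : SFr s B D) {e : ℕ} (he : 0 < e) (x i a : ℕ) :
    SN D e fun p w => w x = p.q i (p.v a) := by
  obtain ⟨e', rfl⟩ := Nat.exists_eq_succ_of_ne_zero (Nat.pos_iff_ne_zero.1 he)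
  refine F.congr (R := fun p v => v (x * (e' + 1)) = p.q i (p.v a) ∧
    num (B p.ω) v (x * (e' + 1) + 1) e' = 0) (fun p v hv => ?_)
    (F.and (F.seq (x * (e' + 1)) i a) (SeqBase_numZero F _ _))
  show _ ↔ v (x * (e' + 1)) + B p.ω * num (B p.ω) v (x * (e' + 1) + 1) e' = p.q i (p.v a)
  have hq : p.q i (p.v a) < B p.ω := (p.hq i).1 (p.v a)
  have hx : v (x * (e' + 1)) < B p.ω := hv (x * (e' + 1))
  constructor
  · rintro ⟨h1, h2⟩
    rw [h1, h2]
    simp
  · intro h
    exact SeqBase_uniq (y := 0) hx hq (by rw [h]; simp)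

private theorem SeqBase_numEq (F : SFr s B D) (k i n a : ℕ) :
    D fun p v => num (B p.ω) v k n = num (B p.ω) (fun j => p.q j (p.v a)) i n := by
  induction n generalizing k i with
  | zero =>
    exact F.congr (R := fun _ _ => True) (fun p v _ => ⟨fun _ => rfl, fun _ => trivial⟩)
      (F.const True)
  | succ n ih =>
    refine F.congr (R := fun p v => v k = p.q i (p.v a) ∧
      num (B p.ω) v (k + 1) n = num (B p.ω) (fun j => p.q j (p.v a)) (i + 1) n)
      (fun p v hv => ?_) (F.and (F.seq k i a) (ih (k + 1) (i + 1)))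
    show _ ↔ v k + B p.ω * num (B p.ω) v (k + 1) n =
      p.q i (p.v a) + B p.ω * num (B p.ω) (fun j => p.q j (p.v a)) (i + 1) n
    constructor
    · rintro ⟨h1, h2⟩
      rw [h1, h2]
    · intro h
      exact SeqBase_uniq (hv k) ((p.hq i).1 (p.v a)) h

/-- A number variable and the terms of `e` sequences. -/
theorem numN (F : SFr s B D) (e x i a : ℕ) :
    SN D e fun p w => w x = num (B p.ω) (fun j => p.q j (p.v a)) i e :=
  SeqBase_numEq F (x * e) i e a

/-- The terms of two sequences. -/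
theorem seqEq (F : SFr s B D) (i j a b : ℕ) : D fun p _ => p.q i (p.v a) = p.q j (p.v b) := by
  refine F.congr (R := fun p _ => ∃ y, y < B p.ω ∧ (y = p.q i (p.v a) ∧ y = p.q j (p.v b)))
    (fun p w _ => ?_)
    (F.ex (S := fun p _ y => y = p.q i (p.v a) ∧ y = p.q j (p.v b))
      (F.and (F.seq 0 i a) (F.seq 0 j b)))
  constructor
  · rintro ⟨y, _, h1, h2⟩
    rw [← h1, h2]
  · intro h
    exact ⟨p.q i (p.v a), (p.hq i).1 _, rfl, h⟩

/-- A term of a sequence is a given number. -/
theorem seqNat (F : SFr s B D) (i a k : ℕ) : D fun p _ => p.q i (p.v a) = k := by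
  refine F.congr (R := fun p _ => ∃ y, y < B p.ω ∧ (y = p.q i (p.v a) ∧ y = k))
    (fun p w _ => ?_)
    (F.ex (S := fun p _ y => y = p.q i (p.v a) ∧ y = k) (F.and (F.seq 0 i a) (F.nat 0 k)))
  constructor
  · rintro ⟨y, _, h1, h2⟩
    rw [← h1, h2]
  · intro h
    exact ⟨p.q i (p.v a), (p.hq i).1 _, rfl, h⟩

end SFr

end Pool.Agent.Lib.MP_586990_lc.R
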