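import Pool.Agent.Lib.MP_586990_lc_R.FrameDef

set_option autoImplicit false

/-!
# Sequence calculus: definitions

A second sort of variables runs over the indices below `s ω`, a third one over the sequences of
`s ω` digits.
-/

namespace Pool.Agent.Lib.MP_586990_lc.R

/-- `z` is a sequence of `s` digits. -/
def IsSeq (s B : ℕ) (z : ℕ → ℕ) : Prop := (∀ a, z a < B) ∧ ∀ a, s ≤ a → z a = 0

/-- The values of the parameter, of the index variables and of the sequence variables. -/
structure Par {Ω : Type} (s B : Ω → ℕ) where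
  ω : Ω
  v : ℕ → ℕ
  q : ℕ → ℕ → ℕ
  hv : ∀ i, v i < s ω
  hq : ∀ i, IsSeq (s ω) (B ω) (q i)

namespace Par

variable {Ω : Type} {s B : Ω → ℕ}

/-- Renaming of the index variables and of the sequence variables. -/
def ren (p : Par s B) (f g : ℕ → ℕ) : Par s B :=
  ⟨p.ω, fun i => p.v (f i), fun i => p.q (g i), fun i => p.hv (f i), fun i => p.hq (g i)⟩

/-- Without the first index variable. -/
def tlI (p : Par s B) : Par s B := p.ren (fun i => i + 1) fun i => i

/-- Without the first sequence variable. -/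
def tlQ (p : Par s B) : Par s B := p.ren (fun i => i) fun i => i + 1

end Par

/-- A family of relations of indices, sequences and digits. -/
structure SFr {Ω : Type} (s B : Ω → ℕ) (D : (Par s B → (ℕ → ℕ) → Prop) → Prop) : Prop
    extends AFrame (fun p : Par s B => B p.ω) D where
  three : ∀ ω, 3 ≤ s ω
  base : ∀ ω, 2 * s ω ≤ B ω
  ren : ∀ {R : Par s B → (ℕ → ℕ) → Prop} (f g : ℕ → ℕ), D R → D fun p w => R (p.ren f g) w
  exI : ∀ {S : Par s B → (ℕ → ℕ) → ℕ → Prop}, D (fun p w => S p.tlI w (p.v 0)) →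
    D fun p w => ∃ a, a < s p.ω ∧ S p w a
  exQ : ∀ {S : Par s B → (ℕ → ℕ) → (ℕ → ℕ) → Prop}, D (fun p w => S p.tlQ w (p.q 0)) →
    D fun p w => ∃ z, IsSeq (s p.ω) (B p.ω) z ∧ S p w z
  leI : ∀ a b : ℕ, D fun p _ => p.v a ≤ p.v b
  seq : ∀ x i a : ℕ, D fun p w => w x = p.q i (p.v a)

/-- Definable relations of indices, sequences and numbers with `e` digits. -/
abbrev SN {Ω : Type} {s B : Ω → ℕ} (D : (Par s B → (ℕ → ℕ) → Prop) → Prop) (e : ℕ)
    (Q : Par s B → (ℕ → ℕ) → Prop) : Prop := DefN (fun p : Par s B => B p.ω) D e Q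

/-- The multiplication table of the digits. -/
def HasMul {Ω : Type} {s B : Ω → ℕ} (D : (Par s B → (ℕ → ℕ) → Prop) → Prop) : Prop :=
  ∀ x y h l : ℕ, D fun p w => w x * w y = w h * B p.ω + w l

/-- The number with the digits `z 0, .., z (s - 1)`. -/
def val (B s : ℕ) (z : ℕ → ℕ) : ℕ := ∑ a ∈ Finset.range s, z a * B ^ a

/-- The relations of sequences, considered as digits to the base `B ω ^ s ω`. -/
def LiftD {Ω : Type} {s B : Ω → ℕ} (D : (Par s B → (ℕ → ℕ) → Prop) → Prop)
    (R : Ω → (ℕ → ℕ) → Prop) : Prop :=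
  D fun p _ => R p.ω fun i => val (B p.ω) (s p.ω) (p.q i)

/-- The coefficients of a product. -/
def conv (s : ℕ) (x y : ℕ → ℕ) (k : ℕ) : ℕ :=
  ∑ a ∈ Finset.range s, if a ≤ k ∧ k - a < s then x a * y (k - a) else 0

end Pool.Agent.Lib.MP_586990_lc.R
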