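import Pool.Agent.Lib.MP_586990_lc_R.RowAdd

set_option autoImplicit false

/-!
# From the set calculus to the sequence calculus
-/

namespace Pool.Agent.Lib.MP_586990_lc.R

namespace SetCal

variable {Ω : Type} {s : Ω → ℕ} {SD : (Ω → (ℕ → ℕ) → (ℕ → Set (ℕ × ℕ)) → Prop) → Prop}

private theorem setFr_mk {ω : Ω} {v v' : ℕ → ℕ} {V V' : ℕ → Set (ℕ × ℕ)}
    (hv : ∀ i, v i < s ω) (hv' : ∀ i, v' i < s ω) (e1 : v = v')
    (e2 : ∀ i, V (2 * i + 1) = V' (2 * i + 1)) :
    (mkPar ω v V hv : Par s fun ω => 2 ^ s ω) = mkPar ω v' V' hv' := by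
  subst e1
  unfold mkPar
  simp only [e2]

private theorem setFr_not (C : SetCal s SD) {R : Par s (fun ω => 2 ^ s ω) → (ℕ → ℕ) → Prop}
    (h : SetD s SD R) : SetD s SD fun p w => ¬ R p w := by
  refine C.congr (fun ω v V hv hV => ?_) (C.not h)
  constructor
  · intro h1 hv h2
    exact h1 fun _ => h2
  · intro h1 h2
    exact h1 hv (h2 hv)

private theorem setFr_and (C : SetCal s SD) {R R' : Par s (fun ω => 2 ^ s ω) → (ℕ → ℕ) → Prop}
    (h : SetD s SD R) (h' : SetD s SD R') : SetD s SD fun p w => R p w ∧ R' p w := by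
  refine C.congr (fun ω v V hv hV => ?_) (C.and h h')
  constructor
  · rintro ⟨h1, h2⟩ hv
    exact ⟨h1 hv, h2 hv⟩
  · intro h1
    exact ⟨fun hv => (h1 hv).1, fun hv => (h1 hv).2⟩

private theorem setFr_sub (C : SetCal s SD) {R : Par s (fun ω => 2 ^ s ω) → (ℕ → ℕ) → Prop}
    (f : ℕ → ℕ) (h : SetD s SD R) : SetD s SD fun p w => R p fun i => w (f i) := by
  refine C.congr (fun ω v V hv hV => ?_)
    (C.sub id (fun j => if j % 2 = 0 then 2 * f (j / 2) else j) h)
  refine forall_congr' fun hv => ?_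
  have e1 : ∀ i : ℕ, (2 * i) % 2 = 0 := fun i => by omega
  have e2 : ∀ i : ℕ, ¬ (2 * i + 1) % 2 = 0 := fun i => by omega
  have e3 : ∀ i : ℕ, 2 * i / 2 = i := fun i => by omega
  have hp : (mkPar ω (fun i => v (id i))
      (fun i => V ((fun j => if j % 2 = 0 then 2 * f (j / 2) else j) i)) hv :
      Par s fun ω => 2 ^ s ω) = mkPar ω v V hv := by
    refine setFr_mk hv hv rfl (fun i => ?_)
    simp only [if_neg (e2 i)]
  rw [hp]
  simp only [e1, e3, if_true]

private theorem setFr_ex (C : SetCal s SD)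
    {S : Par s (fun ω => 2 ^ s ω) → (ℕ → ℕ) → ℕ → Prop}
    (h : SetD s SD fun p w => S p (fun i => w (i + 1)) (w 0)) :
    SetD s SD fun p w => ∃ y, y < 2 ^ s p.ω ∧ S p w y := by
  refine C.congr (R := fun ω v V => ∃ Y, Y ⊆ sq (s ω) ∧
    ∀ hv : ∀ i, v i < s ω, S (mkPar ω v V hv) (fun i => row (s ω) (V (2 * i)) 0)
      (row (s ω) Y 0)) (fun ω v V hv hV => ?_) ?_
  · constructor
    · rintro ⟨Y, hY, h1⟩ hv
      exact ⟨row (s ω) Y 0, row_lt _ _ _, h1 hv⟩
    · intro h1
      obtain ⟨y, hy, h2⟩ := h1 hv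
      obtain ⟨Y, hY, hYy⟩ := exists_row0 (s := s ω) (by have := C.three ω; omega) hy
      refine ⟨Y, hY, fun hv => ?_⟩
      rw [hYy]
      exact h2
  · refine C.exS (S := fun ω v V Y => ∀ hv : ∀ i, v i < s ω, S (mkPar ω v V hv)
      (fun i => row (s ω) (V (2 * i)) 0) (row (s ω) Y 0)) ?_
    refine C.congr (fun ω v V hv hV => ?_)
      (C.sub id (fun j => if j = 0 then 0 else if j % 2 = 0 then j - 1 else j + 1) h)
    refine forall_congr' fun hv => ?_
    have hp : (mkPar ω (fun i => v (id i))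
        (fun i => V ((fun j => if j = 0 then 0 else if j % 2 = 0 then j - 1 else j + 1) i)) hv :
        Par s fun ω => 2 ^ s ω) = mkPar ω v (fun i => V (i + 1)) hv := by
      refine setFr_mk hv hv rfl (fun i => ?_)
      have a1 : ¬ (2 * i + 1) = 0 := by omega
      have a2 : ¬ (2 * i + 1) % 2 = 0 := by omega
      simp only [if_neg a1, if_neg a2]
    have hw : (fun i => row (s ω)
        (V ((fun j => if j = 0 then 0 else if j % 2 = 0 then j - 1 else j + 1) (2 * (i + 1)))) 0)
        = fun i => row (s ω) (V (2 * i + 1)) 0 := by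
      funext i
      have a1 : ¬ (2 * (i + 1)) = 0 := by omega
      have a2 : (2 * (i + 1)) % 2 = 0 := by omega
      have a3 : 2 * (i + 1) - 1 = 2 * i + 1 := by omega
      simp only [if_neg a1, if_pos a2, a3]
    have h0 : row (s ω)
        (V ((fun j => if j = 0 then 0 else if j % 2 = 0 then j - 1 else j + 1) (2 * 0))) 0 =
        row (s ω) (V 0) 0 := by
      simp only [mul_zero, if_true]
    change S (mkPar ω (fun i => v (id i))
        (fun i => V ((fun j => if j = 0 then 0 else if j % 2 = 0 then j - 1 else j + 1) i)) hv)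
        (fun i => row (s ω)
        (V ((fun j => if j = 0 then 0 else if j % 2 = 0 then j - 1 else j + 1) (2 * (i + 1)))) 0)
        (row (s ω)
        (V ((fun j => if j = 0 then 0 else if j % 2 = 0 then j - 1 else j + 1) (2 * 0))) 0) ↔
      S (mkPar ω v (fun i => V (i + 1)) hv) (fun i => row (s ω) (V (2 * i + 1)) 0)
        (row (s ω) (V 0) 0)
    rw [hp, hw, h0]

private theorem setFr_rowEq (C : SetCal s SD) (x y : ℕ) :
    SD fun ω _ V => row (s ω) (V x) 0 = row (s ω) (V y) 0 := by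
  refine C.congr (R := fun ω v V => ∀ b, b < s ω → ((0, b) ∈ V x ↔ (0, b) ∈ V y))
    (fun ω v V hv hV => ?_)
    (C.all (S := fun ω v V b => ((0, b) ∈ V x ↔ (0, b) ∈ V y))
      (C.iff (C.mem0 0 x) (C.mem0 0 y)))
  have h0 : 0 < s ω := by have := C.three ω; omega
  rw [row_eq_iff]
  refine forall_congr' fun b => forall_congr' fun hb => ?_
  simp only [h0, true_and]

private theorem setFr_ren (C : SetCal s SD) {R : Par s (fun ω => 2 ^ s ω) → (ℕ → ℕ) → Prop}
    (f g : ℕ → ℕ) (h : SetD s SD R) : SetD s SD fun p w => R (p.ren f g) w := by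
  refine C.congr (fun ω v V hv hV => ?_)
    (C.sub f (fun j => if j % 2 = 0 then j else 2 * g (j / 2) + 1) h)
  have e1 : ∀ i : ℕ, (2 * i) % 2 = 0 := fun i => by omega
  have e2 : ∀ i : ℕ, ¬ (2 * i + 1) % 2 = 0 := fun i => by omega
  have e3 : ∀ i : ℕ, (2 * i + 1) / 2 = i := fun i => by omega
  have hv2 : ∀ i, v (f i) < s ω := fun i => hv (f i)
  have hp : (mkPar ω (fun i => v (f i))
      (fun i => V ((fun j => if j % 2 = 0 then j else 2 * g (j / 2) + 1) i)) hv2 :
      Par s fun ω => 2 ^ s ω) = (mkPar ω v V hv : Par s fun ω => 2 ^ s ω).ren f g := by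
    refine (setFr_mk (V' := fun j => V (2 * g (j / 2) + 1)) hv2 hv2 rfl (fun i => ?_)).trans ?_
    · simp only [if_neg (e2 i)]
    · unfold mkPar Par.ren
      simp only [e3]
  have hw : (fun i => row (s ω)
      (V ((fun j => if j % 2 = 0 then j else 2 * g (j / 2) + 1) (2 * i))) 0) =
      fun i => row (s ω) (V (2 * i)) 0 := by
    funext i
    simp only [if_pos (e1 i)]
  constructor
  · intro h1 hv
    have h2 := h1 hv2
    rw [hp, hw] at h2
    exact h2
  · intro h1 hv3
    have h2 := h1 hv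
    change R (mkPar ω (fun i => v (f i))
      (fun i => V ((fun j => if j % 2 = 0 then j else 2 * g (j / 2) + 1) i)) hv2)
      (fun i => row (s ω)
      (V ((fun j => if j % 2 = 0 then j else 2 * g (j / 2) + 1) (2 * i))) 0)
    rw [hp, hw]
    exact h2

private theorem setFr_exI (C : SetCal s SD)
    {S : Par s (fun ω => 2 ^ s ω) → (ℕ → ℕ) → ℕ → Prop}
    (h : SetD s SD fun p w => S p.tlI w (p.v 0)) :
    SetD s SD fun p w => ∃ a, a < s p.ω ∧ S p w a := by
  refine C.congr (R := fun ω v V => ∃ a, a < s ω ∧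
    ∀ hv : ∀ i, v i < s ω, S (mkPar ω v V hv) (fun i => row (s ω) (V (2 * i)) 0) a)
    (fun ω v V hv hV => ?_) ?_
  · constructor
    · rintro ⟨a, ha, h1⟩ hv
      exact ⟨a, ha, h1 hv⟩
    · intro h1
      obtain ⟨a, ha, h2⟩ := h1 hv
      exact ⟨a, ha, fun _ => h2⟩
  · refine C.ex (S := fun ω v V a => ∀ hv : ∀ i, v i < s ω, S (mkPar ω v V hv)
      (fun i => row (s ω) (V (2 * i)) 0) a) ?_
    refine C.congr (fun ω v V hv hV => ?_) h
    constructor
    · intro h1 _
      exact h1 hv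
    · intro h1 _
      exact h1 fun i => hv (i + 1)

private theorem setFr_exQ (C : SetCal s SD)
    {S : Par s (fun ω => 2 ^ s ω) → (ℕ → ℕ) → (ℕ → ℕ) → Prop}
    (h : SetD s SD fun p w => S p.tlQ w (p.q 0)) :
    SetD s SD fun p w => ∃ z, IsSeq (s p.ω) (2 ^ s p.ω) z ∧ S p w z := by
  refine C.congr (R := fun ω v V => ∃ Y, Y ⊆ sq (s ω) ∧
    ∀ hv : ∀ i, v i < s ω, S (mkPar ω v V hv) (fun i => row (s ω) (V (2 * i)) 0)
      (row (s ω) Y)) (fun ω v V hv hV => ?_) ?_
  · constructor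
    · rintro ⟨Y, hY, h1⟩ hv
      exact ⟨row (s ω) Y, row_isSeq _ _, h1 hv⟩
    · intro h1
      obtain ⟨z, hz, h2⟩ := h1 hv
      obtain ⟨Y, hY, hYz⟩ := exists_row hz
      refine ⟨Y, hY, fun hv => ?_⟩
      rw [show row (s ω) Y = z from hYz]
      exact h2
  · refine C.exS (S := fun ω v V Y => ∀ hv : ∀ i, v i < s ω, S (mkPar ω v V hv)
      (fun i => row (s ω) (V (2 * i)) 0) (row (s ω) Y)) ?_
    refine C.congr (fun ω v V hv hV => ?_)
      (C.sub id (fun j => if j % 2 = 0 then j + 1 else j - 1) h)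
    refine forall_congr' fun hv => ?_
    have e1 : ∀ i : ℕ, (2 * i) % 2 = 0 := fun i => by omega
    have e2 : ∀ i : ℕ, ¬ (2 * i + 1) % 2 = 0 := fun i => by omega
    have e3 : ∀ i : ℕ, 2 * (i + 1) + 1 - 1 = 2 * i + 1 + 1 := fun i => by omega
    have hp : (mkPar ω (fun i => v (id i))
        (fun i => V ((fun j => if j % 2 = 0 then j + 1 else j - 1) i)) hv :
        Par s fun ω => 2 ^ s ω).tlQ = mkPar ω v (fun i => V (i + 1)) hv := by
      unfold Par.tlQ Par.ren mkPar
      simp only [if_neg (e2 _), e3, id]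
    have hq : (mkPar ω (fun i => v (id i))
        (fun i => V ((fun j => if j % 2 = 0 then j + 1 else j - 1) i)) hv :
        Par s fun ω => 2 ^ s ω).q 0 = row (s ω) (V 0) := by
      have a0 : ¬ (2 * 0 + 1) % 2 = 0 := by omega
      unfold mkPar
      simp only [if_neg a0, mul_zero, zero_add, Nat.sub_self]
    have hw : (fun i => row (s ω)
        (V ((fun j => if j % 2 = 0 then j + 1 else j - 1) (2 * i))) 0) =
        fun i => row (s ω) (V (2 * i + 1)) 0 := by
      funext i
      simp only [if_pos (e1 i)]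
    change S (mkPar ω (fun i => v (id i))
        (fun i => V ((fun j => if j % 2 = 0 then j + 1 else j - 1) i)) hv :
        Par s fun ω => 2 ^ s ω).tlQ (fun i => row (s ω)
        (V ((fun j => if j % 2 = 0 then j + 1 else j - 1) (2 * i))) 0)
        ((mkPar ω (fun i => v (id i))
        (fun i => V ((fun j => if j % 2 = 0 then j + 1 else j - 1) i)) hv :
        Par s fun ω => 2 ^ s ω).q 0) ↔
      S (mkPar ω v (fun i => V (i + 1)) hv) (fun i => row (s ω) (V (2 * i + 1)) 0)
        (row (s ω) (V 0))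
    rw [hp, hq, hw]

private theorem setFr_seq (C : SetCal s SD) (x i a : ℕ) :
    SetD s SD fun p w => w x = p.q i (p.v a) := by
  refine C.congr (R := fun ω v V => ∀ b, b < s ω →
    ((0, b) ∈ V (2 * x) ↔ (v a, b) ∈ V (2 * i + 1))) (fun ω v V hv hV => ?_)
    (C.all (S := fun ω v V b => ((0, b) ∈ V (2 * x) ↔ (v a, b) ∈ V (2 * i + 1)))
      (C.iff (C.mem0 0 (2 * x)) (C.mem (a + 1) 0 (2 * i + 1))))
  have h0 : 0 < s ω := by have := C.three ω; omega
  have key : row (s ω) (V (2 * x)) 0 = row (s ω) (V (2 * i + 1)) (v a) ↔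
      ∀ b, b < s ω → ((0, b) ∈ V (2 * x) ↔ (v a, b) ∈ V (2 * i + 1)) := by
    rw [row_eq_iff]
    refine forall_congr' fun b => forall_congr' fun hb => ?_
    simp only [h0, hv a, true_and]
  rw [← key]
  exact ⟨fun h _ => h, fun h => h hv⟩

private theorem setFr_base {n : ℕ} (h : 3 ≤ n) : 2 * n ≤ 2 ^ n := by
  induction n, h using Nat.le_induction with
  | base => norm_num
  | succ n hn ih =>
    rw [pow_succ]
    omega

theorem sfr (C : SetCal s SD) : SFr s (fun ω => 2 ^ s ω) (SetD s SD) where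
  two p := by
    have h1 := setFr_base (C.three p.ω)
    have h2 := C.three p.ω
    show 2 ≤ 2 ^ s p.ω
    omega
  congr {R R'} h hR := C.congr (fun ω v V hv hV =>
    forall_congr' fun hv => h _ _ fun i => row_lt _ _ _) hR
  not h := setFr_not C h
  and h h' := setFr_and C h h'
  sub f h := setFr_sub C f h
  ex h := setFr_ex C h
  eq x y := by
    refine C.congr (fun ω v V hv hV => ?_) (setFr_rowEq C (2 * x) (2 * y))
    exact ⟨fun h _ => h, fun h => h hv⟩
  add x y c z := by
    refine C.congr (fun ω v V hv hV => ?_) (C.rowAdd (2 * x) (2 * y) (2 * c) (2 * z))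
    exact ⟨fun h _ => h, fun h => h hv⟩
  three := C.three
  base ω := setFr_base (C.three ω)
  ren f g h := setFr_ren C f g h
  exI h := setFr_exI C h
  exQ h := setFr_exQ C h
  leI a b := by
    refine C.congr (fun ω v V hv hV => ?_) (C.le a b)
    exact ⟨fun h _ => h, fun h => h hv⟩
  seq x i a := setFr_seq C x i a

theorem bit (C : SetCal s SD) (x a : ℕ) :
    SetD s SD fun p w => (w x).testBit (p.v a) = true := by
  refine C.congr (fun ω v V hv hV => ?_) (C.mem0 a (2 * x))
  have h0 : 0 < s ω := by have := C.three ω; omega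
  have key : (row (s ω) (V (2 * x)) 0).testBit (v a) = true ↔ (0, v a) ∈ V (2 * x) := by
    rw [testBit_row]
    simp only [h0, hv a, true_and]
  rw [← key]
  exact ⟨fun h _ => h, fun h => h hv⟩

/-- Relations which do not depend on the digits. -/
theorem ofSD (C : SetCal s SD) {R : Ω → (ℕ → ℕ) → (ℕ → Set (ℕ × ℕ)) → Prop}
    {Q : Par s (fun ω => 2 ^ s ω) → (ℕ → ℕ) → Prop} (h : SD R)
    (hQ : ∀ ω v V (hv : ∀ i, v i < s ω), (∀ i, V i ⊆ sq (s ω)) →
      (R ω v V ↔ Q (mkPar ω v V hv) fun i => row (s ω) (V (2 * i)) 0)) : SetD s SD Q := by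
  refine C.congr (fun ω v V hv hV => ?_) h
  rw [hQ ω v V hv hV]
  exact ⟨fun h _ => h, fun h => h hv⟩

end SetCal

end Pool.Agent.Lib.MP_586990_lc.R
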