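import Pool.Agent.Lib.MP_586990_lc_R.SetFr
import Pool.Agent.Lib.MP_586990_lc_R.Idx
import Pool.Agent.Lib.MP_586990_lc_R.CodeLem

set_option autoImplicit false

/-!
# The numbers which determine the size of the lattice
-/

namespace Pool.Agent.Lib.MP_586990_lc.R

namespace World

variable {Ω : Type} {s t : Ω → ℕ} {J : Ω → Finset ℕ}
  {SD : (Ω → (ℕ → ℕ) → (ℕ → Set (ℕ × ℕ)) → Prop) → Prop}

private theorem WorldNum_single {B s k c : ℕ} {z : ℕ → ℕ} (hz : IsSeq s B z) (hk : k < s)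
    (hc : c < B) :
    val B s z = c * B ^ k ↔ z k = c ∧ ∀ a, a < s → ¬ a = k → z a = 0 := by
  constructor
  · intro h
    have h1 : IsSeq s B fun a => if a = k then c else 0 := by
      refine ⟨fun a => ?_, fun a ha => ?_⟩
      · show (if a = k then c else 0) < B
        split_ifs
        · exact hc
        · omega
      · show (if a = k then c else 0) = 0
        rw [if_neg (by omega)]
    have h2 : val B s (fun a => if a = k then c else 0) = c * B ^ k := by
      rw [val_single hk (z := fun a => if a = k then c else 0) (fun a ha => if_neg ha)]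
      simp only [if_true]
    have h3 : z = fun a => if a = k then c else 0 := val_inj hz h1 (h.trans h2.symm)
    rw [h3]
    refine ⟨if_pos rfl, fun a _ ha => if_neg ha⟩
  · rintro ⟨h1, h2⟩
    rw [val_single hk (z := z) (fun a ha => ?_), h1]
    rcases Nat.lt_or_ge a s with h3 | h3
    · exact h2 a h3 ha
    · exact hz.2 a h3

private theorem WorldNum_full {B s : ℕ} {z : ℕ → ℕ} (hz : IsSeq s B z) :
    val B s z + 1 = B ^ s ↔ ∀ a, a < s → z a + 1 = B := by
  have hB : 0 < B := by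
    have := hz.1 0
    omega
  have key : ∀ n, val B n (fun a => if a < s then B - 1 else 0) + 1 = B ^ n ∨ s < n := by
    intro n
    induction n with
    | zero =>
      left
      simp [val]
    | succ n ih =>
      rcases Nat.lt_or_ge s (n + 1) with h | h
      · exact Or.inr h
      · left
        rcases ih with ih | ih
        · unfold val at ih ⊢
          have e0 : (fun a => if a < s then B - 1 else 0) n = B - 1 := if_pos (by omega)
          rw [Finset.sum_range_succ, e0, pow_succ]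
          have e1 : B ^ n * B = (B - 1) * B ^ n + B ^ n := by
            obtain ⟨b, rfl⟩ := Nat.exists_eq_succ_of_ne_zero hB.ne'
            simp only [Nat.succ_eq_add_one, Nat.add_sub_cancel]
            ring
          omega
        · omega
  have hk : val B s (fun a => if a < s then B - 1 else 0) + 1 = B ^ s := by
    rcases key s with h | h
    · exact h
    · omega
  constructor
  · intro h
    have h1 : IsSeq s B fun a => if a < s then B - 1 else 0 := by
      refine ⟨fun a => ?_, fun a ha => ?_⟩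
      · show (if a < s then B - 1 else 0) < B
        split_ifs <;> omega
      · show (if a < s then B - 1 else 0) = 0
        rw [if_neg (by omega)]
    have h3 : z = fun a => if a < s then B - 1 else 0 := val_inj hz h1 (by omega)
    intro a ha
    rw [h3]
    show (if a < s then B - 1 else 0) + 1 = B
    rw [if_pos ha]
    omega
  · intro h
    have h3 : z = fun a => if a < s then B - 1 else 0 := by
      funext a
      rcases Nat.lt_or_ge a s with ha | ha
      · have := h a ha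
        rw [if_pos ha]
        omega
      · rw [if_neg (by omega)]
        exact hz.2 a ha
    rw [h3]
    exact hk

private theorem WorldNum_small (W : World s t J SD) (i : ℕ)
    {T : Par s (fun ω => 2 ^ s ω) → ℕ} (hT : ∀ p, T p < 2 ^ s p.ω)
    (hd : SN (SetD s SD) 1 fun p w => w 0 = T p) :
    SetD s SD fun p _ => val (2 ^ s p.ω) (s p.ω) (p.q i) = T p := by
  have F := W.toSetCal.sfr
  have G := F.toAFrame
  refine F.congr (R := fun p _ => (∃ u, u < (2 ^ s p.ω) ^ 1 ∧ (u = T p ∧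
    ∃ a, a < s p.ω ∧ (a = 0 ∧ u = p.q i a))) ∧
      ∀ a, a < s p.ω → (¬ a = 0 → p.q i a = 0)) (fun p w _ => ?_)
    (F.and (G.exN (e := 1) (S := fun p _ u => (u = T p ∧
      ∃ a, a < s p.ω ∧ (a = 0 ∧ u = p.q i a)))
      (G.andN hd (F.exIN (S := fun p w a => a = 0 ∧ w 0 = p.q i a)
        (G.andN (F.zeroI 0) (F.seqN Nat.one_pos 0 i 0)))))
      (F.allI (S := fun p _ a => (¬ a = 0 → p.q i a = 0))
        (G.imp (F.not (F.zeroI 0)) (F.seqNat i 0 0))))
  have h3 := W.three p.ω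
  have key := WorldNum_single (p.hq i) (show 0 < s p.ω by omega) (hT p)
  rw [pow_zero, mul_one] at key
  rw [key]
  constructor
  · rintro ⟨⟨u, _, h1, a, _, rfl, h2⟩, h4⟩
    exact ⟨by rw [← h2, h1], h4⟩
  · rintro ⟨h1, h4⟩
    exact ⟨⟨T p, by rw [pow_one]; exact hT p, rfl, 0, by omega, rfl, h1.symm⟩, h4⟩

private theorem WorldNum_two {n : ℕ} (h : 3 ≤ n) : 2 * n < 2 ^ n := by
  induction n, h using Nat.le_induction with
  | base => norm_num
  | succ n hn ih =>
    rw [pow_succ]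
    omega

theorem numS (W : World s t J SD) (i : ℕ) :
    SetD s SD fun p _ => val (2 ^ s p.ω) (s p.ω) (p.q i) = s p.ω :=
  WorldNum_small W i (T := fun p => s p.ω) (fun _ => Nat.lt_two_pow_self)
    (W.toSetCal.sfr.lenN Nat.one_pos 0)

private theorem WorldNum_t (W : World s t J SD) :
    SN (SetD s SD) 1 fun p w => w 0 = t p.ω := by
  have F := W.toSetCal.sfr
  have G := F.toAFrame
  have D1 : ∀ x, SetD s SD fun p _ => p.v x < t p.ω := fun x =>
    W.toSetCal.ofSD (W.tC x) (fun ω v V hv hV => Iff.rfl)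
  have D2 : ∀ x, SetD s SD fun p _ => s p.ω + p.v x < t p.ω := fun x =>
    W.toSetCal.ofSD (W.tR x) (fun ω v V hv hV => Iff.rfl)
  have E1 : SetD s SD fun p _ => ∀ b, b < s p.ω → b < t p.ω :=
    F.allI (S := fun p _ b => b < t p.ω) (D1 0)
  have E2 : SetD s SD fun p _ => ∀ b, b < s p.ω → s p.ω + b < t p.ω :=
    F.allI (S := fun p _ b => s p.ω + b < t p.ω) (D2 0)
  have E3 : SetD s SD fun p _ => ∀ b, b < s p.ω → (b < p.v 0 → b < t p.ω) :=
    F.allI (S := fun p _ b => (b < p.v 0 → b < t p.ω)) (G.imp (F.ltI 0 1) (D1 0))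
  have E4 : SetD s SD fun p _ => ∀ b, b < s p.ω → (b < p.v 0 → s p.ω + b < t p.ω) :=
    F.allI (S := fun p _ b => (b < p.v 0 → s p.ω + b < t p.ω)) (G.imp (F.ltI 0 1) (D2 0))
  have A : SN (SetD s SD) 1 fun p w => ∃ a, a < s p.ω ∧
      ((¬ a < t p.ω ∧ ∀ b, b < s p.ω → (b < a → b < t p.ω)) ∧ w 0 = a) :=
    F.exIN (S := fun p w a => (¬ a < t p.ω ∧ ∀ b, b < s p.ω → (b < a → b < t p.ω)) ∧ w 0 = a)
      (G.andN (F.and (F.not (D1 0)) E3) (F.idxN Nat.one_pos 0 0))
  have H : SN (SetD s SD) 1 fun p w => ∃ u, u < (2 ^ s p.ω) ^ 1 ∧ (u = s p.ω ∧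
      ∃ u', u' < (2 ^ s p.ω) ^ 1 ∧ (u' = p.v 0 ∧ u + u' = w 0)) :=
    G.exN (S := fun p w u => (u = s p.ω ∧
      ∃ u', u' < (2 ^ s p.ω) ^ 1 ∧ (u' = p.v 0 ∧ u + u' = w 0)))
      (G.andN (F.lenN Nat.one_pos 0) (G.exN (S := fun p w u' => (u' = p.v 0 ∧ w 0 + u' = w 1))
        (G.andN (F.idxN Nat.one_pos 0 0) (G.addN 1 1 0 2))))
  have B : SN (SetD s SD) 1 fun p w => ∃ a, a < s p.ω ∧
      (((∀ b, b < s p.ω → b < t p.ω) ∧ (¬ s p.ω + a < t p.ω ∧
        ∀ b, b < s p.ω → (b < a → s p.ω + b < t p.ω))) ∧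
        ∃ u, u < (2 ^ s p.ω) ^ 1 ∧ (u = s p.ω ∧
        ∃ u', u' < (2 ^ s p.ω) ^ 1 ∧ (u' = a ∧ u + u' = w 0))) :=
    F.exIN (S := fun p w a => (((∀ b, b < s p.ω → b < t p.ω) ∧ (¬ s p.ω + a < t p.ω ∧
        ∀ b, b < s p.ω → (b < a → s p.ω + b < t p.ω))) ∧
        ∃ u, u < (2 ^ s p.ω) ^ 1 ∧ (u = s p.ω ∧
        ∃ u', u' < (2 ^ s p.ω) ^ 1 ∧ (u' = a ∧ u + u' = w 0))))
      (G.andN (F.and E1 (F.and (F.not (D2 0)) E4)) H)
  have C : SN (SetD s SD) 1 fun p w => (∀ b, b < s p.ω → s p.ω + b < t p.ω) ∧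
      ∃ u, u < (2 ^ s p.ω) ^ 1 ∧ (u = s p.ω ∧ u + u = w 0) :=
    G.andN E2 (G.exN (S := fun p w u => (u = s p.ω ∧ u + u = w 0))
      (G.andN (F.lenN Nat.one_pos 0) (G.addN 1 0 0 1)))
  refine G.congrN (fun p w hw => ?_) (G.orN A (G.orN B C))
  have h3 := W.three p.ω
  have hb := WorldNum_two h3
  have ht := W.tle p.ω
  rw [pow_one]
  constructor
  · rintro (⟨a, ha, ⟨h1, h2⟩, h4⟩ | ⟨a, ha, ⟨h1, h2, h4⟩, u, _, h5, u', _, h6, h7⟩ |
      ⟨h1, u, _, h5, h7⟩)
    · rcases Nat.eq_zero_or_pos a with h5 | h5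
      · omega
      · have := h2 (a - 1) (by omega) (by omega)
        omega
    · have h8 := h1 (s p.ω - 1) (by omega)
      rcases Nat.eq_zero_or_pos a with h9 | h9
      · omega
      · have := h4 (a - 1) (by omega) (by omega)
        omega
    · have h8 := h1 (s p.ω - 1) (by omega)
      omega
  · intro h
    rcases Nat.lt_or_ge (t p.ω) (s p.ω) with h1 | h1
    · left
      exact ⟨t p.ω, h1, ⟨by omega, fun b _ h2 => h2⟩, h⟩
    · right
      rcases Nat.lt_or_ge (t p.ω) (2 * s p.ω) with h2 | h2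
      · left
        exact ⟨t p.ω - s p.ω, by omega, ⟨fun b hb => by omega, by omega,
          fun b _ h4 => by omega⟩, s p.ω, by omega, rfl, t p.ω - s p.ω, by omega, rfl, by omega⟩
      · right
        exact ⟨fun b hb => by omega, s p.ω, by omega, rfl, by omega⟩

theorem numT (W : World s t J SD) (i : ℕ) :
    SetD s SD fun p _ => val (2 ^ s p.ω) (s p.ω) (p.q i) = t p.ω :=
  WorldNum_small W i (T := fun p => t p.ω) (fun p => by
    have h1 := WorldNum_two (W.three p.ω)
    have h2 := W.tle p.ω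
    show t p.ω < 2 ^ s p.ω
    omega) (WorldNum_t W)

theorem numPS (W : World s t J SD) (i : ℕ) :
    SetD s SD fun p _ => val (2 ^ s p.ω) (s p.ω) (p.q i) = 2 ^ s p.ω := by
  have F := W.toSetCal.sfr
  have G := F.toAFrame
  refine F.congr (R := fun p _ => (∃ a, a < s p.ω ∧ (a = 1 ∧ p.q i a = 1)) ∧
      ∀ a, a < s p.ω → (¬ a = 1 → p.q i a = 0)) (fun p w _ => ?_)
    (F.and (F.exI (S := fun p _ a => (a = 1 ∧ p.q i a = 1))
      (F.and (F.natI 0 1) (F.seqNat i 0 1)))
      (F.allI (S := fun p _ a => (¬ a = 1 → p.q i a = 0))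
        (G.imp (F.not (F.natI 0 1)) (F.seqNat i 0 0))))
  have h3 := W.three p.ω
  have hb := WorldNum_two h3
  have key := WorldNum_single (p.hq i) (show 1 < s p.ω by omega)
    (show 1 < 2 ^ s p.ω by omega)
  rw [pow_one, one_mul] at key
  rw [key]
  constructor
  · rintro ⟨⟨a, _, rfl, h2⟩, h4⟩
    exact ⟨h2, h4⟩
  · rintro ⟨h1, h4⟩
    exact ⟨⟨1, by omega, rfl, h1⟩, h4⟩

theorem numFull (W : World s t J SD) (i : ℕ) :
    SetD s SD fun p _ => val (2 ^ s p.ω) (s p.ω) (p.q i) + 1 = 2 ^ (s p.ω * s p.ω) := by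
  have F := W.toSetCal.sfr
  have G := F.toAFrame
  refine F.congr (R := fun p _ => ∀ a, a < s p.ω → ∃ u, u < 2 ^ s p.ω ∧
      (u = p.q i a ∧ u + 1 = 2 ^ s p.ω)) (fun p w _ => ?_)
    (F.allI (S := fun p _ a => ∃ u, u < 2 ^ s p.ω ∧ (u = p.q i a ∧ u + 1 = 2 ^ s p.ω))
      (F.ex (S := fun p _ u => (u = p.q i (p.v 0) ∧ u + 1 = 2 ^ s p.ω))
        (F.and (F.seq 0 i 0) (G.top 0))))
  have key := WorldNum_full (p.hq i)
  rw [pow_mul, key]
  constructor
  · intro h a ha
    obtain ⟨u, _, h1, h2⟩ := h a ha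
    rw [← h1]
    exact h2
  · intro h a ha
    exact ⟨p.q i a, (p.hq i).1 a, rfl, h a ha⟩

end World

end Pool.Agent.Lib.MP_586990_lc.R
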